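import Pool.Agent.H79.RT.Stm

/-!
# MP_a7284e_an, project RT: basic lemmas on cubes
-/

set_option autoImplicit false

namespace Pool.Agent.H79.RT

open Finset Classical

variable {n m : ℕ}

/-! ### flips -/

theorem fl_fl (l : ℕ) (x : Q n) : fl l (fl l x) = x := by
  funext i
  unfold fl
  by_cases h : (i : ℕ) = l <;> simp [h]

theorem fl_comm (l k : ℕ) (x : Q n) : fl l (fl k x) = fl k (fl l x) := by
  funext i
  unfold fl
  by_cases h : (i : ℕ) = l
  · by_cases h' : (i : ℕ) = k
    · rw [if_pos h, if_pos h', if_pos h', if_pos h]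
    · rw [if_pos h, if_neg h', if_neg h', if_pos h]
  · by_cases h' : (i : ℕ) = k
    · rw [if_neg h, if_pos h', if_pos h', if_neg h]
    · rw [if_neg h, if_neg h', if_neg h', if_neg h]

theorem fl_of_le {l : ℕ} (h : n ≤ l) (x : Q n) : fl l x = x := by
  funext i
  unfold fl
  rw [if_neg (by omega)]

theorem Inv.mono {τ : Type*} {i j : ℕ} {F : Q n → τ} (h : Inv i F) (hij : i ≤ j) : Inv j F :=
  fun l hl x => h l (hij.trans hl) x

theorem Inv.fl_eq {τ : Type*} {i l : ℕ} {F : Q n → τ} (h : Inv i F) (hl : i ≤ l) (x : Q n) :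
    F (fl l x) = F x := h l hl x

/-- a function with `Inv i` only depends on the coordinates below `i` -/
theorem Inv.congr {τ : Type*} {i : ℕ} {F : Q n → τ} (h : Inv i F) {x y : Q n}
    (hxy : ∀ l : Fin n, (l : ℕ) < i → x l = y l) : F x = F y := by
  have key : ∀ (s : Finset (Fin n)) (x y : Q n), (∀ l ∈ s, i ≤ (l : ℕ)) →
      (∀ l, l ∉ s → x l = y l) → F x = F y := by
    intro s
    induction s using Finset.induction_on with
    | empty =>
      intro x y _ h2
      rw [show x = y from funext fun l => h2 l (notMem_empty l)]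
    | insert a s ha ih =>
      intro x y h1 h2
      by_cases hxy : x a = y a
      · refine ih x y (fun l hl => h1 l (mem_insert_of_mem hl)) fun l hl => ?_
        by_cases hla : l = a
        · rw [hla, hxy]
        · exact h2 l fun h => (mem_insert.1 h).elim hla hl
      · rw [← h (a : ℕ) (h1 a (mem_insert_self a s)) x]
        refine ih (fl a x) y (fun l hl => h1 l (mem_insert_of_mem hl)) fun l hl => ?_
        unfold fl
        by_cases hla : (l : ℕ) = (a : ℕ)
        · have hla' : l = a := Fin.ext hla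
          rw [if_pos hla, hla']
          cases hx : x a <;> cases hy : y a <;> simp_all
        · rw [if_neg hla]
          exact h2 l fun h => (mem_insert.1 h).elim (fun h' => hla (by rw [h'])) hl
  refine key (univ.filter fun l : Fin n => x l ≠ y l) x y (fun l hl => ?_) fun l hl => ?_
  · have h2 := (mem_filter.1 hl).2
    by_contra hc
    exact h2 (hxy l (not_le.1 hc))
  · by_contra hc
    exact hl (mem_filter.2 ⟨mem_univ l, hc⟩)

/-- a function with `Od i` vanishes for `i ≥ n` -/
theorem Od.zero {i : ℕ} {F : Q n → ℝ} (h : Od i F) (hi : n ≤ i) (x : Q n) : F x = 0 := by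
  have := h x
  rw [fl_of_le hi] at this
  linarith

/-- the two cases for a stopping index under a flip -/
theorem Stp.cases {a : Q n → ℕ} (h : Stp a) (l : ℕ) (x : Q n) :
    a (fl l x) = a x ∨ l < a (fl l x) ∧ l < a x := by
  have h1 : ∀ k ≤ l, (a (fl l x) ≤ k) = (a x ≤ k) := fun k hk => h k l hk x
  rcases le_or_gt (a x) l with h2 | h2
  · have h3 : a (fl l x) ≤ a x := by rw [h1 _ h2]
    have h4 : a x ≤ a (fl l x) := by rw [← h1 _ (h3.trans h2)]
    exact Or.inl (le_antisymm h3 h4)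
  · have h3 := h1 l le_rfl
    exact Or.inr ⟨not_le.1 fun h4 => absurd h2 (not_lt.2 (by rw [h3] at h4; exact h4)), h2⟩

/-! ### averages -/

theorem av_fl (l : ℕ) (F : Q n → ℝ) : av (fun x => F (fl l x)) = av F := by
  unfold av
  congr 1
  exact Equiv.sum_comp ⟨fl l, fl l, fl_fl l, fl_fl l⟩ F

theorem av_const (c : ℝ) : av (fun _ : Q n => c) = c := by
  unfold av
  rw [sum_const, card_univ, nsmul_eq_mul]
  have : Fintype.card (Q n) = 2 ^ n := by simp [Q]
  rw [this]
  push_cast
  field_simp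

theorem av_add (F G : Q n → ℝ) : av (fun x => F x + G x) = av F + av G := by
  unfold av
  rw [sum_add_distrib, add_div]

theorem av_sub (F G : Q n → ℝ) : av (fun x => F x - G x) = av F - av G := by
  unfold av
  rw [sum_sub_distrib, sub_div]

theorem av_mul_left (c : ℝ) (F : Q n → ℝ) : av (fun x => c * F x) = c * av F := by
  unfold av
  rw [← mul_sum, mul_div_assoc]

theorem av_mul_right (c : ℝ) (F : Q n → ℝ) : av (fun x => F x * c) = av F * c := by
  unfold av
  rw [← sum_mul, div_mul_eq_mul_div]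

theorem av_sum {ι : Type*} (s : Finset ι) (F : ι → Q n → ℝ) :
    av (fun x => ∑ i ∈ s, F i x) = ∑ i ∈ s, av (F i) := by
  unfold av
  rw [sum_comm, sum_div]

theorem av_mono {F G : Q n → ℝ} (h : ∀ x, F x ≤ G x) : av F ≤ av G := by
  unfold av
  exact div_le_div_of_nonneg_right (sum_le_sum fun x _ => h x) (by positivity)

theorem av_nonneg {F : Q n → ℝ} (h : ∀ x, 0 ≤ F x) : 0 ≤ av F := by
  unfold av
  exact div_nonneg (sum_nonneg fun x _ => h x) (by positivity)

theorem av_le_const {F : Q n → ℝ} {c : ℝ} (h : ∀ x, F x ≤ c) : av F ≤ c := by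
  rw [← av_const (n := n) c]
  exact av_mono h

theorem av_od {i : ℕ} {F : Q n → ℝ} (h : Od i F) : av F = 0 := by
  have h1 := av_fl i F
  have h2 : av (fun x => F (fl i x)) = -av F := by
    have : (fun x => F (fl i x)) = fun x => (-1) * F x := by
      funext x
      rw [h x]; ring
    rw [this, av_mul_left]; ring
  linarith

/-- symmetrisation -/
theorem av_symm (i : ℕ) (F : Q n → ℝ) : av F = av fun x => (F x + F (fl i x)) / 2 := by
  have h1 := av_fl i F
  have h2 : (fun x => (F x + F (fl i x)) / 2) = fun x => (1 / 2 : ℝ) * (F x + F (fl i x)) := by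
    funext x; ring
  rw [h2, av_mul_left, av_add, h1]
  ring

theorem av2_swap (F : Q n → Q m → ℝ) : av2 F = av2 fun y x => F x y := by
  unfold av2 av
  rw [← sum_div, ← sum_div, sum_comm, div_div, div_div, mul_comm]

theorem av2_mono {F G : Q n → Q m → ℝ} (h : ∀ x y, F x y ≤ G x y) : av2 F ≤ av2 G :=
  av_mono fun x => av_mono fun y => h x y

theorem av2_nonneg {F : Q n → Q m → ℝ} (h : ∀ x y, 0 ≤ F x y) : 0 ≤ av2 F :=
  av_nonneg fun x => av_nonneg fun y => h x y

theorem av2_add (F G : Q n → Q m → ℝ) : av2 (fun x y => F x y + G x y) = av2 F + av2 G := by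
  unfold av2
  rw [← av_add]
  congr 1
  funext x
  exact av_add _ _

theorem av2_mul_left (c : ℝ) (F : Q n → Q m → ℝ) : av2 (fun x y => c * F x y) = c * av2 F := by
  unfold av2
  rw [← av_mul_left]
  congr 1
  funext x
  exact av_mul_left _ _

theorem av2_sum {ι : Type*} (s : Finset ι) (F : ι → Q n → Q m → ℝ) :
    av2 (fun x y => ∑ i ∈ s, F i x y) = ∑ i ∈ s, av2 (F i) := by
  unfold av2
  rw [← av_sum]
  congr 1
  funext x
  exact av_sum _ _

theorem av2_const (c : ℝ) : av2 (fun (_ : Q n) (_ : Q m) => c) = c := by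
  unfold av2
  rw [av_const, av_const]

theorem av2_mul (F : Q n → ℝ) (G : Q m → ℝ) : av2 (fun x y => F x * G y) = av F * av G := by
  unfold av2
  have : (fun x => av fun y => F x * G y) = fun x => F x * av G := by
    funext x
    exact av_mul_left _ _
  rw [this, av_mul_right]

/-- Cauchy-Schwarz -/
theorem av2_cs (F G : Q n → Q m → ℝ) :
    (av2 fun x y => F x y * G x y) ^ 2 ≤ (av2 fun x y => F x y ^ 2) * av2 fun x y => G x y ^ 2 := by
  have key : ∀ H : Q n → Q m → ℝ, av2 H = (∑ p : Q n × Q m, H p.1 p.2) / (2 ^ m * 2 ^ n) := by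
    intro H
    unfold av2 av
    rw [← sum_div, div_div, Fintype.sum_prod_type]
  rw [key, key, key, div_pow, ← mul_div_mul_comm, sq (2 ^ m * 2 ^ n : ℝ)]
  refine div_le_div_of_nonneg_right ?_ (by positivity)
  exact sum_mul_sq_le_sq_mul_sq _ _ _

/-! ### arrays -/

theorem Arr.swap {D : ℕ → ℕ → Q n → Q m → ℝ} {α : ℕ → Q n → ℝ} {β : ℕ → Q m → ℝ}
    (h : Arr n m D α β) : Arr m n (fun i j x y => D j i y x) β α where
  odx i j y := h.ody j i y
  invx i j y := h.invy j i y
  ody i j x := h.odx j i x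
  invy i j x := h.invx j i x
  pa := h.pb
  pb := h.pa
  na := h.nb
  nb := h.na
  dom i j x y := by rw [mul_comm]; exact h.dom j i y x
  za := h.zb
  zb := h.za

theorem Bdd.swap {α : ℕ → Q n → ℝ} {β : ℕ → Q m → ℝ} (h : Bdd n m α β) : Bdd m n β α :=
  ⟨h.2, h.1⟩

theorem Sm_swap (D : ℕ → ℕ → Q n → Q m → ℝ) (R : ℕ → ℕ → Q n → Q m → Prop) (x : Q n) (y : Q m) :
    Sm (fun i j x y => D j i y x) (fun i j x y => R j i y x) y x = Sm D R x y := by
  unfold Sm
  rw [sum_comm]

theorem En_swap (α : ℕ → Q n → ℝ) (β : ℕ → Q m → ℝ) (R : ℕ → ℕ → Q n → Q m → Prop) (x : Q n)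
    (y : Q m) : En β α (fun i j x y => R j i y x) y x = En α β R x y := by
  unfold En
  rw [sum_comm]
  refine sum_congr rfl fun i _ => sum_congr rfl fun j _ => ?_
  rw [mul_comm]

theorem XS_swap (D : ℕ → ℕ → Q n → Q m → ℝ) (k : ℕ) (x : Q n) (y : Q m) :
    XS (fun i j x y => D j i y x) k y x = XS D k x y := by
  unfold XS
  rw [sum_comm]
  refine sum_congr rfl fun i _ => sum_congr rfl fun j _ => ?_
  rw [add_comm]

theorem VV_swap (α : ℕ → Q n → ℝ) (β : ℕ → Q m → ℝ) (s t : ℕ) (x : Q n) (y : Q m) :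
    VV β α s t y x = VV α β s t x y := by
  unfold VV
  rw [sum_comm]
  refine sum_congr rfl fun i _ => sum_congr rfl fun j _ => ?_
  rw [mul_comm, add_comm]

theorem XS_of_le (D : ℕ → ℕ → Q n → Q m → ℝ) {k : ℕ} (h : n + m ≤ k) (x : Q n) (y : Q m) :
    XS D k x y = XS D (n + m) x y := by
  unfold XS
  refine sum_congr rfl fun i hi => sum_congr rfl fun j hj => ?_
  rw [mem_range] at hi hj
  rw [if_pos (by omega), if_pos (by omega)]

theorem abs_XS_le_MX (D : ℕ → ℕ → Q n → Q m → ℝ) (k : ℕ) (x : Q n) (y : Q m) :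
    |XS D k x y| ≤ MX D x y := by
  unfold MX
  rcases le_or_gt (n + m) k with h | h
  · rw [XS_of_le D h]
    exact le_sup' (fun k => |XS D k x y|) (mem_range.2 (by omega))
  · exact le_sup' (fun k => |XS D k x y|) (mem_range.2 (by omega))

theorem MX_nonneg (D : ℕ → ℕ → Q n → Q m → ℝ) (x : Q n) (y : Q m) : 0 ≤ MX D x y :=
  (abs_nonneg _).trans (abs_XS_le_MX D 0 x y)

theorem MX_le {D : ℕ → ℕ → Q n → Q m → ℝ} {x : Q n} {y : Q m} {c : ℝ}
    (h : ∀ k ≤ n + m, |XS D k x y| ≤ c) : MX D x y ≤ c := by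
  unfold MX
  refine sup'_le _ _ fun k hk => h k ?_
  rw [mem_range] at hk
  omega

theorem MX_swap (D : ℕ → ℕ → Q n → Q m → ℝ) (x : Q n) (y : Q m) :
    MX (fun i j x y => D j i y x) y x = MX D x y := by
  refine le_antisymm (MX_le fun k _ => ?_) (MX_le fun k _ => ?_)
  · rw [XS_swap]
    exact abs_XS_le_MX D k x y
  · rw [← XS_swap]
    exact abs_XS_le_MX (fun i j x y => D j i y x) k y x

theorem Sm_add (D : ℕ → ℕ → Q n → Q m → ℝ) {R S T : ℕ → ℕ → Q n → Q m → Prop} {x : Q n} {y : Q m}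
    (h : ∀ i j, (R i j x y ↔ S i j x y ∨ T i j x y) ∧ ¬(S i j x y ∧ T i j x y)) :
    Sm D R x y = Sm D S x y + Sm D T x y := by
  unfold Sm
  rw [← sum_add_distrib]
  refine sum_congr rfl fun i _ => ?_
  rw [← sum_add_distrib]
  refine sum_congr rfl fun j _ => ?_
  obtain ⟨h1, h2⟩ := h i j
  by_cases hS : S i j x y
  · have hT : ¬T i j x y := fun hT => h2 ⟨hS, hT⟩
    rw [if_pos (h1.2 (Or.inl hS)), if_pos hS, if_neg hT, add_zero]
  · by_cases hT : T i j x y
    · rw [if_pos (h1.2 (Or.inr hT)), if_neg hS, if_pos hT, zero_add]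
    · rw [if_neg fun h => (h1.1 h).elim hS hT, if_neg hS, if_neg hT, add_zero]

theorem Sm_congr (D : ℕ → ℕ → Q n → Q m → ℝ) {R S : ℕ → ℕ → Q n → Q m → Prop} {x : Q n} {y : Q m}
    (h : ∀ i j, R i j x y ↔ S i j x y) : Sm D R x y = Sm D S x y := by
  unfold Sm
  exact sum_congr rfl fun i _ => sum_congr rfl fun j _ => by simp only [h i j]

theorem En_mono (α : ℕ → Q n → ℝ) (β : ℕ → Q m → ℝ) {R S : ℕ → ℕ → Q n → Q m → Prop} {x : Q n}
    {y : Q m} (h : ∀ i j, R i j x y → S i j x y) : En α β R x y ≤ En α β S x y := by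
  unfold En
  refine sum_le_sum fun i _ => sum_le_sum fun j _ => ?_
  by_cases hR : R i j x y
  · rw [if_pos hR, if_pos (h i j hR)]
  · rw [if_neg hR]
    split_ifs
    · positivity
    · exact le_rfl

theorem En_nonneg (α : ℕ → Q n → ℝ) (β : ℕ → Q m → ℝ) (R : ℕ → ℕ → Q n → Q m → Prop) (x : Q n)
    (y : Q m) : 0 ≤ En α β R x y := by
  unfold En
  refine sum_nonneg fun i _ => sum_nonneg fun j _ => ?_
  split_ifs
  · positivity
  · exact le_rfl

theorem En_le_one {α : ℕ → Q n → ℝ} {β : ℕ → Q m → ℝ} (hb : Bdd n m α β)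
    (R : ℕ → ℕ → Q n → Q m → Prop) (x : Q n) (y : Q m) : En α β R x y ≤ 1 := by
  have h1 : En α β R x y ≤ ∑ i ∈ range n, ∑ j ∈ range m, α i x ^ 2 * β j y ^ 2 := by
    unfold En
    refine sum_le_sum fun i _ => sum_le_sum fun j _ => ?_
    split_ifs
    · exact le_rfl
    · positivity
  refine h1.trans ?_
  rw [← sum_mul_sum]
  have h2 : 0 ≤ ∑ j ∈ range m, β j y ^ 2 := sum_nonneg fun j _ => sq_nonneg _
  exact mul_le_one₀ (hb.1 x) h2 (hb.2 y)

/-- the energy between two levels is the energy of a region -/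
theorem VV_eq (α : ℕ → Q n → ℝ) (β : ℕ → Q m → ℝ) (s t : ℕ) (x : Q n) (y : Q m) :
    VV α β s t x y = En α β (fun i j _ _ => s < i + j ∧ i + j ≤ t) x y := by
  unfold VV En
  refine sum_congr rfl fun i _ => sum_congr rfl fun j _ => ?_
  by_cases h : s < i + j ∧ i + j ≤ t
  · rw [if_pos h, if_pos h]
  · rw [if_neg h, if_neg h]

/-- the difference of two partial sums is the sum over a region -/
theorem XS_sub (D : ℕ → ℕ → Q n → Q m → ℝ) {s t : ℕ} (h : s ≤ t) (x : Q n) (y : Q m) :
    XS D t x y - XS D s x y = Sm D (fun i j _ _ => s < i + j ∧ i + j ≤ t) x y := by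
  unfold XS Sm
  rw [← sum_sub_distrib]
  refine sum_congr rfl fun i _ => ?_
  rw [← sum_sub_distrib]
  refine sum_congr rfl fun j _ => ?_
  by_cases h1 : i + j ≤ s
  · rw [if_pos (h1.trans h), if_pos h1, if_neg (by omega), sub_self]
  · by_cases h2 : i + j ≤ t
    · rw [if_pos h2, if_neg h1, if_pos ⟨by omega, h2⟩, sub_zero]
    · rw [if_neg h2, if_neg h1, if_neg (by omega), sub_self]

/-! ### the regions -/

/-- RT6 -/
theorem geo : SGeo := by
  intro n m a a' b b' ha ha' hb hb' haa
  refine ⟨fun hbb => ⟨⟨?_, ?_⟩, ⟨?_, ?_⟩, ⟨?_, ?_⟩⟩,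
    fun hbb => ⟨⟨?_, ?_⟩, ⟨?_, ?_⟩, ⟨?_, ?_⟩, fun c => ⟨?_, ?_⟩, fun c => ⟨?_, ?_⟩, ⟨?_, ?_⟩,
      ⟨?_, ?_⟩⟩⟩
  · intro i j y l hl x
    have h1 := ha.cases l x
    have h2 := ha'.cases l x
    have h3 := haa x
    have h4 := haa (fl l x)
    have h5 := hbb y
    refine propext ?_
    unfold RA1
    omega
  · intro i x y j₁ j₂ j₃ h1 h2 h3 h4
    unfold RA1 at *
    omega
  · intro i j x l hl y
    have h1 := hb.cases l y
    have h2 := hb'.cases l y
    have h3 := haa x
    have h4 := hbb y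
    have h5 := hbb (fl l y)
    refine propext ?_
    unfold RA2
    omega
  · intro i x y j₁ j₂ j₃ h1 h2 h3 h4
    unfold RA2 at *
    omega
  · intro i j y l hl x
    have h1 := ha.cases l x
    have h2 := ha'.cases l x
    have h3 := haa x
    have h4 := haa (fl l x)
    have h5 := hbb y
    refine propext ?_
    unfold RA3
    omega
  · intro i x y j₁ j₂ j₃ h1 h2 h3 h4
    unfold RA3 at *
    omega
  · intro i j x l hl y
    have h1 := hb.cases l y
    have h2 := hb'.cases l y
    have h3 := haa x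
    have h4 := hbb y
    have h5 := hbb (fl l y)
    refine propext ?_
    unfold RB1
    omega
  · intro i x y j₁ j₂ j₃ h1 h2 h3 h4
    unfold RB1 at *
    omega
  · intro i j y l hl x
    have h1 := ha.cases l x
    have h2 := ha'.cases l x
    have h3 := haa x
    have h4 := haa (fl l x)
    have h5 := hbb y
    refine propext ?_
    unfold RB2
    omega
  · intro i x y j₁ j₂ j₃ h1 h2 h3 h4
    unfold RB2 at *
    omega
  · intro i j x l hl y
    have h1 := hb.cases l y
    have h2 := hb'.cases l y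
    have h3 := haa x
    have h4 := hbb y
    have h5 := hbb (fl l y)
    refine propext ?_
    unfold RB3
    omega
  · intro i x y j₁ j₂ j₃ h1 h2 h3 h4
    unfold RB3 at *
    omega
  · intro i j y l hl x
    have h1 := ha.cases l x
    have h3 := haa x
    have h4 := haa (fl l x)
    have h5 := hbb y
    refine propext ?_
    unfold RB4
    omega
  · intro i x y j₁ j₂ j₃ h1 h2 h3 h4
    unfold RB4 at *
    omega
  · intro i j x l hl y
    have h1 := hb.cases l y
    have h2 := hb'.cases l y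
    have h3 := haa x
    have h4 := hbb y
    have h5 := hbb (fl l y)
    refine propext ?_
    unfold RB5
    omega
  · intro i x y j₁ j₂ j₃ h1 h2 h3 h4
    unfold RB5 at *
    omega
  · intro i j x l hl y
    have h1 := hb.cases l y
    have h2 := hb'.cases l y
    have h3 := haa x
    have h4 := hbb y
    have h5 := hbb (fl l y)
    refine propext ?_
    unfold RB6
    omega
  · intro i x y j₁ j₂ j₃ h1 h2 h3 h4
    unfold RB6 at *
    omega
  · intro i j y l hl x
    have h1 := ha.cases l x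
    have h3 := haa x
    have h4 := haa (fl l x)
    have h5 := hbb y
    refine propext ?_
    unfold RB7
    omega
  · intro i x y j₁ j₂ j₃ h1 h2 h3 h4
    unfold RB7 at *
    omega

end Pool.Agent.H79.RT
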