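import Pool.Agent.H79.RT.StmR

/-!
# MP_a7284e_an, project RT, row TR5: from the two-parameter martingale to the sharp cut-offs
-/

set_option autoImplicit false

namespace Pool.Agent.H79.RT

open MeasureTheory FourierTransform Filter Topology Finset Classical
open Pool.Agent.H73.Hyp

theorem hct_bb_add (L L' : ℕ) (f g : L2) (i j : ℕ) :
    bb L L' (f + g) i j = bb L L' f i j + bb L L' g i j := by
  unfold bb
  rw [map_add, map_add]

theorem hct_Xs_add (L L' : ℕ) (k : ℤ) (f g : L2) :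
    Xs L L' k (f + g) = Xs L L' k f + Xs L L' k g := by
  unfold Xs
  rw [← sum_add_distrib]
  refine sum_congr rfl fun i _ => ?_
  rw [← sum_add_distrib]
  exact sum_congr rfl fun j _ => hct_bb_add L L' f g i j

theorem hct_Xs_norm (L L' : ℕ) (k : ℤ) (f : L2) : ‖Xs L L' k f‖ ^ 2 ≤ ‖f‖ ^ 2 := by
  have e0 : ∀ (s : Finset ℕ) (i : ℕ), ∑ j ∈ s, bb L L' f i j =
      Dp (Uf 0) ((i : ℤ) - L) (∑ j ∈ s, Dp (Uf 1) ((j : ℤ) - L') f) := by
    intro s i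
    rw [map_sum]
    rfl
  have e1 : ‖Xs L L' k f‖ ^ 2 = ∑ i ∈ range (2 * L),
      ‖∑ j ∈ (range (2 * L')).filter (fun j : ℕ => (i : ℤ) + j ≤ k + L + L'),
        bb L L' f i j‖ ^ 2 := by
    unfold Xs
    refine norm_sum_sq_orth _ _ fun i _ j _ hij => ?_
    rw [e0, e0]
    exact Dp_orth _ (by omega) _ _
  have e2 : ∀ (s : Finset ℕ) (i : ℕ),
      ‖∑ j ∈ s, bb L L' f i j‖ ^ 2 = ∑ j ∈ s, ‖bb L L' f i j‖ ^ 2 := by
    intro s i
    refine norm_sum_sq_orth _ _ fun a _ b _ hab => ?_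
    unfold bb
    rw [Dp0_Dp1, Dp0_Dp1]
    exact Dp_orth _ (by omega) _ _
  rw [e1]
  refine le_trans (sum_le_sum fun i _ => ?_) (sum_bb_sq L L' (2 * L) (2 * L') f)
  rw [e2]
  exact sum_le_sum_of_subset_of_nonneg (filter_subset _ _) fun _ _ _ => sq_nonneg _

theorem hct_maj_nonneg {K : Finset ℤ} (hK : K.Nonempty) {X : ℤ → L2} {B : ℝ} (h : Maj K X B) :
    0 ≤ B := by
  obtain ⟨G, _, h2, h3⟩ := h
  obtain ⟨k, hk⟩ := hK
  refine le_trans (integral_nonneg_of_ae ?_) h3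
  filter_upwards [h2] with x hx
  exact (sq_nonneg _).trans (hx k hk)

/-- the assembly for a band limited function `g` close to `f` -/
theorem hct_band {M : ℕ} {f g : L2} (h : Band M g) (K : Finset ℤ) {B : ℝ}
    (hB : ∀ (L L' : ℕ) (K : Finset ℤ), Maj K (fun k => Xs L L' k f) B)
    (hfg : K.card * ‖g - f‖ ^ 2 ≤ ‖f‖ ^ 2) :
    Maj K (fun k => Hc k g) (6936 * ‖g‖ ^ 2 + 32 * B + 32 * ‖f‖ ^ 2) := by
  -- the first truncation
  obtain ⟨L, hL1, hL2⟩ : ∃ L : ℕ, (∀ k ∈ K, ∀ m ∈ Ico (-(M : ℤ)) M,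
      -(L : ℤ) ≤ k - m ∧ k - m ≤ L) ∧ K.card * ‖Ep (Uf 0) (-L) g‖ ^ 2 ≤ ‖g‖ ^ 2 := by
    have h1 : ∀ᶠ L : ℕ in atTop, ∀ k ∈ K, ∀ m ∈ Ico (-(M : ℤ)) M,
        -(L : ℤ) ≤ k - m ∧ k - m ≤ L := by
      rw [Finset.eventually_all]
      intro k _
      filter_upwards [eventually_ge_atTop (k.natAbs + M)] with L hL m hm
      rw [mem_Ico] at hm
      omega
    exact (h1.and (ev_small 0 g K.card)).exists
  obtain ⟨L', hL3, hL4⟩ : ∃ L' : ℕ, (∀ k ∈ K, (L : ℤ) + k.natAbs + 2 ≤ L') ∧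
      (4 * K.card) * ‖Ep (Uf 1) (-L') g‖ ^ 2 ≤ ‖g‖ ^ 2 := by
    have h1 : ∀ᶠ L' : ℕ in atTop, ∀ k ∈ K, (L : ℤ) + k.natAbs + 2 ≤ L' := by
      rw [Finset.eventually_all]
      intro k _
      filter_upwards [eventually_ge_atTop (L + k.natAbs + 2)] with L' hL'
      omega
    exact (h1.and (ev_small 1 g (4 * K.card))).exists
  set Y : L2 := ∑ i ∈ Ico (-(L : ℤ)) L, Dp (Uf 0) i (Ep (Uf 1) (-L') g) with hY
  have hYn : K.card * ‖Y‖ ^ 2 ≤ ‖g‖ ^ 2 := by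
    have h1 : ‖Y‖ ≤ 2 * ‖Ep (Uf 1) (-L') g‖ := by
      rw [hY, sum_Dp _ (by omega)]
      refine (norm_sub_le _ _).trans ?_
      have a1 := Ep_norm_le (Uf 0) L (Ep (Uf 1) (-L') g)
      have a2 := Ep_norm_le (Uf 0) (-L) (Ep (Uf 1) (-L') g)
      linarith
    have h2 : ‖Y‖ ^ 2 ≤ 4 * ‖Ep (Uf 1) (-L') g‖ ^ 2 := by
      have := pow_le_pow_left₀ (norm_nonneg _) h1 2
      rw [mul_pow] at this
      linarith
    have h3 : (0 : ℝ) ≤ K.card := Nat.cast_nonneg _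
    nlinarith [mul_le_mul_of_nonneg_left h2 h3]
  have m1 : Maj K (fun k => Hc k g - Fs M k g) (1154 * ‖g‖ ^ 2) := Maj.of_sum (Hc_Fs h K)
  have m2 : Maj K (fun _ : ℤ => Ep (Uf 0) (-L) g) (‖g‖ ^ 2) := Maj.of_sum (by
    rw [sum_const, nsmul_eq_mul]; exact hL2)
  have m3 : Maj K (fun k => ∑ i ∈ Ico (-(L : ℤ)) L,
      Dp (Uf 0) i (Pc 1 (k - i) g - Ep (Uf 1) (k - i + 1) g)) (576 * ‖g‖ ^ 2) :=
    Maj.of_sum (step3 L g K)
  have m4 : Maj K (fun _ : ℤ => Y) (‖g‖ ^ 2) := Maj.of_sum (by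
    rw [sum_const, nsmul_eq_mul]; exact hYn)
  have m5a : Maj K (fun k => Xs L L' k (g - f)) (‖f‖ ^ 2) := by
    refine Maj.of_sum ((sum_le_sum fun k _ => hct_Xs_norm L L' k (g - f)).trans ?_)
    rw [sum_const, nsmul_eq_mul]
    exact hfg
  have m5 : Maj K (fun k => Xs L L' k g) (2 * B + 2 * ‖f‖ ^ 2) :=
    ((hB L L' K).add m5a).congr fun k _ => by
      rw [← hct_Xs_add]
      congr 1
      abel
  have m6 := m1.add (m2.add (m3.add (m4.add m5)))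
  refine (m6.congr ?_).mono ?_
  · intro k hk
    have e1 := Fs_eq h k L (hL1 k hk)
    have e2 := Xs_eq L L' k g (hL3 k hk)
    have e3 : Y + Xs L L' k g = ∑ i ∈ Ico (-(L : ℤ)) L, Dp (Uf 0) i (Ep (Uf 1) (k - i + 1) g) := by
      rw [e2, hY, ← sum_add_distrib]
      refine sum_congr rfl fun i _ => ?_
      rw [map_sub]; abel
    have e4 : (∑ i ∈ Ico (-(L : ℤ)) L,
        Dp (Uf 0) i (Pc 1 (k - i) g - Ep (Uf 1) (k - i + 1) g)) +
        ∑ i ∈ Ico (-(L : ℤ)) L, Dp (Uf 0) i (Ep (Uf 1) (k - i + 1) g) =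
        ∑ i ∈ Ico (-(L : ℤ)) L, Dp (Uf 0) i (Pc 1 (k - i) g) := by
      rw [← sum_add_distrib]
      refine sum_congr rfl fun i _ => ?_
      rw [map_sub]; abel
    rw [e3, e4, ← e1]
    abel
  · linarith

theorem hct : SHc := by
  refine ⟨60000, by norm_num, fun f B hB K hK => ?_⟩
  have hB0 : 0 ≤ B := hct_maj_nonneg hK (hB 0 0 K)
  have h1 : ∀ᶠ M : ℕ in atTop, K.card * ‖f - (Pc 1 M f - Pc 1 (-M) f)‖ ^ 2 ≤ ‖f‖ ^ 2 := by
    rcases eq_or_ne f 0 with rfl | hf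
    · exact Filter.Eventually.of_forall fun L => by simp
    · have h1 := (((((Pc_tendsto 1 f).sub (Pc_tendsto_zero 1 f)).const_sub f).norm.pow 2).const_mul
        (K.card : ℝ))
      rw [sub_zero, sub_self, norm_zero, zero_pow two_ne_zero, mul_zero] at h1
      have h2 : 0 < ‖f‖ ^ 2 := by
        have := norm_pos_iff.2 hf
        positivity
      filter_upwards [h1.eventually_lt_const h2] with L hL
      exact hL.le
  obtain ⟨M, hM⟩ := h1.exists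
  set g := Pc 1 M f - Pc 1 (-M) f with hg
  have hb : Band M g := by
    constructor
    · rw [hg, map_sub, Pc_idem, Pc_of_ge 1 (show -(M : ℤ) ≤ M by omega)]
    · rw [hg, map_sub, Pc_idem, Pc_of_le 1 (show -(M : ℤ) ≤ M by omega), sub_self]
  have hgn : ‖g‖ ^ 2 ≤ 4 * ‖f‖ ^ 2 := by
    have a1 := Pc_norm_le 1 M f
    have a2 := Pc_norm_le 1 (-M) f
    have a3 : ‖g‖ ≤ 2 * ‖f‖ := (norm_sub_le _ _).trans (by linarith)
    have := pow_le_pow_left₀ (norm_nonneg _) a3 2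
    rw [mul_pow] at this
    linarith
  have m1 := hct_band hb K hB (by rw [norm_sub_rev]; exact hM)
  have m2 : Maj K (fun k => Hc k (f - g)) (‖f‖ ^ 2) := by
    refine Maj.of_sum ?_
    refine (sum_le_sum fun k _ => pow_le_pow_left₀ (norm_nonneg _)
      (Pi_norm_le (hyp_meas k) (f - g)) 2).trans ?_
    rw [sum_const, nsmul_eq_mul]
    exact hM
  refine ((m1.add m2).congr ?_).mono ?_
  · intro k _
    rw [← map_add]
    congr 1
    abel
  · have h3 : (0 : ℝ) ≤ ‖f‖ ^ 2 := sq_nonneg _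
    linarith

end Pool.Agent.H79.RT
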