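import Pool.Agent.H79.RT.Basic

/-!
# MP_a7284e_an, project RT, row RT1: moments of dyadic martingales with the maximal function
-/

set_option autoImplicit false

namespace Pool.Agent.H79.RT

open Finset Classical

/-! ### scalar inequalities -/

theorem bdg_mean (k : ℕ) {p q : ℝ} (hp : 0 ≤ p) (hq : 0 ≤ q) :
    2 * ((p + q) / 2) ^ k ≤ p ^ k + q ^ k := by
  have h := (convexOn_pow (𝕜 := ℝ) k).2 hp hq (by norm_num : (0 : ℝ) ≤ 1 / 2)
    (by norm_num : (0 : ℝ) ≤ 1 / 2) (by norm_num)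
  simp only [smul_eq_mul] at h
  have e : (1 / 2 * p + 1 / 2 * q : ℝ) = (p + q) / 2 := by ring
  rw [e] at h
  linarith

theorem bdg_abs_mean (k : ℕ) (a h : ℝ) : 2 * |a| ^ k ≤ |a + h| ^ k + |a - h| ^ k := by
  have h1 : |a| ≤ (|a + h| + |a - h|) / 2 := by
    have := abs_add_le (a + h) (a - h)
    have e : a + h + (a - h) = 2 * a := by ring
    rw [e, abs_mul, abs_two] at this
    linarith
  have h2 := pow_le_pow_left₀ (abs_nonneg a) h1 k
  have h3 := bdg_mean k (abs_nonneg (a + h)) (abs_nonneg (a - h))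
  linarith

/-- the second difference of the power, and the first difference -/
theorem bdg_a (k : ℕ) : ∃ c : ℝ, 0 ≤ c ∧ ∀ m h : ℝ,
    ((m + h) ^ 2) ^ (k + 1) + ((m - h) ^ 2) ^ (k + 1) - 2 * (m ^ 2) ^ (k + 1) ≤
      c * (h ^ 2 * (m ^ 2 + h ^ 2) ^ k) ∧
    |((m + h) ^ 2) ^ (k + 1) - ((m - h) ^ 2) ^ (k + 1)| ≤
      c * (|m| * |h| * (m ^ 2 + h ^ 2) ^ k) := by
  induction k with
  | zero =>
    refine ⟨4, by norm_num, fun m h => ⟨?_, ?_⟩⟩
    · simp only [zero_add, pow_one, pow_zero, mul_one]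
      nlinarith [sq_nonneg h]
    · simp only [zero_add, pow_one, pow_zero, mul_one]
      have e : (m + h) ^ 2 - (m - h) ^ 2 = 4 * (m * h) := by ring
      rw [e, abs_mul, abs_mul]
      simp
  | succ k ih =>
    obtain ⟨c, hc, ih⟩ := ih
    refine ⟨3 * c + 2 ^ (k + 3), by positivity, fun m h => ?_⟩
    obtain ⟨h1, h2⟩ := ih m h
    set A := (m + h) ^ 2 with hA
    set B := (m - h) ^ 2 with hB
    set u := m ^ 2 + h ^ 2 with hu
    have hA0 : 0 ≤ A := sq_nonneg _
    have hB0 : 0 ≤ B := sq_nonneg _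
    have hu0 : 0 ≤ u := by positivity
    have hAu : A ≤ 2 * u := by rw [hA, hu]; nlinarith [sq_nonneg (m - h)]
    have hBu : B ≤ 2 * u := by rw [hB, hu]; nlinarith [sq_nonneg (m + h)]
    have hAk : A ^ (k + 1) ≤ 2 ^ (k + 1) * u ^ (k + 1) := by
      rw [← mul_pow]; exact pow_le_pow_left₀ hA0 hAu _
    have hBk : B ^ (k + 1) ≤ 2 ^ (k + 1) * u ^ (k + 1) := by
      rw [← mul_pow]; exact pow_le_pow_left₀ hB0 hBu _
    have hmu : m ^ 2 ≤ u := by rw [hu]; nlinarith [sq_nonneg h]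
    have huk : 0 ≤ u ^ k := pow_nonneg hu0 k
    have huk1 : u ^ (k + 1) = u * u ^ k := by ring
    have habs : m * h * (A ^ (k + 1) - B ^ (k + 1)) ≤ c * (h ^ 2 * u ^ (k + 1)) := by
      calc m * h * (A ^ (k + 1) - B ^ (k + 1)) ≤ |m * h * (A ^ (k + 1) - B ^ (k + 1))| :=
            le_abs_self _
        _ = |m| * |h| * |A ^ (k + 1) - B ^ (k + 1)| := by rw [abs_mul, abs_mul]
        _ ≤ |m| * |h| * (c * (|m| * |h| * u ^ k)) := by
            exact mul_le_mul_of_nonneg_left h2 (by positivity)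
        _ = c * (|m| ^ 2 * |h| ^ 2 * u ^ k) := by ring
        _ = c * (m ^ 2 * (h ^ 2 * u ^ k)) := by rw [sq_abs, sq_abs]; ring
        _ ≤ c * (u * (h ^ 2 * u ^ k)) := by
            refine mul_le_mul_of_nonneg_left ?_ hc
            exact mul_le_mul_of_nonneg_right hmu (by positivity)
        _ = c * (h ^ 2 * u ^ (k + 1)) := by ring
    constructor
    · have e : A ^ (k + 1 + 1) + B ^ (k + 1 + 1) - 2 * (m ^ 2) ^ (k + 1 + 1) =
          m ^ 2 * (A ^ (k + 1) + B ^ (k + 1) - 2 * (m ^ 2) ^ (k + 1)) +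
            h ^ 2 * (A ^ (k + 1) + B ^ (k + 1)) +
            2 * (m * h * (A ^ (k + 1) - B ^ (k + 1))) := by
        have eA : A = m ^ 2 + h ^ 2 + 2 * (m * h) := by rw [hA]; ring
        have eB : B = m ^ 2 + h ^ 2 - 2 * (m * h) := by rw [hB]; ring
        calc A ^ (k + 1 + 1) + B ^ (k + 1 + 1) - 2 * (m ^ 2) ^ (k + 1 + 1) =
            A ^ (k + 1) * A + B ^ (k + 1) * B - 2 * (m ^ 2) ^ (k + 1) * m ^ 2 := by ring
          _ = A ^ (k + 1) * (m ^ 2 + h ^ 2 + 2 * (m * h)) +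
              B ^ (k + 1) * (m ^ 2 + h ^ 2 - 2 * (m * h)) - 2 * (m ^ 2) ^ (k + 1) * m ^ 2 := by
            rw [← eA, ← eB]
          _ = _ := by ring
      rw [e]
      have t1 : m ^ 2 * (A ^ (k + 1) + B ^ (k + 1) - 2 * (m ^ 2) ^ (k + 1)) ≤
          c * (h ^ 2 * u ^ (k + 1)) := by
        calc _ ≤ m ^ 2 * (c * (h ^ 2 * u ^ k)) :=
              mul_le_mul_of_nonneg_left h1 (sq_nonneg m)
          _ ≤ u * (c * (h ^ 2 * u ^ k)) := mul_le_mul_of_nonneg_right hmu (by positivity)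
          _ = c * (h ^ 2 * u ^ (k + 1)) := by ring
      have t2 : h ^ 2 * (A ^ (k + 1) + B ^ (k + 1)) ≤ 2 ^ (k + 2) * (h ^ 2 * u ^ (k + 1)) := by
        calc _ ≤ h ^ 2 * (2 ^ (k + 1) * u ^ (k + 1) + 2 ^ (k + 1) * u ^ (k + 1)) :=
              mul_le_mul_of_nonneg_left (add_le_add hAk hBk) (sq_nonneg h)
          _ = 2 ^ (k + 2) * (h ^ 2 * u ^ (k + 1)) := by ring
      have t3 : (2 : ℝ) ^ (k + 2) * (h ^ 2 * u ^ (k + 1)) ≤
          2 ^ (k + 3) * (h ^ 2 * u ^ (k + 1)) := by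
        refine mul_le_mul_of_nonneg_right ?_ (by positivity)
        exact pow_le_pow_right₀ (by norm_num) (by omega)
      linarith
    · have e : A ^ (k + 1 + 1) - B ^ (k + 1 + 1) =
          A * (A ^ (k + 1) - B ^ (k + 1)) + 4 * (m * h) * B ^ (k + 1) := by
        have eAB : A = B + 4 * (m * h) := by rw [hA, hB]; ring
        calc A ^ (k + 1 + 1) - B ^ (k + 1 + 1) = A * A ^ (k + 1) - B * B ^ (k + 1) := by ring
          _ = A * (A ^ (k + 1) - B ^ (k + 1)) + (A - B) * B ^ (k + 1) := by ring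
          _ = _ := by
            have : A - B = 4 * (m * h) := by rw [eAB]; ring
            rw [this]
      rw [e]
      calc |A * (A ^ (k + 1) - B ^ (k + 1)) + 4 * (m * h) * B ^ (k + 1)| ≤
          |A * (A ^ (k + 1) - B ^ (k + 1))| + |4 * (m * h) * B ^ (k + 1)| := abs_add_le _ _
        _ = A * |A ^ (k + 1) - B ^ (k + 1)| + 4 * (|m| * |h|) * B ^ (k + 1) := by
            rw [abs_mul, abs_of_nonneg hA0, abs_mul, abs_mul, abs_mul,
              abs_of_nonneg (pow_nonneg hB0 _)]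
            norm_num
        _ ≤ 2 * u * (c * (|m| * |h| * u ^ k)) + 4 * (|m| * |h|) * (2 ^ (k + 1) * u ^ (k + 1)) := by
            refine add_le_add (mul_le_mul hAu h2 (abs_nonneg _) (by positivity)) ?_
            exact mul_le_mul_of_nonneg_left hBk (by positivity)
        _ = (2 * c + 2 ^ (k + 3)) * (|m| * |h| * u ^ (k + 1)) := by ring
        _ ≤ (3 * c + 2 ^ (k + 3)) * (|m| * |h| * u ^ (k + 1)) := by
            refine mul_le_mul_of_nonneg_right ?_ (by positivity)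
            linarith

/-- the potential -/
noncomputable def bdgF (c : ℝ) (k : ℕ) (m s : ℝ) : ℝ :=
  (m ^ 2) ^ (k + 1) - c * (s * (m ^ 2 + s) ^ k)

theorem bdg_step (k : ℕ) {c : ℝ} (hc : 0 ≤ c) (hca : ∀ m h : ℝ,
    ((m + h) ^ 2) ^ (k + 1) + ((m - h) ^ 2) ^ (k + 1) - 2 * (m ^ 2) ^ (k + 1) ≤
      c * (h ^ 2 * (m ^ 2 + h ^ 2) ^ k)) (m h s : ℝ) (hs : 0 ≤ s) :
    bdgF c k (m + h) (s + h ^ 2) + bdgF c k (m - h) (s + h ^ 2) ≤ 2 * bdgF c k m s := by
  unfold bdgF
  have h1 := hca m h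
  have hh : 0 ≤ h ^ 2 := sq_nonneg h
  have hm : 0 ≤ m ^ 2 := sq_nonneg m
  have h2 := bdg_mean k (p := (m + h) ^ 2 + (s + h ^ 2)) (q := (m - h) ^ 2 + (s + h ^ 2))
    (by positivity) (by positivity)
  have e2 : ((m + h) ^ 2 + (s + h ^ 2) + ((m - h) ^ 2 + (s + h ^ 2))) / 2 =
      m ^ 2 + h ^ 2 + s + h ^ 2 := by ring
  rw [e2] at h2
  have h3 : (m ^ 2 + s) ^ k ≤ (m ^ 2 + h ^ 2 + s + h ^ 2) ^ k :=
    pow_le_pow_left₀ (by positivity) (by linarith) k
  have h4 : (m ^ 2 + h ^ 2) ^ k ≤ (m ^ 2 + h ^ 2 + s + h ^ 2) ^ k :=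
    pow_le_pow_left₀ (by positivity) (by linarith) k
  have h5 := mul_le_mul_of_nonneg_left h3 hs
  have h6 := mul_le_mul_of_nonneg_left h4 hh
  have h7 : 2 * (s * (m ^ 2 + s) ^ k) + 2 * (h ^ 2 * (m ^ 2 + h ^ 2) ^ k) ≤
      (s + h ^ 2) * (((m + h) ^ 2 + (s + h ^ 2)) ^ k + ((m - h) ^ 2 + (s + h ^ 2)) ^ k) := by
    have := mul_le_mul_of_nonneg_left h2 (add_nonneg hs hh)
    nlinarith
  have h8 := mul_le_mul_of_nonneg_left h7 hc
  have h9 : 0 ≤ c * (h ^ 2 * (m ^ 2 + h ^ 2) ^ k) := by positivity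
  nlinarith

/-- absorbing -/
theorem bdg_absorb (k : ℕ) {c : ℝ} (hc : 0 ≤ c) : ∃ C : ℝ, 0 ≤ C ∧ ∀ q s : ℝ, 0 ≤ q → 0 ≤ s →
    c * (s * (q + s) ^ k) ≤ 1 / 2 * q ^ (k + 1) + C * s ^ (k + 1) := by
  set D : ℝ := (c + 1) * 2 ^ (k + 1) with hD
  have hD1 : 1 ≤ D := by
    rw [hD]
    have : (1 : ℝ) ≤ 2 ^ (k + 1) := one_le_pow₀ (by norm_num)
    nlinarith
  refine ⟨c * (D + 1) ^ k, by positivity, fun q s hq hs => ?_⟩
  rcases le_or_gt (D * s) q with h | h
  · have h1 : s ≤ q := le_trans (by nlinarith) h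
    have h2 : (q + s) ^ k ≤ (2 * q) ^ k := pow_le_pow_left₀ (by positivity) (by linarith) k
    have h3 : c * (s * (q + s) ^ k) ≤ c * (s * (2 * q) ^ k) :=
      mul_le_mul_of_nonneg_left (mul_le_mul_of_nonneg_left h2 hs) hc
    have h4 : c * (s * (2 * q) ^ k) ≤ 1 / 2 * q ^ (k + 1) := by
      have h5 : c * s * 2 ^ (k + 1) ≤ q := by
        refine le_trans ?_ h
        rw [hD]
        have : 0 ≤ s * 2 ^ (k + 1) := by positivity
        nlinarith
      have h6 : 0 ≤ q ^ k := pow_nonneg hq k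
      have h7 := mul_le_mul_of_nonneg_right h5 h6
      have e1 : c * (s * (2 * q) ^ k) = 1 / 2 * (c * s * 2 ^ (k + 1) * q ^ k) := by
        rw [mul_pow]; ring
      have e2 : q ^ (k + 1) = q * q ^ k := by ring
      rw [e1, e2]
      linarith
    have h8 : 0 ≤ c * (D + 1) ^ k * s ^ (k + 1) := by positivity
    linarith
  · have h1 : q + s ≤ (D + 1) * s := by linarith
    have h2 : (q + s) ^ k ≤ ((D + 1) * s) ^ k := pow_le_pow_left₀ (by positivity) h1 k
    have h3 : c * (s * (q + s) ^ k) ≤ c * (s * ((D + 1) * s) ^ k) :=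
      mul_le_mul_of_nonneg_left (mul_le_mul_of_nonneg_left h2 hs) hc
    have e1 : c * (s * ((D + 1) * s) ^ k) = c * (D + 1) ^ k * s ^ (k + 1) := by
      rw [mul_pow]; ring
    have h4 : 0 ≤ 1 / 2 * q ^ (k + 1) := by positivity
    linarith

/-! ### partial sums -/

variable {n : ℕ}

/-- partial sums -/
noncomputable def bdgM (d : ℕ → Q n → ℝ) (N : ℕ) (x : Q n) : ℝ := ∑ i ∈ range N, d i x

/-- partial square sums -/
noncomputable def bdgS (d : ℕ → Q n → ℝ) (N : ℕ) (x : Q n) : ℝ := ∑ i ∈ range N, d i x ^ 2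

/-- maximal function -/
noncomputable def bdgX (d : ℕ → Q n → ℝ) : ℕ → Q n → ℝ
  | 0, _ => 0
  | N + 1, x => max (bdgX d N x) |bdgM d (N + 1) x|

theorem bdgS_nonneg (d : ℕ → Q n → ℝ) (N : ℕ) (x : Q n) : 0 ≤ bdgS d N x :=
  sum_nonneg fun _ _ => sq_nonneg _

theorem bdgX_nonneg (d : ℕ → Q n → ℝ) (N : ℕ) (x : Q n) : 0 ≤ bdgX d N x := by
  induction N with
  | zero => exact le_rfl
  | succ N ih => exact le_trans ih (le_max_left _ _)

theorem bdgX_mono (d : ℕ → Q n → ℝ) {M N : ℕ} (h : M ≤ N) (x : Q n) :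
    bdgX d M x ≤ bdgX d N x := by
  induction N with
  | zero =>
    obtain rfl : M = 0 := by omega
    exact le_rfl
  | succ N ih =>
    rcases Nat.lt_or_ge M (N + 1) with h1 | h1
    · exact le_trans (ih (by omega)) (le_max_left _ _)
    · obtain rfl : M = N + 1 := by omega
      exact le_rfl

theorem bdg_abs_le (d : ℕ → Q n → ℝ) {M N : ℕ} (h : M ≤ N) (x : Q n) :
    |bdgM d M x| ≤ bdgX d N x := by
  refine le_trans ?_ (bdgX_mono d h x)
  cases M with
  | zero => simp [bdgM, bdgX]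
  | succ M => exact le_max_right _ _

section flips

variable {d : ℕ → Q n → ℝ} (hO : ∀ i, Od i (d i)) (hI : ∀ i, Inv (i + 1) (d i))

include hI in
theorem bdgM_fl {N l : ℕ} (h : N ≤ l) (x : Q n) : bdgM d N (fl l x) = bdgM d N x := by
  unfold bdgM
  refine sum_congr rfl fun i hi => ?_
  rw [mem_range] at hi
  exact hI i l (by omega) x

include hI in
theorem bdgS_fl {N l : ℕ} (h : N ≤ l) (x : Q n) : bdgS d N (fl l x) = bdgS d N x := by
  unfold bdgS
  refine sum_congr rfl fun i hi => ?_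
  rw [mem_range] at hi
  rw [hI i l (by omega) x]

include hI in
theorem bdgX_fl {N l : ℕ} (h : N ≤ l) (x : Q n) : bdgX d N (fl l x) = bdgX d N x := by
  induction N with
  | zero => rfl
  | succ N ih =>
    simp only [bdgX]
    rw [ih (by omega), bdgM_fl hI h x]

include hO hI in
theorem bdgM_succ_fl (N : ℕ) (x : Q n) : bdgM d (N + 1) (fl N x) = bdgM d N x - d N x := by
  have : bdgM d (N + 1) (fl N x) = bdgM d N (fl N x) + d N (fl N x) := by
    unfold bdgM
    rw [sum_range_succ]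
  rw [this, bdgM_fl hI le_rfl, hO N x]
  ring

include hO hI in
theorem bdgS_succ_fl (N : ℕ) (x : Q n) : bdgS d (N + 1) (fl N x) = bdgS d N x + d N x ^ 2 := by
  have : bdgS d (N + 1) (fl N x) = bdgS d N (fl N x) + d N (fl N x) ^ 2 := by
    unfold bdgS
    rw [sum_range_succ]
  rw [this, bdgS_fl hI le_rfl, hO N x]
  ring

theorem bdgM_succ (N : ℕ) (x : Q n) : bdgM d (N + 1) x = bdgM d N x + d N x := by
  unfold bdgM
  rw [sum_range_succ]

theorem bdgS_succ (N : ℕ) (x : Q n) : bdgS d (N + 1) x = bdgS d N x + d N x ^ 2 := by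
  unfold bdgS
  rw [sum_range_succ]

include hO hI in
/-- the potential decreases -/
theorem bdg_potential (k : ℕ) {c : ℝ} (hc : 0 ≤ c) (hca : ∀ m h : ℝ,
    ((m + h) ^ 2) ^ (k + 1) + ((m - h) ^ 2) ^ (k + 1) - 2 * (m ^ 2) ^ (k + 1) ≤
      c * (h ^ 2 * (m ^ 2 + h ^ 2) ^ k)) (N : ℕ) :
    av (fun x => bdgF c k (bdgM d N x) (bdgS d N x)) ≤ 0 := by
  induction N with
  | zero =>
    refine av_le_const fun x => ?_
    simp [bdgF, bdgM, bdgS]
  | succ N ih =>
    refine le_trans ?_ ih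
    rw [av_symm N]
    refine av_mono fun x => ?_
    rw [bdgM_succ_fl hO hI, bdgS_succ_fl hO hI, bdgM_succ, bdgS_succ]
    have := bdg_step k hc hca (bdgM d N x) (d N x) (bdgS d N x) (bdgS_nonneg d N x)
    linarith

include hO hI in
/-- the maximal inequality -/
theorem bdg_doob (r : ℕ) (hr : 1 ≤ r) (N : ℕ) :
    av (fun x => (bdgX d N x ^ r) ^ 2) ≤ 4 * av fun x => (|bdgM d N x| ^ r) ^ 2 := by
  have key : ∀ N, av (fun x => (bdgX d N x ^ r) ^ 2) ≤
      2 * av fun x => bdgX d N x ^ r * |bdgM d N x| ^ r := by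
    intro N
    induction N with
    | zero =>
      have e1 : (fun x : Q n => (bdgX d 0 x ^ r) ^ 2) = fun _ => 0 := by
        funext x
        simp only [bdgX]
        rw [zero_pow (by omega)]
        ring
      have e2 : (fun x : Q n => bdgX d 0 x ^ r * |bdgM d 0 x| ^ r) = fun _ => 0 := by
        funext x
        simp only [bdgX]
        rw [zero_pow (by omega)]
        ring
      rw [e1, e2, av_const]
      simp
    | succ N ih =>
      have h1 : av (fun x => bdgX d N x ^ r * |bdgM d N x| ^ r) ≤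
          av fun x => bdgX d N x ^ r * |bdgM d (N + 1) x| ^ r := by
        rw [av_symm N fun x => bdgX d N x ^ r * |bdgM d (N + 1) x| ^ r]
        refine av_mono fun x => ?_
        rw [bdgX_fl hI le_rfl, bdgM_succ_fl hO hI, bdgM_succ]
        have h2 := bdg_abs_mean r (bdgM d N x) (d N x)
        have h3 := mul_le_mul_of_nonneg_left h2 (pow_nonneg (bdgX_nonneg d N x) r)
        linarith
      have h2 : av (fun x => (bdgX d (N + 1) x ^ r) ^ 2) +
          2 * av (fun x => bdgX d N x ^ r * |bdgM d (N + 1) x| ^ r) ≤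
          av (fun x => (bdgX d N x ^ r) ^ 2) +
            2 * av (fun x => bdgX d (N + 1) x ^ r * |bdgM d (N + 1) x| ^ r) := by
        rw [← av_mul_left, ← av_mul_left, ← av_add, ← av_add]
        refine av_mono fun x => ?_
        have hX : bdgX d (N + 1) x = max (bdgX d N x) |bdgM d (N + 1) x| := rfl
        rcases le_total (bdgX d N x) |bdgM d (N + 1) x| with h | h
        · rw [hX, max_eq_right h]
          nlinarith [sq_nonneg (|bdgM d (N + 1) x| ^ r - bdgX d N x ^ r)]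
        · rw [hX, max_eq_left h]
      linarith
  have h1 := key N
  have h2 : 2 * av (fun x => bdgX d N x ^ r * |bdgM d N x| ^ r) ≤
      1 / 2 * av (fun x => (bdgX d N x ^ r) ^ 2) + 2 * av (fun x => (|bdgM d N x| ^ r) ^ 2) := by
    rw [← av_mul_left, ← av_mul_left, ← av_mul_left, ← av_add]
    refine av_mono fun x => ?_
    nlinarith [sq_nonneg (bdgX d N x ^ r - 2 * |bdgM d N x| ^ r)]
  linarith

end flips

/-- RT1: the moment inequality with the maximal function -/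
theorem bdg : SBdg := by
  intro r hr
  obtain ⟨k, rfl⟩ : ∃ k, r = k + 1 := ⟨r - 1, by omega⟩
  obtain ⟨c, hc, hca⟩ := bdg_a k
  obtain ⟨C, hC, hab⟩ := bdg_absorb k hc
  refine ⟨8 * C, by positivity, fun n d hO hI => ⟨bdgX d n, bdgX_nonneg d n, ?_, ?_⟩⟩
  · intro x N
    rcases le_total N n with h | h
    · exact bdg_abs_le d h x
    · have e : ∑ i ∈ range N, d i x = bdgM d n x := by
        unfold bdgM
        symm
        refine sum_subset (fun i hi => ?_) fun i _ hi => ?_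
        · rw [mem_range] at *
          omega
        · rw [mem_range] at hi
          exact (hO i).zero (by omega) x
      rw [e]
      exact bdg_abs_le d le_rfl x
  · have h1 := bdg_doob hO hI (k + 1) (by omega) n
    have h2 := bdg_potential hO hI k hc (fun m h => (hca m h).1) n
    have e1 : (fun x => bdgX d n x ^ (2 * (k + 1))) = fun x => (bdgX d n x ^ (k + 1)) ^ 2 := by
      funext x
      rw [← pow_mul, mul_comm]
    have e2 : (fun x => (|bdgM d n x| ^ (k + 1)) ^ 2) = fun x => (bdgM d n x ^ 2) ^ (k + 1) := by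
      funext x
      rw [← pow_mul, mul_comm, pow_mul, sq_abs]
    have h3 : av (fun x => (bdgM d n x ^ 2) ^ (k + 1)) ≤
        1 / 2 * av (fun x => (bdgM d n x ^ 2) ^ (k + 1)) +
          C * av (fun x => bdgS d n x ^ (k + 1)) := by
      have h4 : av (fun x => (bdgM d n x ^ 2) ^ (k + 1)) ≤
          av fun x => c * (bdgS d n x * (bdgM d n x ^ 2 + bdgS d n x) ^ k) := by
        have h5 : av (fun x => bdgF c k (bdgM d n x) (bdgS d n x)) =
            av (fun x => (bdgM d n x ^ 2) ^ (k + 1)) -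
              av fun x => c * (bdgS d n x * (bdgM d n x ^ 2 + bdgS d n x) ^ k) := by
          rw [← av_sub]
          rfl
        linarith
      refine h4.trans ?_
      rw [← av_mul_left, ← av_mul_left, ← av_add]
      exact av_mono fun x => hab _ _ (sq_nonneg _) (bdgS_nonneg d n x)
    rw [e1]
    rw [e2] at h1
    have e3 : (fun x => (∑ i ∈ range n, d i x ^ 2) ^ (k + 1)) = fun x => bdgS d n x ^ (k + 1) := rfl
    rw [e3]
    linarith

end Pool.Agent.H79.RT
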