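import Pool.Agent.H79.RT.Cf

/-!
# MP_a7284e_an, project RT: Bessel's inequality for the Haar functions of the line
-/

set_option autoImplicit false

namespace Pool.Agent.H79.RT

open MeasureTheory Filter Topology Finset
open Pool.Agent.H73.Hyp

/-- the flip of a digit on the line -/
noncomputable def bs_fl (l : ℤ) (t : ℝ) : ℝ := t + sg l t

theorem bs_mp (l : ℤ) : MeasurePreserving (bs_fl l) (volume : Measure ℝ) volume := by
  have hm : Measurable (bs_fl l) := measurable_id.add (measurable_sg l)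
  refine ⟨hm, ?_⟩
  ext A hA
  rw [Measure.map_apply hm hA]
  set S : Set ℝ := {x | Even (dg l x)} with hS
  have hSm : MeasurableSet S := measurableSet_even l
  have hs1 : ∀ x : ℝ, x + dl l ∈ S ↔ x ∉ S := by
    intro x
    simp only [hS, Set.mem_ofPred_eq]
    have := dg_add l x 1
    rw [Int.cast_one, one_mul] at this
    rw [this, Int.even_add]
    simp
  have hs2 : ∀ x : ℝ, x + -dl l ∈ S ↔ x ∉ S := by
    intro x
    have := hs1 (x + -dl l)
    rw [neg_add_cancel_right] at this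
    tauto
  have e1 : bs_fl l ⁻¹' A ∩ S = (fun x => x + dl l) ⁻¹' (A \ S) := by
    ext x
    simp only [Set.mem_inter_iff, Set.mem_preimage, Set.mem_sdiff, hs1, not_not]
    refine and_congr_left fun hx => ?_
    have : bs_fl l x = x + dl l := by
      unfold bs_fl
      rw [sg_even hx]
    rw [this]
  have e2 : bs_fl l ⁻¹' A \ S = (fun x => x + -dl l) ⁻¹' (A ∩ S) := by
    ext x
    simp only [Set.mem_inter_iff, Set.mem_preimage, Set.mem_sdiff, hs2]
    refine and_congr_left fun hx => ?_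
    have : bs_fl l x = x + -dl l := by
      unfold bs_fl
      rw [sg_odd hx]
    rw [this]
  rw [← measure_inter_add_sdiff (bs_fl l ⁻¹' A) hSm, e1, e2, measure_preimage_add_right,
    measure_preimage_add_right, add_comm, measure_inter_add_sdiff A hSm]

theorem bs_self (p : ℤ × ℤ) (t : ℝ) : haar p (bs_fl p.1 t) = -haar p t := cfx_self p t

theorem bs_fine (p : ℤ × ℤ) {l : ℤ} (h : p.1 < l) (t : ℝ) : haar p (bs_fl l t) = haar p t :=
  cfx_fine p h t

theorem bs_orth_lt {p r : ℤ × ℤ} (h : p.1 < r.1) : ∫ t, haar p t * haar r t = 0 := by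
  have hm : AEStronglyMeasurable (fun t => haar p t * haar r t) (volume : Measure ℝ) :=
    ((cfx_meas p).mul (cfx_meas r)).aestronglyMeasurable
  have h1 : ∫ t, haar p (bs_fl r.1 t) * haar r (bs_fl r.1 t) = ∫ t, haar p t * haar r t := by
    have := (bs_mp r.1).map_eq
    conv_rhs => rw [← this]
    rw [integral_map (bs_mp r.1).measurable.aemeasurable (by rw [this]; exact hm)]
  have h2 : ∫ t, haar p (bs_fl r.1 t) * haar r (bs_fl r.1 t) = -∫ t, haar p t * haar r t := by
    rw [← integral_neg]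
    refine integral_congr_ae (Filter.Eventually.of_forall fun t => ?_)
    show haar p (bs_fl r.1 t) * haar r (bs_fl r.1 t) = -(haar p t * haar r t)
    rw [bs_self, bs_fine p h]
    ring
  linarith

theorem bs_orth {p r : ℤ × ℤ} (h : p ≠ r) : ∫ t, haar p t * haar r t = 0 := by
  rcases lt_trichotomy p.1 r.1 with h1 | h1 | h1
  · exact bs_orth_lt h1
  · have h2 : p.2 ≠ r.2 := fun e => h (Prod.ext h1 e)
    have h3 : ∀ t, haar p t * haar r t = 0 := by
      intro t
      by_contra h4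
      have h5 : haar p t ^ 2 ≠ 0 := pow_ne_zero 2 (left_ne_zero_of_mul h4)
      have h6 : haar r t ^ 2 ≠ 0 := pow_ne_zero 2 (right_ne_zero_of_mul h4)
      rw [cfx_sq] at h5 h6
      have h7 : ⌊(2 : ℝ) ^ p.1 * t⌋ = p.2 := by
        by_contra e
        exact h5 (if_neg e)
      have h8 : ⌊(2 : ℝ) ^ r.1 * t⌋ = r.2 := by
        by_contra e
        exact h6 (if_neg e)
      rw [h1] at h7
      exact h2 (h7.symm.trans h8)
    simp only [h3, integral_zero]
  · have h2 := bs_orth_lt h1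
    rw [← h2]
    exact integral_congr_ae (Filter.Eventually.of_forall fun t => mul_comm _ _)

theorem bs_int (p : ℤ × ℤ) : Integrable (fun t => haar p t ^ 2) ∧ ∫ t, haar p t ^ 2 = 1 := by
  have hp : (0 : ℝ) < (2 : ℝ) ^ p.1 := by positivity
  have h1 : (fun t => haar p t ^ 2) = Set.indicator
      (Set.Ico ((p.2 : ℝ) / (2 : ℝ) ^ p.1) (((p.2 : ℝ) + 1) / (2 : ℝ) ^ p.1))
      fun _ => (2 : ℝ) ^ p.1 := by
    funext t
    rw [cfx_sq]
    by_cases h : ⌊(2 : ℝ) ^ p.1 * t⌋ = p.2
    · rw [if_pos h, Set.indicator_of_mem]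
      rw [Int.floor_eq_iff] at h
      exact ⟨(div_le_iff₀ hp).2 (by linarith [h.1]), (lt_div_iff₀ hp).2 (by linarith [h.2])⟩
    · rw [if_neg h, Set.indicator_of_notMem]
      intro h2
      refine h (Int.floor_eq_iff.2 ⟨?_, ?_⟩)
      · have := (div_le_iff₀ hp).1 h2.1
        linarith
      · have := (lt_div_iff₀ hp).1 h2.2
        linarith
  have h2 : volume (Set.Ico ((p.2 : ℝ) / (2 : ℝ) ^ p.1) (((p.2 : ℝ) + 1) / (2 : ℝ) ^ p.1)) ≠ ⊤ := by
    rw [Real.volume_Ico]
    exact ENNReal.ofReal_ne_top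
  rw [h1]
  refine ⟨(integrableOn_const h2).integrable_indicator measurableSet_Ico, ?_⟩
  rw [integral_indicator_const _ measurableSet_Ico, Measure.real, Real.volume_Ico, smul_eq_mul]
  have h3 : ((p.2 : ℝ) + 1) / (2 : ℝ) ^ p.1 - (p.2 : ℝ) / (2 : ℝ) ^ p.1 = 1 / (2 : ℝ) ^ p.1 := by
    rw [← sub_div, add_sub_cancel_left]
  rw [h3, ENNReal.toReal_ofReal (by positivity)]
  field_simp

theorem bs_memLp (p : ℤ × ℤ) : MemLp (fun t => ((haar p t : ℝ) : ℂ)) 2 (volume : Measure ℝ) := by
  refine (memLp_two_iff_integrable_sq_norm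
    (Complex.measurable_ofReal.comp (cfx_meas p)).aestronglyMeasurable).2 ?_
  refine (bs_int p).1.congr (Filter.Eventually.of_forall fun t => ?_)
  show haar p t ^ 2 = ‖((haar p t : ℝ) : ℂ)‖ ^ 2
  rw [Complex.norm_real, Real.norm_eq_abs, sq_abs]

/-- the Haar function as an element of `L²` -/
noncomputable def bsH (p : ℤ × ℤ) : Lp ℂ 2 (volume : Measure ℝ) := (bs_memLp p).toLp

theorem bsH_coe (p : ℤ × ℤ) : bsH p =ᵐ[volume] fun t => ((haar p t : ℝ) : ℂ) :=
  (bs_memLp p).coeFn_toLp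

theorem bsH_inner (p : ℤ × ℤ) (u : Lp ℂ 2 (volume : Measure ℝ)) :
    inner ℂ (bsH p) u = ∫ t : ℝ, u t * (haar p t : ℂ) := by
  rw [MeasureTheory.L2.inner_def]
  refine integral_congr_ae ?_
  filter_upwards [bsH_coe p] with t h1
  rw [h1]
  simp [mul_comm]

theorem bsH_orthonormal : Orthonormal ℂ bsH := by
  rw [orthonormal_iff_ite]
  intro p r
  rw [bsH_inner]
  have h1 : ∫ t : ℝ, (bsH r) t * (haar p t : ℂ) = ((∫ t : ℝ, haar p t * haar r t : ℝ) : ℂ) := by
    rw [← integral_complex_ofReal]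
    refine integral_congr_ae ?_
    filter_upwards [bsH_coe r] with t h1
    rw [h1]
    push_cast
    ring
  rw [h1]
  by_cases h : p = r
  · rw [if_pos h, h]
    have : ∫ t : ℝ, haar r t * haar r t = 1 := by
      rw [← (bs_int r).2]
      exact integral_congr_ae (Filter.Eventually.of_forall fun t => (sq _).symm)
    rw [this]
    norm_num
  · rw [if_neg h, bs_orth h]
    norm_num

/-- Bessel's inequality for the Haar functions -/
theorem bes (u : Lp ℂ 2 (volume : Measure ℝ)) :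
    (Summable fun p : ℤ × ℤ => ‖∫ t : ℝ, u t * (haar p t : ℂ)‖ ^ 2) ∧
    ∑' p : ℤ × ℤ, ‖∫ t : ℝ, u t * (haar p t : ℂ)‖ ^ 2 ≤ ‖u‖ ^ 2 := by
  have h1 := bsH_orthonormal.inner_products_summable (x := u)
  have h2 := bsH_orthonormal.tsum_inner_products_le (x := u)
  simp only [bsH_inner] at h1 h2
  exact ⟨h1, h2⟩

end Pool.Agent.H79.RT
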