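import Pool.Agent.H79.RT.Bnda

/-!
# MP_a7284e_an, project RT, row RT13: the maximal inequality for bounded square functions
-/

set_option autoImplicit false

namespace Pool.Agent.H79.RT

open Finset Classical

variable {n m : ℕ}

/-! ### anchors -/

/-- the stopping indices -/
noncomputable def bnA {l : ℕ} (N : ℕ) (α : ℕ → Q l → ℝ) (s r : ℕ) (x : Q l) : ℕ :=
  hit N (fun i => α i x ^ 2) ((r : ℝ) / 2 ^ s)

theorem bnA_cmp (h2 : SHit) {l : ℕ} (N : ℕ) (α : ℕ → Q l → ℝ) (s r s' r' : ℕ) :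
    (∀ x, bnA N α s r x ≤ bnA N α s' r' x) ∨ ∀ x, bnA N α s' r' x ≤ bnA N α s r x := by
  rcases le_total ((r : ℝ) / 2 ^ s) ((r' : ℝ) / 2 ^ s') with h | h
  · exact Or.inl fun x => h2.1 _ _ _ _ h
  · exact Or.inr fun x => h2.1 _ _ _ _ h

theorem bnA_stp (h2 : SHit) {l : ℕ} (N : ℕ) (α : ℕ → Q l → ℝ) (hα : ∀ i, Inv i (α i)) (s r : ℕ) :
    Stp (bnA N α s r) := h2.2.2.2 l N α _ hα

/-- the integrand of the estimate for a pair -/
noncomputable def bnP (D : ℕ → ℕ → Q n → Q m → ℝ) (α : ℕ → Q n → ℝ) (β : ℕ → Q m → ℝ)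
    (a a' : Q n → ℕ) (b b' : Q m → ℕ) (h : ℝ) (x : Q n) (y : Q m) : ℝ :=
  if a x + b y ≤ a' x + b' y ∧ VV α β (a x + b y) (a' x + b' y) x y ≤ h then
    (XS D (a' x + b' y) x y - XS D (a x + b y) x y) ^ 40 else 0

theorem bnP_nonneg (D : ℕ → ℕ → Q n → Q m → ℝ) (α : ℕ → Q n → ℝ) (β : ℕ → Q m → ℝ)
    (a a' : Q n → ℕ) (b b' : Q m → ℕ) (h : ℝ) (x : Q n) (y : Q m) :
    0 ≤ bnP D α β a a' b b' h x y := by
  unfold bnP
  split_ifs
  · exact Even.pow_nonneg (by decide) _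
  · exact le_rfl

/-- pairs of indices -/
def bnG (s : ℕ) : Finset (ℕ × ℕ) := range (2 ^ s + 1) ×ˢ range (2 ^ s + 1)

/-- both orders of a pair of anchors -/
noncomputable def bnPP (D : ℕ → ℕ → Q n → Q m → ℝ) (α : ℕ → Q n → ℝ) (β : ℕ → Q m → ℝ) (N s : ℕ)
    (g k : ℕ × ℕ) (x : Q n) (y : Q m) : ℝ :=
  bnP D α β (bnA N α s g.1) (bnA N α (s + 1) k.1) (bnA N β s g.2) (bnA N β (s + 1) k.2)
      (3 / 2 ^ s) x y +
    bnP D α β (bnA N α (s + 1) k.1) (bnA N α s g.1) (bnA N β (s + 1) k.2) (bnA N β s g.2)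
      (3 / 2 ^ s) x y

theorem bnPP_nonneg (D : ℕ → ℕ → Q n → Q m → ℝ) (α : ℕ → Q n → ℝ) (β : ℕ → Q m → ℝ) (N s : ℕ)
    (g k : ℕ × ℕ) (x : Q n) (y : Q m) : 0 ≤ bnPP D α β N s g k x y :=
  add_nonneg (bnP_nonneg _ _ _ _ _ _ _ _ _ _) (bnP_nonneg _ _ _ _ _ _ _ _ _ _)

theorem bn_dsum {ι κ : Type*} (s : Finset ι) (t : Finset κ) (F : ι → κ → ℝ)
    (hF : ∀ i j, 0 ≤ F i j) {i : ι} {j : κ} (hi : i ∈ s) (hj : j ∈ t) :
    F i j ≤ ∑ i ∈ s, ∑ j ∈ t, F i j :=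
  (single_le_sum (f := F i) (fun j _ => hF i j) hj).trans
    (single_le_sum (f := fun i => ∑ j ∈ t, F i j) (fun i _ => sum_nonneg fun j _ => hF i j) hi)

/-- sum over all pairs of consecutive anchors -/
noncomputable def bnS (D : ℕ → ℕ → Q n → Q m → ℝ) (α : ℕ → Q n → ℝ) (β : ℕ → Q m → ℝ) (N s : ℕ)
    (x : Q n) (y : Q m) : ℝ :=
  ∑ g ∈ bnG s, ∑ k ∈ bnG (s + 1), bnPP D α β N s g k x y

theorem bn_card (s : ℕ) : ((bnG s).card : ℝ) ≤ 4 * 4 ^ s := by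
  unfold bnG
  rw [card_product, card_range]
  have h1 : ((2 : ℝ) ^ s + 1) ≤ 2 * 2 ^ s := by
    have : (1 : ℝ) ≤ 2 ^ s := one_le_pow₀ (by norm_num)
    linarith
  push_cast
  calc ((2 : ℝ) ^ s + 1) * (2 ^ s + 1) ≤ (2 * 2 ^ s) * (2 * 2 ^ s) := by
        refine mul_le_mul h1 h1 (by positivity) (by positivity)
    _ = 4 * 4 ^ s := by
        rw [show (4 : ℝ) ^ s = 2 ^ s * 2 ^ s by rw [← mul_pow]; norm_num]
        ring

theorem bnS_av (h2 : SHit) {K : ℝ} (hK : 0 ≤ K) (D : ℕ → ℕ → Q n → Q m → ℝ) (α : ℕ → Q n → ℝ)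
    (β : ℕ → Q m → ℝ)
    (hP : ∀ (a a' : Q n → ℕ) (b b' : Q m → ℕ), Stp a → Stp a' → Stp b → Stp b' →
      ((∀ x, a x ≤ a' x) ∨ ∀ x, a' x ≤ a x) → ((∀ y, b y ≤ b' y) ∨ ∀ y, b' y ≤ b y) →
      ∀ h : ℝ, 0 < h → h ≤ 3 → PE n m D α β a a' b b' h K)
    (hA : Arr n m D α β) (N s : ℕ) :
    av2 (bnS D α β N s) ≤ 93312 * K * (1 / 4) ^ s := by
  have hpos : (0 : ℝ) < 3 / 2 ^ s := by positivity
  have hle : (3 : ℝ) / 2 ^ s ≤ 3 := by
    rw [div_le_iff₀ (by positivity)]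
    have : (1 : ℝ) ≤ 2 ^ s := one_le_pow₀ (by norm_num)
    linarith
  have h6 : ∀ g ∈ bnG s, ∀ k ∈ bnG (s + 1), av2 (bnPP D α β N s g k) ≤
      2 * (K * (3 / 2 ^ s) ^ 6) := by
    intro g _ k _
    have e1 := hP _ _ _ _ (bnA_stp h2 N α hA.pa s g.1) (bnA_stp h2 N α hA.pa (s + 1) k.1)
      (bnA_stp h2 N β hA.pb s g.2) (bnA_stp h2 N β hA.pb (s + 1) k.2)
      (bnA_cmp h2 N α _ _ _ _) (bnA_cmp h2 N β _ _ _ _) _ hpos hle
    have e2 := hP _ _ _ _ (bnA_stp h2 N α hA.pa (s + 1) k.1) (bnA_stp h2 N α hA.pa s g.1)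
      (bnA_stp h2 N β hA.pb (s + 1) k.2) (bnA_stp h2 N β hA.pb s g.2)
      (bnA_cmp h2 N α _ _ _ _) (bnA_cmp h2 N β _ _ _ _) _ hpos hle
    have e3 : av2 (bnPP D α β N s g k) =
      av2 (bnP D α β (bnA N α s g.1) (bnA N α (s + 1) k.1) (bnA N β s g.2) (bnA N β (s + 1) k.2)
        (3 / 2 ^ s)) +
      av2 (bnP D α β (bnA N α (s + 1) k.1) (bnA N α s g.1) (bnA N β (s + 1) k.2) (bnA N β s g.2)
        (3 / 2 ^ s)) := av2_add _ _
    rw [e3, two_mul]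
    exact add_le_add e1 e2
  have h7 : av2 (bnS D α β N s) = ∑ g ∈ bnG s, ∑ k ∈ bnG (s + 1), av2 (bnPP D α β N s g k) := by
    have h8 : av2 (bnS D α β N s) = ∑ g ∈ bnG s, av2 (fun (x : Q n) (y : Q m) =>
      ∑ k ∈ bnG (s + 1), bnPP D α β N s g k x y) :=
      av2_sum (bnG s) (fun g x y => ∑ k ∈ bnG (s + 1), bnPP D α β N s g k x y)
    rw [h8]
    refine sum_congr rfl fun g _ => ?_
    exact av2_sum (bnG (s + 1)) (fun k => bnPP D α β N s g k)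
  rw [h7]
  have h9 : (0 : ℝ) ≤ 2 * (K * (3 / 2 ^ s) ^ 6) := by positivity
  calc _ ≤ ∑ _g ∈ bnG s, ∑ _k ∈ bnG (s + 1), 2 * (K * (3 / 2 ^ s : ℝ) ^ 6) :=
        sum_le_sum fun g hg => sum_le_sum fun k hk => h6 g hg k hk
    _ = ((bnG s).card : ℝ) * (((bnG (s + 1)).card : ℝ) * (2 * (K * (3 / 2 ^ s : ℝ) ^ 6))) := by
        rw [sum_const, sum_const, nsmul_eq_mul, nsmul_eq_mul]
    _ ≤ (4 * 4 ^ s) * ((4 * 4 ^ (s + 1)) * (2 * (K * (3 / 2 ^ s : ℝ) ^ 6))) := by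
        refine mul_le_mul (bn_card s) (mul_le_mul_of_nonneg_right (bn_card (s + 1)) h9)
          (by positivity) (by positivity)
    _ = 93312 * K * (1 / 4) ^ s := by
        have e4 : (4 : ℝ) ^ s = 2 ^ s * 2 ^ s := by rw [← mul_pow]; norm_num
        rw [pow_succ, one_div, inv_pow, e4]
        have : (2 : ℝ) ^ s ≠ 0 := by positivity
        field_simp
        ring

theorem bnS_ge {D : ℕ → ℕ → Q n → Q m → ℝ} {α : ℕ → Q n → ℝ} {β : ℕ → Q m → ℝ} {N s : ℕ}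
    {x : Q n} {y : Q m} {r r' t t' T T' k : ℕ} (hr : r ≤ 2 ^ s) (hr' : r' ≤ 2 ^ s)
    (ht : t ≤ 2 ^ (s + 1)) (ht' : t' ≤ 2 ^ (s + 1))
    (hT : T = bnA N α s r x + bnA N β s r' y)
    (hT' : T' = bnA N α (s + 1) t x + bnA N β (s + 1) t' y) (hTk : T ≤ k) (hTk' : T' ≤ k)
    (hV : VV α β T k x y ≤ 3 / 2 ^ s) (hV' : VV α β T' k x y ≤ 3 / 2 ^ (s + 1)) :
    |XS D T' x y - XS D T x y| ^ 40 ≤ bnS D α β N s x y := by
  have hg : (r, r') ∈ bnG s :=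
    mem_product.2 ⟨mem_range.2 (Nat.lt_succ_of_le hr), mem_range.2 (Nat.lt_succ_of_le hr')⟩
  have hk : (t, t') ∈ bnG (s + 1) :=
    mem_product.2 ⟨mem_range.2 (Nat.lt_succ_of_le ht), mem_range.2 (Nat.lt_succ_of_le ht')⟩
  have e0 : bnPP D α β N s (r, r') (t, t') x y ≤ bnS D α β N s x y := by
    unfold bnS
    exact bn_dsum (bnG s) (bnG (s + 1)) (fun g k => bnPP D α β N s g k x y)
      (fun g k => bnPP_nonneg D α β N s g k x y) hg hk
  have e2 : bnPP D α β N s (r, r') (t, t') x y =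
      bnP D α β (bnA N α s r) (bnA N α (s + 1) t) (bnA N β s r') (bnA N β (s + 1) t')
        (3 / 2 ^ s) x y +
      bnP D α β (bnA N α (s + 1) t) (bnA N α s r) (bnA N β (s + 1) t') (bnA N β s r')
        (3 / 2 ^ s) x y := by
    unfold bnPP
    rfl
  rw [e2] at e0
  refine le_trans ?_ e0
  rw [Even.pow_abs (by decide)]
  have hh : (3 : ℝ) / 2 ^ (s + 1) ≤ 3 / 2 ^ s :=
    div_le_div_of_nonneg_left (by norm_num) (by positivity)
      (pow_le_pow_right₀ (by norm_num) (Nat.le_succ s))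
  rcases le_total T T' with h | h
  · have h1 : bnP D α β (bnA N α s r) (bnA N α (s + 1) t) (bnA N β s r') (bnA N β (s + 1) t')
        (3 / 2 ^ s) x y = (XS D T' x y - XS D T x y) ^ 40 := by
      unfold bnP
      rw [← hT, ← hT']
      exact if_pos ⟨h, (bn_VV_mono α β T hTk' x y).trans hV⟩
    have h2 := bnP_nonneg D α β (bnA N α (s + 1) t) (bnA N α s r) (bnA N β (s + 1) t')
      (bnA N β s r') (3 / 2 ^ s) x y
    rw [← h1]
    exact le_add_of_nonneg_right h2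
  · have h1 : bnP D α β (bnA N α (s + 1) t) (bnA N α s r) (bnA N β (s + 1) t') (bnA N β s r')
        (3 / 2 ^ s) x y = (XS D T x y - XS D T' x y) ^ 40 := by
      unfold bnP
      rw [← hT, ← hT']
      exact if_pos ⟨h, ((bn_VV_mono α β T' hTk x y).trans hV').trans hh⟩
    have h2 := bnP_nonneg D α β (bnA N α s r) (bnA N α (s + 1) t) (bnA N β s r')
      (bnA N β (s + 1) t') (3 / 2 ^ s) x y
    have h3 : (XS D T' x y - XS D T x y) ^ 40 = (XS D T x y - XS D T' x y) ^ 40 := by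
      rw [← neg_sub (XS D T x y) (XS D T' x y)]
      exact Even.neg_pow (by decide) _
    rw [h3, ← h1]
    exact le_add_of_nonneg_left h2

/-- the first step -/
noncomputable def bnZ (D : ℕ → ℕ → Q n → Q m → ℝ) (α : ℕ → Q n → ℝ) (β : ℕ → Q m → ℝ) (N : ℕ)
    (x : Q n) (y : Q m) : ℝ :=
  ∑ g ∈ bnG 0, bnP D α β (fun _ => 0) (bnA N α 0 g.1) (fun _ => 0) (bnA N β 0 g.2) 1 x y

theorem bnZ_av (h2 : SHit) {K : ℝ} (hK : 0 ≤ K) (D : ℕ → ℕ → Q n → Q m → ℝ) (α : ℕ → Q n → ℝ)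
    (β : ℕ → Q m → ℝ)
    (hP : ∀ (a a' : Q n → ℕ) (b b' : Q m → ℕ), Stp a → Stp a' → Stp b → Stp b' →
      ((∀ x, a x ≤ a' x) ∨ ∀ x, a' x ≤ a x) → ((∀ y, b y ≤ b' y) ∨ ∀ y, b' y ≤ b y) →
      ∀ h : ℝ, 0 < h → h ≤ 3 → PE n m D α β a a' b b' h K)
    (hA : Arr n m D α β) (N : ℕ) : av2 (bnZ D α β N) ≤ 4 * K := by
  have h8 : bnZ D α β N = fun x y => ∑ g ∈ bnG 0, (fun g (x : Q n) (y : Q m) =>
    bnP D α β (fun _ => 0) (bnA N α 0 g.1) (fun _ => 0) (bnA N β 0 g.2) 1 x y) g x y := rfl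
  rw [h8, av2_sum]
  have h0 : ∀ l : ℕ, Stp (fun _ : Q l => 0) := fun l i j _ x => rfl
  have h9 : ∀ g ∈ bnG 0, av2 ((fun g (x : Q n) (y : Q m) =>
    bnP D α β (fun _ => 0) (bnA N α 0 g.1) (fun _ => 0) (bnA N β 0 g.2) 1 x y) g) ≤ K := by
    intro g _
    have e1 := hP _ _ _ _ (h0 n) (bnA_stp h2 N α hA.pa 0 g.1) (h0 m)
      (bnA_stp h2 N β hA.pb 0 g.2) (Or.inl fun _ => Nat.zero_le _)
      (Or.inl fun _ => Nat.zero_le _) 1 one_pos (by norm_num)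
    unfold PE at e1
    rw [one_pow, mul_one] at e1
    exact e1
  refine (sum_le_sum h9).trans ?_
  rw [sum_const, nsmul_eq_mul]
  have h10 := bn_card 0
  rw [pow_zero, mul_one] at h10
  exact mul_le_mul_of_nonneg_right h10 hK

theorem bnZ_ge {D : ℕ → ℕ → Q n → Q m → ℝ} {α : ℕ → Q n → ℝ} {β : ℕ → Q m → ℝ}
    (hB : Bdd n m α β) {N : ℕ} {x : Q n} {y : Q m} {r r' T : ℕ} (hr : r ≤ 2 ^ 0)
    (hr' : r' ≤ 2 ^ 0) (hT : T = bnA N α 0 r x + bnA N β 0 r' y) :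
    |XS D T x y - XS D 0 x y| ^ 40 ≤ bnZ D α β N x y := by
  have hg : (r, r') ∈ bnG 0 :=
    mem_product.2 ⟨mem_range.2 (Nat.lt_succ_of_le hr), mem_range.2 (Nat.lt_succ_of_le hr')⟩
  unfold bnZ
  refine le_trans ?_ (single_le_sum (f := fun g : ℕ × ℕ =>
    bnP D α β (fun _ => 0) (bnA N α 0 g.1) (fun _ => 0) (bnA N β 0 g.2) 1 x y)
    (fun g _ => bnP_nonneg _ _ _ _ _ _ _ _ _ _) hg)
  rw [Even.pow_abs (by decide)]
  have hV : VV α β 0 T x y ≤ 1 := by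
    rw [VV_eq]
    exact En_le_one hB _ x y
  have e1 : bnP D α β (fun _ => 0) (bnA N α 0 r) (fun _ => 0) (bnA N β 0 r') 1 x y =
      (XS D T x y - XS D 0 x y) ^ 40 := by
    unfold bnP
    rw [← hT]
    exact if_pos ⟨Nat.zero_le _, hV⟩
  exact e1.ge

/-! ### the pathwise bound -/

theorem bn_path {D : ℕ → ℕ → Q n → Q m → ℝ} {α : ℕ → Q n → ℝ} {β : ℕ → Q m → ℝ}
    (hA : Arr n m D α β) (hB : Bdd n m α β) (h3 : SDens) (S : ℕ)
    (hS : (n : ℝ) * (m * (3 / 2 ^ S)) ≤ 1) (x : Q n) (y : Q m) (k : ℕ) (hk : k < n + m + 1) :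
    |XS D k x y| ^ 4 ≤ 27 * (17 + bnZ D α β (n + m + 1) x y + 50 ^ 3 * (50 +
      ∑ s ∈ range S, bnS D α β (n + m + 1) s x y * (5 / 2) ^ s)) := by
  set N := n + m + 1 with hN
  have hsum : ∀ (l : ℕ) (f : ℕ → ℝ), l ≤ N → (∀ i, l ≤ i → f i = 0) →
      ∑ i ∈ range N, f i = ∑ i ∈ range l, f i := by
    intro l f hl hf
    refine (sum_subset (range_subset_range.2 hl) fun i _ hi => hf i ?_).symm
    exact not_lt.1 fun h => hi (mem_range.2 h)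
  have hα0 : ∀ i, n ≤ i → α i x ^ 2 = 0 := fun i hi => by rw [hA.za i hi x]; norm_num
  have hβ0 : ∀ j, m ≤ j → β j y ^ 2 = 0 := fun j hj => by rw [hA.zb j hj y]; norm_num
  have hp1 : ∑ i ∈ range N, α i x ^ 2 ≤ 1 := by
    rw [hsum n _ (by omega) hα0]
    exact hB.1 x
  have hq1 : ∑ j ∈ range N, β j y ^ 2 ≤ 1 := by
    rw [hsum m _ (by omega) hβ0]
    exact hB.2 y
  have hex : ∀ s : ℕ, ∃ r r' : ℕ, r ≤ 2 ^ s ∧ r' ≤ 2 ^ s ∧
      bnA N α s r x + bnA N β s r' y ≤ k ∧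
      VV α β (bnA N α s r x + bnA N β s r' y) k x y ≤ 3 / 2 ^ s := by
    intro s
    obtain ⟨r, r', hr, hr', e1, e2⟩ := h3 N (fun i => α i x ^ 2) (fun j => β j y ^ 2)
      (fun i => sq_nonneg _) (fun j => sq_nonneg _) hp1 hq1 s k hk
    refine ⟨r, r', hr, hr', e1, le_trans (le_of_eq ?_) e2⟩
    unfold VV
    rw [hsum n _ (by omega) fun i hi => ?_]
    · refine sum_congr rfl fun i _ => ?_
      rw [hsum m _ (by omega) fun j hj => ?_]
      · rfl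
      · rw [hβ0 j hj, mul_zero, ite_self]
    · refine sum_eq_zero fun j _ => ?_
      rw [hα0 i hi, zero_mul, ite_self]
  choose r r' hr hr' hT hV using hex
  set T : ℕ → ℕ := fun s => bnA N α s (r s) x + bnA N β s (r' s) y with hTdef
  -- last piece
  have hlast : |XS D k x y - XS D (T S) x y| ≤ 1 := by
    have e1 := bn_last hA (hT S) x y
    have e2 : (n : ℝ) * (m * VV α β (T S) k x y) ≤ n * (m * (3 / 2 ^ S)) :=
      mul_le_mul_of_nonneg_left (mul_le_mul_of_nonneg_left (hV S) (Nat.cast_nonneg m))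
        (Nat.cast_nonneg n)
    have e3 : (XS D k x y - XS D (T S) x y) ^ 2 ≤ 1 := e1.trans (e2.trans hS)
    exact abs_le_one_iff_mul_self_le_one.2 (by rw [← sq]; exact e3)
  have hfirst : |XS D (T 0) x y - XS D 0 x y| ^ 40 ≤ bnZ D α β N x y :=
    bnZ_ge hB (hr 0) (hr' 0) rfl
  have hmid : ∀ s, |XS D (T (s + 1)) x y - XS D (T s) x y| ^ 40 ≤ bnS D α β N s x y := fun s =>
    bnS_ge (hr s) (hr' s) (hr (s + 1)) (hr' (s + 1)) rfl rfl (hT s) (hT (s + 1)) (hV s)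
      (hV (s + 1))
  have h0 := bn_zero hA hB x y
  set u : ℕ → ℝ := fun s => |XS D (T (s + 1)) x y - XS D (T s) x y| with hu
  have htri : |XS D k x y| ≤ 2 + |XS D (T 0) x y - XS D 0 x y| + ∑ s ∈ range S, u s := by
    have e1 : XS D k x y = (XS D k x y - XS D (T S) x y) + (XS D 0 x y) +
        (XS D (T 0) x y - XS D 0 x y) +
        ∑ s ∈ range S, (XS D (T (s + 1)) x y - XS D (T s) x y) := by
      rw [sum_range_sub (fun s => XS D (T s) x y)]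
      ring
    have e2 : |∑ s ∈ range S, (XS D (T (s + 1)) x y - XS D (T s) x y)| ≤ ∑ s ∈ range S, u s :=
      abs_sum_le_sum_abs _ _
    rw [e1]
    refine (abs_add_le _ _).trans (add_le_add ?_ e2)
    refine (abs_add_le _ _).trans (add_le_add ?_ le_rfl)
    refine (abs_add_le _ _).trans ?_
    linarith
  have hu0 : ∀ s, 0 ≤ u s := fun s => abs_nonneg _
  have hus : 0 ≤ ∑ s ∈ range S, u s := sum_nonneg fun s _ => hu0 s
  have f1 : |XS D k x y| ^ 4 ≤ 27 * (2 ^ 4 + |XS D (T 0) x y - XS D 0 x y| ^ 4 +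
      (∑ s ∈ range S, u s) ^ 4) :=
    (pow_le_pow_left₀ (abs_nonneg _) htri 4).trans
      (bn_sum3 _ _ _ (by norm_num) (abs_nonneg _) hus)
  have f2 : |XS D (T 0) x y - XS D 0 x y| ^ 4 ≤ 1 + bnZ D α β N x y :=
    (bn_4_40 _ (abs_nonneg _)).trans (add_le_add le_rfl hfirst)
  have f3 : (∑ s ∈ range S, u s) ^ 4 ≤ 50 ^ 3 * (50 +
      ∑ s ∈ range S, bnS D α β N s x y * (5 / 2) ^ s) := by
    have g1 := bn_cs4 S (fun s => (49 / 50 : ℝ) ^ s) u (fun s => by positivity)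
    have g2 : ∑ s ∈ range S, u s ^ 4 / ((49 / 50 : ℝ) ^ s) ^ 3 ≤ 50 +
        ∑ s ∈ range S, bnS D α β N s x y * (5 / 2) ^ s := by
      refine le_trans ?_ (add_le_add (bn_R S) le_rfl)
      rw [← sum_add_distrib]
      refine sum_le_sum fun s _ => ?_
      have g3 := bn_u ((49 / 50 : ℝ) ^ s) (u s) (by positivity) (hu0 s)
      refine g3.trans (add_le_add le_rfl ?_)
      have g4 : (1 : ℝ) / ((49 / 50 : ℝ) ^ s) ^ 39 ≤ (5 / 2) ^ s := by
        rw [← pow_mul, mul_comm s 39, pow_mul, one_div, ← inv_pow]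
        refine pow_le_pow_left₀ (by positivity) ?_ s
        norm_num
      have g5 : 0 ≤ bnS D α β N s x y := (by positivity : (0 : ℝ) ≤ u s ^ 40).trans (hmid s)
      calc u s ^ 40 / ((49 / 50 : ℝ) ^ s) ^ 39 = u s ^ 40 * (1 / ((49 / 50 : ℝ) ^ s) ^ 39) := by
            rw [mul_one_div]
        _ ≤ bnS D α β N s x y * (5 / 2) ^ s :=
            mul_le_mul (hmid s) g4 (by positivity) g5
    refine g1.trans ?_
    refine mul_le_mul (pow_le_pow_left₀ (sum_nonneg fun s _ => by positivity) (bn_R S) 3) g2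
      (sum_nonneg fun s _ => by positivity) (by norm_num)
  refine f1.trans ?_
  have : (2 : ℝ) ^ 4 + |XS D (T 0) x y - XS D 0 x y| ^ 4 + (∑ s ∈ range S, u s) ^ 4 ≤
      17 + bnZ D α β N x y + 50 ^ 3 * (50 +
      ∑ s ∈ range S, bnS D α β N s x y * (5 / 2) ^ s) := by
    have : (2 : ℝ) ^ 4 = 16 := by norm_num
    linarith
  exact mul_le_mul_of_nonneg_left this (by norm_num)

/-- RT13: the maximal inequality for bounded square functions -/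
theorem bnd (h1 : SPair) (h2 : SHit) (h3 : SDens) : SBnd := by
  obtain ⟨K, hK, hPair⟩ := h1
  refine ⟨27 * (17 + 4 * K + 50 ^ 3 * (50 + 93312 * K * 3)), by positivity, ?_⟩
  intro n m D α β hA hB
  have hP := hPair n m D α β hA hB
  obtain ⟨S, hS⟩ : ∃ S : ℕ, (n : ℝ) * (m * (3 / 2 ^ S)) ≤ 1 := by
    refine ⟨3 * n * m, ?_⟩
    have e1 : ((3 * n * m : ℕ) : ℝ) ≤ 2 ^ (3 * n * m) := by
      exact_mod_cast (Nat.lt_two_pow_self (n := 3 * n * m)).le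
    push_cast at e1
    have e2 : (0 : ℝ) < 2 ^ (3 * n * m) := by positivity
    have e3 : (n : ℝ) * (m * (3 / 2 ^ (3 * n * m))) = (3 * n * m) / 2 ^ (3 * n * m) := by
      field_simp
    rw [e3, div_le_one e2]
    exact e1
  have hpt : ∀ x y, MX D x y ^ 4 ≤ 27 * (17 + 50 ^ 3 * 50) + (27 * bnZ D α β (n + m + 1) x y +
      ∑ s ∈ range S, (27 * 50 ^ 3 * (5 / 2) ^ s) * bnS D α β (n + m + 1) s x y) := by
    intro x y
    obtain ⟨k, hk, hkeq⟩ := exists_mem_eq_sup' (s := range (n + m + 1))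
      ⟨0, mem_range.2 (by omega)⟩ (fun k => |XS D k x y|)
    have e1 := bn_path hA hB h3 S hS x y k (mem_range.1 hk)
    have e2 : MX D x y = |XS D k x y| := hkeq
    rw [e2]
    refine e1.trans (le_of_eq ?_)
    have e3 : ∑ s ∈ range S, (27 * 50 ^ 3 * (5 / 2 : ℝ) ^ s) * bnS D α β (n + m + 1) s x y =
        27 * 50 ^ 3 * ∑ s ∈ range S, bnS D α β (n + m + 1) s x y * (5 / 2) ^ s := by
      rw [mul_sum]
      exact sum_congr rfl fun s _ => by ring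
    rw [e3]
    ring
  refine (av2_mono hpt).trans ?_
  rw [av2_add, av2_const, av2_add, av2_mul_left, av2_sum (range S) (fun s x y =>
    (27 * 50 ^ 3 * (5 / 2) ^ s) * bnS D α β (n + m + 1) s x y)]
  have hz := bnZ_av h2 hK D α β hP hA (n + m + 1)
  have hs : ∑ s ∈ range S, av2 (fun (x : Q n) (y : Q m) =>
      (27 * 50 ^ 3 * (5 / 2 : ℝ) ^ s) * bnS D α β (n + m + 1) s x y) ≤
      27 * 50 ^ 3 * (93312 * K * 3) := by
    have e1 : ∀ s ∈ range S, av2 (fun (x : Q n) (y : Q m) =>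
        (27 * 50 ^ 3 * (5 / 2 : ℝ) ^ s) * bnS D α β (n + m + 1) s x y) ≤
        27 * 50 ^ 3 * (93312 * K) * (5 / 8) ^ s := by
      intro s _
      rw [av2_mul_left]
      have e2 := bnS_av h2 hK D α β hP hA (n + m + 1) s
      calc _ ≤ (27 * 50 ^ 3 * (5 / 2 : ℝ) ^ s) * (93312 * K * (1 / 4) ^ s) :=
            mul_le_mul_of_nonneg_left e2 (by positivity)
        _ = 27 * 50 ^ 3 * (93312 * K) * ((5 / 2) ^ s * (1 / 4) ^ s) := by ring
        _ = _ := by rw [← mul_pow]; norm_num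
    refine (sum_le_sum e1).trans ?_
    rw [← mul_sum]
    calc _ ≤ 27 * 50 ^ 3 * (93312 * K) * 3 :=
          mul_le_mul_of_nonneg_left (bn_R58 S) (by positivity)
      _ = _ := by ring
  linarith

end Pool.Agent.H79.RT
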