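import Pool.Agent.H79.RT.StmR

/-!
# MP_a7284e_an, project RT, row TR2: invariant functions are constant on dyadic rectangles
-/

set_option autoImplicit false

namespace Pool.Agent.H79.RT

open MeasureTheory FourierTransform Filter Topology Finset Classical
open Pool.Agent.H73.Hyp

/-- dyadic rectangles -/
def cellS (m n a b : ℤ) : Set E2 :=
  {x | ⌊(2 : ℝ) ^ m * x 0⌋ = a ∧ ⌊(2 : ℝ) ^ n * x 1⌋ = b}

theorem cell_mem {m n a b : ℤ} {x : E2} :
    x ∈ cellS m n a b ↔ ⌊(2 : ℝ) ^ m * x 0⌋ = a ∧ ⌊(2 : ℝ) ^ n * x 1⌋ = b := Iff.rfl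

theorem cell_meas (m n a b : ℤ) : MeasurableSet (cellS m n a b) := by
  have h0 : Measurable fun x : E2 => ⌊(2 : ℝ) ^ m * x 0⌋ :=
    Int.measurable_floor.comp ((measurable_coord 0).const_mul _)
  have h1 : Measurable fun x : E2 => ⌊(2 : ℝ) ^ n * x 1⌋ :=
    Int.measurable_floor.comp ((measurable_coord 1).const_mul _)
  exact (h0 (measurableSet_singleton a)).inter (h1 (measurableSet_singleton b))

theorem cell_dg (m : ℤ) (t : ℝ) : dg m t = ⌊(2 : ℝ) ^ (m + 1) * t⌋ := rfl

theorem cell_half (m : ℤ) (t : ℝ) : ⌊(2 : ℝ) ^ m * t⌋ = ⌊(2 : ℝ) ^ (m + 1) * t⌋ / 2 := by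
  have h := dg_coarse m 1 t
  have h1 : dg (m - ((1 : ℕ) : ℤ)) t = ⌊(2 : ℝ) ^ m * t⌋ := by
    rw [cell_dg]
    congr 3
    push_cast
    ring
  rw [h1, cell_dg] at h
  rw [h]
  norm_num

/-- the flip exchanges the two halves of a dyadic interval -/
theorem cell_flip (m : ℤ) (t : ℝ) (e : ℤ) :
    ⌊(2 : ℝ) ^ (m + 1) * (t + sg m t)⌋ = 2 * e ↔ ⌊(2 : ℝ) ^ (m + 1) * t⌋ = 2 * e + 1 := by
  have h := dg_flip m t
  rw [cell_dg, cell_dg] at h
  rcases h with ⟨h1, h2⟩ | ⟨h1, h2⟩
  · obtain ⟨u, hu⟩ := h1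
    omega
  · rw [Int.not_even_iff_odd] at h1
    obtain ⟨u, hu⟩ := h1
    omega

theorem cell_pre0 (m n e b : ℤ) :
    H73.Hyp.fl 0 m ⁻¹' cellS (m + 1) n (2 * e) b = cellS (m + 1) n (2 * e + 1) b := by
  ext x
  rw [Set.mem_preimage, cell_mem, cell_mem, fl_same,
    fl_ne (show (1 : Fin 2) ≠ 0 by decide), cell_flip]

theorem cell_pre1 (m n a e : ℤ) :
    H73.Hyp.fl 1 n ⁻¹' cellS m (n + 1) a (2 * e) = cellS m (n + 1) a (2 * e + 1) := by
  ext x
  rw [Set.mem_preimage, cell_mem, cell_mem, fl_same,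
    fl_ne (show (0 : Fin 2) ≠ 1 by decide), cell_flip]

theorem cell_split0 (m n e b : ℤ) :
    cellS m n e b = cellS (m + 1) n (2 * e) b ∪ cellS (m + 1) n (2 * e + 1) b := by
  ext x
  rw [Set.mem_union, cell_mem, cell_mem, cell_mem, cell_half m]
  constructor
  · rintro ⟨h1, h2⟩
    rcases Int.even_or_odd' (⌊(2 : ℝ) ^ (m + 1) * x 0⌋) with ⟨u, hu | hu⟩
    · left
      exact ⟨by omega, h2⟩
    · right
      exact ⟨by omega, h2⟩
  · rintro (⟨h1, h2⟩ | ⟨h1, h2⟩)
    · exact ⟨by omega, h2⟩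
    · exact ⟨by omega, h2⟩

theorem cell_split1 (m n a e : ℤ) :
    cellS m n a e = cellS m (n + 1) a (2 * e) ∪ cellS m (n + 1) a (2 * e + 1) := by
  ext x
  rw [Set.mem_union, cell_mem, cell_mem, cell_mem, cell_half n]
  constructor
  · rintro ⟨h1, h2⟩
    rcases Int.even_or_odd' (⌊(2 : ℝ) ^ (n + 1) * x 1⌋) with ⟨u, hu | hu⟩
    · left
      exact ⟨h1, by omega⟩
    · right
      exact ⟨h1, by omega⟩
  · rintro (⟨h1, h2⟩ | ⟨h1, h2⟩)
    · exact ⟨h1, by omega⟩
    · exact ⟨h1, by omega⟩

theorem cell_emb (c : Fin 2) (l : ℤ) : MeasurableEmbedding (H73.Hyp.fl c l) := by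
  have hi : Function.Involutive (H73.Hyp.fl c l) := fl_fl c l
  refine ⟨hi.injective, measurable_fl c l, ?_⟩
  intro s hs
  rw [hi.image_eq_preimage_symm]
  exact measurable_fl c l hs

/-- the two halves have the same integral -/
theorem cell_int (c : Fin 2) (l : ℤ) (g : E2 → ℂ)
    (hg : (fun x => g (H73.Hyp.fl c l x)) =ᵐ[volume] g) (D : Set E2) :
    ∫ x in H73.Hyp.fl c l ⁻¹' D, g x = ∫ x in D, g x := by
  rw [← (mp_fl c l).setIntegral_preimage_emb (cell_emb c l) g D]
  apply integral_congr_ae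
  filter_upwards [ae_restrict_of_ae (s := H73.Hyp.fl c l ⁻¹' D) hg] with x hx
  exact hx.symm

theorem cell_zero (g : E2 → ℂ) (D A B : Set E2) (hA : MeasurableSet B) (hD : D = A ∪ B)
    (hd : Disjoint A B) (hi : IntegrableOn g D) (he : ∫ x in B, g x = ∫ x in A, g x)
    (h0 : ∫ x in D, g x = 0) : ∫ x in A, g x = 0 ∧ ∫ x in B, g x = 0 := by
  have h1 : IntegrableOn g A := hi.mono_set (hD ▸ Set.subset_union_left)
  have h2 : IntegrableOn g B := hi.mono_set (hD ▸ Set.subset_union_right)
  rw [hD, setIntegral_union hd hA h1 h2, he] at h0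
  have h3 : ∫ x in A, g x = 0 := by
    have : (2 : ℂ) * ∫ x in A, g x = 0 := by rw [two_mul]; exact h0
    rcases mul_eq_zero.1 this with h | h
    · exact absurd h two_ne_zero
    · exact h
  exact ⟨h3, by rw [he, h3]⟩

section sub

variable {i j k l : ℤ} {g : E2 → ℂ}

theorem cell_sub0 (hg0 : ∀ p, i ≤ p → (fun x => g (H73.Hyp.fl 0 p x)) =ᵐ[volume] g)
    (hint : ∀ m n a b, IntegrableOn g (cellS m n a b))
    (h0 : ∫ x in cellS i j k l, g x = 0) (N : ℕ) :
    ∀ a : ℤ, a / 2 ^ N = k → ∫ x in cellS (i + N) j a l, g x = 0 := by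
  induction N with
  | zero =>
    intro a ha
    have : a = k := by simpa using ha
    subst this
    simpa using h0
  | succ N ih =>
    intro a ha
    have h1 : a / 2 / 2 ^ N = k := by
      rw [Int.ediv_ediv_of_nonneg (by norm_num), ← pow_succ']
      exact ha
    have h2 := ih (a / 2) h1
    have hs := cell_split0 (i + N) j (a / 2) l
    have hd : Disjoint (cellS (i + N + 1) j (2 * (a / 2)) l)
        (cellS (i + N + 1) j (2 * (a / 2) + 1) l) := by
      rw [Set.disjoint_left]
      intro x hx hy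
      have e1 := (cell_mem.1 hx).1
      have e2 := (cell_mem.1 hy).1
      omega
    have he : ∫ x in cellS (i + N + 1) j (2 * (a / 2) + 1) l, g x =
        ∫ x in cellS (i + N + 1) j (2 * (a / 2)) l, g x := by
      rw [← cell_pre0 (i + N) j (a / 2) l]
      exact cell_int 0 (i + N) g (hg0 _ (by omega)) _
    have h3 := cell_zero g _ _ _ (cell_meas _ _ _ _) hs hd (hint _ _ _ _) he h2
    have h4 : i + ((N + 1 : ℕ) : ℤ) = i + N + 1 := by push_cast; ring
    rw [h4]
    rcases Int.even_or_odd' a with ⟨u, hu | hu⟩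
    · have : a = 2 * (a / 2) := by omega
      rw [this]
      exact h3.1
    · have : a = 2 * (a / 2) + 1 := by omega
      rw [this]
      exact h3.2

theorem cell_sub1 (hg1 : ∀ p, j ≤ p → (fun x => g (H73.Hyp.fl 1 p x)) =ᵐ[volume] g)
    (hint : ∀ m n a b, IntegrableOn g (cellS m n a b)) (m a : ℤ)
    (h0 : ∫ x in cellS m j a l, g x = 0) (N : ℕ) :
    ∀ b : ℤ, b / 2 ^ N = l → ∫ x in cellS m (j + N) a b, g x = 0 := by
  induction N with
  | zero =>
    intro b hb
    have : b = l := by simpa using hb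
    subst this
    simpa using h0
  | succ N ih =>
    intro b hb
    have h1 : b / 2 / 2 ^ N = l := by
      rw [Int.ediv_ediv_of_nonneg (by norm_num), ← pow_succ']
      exact hb
    have h2 := ih (b / 2) h1
    have hs := cell_split1 m (j + N) a (b / 2)
    have hd : Disjoint (cellS m (j + N + 1) a (2 * (b / 2)))
        (cellS m (j + N + 1) a (2 * (b / 2) + 1)) := by
      rw [Set.disjoint_left]
      intro x hx hy
      have e1 := (cell_mem.1 hx).2
      have e2 := (cell_mem.1 hy).2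
      omega
    have he : ∫ x in cellS m (j + N + 1) a (2 * (b / 2) + 1), g x =
        ∫ x in cellS m (j + N + 1) a (2 * (b / 2)), g x := by
      rw [← cell_pre1 m (j + N) a (b / 2)]
      exact cell_int 1 (j + N) g (hg1 _ (by omega)) _
    have h3 := cell_zero g _ _ _ (cell_meas _ _ _ _) hs hd (hint _ _ _ _) he h2
    have h4 : j + ((N + 1 : ℕ) : ℤ) = j + N + 1 := by push_cast; ring
    rw [h4]
    rcases Int.even_or_odd' b with ⟨u, hu | hu⟩
    · have : b = 2 * (b / 2) := by omega
      rw [this]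
      exact h3.1
    · have : b = 2 * (b / 2) + 1 := by omega
      rw [this]
      exact h3.2

end sub

theorem cell_iter (m : ℤ) (N : ℕ) (t : ℝ) :
    ⌊(2 : ℝ) ^ (m + N) * t⌋ / 2 ^ N = ⌊(2 : ℝ) ^ m * t⌋ := by
  have h := dg_coarse (m + N - 1) N t
  have h1 : dg (m + N - 1 - N) t = ⌊(2 : ℝ) ^ m * t⌋ := by
    rw [cell_dg]
    congr 3
    ring
  have h2 : dg (m + N - 1) t = ⌊(2 : ℝ) ^ (m + N) * t⌋ := by
    rw [cell_dg]
    congr 3
    ring
  rw [h1, h2] at h
  rw [h]
  push_cast
  rfl

/-- the cells of the generation `N` -/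
def cellP (i j : ℤ) : Set (Set E2) :=
  {S | S = ∅ ∨ ∃ (N : ℕ) (a b : ℤ), S = cellS (i + N) (j + N) a b}

theorem cell_nest (i j : ℤ) (N M : ℕ) (a b c d : ℤ) (h : N ≤ M) :
    cellS (i + N) (j + N) a b ∩ cellS (i + M) (j + M) c d = ∅ ∨
    cellS (i + N) (j + N) a b ∩ cellS (i + M) (j + M) c d = cellS (i + M) (j + M) c d := by
  obtain ⟨q, rfl⟩ := Nat.exists_eq_add_of_le h
  by_cases hc : c / 2 ^ q = a ∧ d / 2 ^ q = b
  · right
    ext x
    rw [Set.mem_inter_iff, cell_mem, cell_mem]
    constructor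
    · exact fun h => h.2
    · rintro ⟨h1, h2⟩
      refine ⟨⟨?_, ?_⟩, h1, h2⟩
      · rw [← cell_iter (i + N) q, ← hc.1, ← h1]
        congr 4
        push_cast
        ring
      · rw [← cell_iter (j + N) q, ← hc.2, ← h2]
        congr 4
        push_cast
        ring
  · left
    rw [Set.eq_empty_iff_forall_notMem]
    rintro x ⟨h1, h2⟩
    rw [cell_mem] at h1 h2
    apply hc
    constructor
    · rw [← h2.1, ← h1.1, ← cell_iter (i + N) q]
      congr 4
      push_cast
      ring
    · rw [← h2.2, ← h1.2, ← cell_iter (j + N) q]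
      congr 4
      push_cast
      ring

theorem cell_pi (i j : ℤ) : IsPiSystem (cellP i j) := by
  rintro S hS T hT _
  rcases hS with rfl | ⟨N, a, b, rfl⟩
  · left
    rw [Set.empty_inter]
  rcases hT with rfl | ⟨M, c, d, rfl⟩
  · left
    rw [Set.inter_empty]
  rcases le_total N M with h | h
  · rcases cell_nest i j N M a b c d h with h1 | h1
    · left; exact h1
    · right; exact ⟨M, c, d, h1⟩
  · rw [Set.inter_comm]
    rcases cell_nest i j M N c d a b h with h1 | h1
    · left; exact h1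
    · right; exact ⟨N, a, b, h1⟩

/-- points of the same cell are close -/
theorem cell_close (m : ℤ) (s t : ℝ) (h : ⌊(2 : ℝ) ^ m * s⌋ = ⌊(2 : ℝ) ^ m * t⌋) :
    |s - t| < (2 : ℝ) ^ (-m) := by
  have h1 := Int.abs_sub_lt_one_of_floor_eq_floor h
  have hp : (0 : ℝ) < (2 : ℝ) ^ m := by positivity
  rw [← mul_sub, abs_mul, abs_of_pos hp] at h1
  rw [zpow_neg, ← one_div, lt_div_iff₀ hp, mul_comm]
  exact h1

theorem cell_norm (x : E2) : ‖x‖ ≤ |x 0| + |x 1| := by
  rw [EuclideanSpace.norm_eq, Fin.sum_univ_two, Real.norm_eq_abs, Real.norm_eq_abs]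
  apply Real.sqrt_le_iff.2
  refine ⟨by positivity, ?_⟩
  nlinarith [abs_nonneg (x 0), abs_nonneg (x 1)]

theorem cell_pow (i : ℤ) (ε : ℝ) (hε : 0 < ε) : ∃ N0 : ℕ, ∀ N : ℕ, N0 ≤ N →
    (2 : ℝ) ^ (-(i + (N : ℤ))) < ε := by
  have h : Tendsto (fun N : ℕ => (2 : ℝ) ^ (-i) * (1 / 2 : ℝ) ^ N) atTop (𝓝 0) := by
    have := (tendsto_pow_atTop_nhds_zero_of_lt_one (by norm_num : (0 : ℝ) ≤ 1 / 2)
      (by norm_num)).const_mul ((2 : ℝ) ^ (-i))
    rwa [mul_zero] at this
  obtain ⟨N0, hN⟩ := (h.eventually (gt_mem_nhds hε)).exists_forall_of_atTop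
  refine ⟨N0, fun N hN' => ?_⟩
  have := hN N hN'
  rw [neg_add, zpow_add₀ two_ne_zero, zpow_neg (2 : ℝ) (N : ℤ), zpow_natCast]
  rwa [one_div, inv_pow] at this

theorem cell_gen (i j : ℤ) :
    (inferInstance : MeasurableSpace E2) = MeasurableSpace.generateFrom (cellP i j) := by
  apply le_antisymm
  · rw [show (inferInstance : MeasurableSpace E2) = borel E2 from
      (BorelSpace.measurable_eq : (inferInstance : MeasurableSpace E2) = borel E2)]
    apply MeasurableSpace.generateFrom_le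
    intro U hU
    have hU' : IsOpen U := hU
    have hc : U = ⋃ (p : {p : ℕ × ℤ × ℤ // cellS (i + p.1) (j + p.1) p.2.1 p.2.2 ⊆ U}),
        cellS (i + p.1.1) (j + p.1.1) p.1.2.1 p.1.2.2 := by
      ext x
      rw [Set.mem_iUnion]
      constructor
      · intro hx
        obtain ⟨ε, hε, hb⟩ := Metric.isOpen_iff.1 hU' x hx
        obtain ⟨N1, hN1⟩ := cell_pow i (ε / 2) (by positivity)
        obtain ⟨N2, hN2⟩ := cell_pow j (ε / 2) (by positivity)
        refine ⟨⟨(max N1 N2, ⌊(2 : ℝ) ^ (i + ((max N1 N2 : ℕ) : ℤ)) * x 0⌋,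
          ⌊(2 : ℝ) ^ (j + ((max N1 N2 : ℕ) : ℤ)) * x 1⌋), ?_⟩, ?_⟩
        · intro y hy
          apply hb
          rw [Metric.mem_ball, dist_eq_norm]
          have e1 := cell_close _ _ _ hy.1
          have e2 := cell_close _ _ _ hy.2
          have e3 := hN1 (max N1 N2) (le_max_left _ _)
          have e4 := hN2 (max N1 N2) (le_max_right _ _)
          have e5 := cell_norm (y - x)
          have e6 : (y - x) 0 = y 0 - x 0 := rfl
          have e7 : (y - x) 1 = y 1 - x 1 := rfl
          rw [e6, e7] at e5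
          linarith
        · exact ⟨rfl, rfl⟩
      · rintro ⟨p, hp⟩
        exact p.2 hp
    rw [hc]
    apply MeasurableSet.iUnion
    intro p
    apply MeasurableSpace.measurableSet_generateFrom
    right
    exact ⟨_, _, _, rfl⟩
  · apply MeasurableSpace.generateFrom_le
    rintro S (rfl | ⟨N, a, b, rfl⟩)
    · exact MeasurableSet.empty
    · exact cell_meas _ _ _ _

theorem cell_finite (m n a b : ℤ) : volume (cellS m n a b) < ⊤ := by
  have hb : Bornology.IsBounded (cellS m n a b) := by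
    rcases (cellS m n a b).eq_empty_or_nonempty with h | ⟨x, hx⟩
    · rw [h]
      exact Bornology.isBounded_empty
    · apply (Metric.isBounded_iff_subset_closedBall x).2
      refine ⟨(2 : ℝ) ^ (-m) + (2 : ℝ) ^ (-n), ?_⟩
      intro y hy
      rw [Metric.mem_closedBall, dist_eq_norm]
      have e1 := cell_close m (y 0) (x 0) (hy.1.trans hx.1.symm)
      have e2 := cell_close n (y 1) (x 1) (hy.2.trans hx.2.symm)
      have e5 := cell_norm (y - x)
      have e6 : (y - x) 0 = y 0 - x 0 := rfl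
      have e7 : (y - x) 1 = y 1 - x 1 := rfl
      rw [e6, e7] at e5
      linarith
  exact hb.measure_lt_top

/-- an invariant function with mean zero on a cell vanishes there -/
theorem cell_vanish (i j k l : ℤ) (g : E2 → ℂ)
    (hg0 : ∀ p, i ≤ p → (fun x => g (H73.Hyp.fl 0 p x)) =ᵐ[volume] g)
    (hg1 : ∀ p, j ≤ p → (fun x => g (H73.Hyp.fl 1 p x)) =ᵐ[volume] g)
    (hint : ∀ m n a b, IntegrableOn g (cellS m n a b))
    (h0 : ∫ x in cellS i j k l, g x = 0) : ∀ᵐ x : E2, x ∈ cellS i j k l → g x = 0 := by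
  set R := cellS i j k l with hR
  have hRm : MeasurableSet R := cell_meas _ _ _ _
  have hGi : Integrable (R.indicator g) := (integrable_indicator_iff hRm).2 (hint _ _ _ _)
  have hall : ∀ S : Set E2, MeasurableSet S → ∫ x in S, R.indicator g x = 0 := by
    intro S hS
    induction S, hS using MeasurableSpace.induction_on_inter (cell_gen i j) (cell_pi i j) with
    | empty => simp
    | basic T hT =>
      rcases hT with rfl | ⟨N, a, b, rfl⟩
      · simp
      · rw [setIntegral_indicator hRm]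
        have hz := cell_nest i j 0 N k l a b (Nat.zero_le _)
        simp only [Nat.cast_zero, add_zero] at hz
        rw [Set.inter_comm]
        rcases hz with h | h
        · rw [hR, h]
          simp
        · rw [hR, h]
          rcases (cellS (i + N) (j + N) a b).eq_empty_or_nonempty with he | ⟨x, hx⟩
          · rw [he]
            simp
          · have hx2 : x ∈ cellS i j k l := by
              rw [← h] at hx
              exact hx.1
            have ha : a / 2 ^ N = k := by
              rw [← hx.1, ← hx2.1]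
              exact cell_iter i N (x 0)
            have hb : b / 2 ^ N = l := by
              rw [← hx.2, ← hx2.2]
              exact cell_iter j N (x 1)
            exact cell_sub1 hg1 hint (i + N) a (cell_sub0 hg0 hint h0 N a ha) N b hb
    | compl T hT ih =>
      have h1 := integral_add_compl hT hGi
      have h2 : ∫ x, R.indicator g x = 0 := by
        rw [integral_indicator hRm]
        exact h0
      rw [ih, zero_add, h2] at h1
      exact h1
    | iUnion T hd hT ih =>
      rw [integral_iUnion hT hd hGi.integrableOn]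
      simp [ih]
  have hz := hGi.ae_eq_zero_of_forall_setIntegral_eq_zero fun S hS _ => hall S hS
  filter_upwards [hz] with x hx hxR
  rw [Set.indicator_of_mem hxR] at hx
  exact hx

/-- TR2 -/
theorem cell : SCell := by
  intro i j f hf0 hf1
  have hI : ∀ m n a b, IntegrableOn (fun x : E2 => f x) (cellS m n a b) := by
    intro m n a b
    have : IsFiniteMeasure ((volume : Measure E2).restrict (cellS m n a b)) :=
      ⟨by rw [Measure.restrict_apply_univ]; exact cell_finite m n a b⟩
    exact (((memLp2 f).restrict (cellS m n a b)).integrable one_le_two)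
  refine ⟨fun k l => (∫ x in cellS i j k l, f x) / ((volume.real (cellS i j k l) : ℝ) : ℂ), ?_⟩
  have key : ∀ k l : ℤ, ∀ᵐ x : E2, x ∈ cellS i j k l →
      f x - (∫ x in cellS i j k l, f x) / ((volume.real (cellS i j k l) : ℝ) : ℂ) = 0 := by
    intro k l
    set c : ℂ := (∫ x in cellS i j k l, f x) / ((volume.real (cellS i j k l) : ℝ) : ℂ) with hc
    have hinv0 : ∀ p, i ≤ p → (fun x => f (H73.Hyp.fl 0 p x) - c) =ᵐ[volume] fun x => f x - c := by
      intro p hp
      have h1 := Uf_coe 0 p f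
      rw [hf0 p hp] at h1
      filter_upwards [h1] with x hx
      rw [← hx]
    have hinv1 : ∀ p, j ≤ p → (fun x => f (H73.Hyp.fl 1 p x) - c) =ᵐ[volume] fun x => f x - c := by
      intro p hp
      have h1 := Uf_coe 1 p f
      rw [hf1 p hp] at h1
      filter_upwards [h1] with x hx
      rw [← hx]
    have hci : ∀ m n a b, IntegrableOn (fun _ : E2 => c) (cellS m n a b) := fun m n a b =>
      integrableOn_const (cell_finite m n a b).ne
    refine cell_vanish i j k l (fun x => f x - c) hinv0 hinv1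
      (fun m n a b => (hI m n a b).sub (hci m n a b)) ?_
    rw [integral_sub (hI i j k l) (hci i j k l), setIntegral_const]
    by_cases hv : volume.real (cellS i j k l) = 0
    · rw [hv]
      have hz : volume (cellS i j k l) = 0 := by
        rcases (ENNReal.toReal_eq_zero_iff _).1 hv with h | h
        · exact h
        · exact absurd h (cell_finite i j k l).ne
      rw [Measure.restrict_eq_zero.2 hz]
      simp
    · rw [hc, Complex.real_smul]
      have hv' : ((volume.real (cellS i j k l) : ℝ) : ℂ) ≠ 0 := by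
        exact_mod_cast hv
      field_simp
      simp
  have key2 : ∀ᵐ x : E2, ∀ k l : ℤ, x ∈ cellS i j k l →
      f x - (∫ x in cellS i j k l, f x) / ((volume.real (cellS i j k l) : ℝ) : ℂ) = 0 := by
    rw [ae_all_iff]
    intro k
    rw [ae_all_iff]
    exact key k
  filter_upwards [key2] with x hx
  have := hx _ _ (show x ∈ cellS i j ⌊(2 : ℝ) ^ i * x 0⌋ ⌊(2 : ℝ) ^ j * x 1⌋ from ⟨rfl, rfl⟩)
  exact sub_eq_zero.1 this

end Pool.Agent.H79.RT
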