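import Pool.Agent.H79.RT.StmR

/-!
# MP_a7284e_an, project RT: convergence for dominated functions (row TR9)
-/

set_option autoImplicit false

namespace Pool.Agent.H79.RT

open MeasureTheory FourierTransform Filter Topology Finset Classical
open Pool.Agent.H73.Hyp

/-- almost everywhere convergence is closed under approximation with small majorants -/
lemma cv_lim (f : L2) (hX : ∀ ε : ℝ, 0 < ε → ∃ g : L2, ‖f - g‖ ^ 2 ≤ ε ∧
    MajZ (fun k => Hc k (f - g)) ε ∧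
    ∀ᵐ x : E2, Tendsto (fun k : ℕ => Hc k g x) atTop (𝓝 (g x))) :
    ∀ᵐ x : E2, Tendsto (fun k : ℕ => Hc k f x) atTop (𝓝 (f x)) := by
  have hpos : ∀ s : ℕ, (0 : ℝ) < (1 / 4) ^ s := fun s => by positivity
  have hgeo : Summable fun s : ℕ => ((1 : ℝ) / 4) ^ s :=
    summable_geometric_of_lt_one (by norm_num) (by norm_num)
  choose g g1 g2 g3 using fun s : ℕ => hX ((1 / 4) ^ s) (hpos s)
  choose G G1 G2 G3 using g2
  -- the majorants
  have hmax : ∀ s, ∫ x, max (G s x) 0 ≤ (1 / 4) ^ s := by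
    intro s
    have h1 : ∫ x, max (G s x) 0 = ∫ x, G s x := by
      refine integral_congr_ae ?_
      filter_upwards [G2 s] with x hx
      exact max_eq_left ((sq_nonneg _).trans (hx 0))
    rw [h1]
    exact G3 s
  obtain ⟨S, -, -, s3, -⟩ := exists_sum (fun s x => max (G s x) 0) (fun s => (G1 s).pos_part)
    (fun s x => le_max_right _ _) (Summable.of_nonneg_of_le
      (fun s => integral_nonneg fun x => le_max_right _ _) hmax hgeo)
  have hz := ae_zero_of_summable (fun s => f - g s)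
    (Summable.of_nonneg_of_le (fun s => sq_nonneg _) g1 hgeo)
  have hid : ∀ᵐ x : E2, ∀ (s k : ℕ), Hc k f x - f x =
      (Hc k (f - g s) x - (f - g s : L2) x) + (Hc k (g s) x - g s x) := by
    refine ae_all_iff.2 fun s => ae_all_iff.2 fun k => ?_
    have e : Hc k f - f = (Hc k (f - g s) - (f - g s)) + (Hc k (g s) - g s) := by
      rw [map_sub]
      abel
    filter_upwards [Lp.coeFn_sub (Hc k f) f, Lp.coeFn_sub (Hc k (f - g s)) (f - g s),
      Lp.coeFn_sub (Hc k (g s)) (g s),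
      Lp.coeFn_add (Hc k (f - g s) - (f - g s)) (Hc k (g s) - g s)] with x a1 a2 a3 a4
    rw [e, a4, Pi.add_apply, a2, a3] at a1
    exact a1.symm
  filter_upwards [s3, hz, hid, ae_all_iff.2 G2, ae_all_iff.2 g3] with x x1 x2 x3 x4 x5
  have t1 := x1.summable.tendsto_atTop_zero.sqrt
  simp only [Real.sqrt_zero] at t1
  have t2 := t1.add x2.norm
  rw [norm_zero, add_zero] at t2
  rw [Metric.tendsto_atTop]
  intro ε hε
  obtain ⟨J, hJ⟩ := (Metric.tendsto_atTop.1 t2) (ε / 2) (by positivity)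
  have hJJ := hJ J le_rfl
  rw [Real.dist_eq, sub_zero, abs_of_nonneg (by positivity)] at hJJ
  obtain ⟨K, hK⟩ := (Metric.tendsto_atTop.1 (x5 J)) (ε / 2) (by positivity)
  refine ⟨K, fun k hk => ?_⟩
  have h1 := hK k hk
  rw [dist_eq_norm] at h1 ⊢
  rw [x3 J k]
  have h2 : ‖Hc k (f - g J) x‖ ≤ √(max (G J x) 0) :=
    Real.le_sqrt_of_sq_le ((x4 J k).trans (le_max_left _ _))
  have h3 := norm_sub_le (Hc k (f - g J) x) ((f - g J : L2) x)
  have h4 := norm_add_le (Hc k (f - g J) x - (f - g J : L2) x) (Hc k (g J) x - g J x)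
  linarith

/-- small tails -/
lemma cv_tail (a : ℤ × ℤ → ℝ) (sa : Summable fun p => a p ^ 2) (δ : ℝ) (hδ : 0 < δ) :
    ∃ N0 : ℕ, ∀ N : ℕ, N0 ≤ N →
      ∑' p : ℤ × ℤ, (if p.1 < (N : ℤ) then 0 else a p) ^ 2 ≤ δ := by
  have h1 : Tendsto (fun N : ℕ => ∑' p : ℤ × ℤ, (if p.1 < (N : ℤ) then 0 else a p) ^ 2) atTop
      (𝓝 (∑' _ : ℤ × ℤ, (0 : ℝ))) := by
    refine tendsto_tsum_of_dominated_convergence (bound := fun p => a p ^ 2) sa ?_ ?_
    · intro p
      refine tendsto_const_nhds.congr' ?_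
      filter_upwards [eventually_gt_atTop p.1.toNat] with N hN
      have h2 : p.1 < (N : ℤ) := by
        have := Int.self_le_toNat p.1
        omega
      rw [if_pos h2]
      norm_num
    · refine Filter.Eventually.of_forall fun N p => ?_
      split
      · simp only [ne_eq, OfNat.ofNat_ne_zero, not_false_eq_true, zero_pow, norm_zero]
        exact sq_nonneg _
      · rw [Real.norm_of_nonneg (sq_nonneg _)]
  rw [tsum_zero] at h1
  obtain ⟨N0, hN0⟩ := eventually_atTop.1 (h1.eventually (eventually_le_nhds hδ))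
  exact ⟨N0, hN0⟩

lemma cv_sum (a : ℤ × ℤ → ℝ) (sa : Summable fun p => a p ^ 2) (N : ℕ) :
    Summable fun p : ℤ × ℤ => (if p.1 < (N : ℤ) then 0 else a p) ^ 2 := by
  refine Summable.of_nonneg_of_le (fun p => sq_nonneg _) (fun p => ?_) sa
  split
  · simp only [ne_eq, OfNat.ofNat_ne_zero, not_false_eq_true, zero_pow]
    exact sq_nonneg _
  · exact le_rfl

/-- small dominated functions -/
lemma cv_small {C : ℝ} (hC : 0 ≤ C) (hmax : ∀ (f : L2) (M : ℝ), 0 ≤ M → Dom f M → ‖f‖ ≤ M ∧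
    ∀ K : Finset ℤ, K.Nonempty → Maj K (fun k => Hc k f) (C * M ^ 2)) (h4 : SSup) {f : L2}
    {ε : ℝ} (hε : 0 < ε) (a b : ℤ × ℤ → ℝ) (ha : ∀ p, 0 ≤ a p) (hb : ∀ q, 0 ≤ b q)
    (sa : Summable fun p => a p ^ 2) (sb : Summable fun q => b q ^ 2)
    (hab : (∑' p, a p ^ 2) * (∑' q, b q ^ 2) ≤ ε / (C + 1))
    (hd : ∀ p q, ‖cf f p q‖ ≤ a p * b q) : ‖f‖ ^ 2 ≤ ε ∧ MajZ (fun k => Hc k f) ε := by
  have hC1 : 0 < C + 1 := by linarith
  have hq : 0 ≤ ε / (C + 1) := by positivity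
  have hM : √(ε / (C + 1)) ^ 2 = ε / (C + 1) := Real.sq_sqrt hq
  have hle : ε / (C + 1) ≤ ε := div_le_self hε.le (by linarith)
  obtain ⟨e1, e2⟩ := hmax f (√(ε / (C + 1))) (Real.sqrt_nonneg _)
    ⟨a, b, ha, hb, sa, sb, by rw [hM]; exact hab, hd⟩
  constructor
  · calc ‖f‖ ^ 2 ≤ √(ε / (C + 1)) ^ 2 := by
          exact pow_le_pow_left₀ (norm_nonneg _) e1 2
      _ ≤ ε := by rw [hM]; exact hle
  · refine h4 _ _ fun K hK => (e2 K hK).mono ?_
    rw [hM, ← mul_div_assoc, div_le_iff₀ hC1]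
    nlinarith

/-- row TR9 -/
theorem conv (h1 : SMaxD) (h2 : SCf) (h3 : SStep) (h4 : SSup) : SConv := by
  intro f M hM hD
  obtain ⟨a, b, ha, hb, sa, sb, -, hd⟩ := hD
  obtain ⟨C, hC, hmax⟩ := h1
  obtain ⟨c0, c1, cs, -⟩ := h2
  have hC1 : 0 < C + 1 := by linarith
  have hA : 0 ≤ ∑' p, a p ^ 2 := tsum_nonneg fun p => sq_nonneg _
  have hB : 0 ≤ ∑' q, b q ^ 2 := tsum_nonneg fun q => sq_nonneg _
  refine cv_lim f fun ε hε => ?_
  obtain ⟨N, hN⟩ := cv_tail a sa (ε / (C + 1) / (∑' q, b q ^ 2 + 1)) (by positivity)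
  have hN' := hN N le_rfl
  have hsm := cv_small hC hmax h4 (f := f - Ep (Uf 0) N f) hε
    (fun p => if p.1 < (N : ℤ) then 0 else a p) b
    (fun p => by split <;> [exact le_rfl; exact ha p]) hb (cv_sum a sa N) sb
    (by
      calc _ ≤ ε / (C + 1) / (∑' q, b q ^ 2 + 1) * (∑' q, b q ^ 2) :=
            mul_le_mul_of_nonneg_right hN' hB
        _ ≤ ε / (C + 1) / (∑' q, b q ^ 2 + 1) * (∑' q, b q ^ 2 + 1) :=
            mul_le_mul_of_nonneg_left (by linarith) (by positivity)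
        _ = ε / (C + 1) := div_mul_cancel₀ _ (by positivity))
    (by
      intro p q
      rw [cs, c0]
      split
      · simp
      · rw [sub_zero]
        exact hd p q)
  refine ⟨Ep (Uf 0) N f, hsm.1, hsm.2, ?_⟩
  refine cv_lim (Ep (Uf 0) N f) fun ε' hε' => ?_
  obtain ⟨N1, hN1⟩ := cv_tail b sb (ε' / (C + 1) / (∑' p, a p ^ 2 + 1)) (by positivity)
  obtain ⟨N2, hN2, hNN⟩ : ∃ N2 : ℕ, N1 ≤ N2 ∧ N ≤ N2 := ⟨max N1 N, le_max_left _ _,
    le_max_right _ _⟩
  have hN2' := hN1 N2 hN2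
  have hd' : ∀ p q, ‖cf (Ep (Uf 0) N f) p q‖ ≤ a p * b q := by
    intro p q
    rw [c0]
    split
    · exact hd p q
    · rw [norm_zero]
      exact mul_nonneg (ha p) (hb q)
  have hsm2 := cv_small hC hmax h4 (f := Ep (Uf 0) N f - Ep (Uf 1) N2 (Ep (Uf 0) N f)) hε'
    a (fun q => if q.1 < (N2 : ℤ) then 0 else b q) ha
    (fun q => by split <;> [exact le_rfl; exact hb q]) sa (cv_sum b sb N2)
    (by
      calc _ ≤ (∑' p, a p ^ 2) * (ε' / (C + 1) / (∑' p, a p ^ 2 + 1)) :=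
            mul_le_mul_of_nonneg_left hN2' hA
        _ ≤ (∑' p, a p ^ 2 + 1) * (ε' / (C + 1) / (∑' p, a p ^ 2 + 1)) :=
            mul_le_mul_of_nonneg_right (by linarith) (by positivity)
        _ = ε' / (C + 1) := mul_div_cancel₀ _ (by positivity))
    (by
      intro p q
      rw [cs, c1]
      split
      · simp
      · rw [sub_zero]
        exact hd' p q)
  refine ⟨Ep (Uf 1) N2 (Ep (Uf 0) N f), hsm2.1, hsm2.2, h3 N2 _ ?_ (Ep_mem _ _ _)⟩
  rw [← Ep0_Ep1]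
  exact Wf_mono _ (by exact_mod_cast hNN) (Ep_mem _ _ _)

end Pool.Agent.H79.RT
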