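import Pool.Agent.H79.RT.Basic

/-!
# MP_a7284e_an, project RT, row RT12: the anchors are dense in the clock of the energy
-/

set_option autoImplicit false

namespace Pool.Agent.H79.RT

open Finset Classical

theorem dns_mono {p : ℕ → ℝ} (hp : ∀ i, 0 ≤ p i) {a b : ℕ} (h : a ≤ b) :
    ∑ l ∈ range a, p l ≤ ∑ l ∈ range b, p l :=
  sum_le_sum_of_subset_of_nonneg (range_mono h) fun i _ _ => hp i

theorem dns_ico {p : ℕ → ℝ} {a b : ℕ} (h : a ≤ b) :
    ∑ l ∈ Ico a b, p l = ∑ l ∈ range b, p l - ∑ l ∈ range a, p l :=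
  sum_Ico_eq_sub p h

/-- the index of the last anchor level below `P_i` -/
noncomputable def dnsR (p : ℕ → ℝ) (s i : ℕ) : ℕ := ⌊(∑ l ∈ range (i + 1), p l) * 2 ^ s⌋₊

theorem dnsR_le {p : ℕ → ℝ} (hp : ∀ i, 0 ≤ p i) (s i : ℕ) :
    ((dnsR p s i : ℕ) : ℝ) / 2 ^ s ≤ ∑ l ∈ range (i + 1), p l := by
  have h2 : (0 : ℝ) < 2 ^ s := by positivity
  rw [div_le_iff₀ h2]
  exact Nat.floor_le (mul_nonneg (sum_nonneg fun l _ => hp l) h2.le)

theorem dnsR_lt (p : ℕ → ℝ) (s i : ℕ) :
    ∑ l ∈ range (i + 1), p l < ((dnsR p s i : ℕ) : ℝ) / 2 ^ s + 1 / 2 ^ s := by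
  have h2 : (0 : ℝ) < 2 ^ s := by positivity
  rw [← add_div, lt_div_iff₀ h2]
  exact Nat.lt_floor_add_one _

theorem dnsR_bd {p : ℕ → ℝ} (hp : ∀ i, 0 ≤ p i) {N : ℕ} (hN : ∑ i ∈ range N, p i ≤ 1) (s i : ℕ)
    (hi : i < N) : dnsR p s i ≤ 2 ^ s := by
  have h2 : (0 : ℝ) < 2 ^ s := by positivity
  have h1 : (((dnsR p s i : ℕ) : ℝ)) ≤ ((2 ^ s : ℕ) : ℝ) := by
    have h3 := dnsR_le hp s i
    rw [div_le_iff₀ h2] at h3
    have h4 : ∑ l ∈ range (i + 1), p l ≤ 1 := (dns_mono hp (by omega)).trans hN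
    push_cast
    calc ((dnsR p s i : ℕ) : ℝ) ≤ (∑ l ∈ range (i + 1), p l) * 2 ^ s := h3
      _ ≤ 1 * 2 ^ s := mul_le_mul_of_nonneg_right h4 h2.le
      _ = 2 ^ s := one_mul _
  exact_mod_cast h1

theorem dens (h1 : SHit) : SDens := by
  intro N p q hp hq hP hQ s k hk
  obtain ⟨-, hb, hc, -⟩ := h1
  have h2 : (0 : ℝ) < 2 ^ s := by positivity
  have hδ : (0 : ℝ) ≤ 1 / 2 ^ s := by positivity
  set a : ℕ → ℕ := fun r => hit N p ((r : ℝ) / 2 ^ s) with ha
  set b : ℕ → ℕ := fun r => hit N q ((r : ℝ) / 2 ^ s) with hbb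
  have ha0 : a 0 = 0 := (hb N p _).2 (by simp) hp
  have hb0 : b 0 = 0 := (hb N q _).2 (by simp) hq
  -- the largest anchor
  have hne : (((range (2 ^ s + 1)) ×ˢ (range (2 ^ s + 1))).filter
      fun z : ℕ × ℕ => a z.1 + b z.2 ≤ k).Nonempty := by
    refine ⟨(0, 0), ?_⟩
    rw [mem_filter, mem_product]
    exact ⟨⟨mem_range.2 (Nat.succ_pos _), mem_range.2 (Nat.succ_pos _)⟩,
      by simp only [ha0, hb0]; omega⟩
  obtain ⟨⟨r, r'⟩, hz, hmax⟩ := exists_max_image _ (fun z : ℕ × ℕ => a z.1 + b z.2) hne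
  rw [mem_filter, mem_product, mem_range, mem_range] at hz
  obtain ⟨⟨hr, hr'⟩, hT⟩ := hz
  simp only at hr hr' hT hmax
  set T : ℕ := a r + b r' with hTdef
  have hmax' : ∀ x y, x ≤ 2 ^ s → y ≤ 2 ^ s → a x + b y ≤ k → a x + b y ≤ T := by
    intro x y hx hy hxy
    refine hmax (x, y) ?_
    rw [mem_filter, mem_product, mem_range, mem_range]
    exact ⟨⟨by omega, by omega⟩, hxy⟩
  -- (A)
  have hA : ∀ x, x ≤ 2 ^ s → a x ≤ k →
      ∑ j ∈ range N, (if T < a x + j ∧ a x + j ≤ k then q j else 0) ≤ 1 / 2 ^ s := by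
    intro x hx hxk
    have hm : k - a x < N := by omega
    have h3 : b (dnsR q s (k - a x)) ≤ k - a x := (hc N q _ hq _ hm).2 (dnsR_le hq s _)
    have h4 := hmax' x (dnsR q s (k - a x)) hx (dnsR_bd hq hQ s _ hm) (by omega)
    have h5 : b (dnsR q s (k - a x)) ≤ T - a x := by omega
    have h6 : T - a x < N := by omega
    have h7 := (hc N q _ hq _ h6).1 h5
    have h8 := dnsR_lt q s (k - a x)
    rw [← sum_filter]
    have h9 : ((range N).filter fun j => T < a x + j ∧ a x + j ≤ k) ⊆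
        Ico (T - a x + 1) (k - a x + 1) := by
      intro j hj
      rw [mem_filter] at hj
      rw [mem_Ico]
      omega
    refine (sum_le_sum_of_subset_of_nonneg h9 fun i _ _ => hq i).trans ?_
    rw [dns_ico (by omega)]
    linarith
  -- (C)
  have hC : ∀ j, ∑ i ∈ range N,
      (if a (dnsR p s i) + j ≤ T ∧ T < i + j then p i else 0) ≤ 1 / 2 ^ s := by
    intro j
    rw [← sum_filter]
    rcases ((range N).filter fun i => a (dnsR p s i) + j ≤ T ∧ T < i + j).eq_empty_or_nonempty with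
      he | he
    · rw [he, sum_empty]
      exact hδ
    · obtain ⟨i0, hi0, hi1⟩ := exists_max_image _ (fun i : ℕ => i) he
      rw [mem_filter, mem_range] at hi0
      obtain ⟨h3, h4, h5⟩ := hi0
      have h6 : T - j < N := by omega
      have h7 : a (dnsR p s i0) ≤ T - j := by omega
      have h8 := (hc N p _ hp _ h6).1 h7
      have h9 := dnsR_lt p s i0
      have h10 : ((range N).filter fun i => a (dnsR p s i) + j ≤ T ∧ T < i + j) ⊆
          Ico (T - j + 1) (i0 + 1) := by
        intro i hi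
        have h11 := hi1 i hi
        rw [mem_filter] at hi
        rw [mem_Ico]
        omega
      refine (sum_le_sum_of_subset_of_nonneg h10 fun i _ _ => hp i).trans ?_
      rw [dns_ico (by omega)]
      linarith
  -- (B)
  have hB : ∀ i ∈ range N, ∑ j ∈ range N, (if T < i + j ∧ i + j ≤ k then p i * q j else 0) ≤
      p i * (1 / 2 ^ s) + ∑ j ∈ range N,
        (if a (dnsR p s i) + j ≤ T ∧ T < i + j then p i * q j else 0) := by
    intro i hi
    rw [mem_range] at hi
    have hai : a (dnsR p s i) ≤ i := (hc N p _ hp _ hi).2 (dnsR_le hp s i)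
    rcases Nat.lt_or_ge k i with hki | hki
    · have h3 : ∑ j ∈ range N, (if T < i + j ∧ i + j ≤ k then p i * q j else 0) = 0 := by
        refine sum_eq_zero fun j _ => if_neg ?_
        omega
      rw [h3]
      refine add_nonneg (mul_nonneg (hp i) hδ) (sum_nonneg fun j _ => ?_)
      split_ifs
      · exact mul_nonneg (hp i) (hq j)
      · exact le_rfl
    · have h3 := hA (dnsR p s i) (dnsR_bd hp hP s i hi) (by omega)
      have h4 : ∀ j ∈ range N, (if T < i + j ∧ i + j ≤ k then p i * q j else 0) ≤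
          p i * (if T < a (dnsR p s i) + j ∧ a (dnsR p s i) + j ≤ k then q j else 0) +
          (if a (dnsR p s i) + j ≤ T ∧ T < i + j then p i * q j else 0) := by
        intro j _
        have h5 : 0 ≤ p i * q j := mul_nonneg (hp i) (hq j)
        by_cases h6 : T < i + j ∧ i + j ≤ k
        · rw [if_pos h6]
          by_cases h7 : T < a (dnsR p s i) + j
          · rw [if_pos (show T < a (dnsR p s i) + j ∧ a (dnsR p s i) + j ≤ k from
              ⟨h7, by omega⟩)]
            have h8 : (0 : ℝ) ≤ (if a (dnsR p s i) + j ≤ T ∧ T < i + j then p i * q j else 0) := by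
              split_ifs
              · exact h5
              · exact le_rfl
            linarith
          · rw [if_pos (show a (dnsR p s i) + j ≤ T ∧ T < i + j from ⟨by omega, h6.1⟩)]
            have h8 : 0 ≤ p i *
                (if T < a (dnsR p s i) + j ∧ a (dnsR p s i) + j ≤ k then q j else 0) := by
              refine mul_nonneg (hp i) ?_
              split_ifs
              · exact hq j
              · exact le_rfl
            linarith
        · rw [if_neg h6]
          refine add_nonneg (mul_nonneg (hp i) ?_) ?_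
          · split_ifs
            · exact hq j
            · exact le_rfl
          · split_ifs
            · exact h5
            · exact le_rfl
      refine (sum_le_sum h4).trans ?_
      rw [sum_add_distrib, ← mul_sum]
      have h9 := mul_le_mul_of_nonneg_left h3 (hp i)
      linarith
  refine ⟨r, r', by omega, by omega, hT, ?_⟩
  change ∑ i ∈ range N, ∑ j ∈ range N, (if T < i + j ∧ i + j ≤ k then p i * q j else 0) ≤
    3 / 2 ^ s
  refine (sum_le_sum hB).trans ?_
  rw [sum_add_distrib, ← sum_mul, sum_comm]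
  have h5 : ∀ j ∈ range N, ∑ i ∈ range N,
      (if a (dnsR p s i) + j ≤ T ∧ T < i + j then p i * q j else 0) ≤ 1 / 2 ^ s * q j := by
    intro j _
    have h6 : ∑ i ∈ range N, (if a (dnsR p s i) + j ≤ T ∧ T < i + j then p i * q j else 0) =
        (∑ i ∈ range N, (if a (dnsR p s i) + j ≤ T ∧ T < i + j then p i else 0)) * q j := by
      rw [sum_mul]
      refine sum_congr rfl fun i _ => ?_
      split_ifs
      · rfl
      · rw [zero_mul]
    rw [h6]
    exact mul_le_mul_of_nonneg_right (hC j) (hq j)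
  have h7 := sum_le_sum h5
  rw [← mul_sum] at h7
  have h8 : (∑ i ∈ range N, p i) * (1 / 2 ^ s) ≤ 1 * (1 / 2 ^ s) :=
    mul_le_mul_of_nonneg_right hP hδ
  have h9 : 1 / 2 ^ s * (∑ i ∈ range N, q i) ≤ 1 / 2 ^ s * 1 :=
    mul_le_mul_of_nonneg_left hQ hδ
  have h10 : (3 : ℝ) / 2 ^ s = 1 / 2 ^ s + 1 / 2 ^ s + 1 / 2 ^ s := by ring
  rw [h10]
  linarith

end Pool.Agent.H79.RT
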