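import Pool.Agent.H79.RT.FinA

/-!
# MP_a7284e_an, project RT, row RT15: extrapolation
-/

set_option autoImplicit false

namespace Pool.Agent.H79.RT

open Finset Classical

/-! ### arrays -/

theorem fin_arr {n m : ℕ} {D : ℕ → ℕ → Q n → Q m → ℝ} {α : ℕ → Q n → ℝ} {β : ℕ → Q m → ℝ}
    (h : Arr n m D α β) (X : ℕ → Q n → ℝ) (Y : ℕ → Q m → ℝ) (hX : ∀ i, Inv i (X i))
    (hX0 : ∀ i x, 0 ≤ X i x) (hY : ∀ j, Inv j (Y j)) (hY0 : ∀ j y, 0 ≤ Y j y) :
    Arr n m (fun i j x y => D i j x y * (X i x * Y j y)) (fun i x => α i x * X i x)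
      (fun j y => β j y * Y j y) where
  odx i j y x := by
    have h1 : D i j (fl i x) y = -D i j x y := h.odx i j y x
    have h2 : X i (fl i x) = X i x := hX i i le_rfl x
    show D i j (fl i x) y * (X i (fl i x) * Y j y) = -(D i j x y * (X i x * Y j y))
    rw [h1, h2]; ring
  invx i j y l hl x := by
    have h1 : D i j (fl l x) y = D i j x y := h.invx i j y l hl x
    have h2 : X i (fl l x) = X i x := hX i l (by omega) x
    show D i j (fl l x) y * (X i (fl l x) * Y j y) = D i j x y * (X i x * Y j y)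
    rw [h1, h2]
  ody i j x y := by
    have h1 : D i j x (fl j y) = -D i j x y := h.ody i j x y
    have h2 : Y j (fl j y) = Y j y := hY j j le_rfl y
    show D i j x (fl j y) * (X i x * Y j (fl j y)) = -(D i j x y * (X i x * Y j y))
    rw [h1, h2]; ring
  invy i j x l hl y := by
    have h1 : D i j x (fl l y) = D i j x y := h.invy i j x l hl y
    have h2 : Y j (fl l y) = Y j y := hY j l (by omega) y
    show D i j x (fl l y) * (X i x * Y j (fl l y)) = D i j x y * (X i x * Y j y)
    rw [h1, h2]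
  pa i l hl x := by
    show α i (fl l x) * X i (fl l x) = α i x * X i x
    rw [h.pa i l hl x, hX i l hl x]
  pb j l hl y := by
    show β j (fl l y) * Y j (fl l y) = β j y * Y j y
    rw [h.pb j l hl y, hY j l hl y]
  na i x := mul_nonneg (h.na i x) (hX0 i x)
  nb j y := mul_nonneg (h.nb j y) (hY0 j y)
  dom i j x y := by
    have h0 : 0 ≤ X i x * Y j y := mul_nonneg (hX0 i x) (hY0 j y)
    rw [abs_mul, abs_of_nonneg h0]
    calc |D i j x y| * (X i x * Y j y) ≤ α i x * β j y * (X i x * Y j y) :=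
          mul_le_mul_of_nonneg_right (h.dom i j x y) h0
      _ = α i x * X i x * (β j y * Y j y) := by ring
  za i hi x := by rw [h.za i hi x, zero_mul]
  zb j hj y := by rw [h.zb j hj y, zero_mul]

theorem fin_MX {n m : ℕ} {ι : Type*} (s : Finset ι) (c : ι → ℝ) (hc : ∀ q ∈ s, 0 ≤ c q)
    (D : ℕ → ℕ → Q n → Q m → ℝ) (E : ι → ℕ → ℕ → Q n → Q m → ℝ) (x : Q n) (y : Q m)
    (h : ∀ i < n, ∀ j < m, D i j x y = ∑ q ∈ s, c q * E q i j x y) :
    MX D x y ≤ ∑ q ∈ s, c q * MX (E q) x y := by
  refine MX_le fun k _ => ?_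
  have e1 : XS D k x y = ∑ q ∈ s, c q * XS (E q) k x y := by
    symm
    unfold XS
    simp_rw [mul_sum]
    rw [sum_comm]
    refine sum_congr rfl fun i hi => ?_
    rw [sum_comm]
    refine sum_congr rfl fun j hj => ?_
    rw [mem_range] at hi hj
    split_ifs
    · exact (h i hi j hj).symm
    · simp
  rw [e1]
  refine (abs_sum_le_sum_abs _ _).trans (sum_le_sum fun q hq => ?_)
  rw [abs_mul, abs_of_nonneg (hc q hq)]
  exact mul_le_mul_of_nonneg_left (abs_XS_le_MX _ _ _ _) (hc q hq)

theorem fin_MX_zero {n m : ℕ} {D : ℕ → ℕ → Q n → Q m → ℝ} {x : Q n} {y : Q m}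
    (h : ∀ i < n, ∀ j < m, D i j x y = 0) : MX D x y = 0 := by
  refine le_antisymm (MX_le fun k _ => ?_) (MX_nonneg _ _ _)
  have : XS D k x y = 0 := by
    unfold XS
    refine sum_eq_zero fun i hi => sum_eq_zero fun j hj => ?_
    rw [mem_range] at hi hj
    rw [h i hi j hj, ite_self]
  rw [this, abs_zero]

/-- the pointwise Cauchy-Schwarz inequality -/
theorem fin_cs {n m : ℕ} (A : Q n → ℝ) (B : Q m → ℝ) {g g' : ℝ} (hg : 0 < g) (hg' : 0 < g')
    (L L' : ℕ) (x : Q n) (y : Q m) (M : ℕ × ℕ → ℝ)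
    (hM : ∀ q, M q = finU A g q.1 x * finU B g' q.2 y * M q) :
    (∑ q ∈ range L ×ˢ range L', finLev g (q.1 + 1) ^ 2 * finLev g' (q.2 + 1) ^ 2 * M q) ^ 2 ≤
      256 * ∑ q ∈ range L ×ˢ range L', finLev g q.1 ^ 3 * finLev g' q.2 ^ 3 *
        ((finU A g q.1 x * finW A g L x * (finU B g' q.2 y * finW B g' L' y)) * M q ^ 2) := by
  have hW : finW A g L x * finW B g' L' y = ∑ q ∈ range L ×ˢ range L',
      finLev g q.1 * finLev g' q.2 * (finU A g q.1 x * finU B g' q.2 y) := by
    unfold finW
    rw [sum_mul_sum, sum_product]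
    refine sum_congr rfl fun k _ => sum_congr rfl fun l _ => ?_
    ring
  have h1 : (∑ q ∈ range L ×ˢ range L', finLev g q.1 ^ 2 * finLev g' q.2 ^ 2 * M q) ^ 2 ≤
      (∑ q ∈ range L ×ˢ range L', finLev g q.1 * finLev g' q.2 *
        (finU A g q.1 x * finU B g' q.2 y)) *
      ∑ q ∈ range L ×ˢ range L', finLev g q.1 ^ 3 * finLev g' q.2 ^ 3 * M q ^ 2 := by
    refine sum_sq_le_sum_mul_sum_of_sq_le_mul _ (fun q _ => ?_) (fun q _ => ?_)
      fun q _ => le_of_eq ?_
    · have := finLev_pos hg q.1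
      have := finLev_pos hg' q.2
      have := finU_nonneg A g q.1 x
      have := finU_nonneg B g' q.2 y
      positivity
    · have := finLev_pos hg q.1
      have := finLev_pos hg' q.2
      positivity
    · have h2 : M q ^ 2 = finU A g q.1 x * finU B g' q.2 y * M q ^ 2 := by
        rw [sq, ← mul_assoc, ← hM q]
      calc (finLev g q.1 ^ 2 * finLev g' q.2 ^ 2 * M q) ^ 2
          = finLev g q.1 ^ 4 * finLev g' q.2 ^ 4 * M q ^ 2 := by ring
        _ = finLev g q.1 ^ 4 * finLev g' q.2 ^ 4 *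
            (finU A g q.1 x * finU B g' q.2 y * M q ^ 2) := by rw [← h2]
        _ = _ := by ring
  have h3 : ∑ q ∈ range L ×ˢ range L', finLev g (q.1 + 1) ^ 2 * finLev g' (q.2 + 1) ^ 2 * M q =
      16 * ∑ q ∈ range L ×ˢ range L', finLev g q.1 ^ 2 * finLev g' q.2 ^ 2 * M q := by
    rw [mul_sum]
    refine sum_congr rfl fun q _ => ?_
    rw [finLev_succ, finLev_succ]; ring
  rw [h3, mul_pow]
  have h4 : ∑ q ∈ range L ×ˢ range L', finLev g q.1 ^ 3 * finLev g' q.2 ^ 3 *
        ((finU A g q.1 x * finW A g L x * (finU B g' q.2 y * finW B g' L' y)) * M q ^ 2) =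
      (finW A g L x * finW B g' L' y) *
        ∑ q ∈ range L ×ˢ range L', finLev g q.1 ^ 3 * finLev g' q.2 ^ 3 * M q ^ 2 := by
    rw [mul_sum]
    refine sum_congr rfl fun q _ => ?_
    have h2 : M q ^ 2 = finU A g q.1 x * finU B g' q.2 y * M q ^ 2 := by
      rw [sq, ← mul_assoc, ← hM q]
    calc finLev g q.1 ^ 3 * finLev g' q.2 ^ 3 *
        ((finU A g q.1 x * finW A g L x * (finU B g' q.2 y * finW B g' L' y)) * M q ^ 2)
        = finW A g L x * finW B g' L' y * (finLev g q.1 ^ 3 * finLev g' q.2 ^ 3 *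
            (finU A g q.1 x * finU B g' q.2 y * M q ^ 2)) := by ring
      _ = _ := by rw [← h2]
  rw [h4, hW]
  norm_num
  exact h1

/-- one term -/
theorem fin_term {n m : ℕ} (F : Q n → ℝ) (G : Q m → ℝ) (M : Q n → Q m → ℝ) {C p q : ℝ}
    (hC : 0 ≤ C) (hp : 0 ≤ p) (hM : av2 (fun x y => M x y ^ 4) ≤ C * p * q) :
    av2 (fun x y => F x * G y * M x y ^ 2) ≤
      √C * (√((av fun x => F x ^ 2) * p) * √((av fun y => G y ^ 2) * q)) := by
  have h1 := av2_cs (fun x y => F x * G y) fun x y => M x y ^ 2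
  have h2 : (av2 fun (x : Q n) (y : Q m) => (F x * G y) ^ 2) =
      (av fun x => F x ^ 2) * av fun y => G y ^ 2 := by
    rw [← av2_mul]
    congr 1
    funext x y
    ring
  have h3 : (av2 fun x y => (M x y ^ 2) ^ 2) = av2 fun x y => M x y ^ 4 := by
    congr 1
    funext x y
    ring
  have hF : 0 ≤ av fun x => F x ^ 2 := av_nonneg fun x => sq_nonneg _
  have hG : 0 ≤ av fun y => G y ^ 2 := av_nonneg fun y => sq_nonneg _
  rw [h2, h3] at h1
  have h4 : (av2 fun x y => F x * G y * M x y ^ 2) ^ 2 ≤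
      C * (((av fun x => F x ^ 2) * p) * ((av fun y => G y ^ 2) * q)) := by
    refine h1.trans ?_
    calc ((av fun x => F x ^ 2) * av fun y => G y ^ 2) * av2 (fun x y => M x y ^ 4)
        ≤ ((av fun x => F x ^ 2) * av fun y => G y ^ 2) * (C * p * q) :=
          mul_le_mul_of_nonneg_left hM (mul_nonneg hF hG)
      _ = _ := by ring
  rw [← Real.sqrt_mul (mul_nonneg hF hp), ← Real.sqrt_mul hC]
  exact Real.le_sqrt_of_sq_le h4

/-- RT15 -/
theorem fin (h1 : SLoc) : SFin := by
  obtain ⟨C, hC0, hC⟩ := h1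
  refine ⟨4096 * √C, by positivity, ?_⟩
  intro n m D α β h
  obtain ⟨g, hg, L, hL⟩ := fin_choose α
  obtain ⟨g', hg', L', hL'⟩ := fin_choose β
  set A : Q n → ℝ := fun x => ∑ i ∈ range n, α i x ^ 2 with hA
  set B : Q m → ℝ := fun y => ∑ j ∈ range m, β j y ^ 2 with hB
  set E : ℕ × ℕ → ℕ → ℕ → Q n → Q m → ℝ := fun q i j x y =>
    D i j x y * (finX α g q.1 i x * finX β g' q.2 j y) with hE
  set s : Finset (ℕ × ℕ) := range L ×ˢ range L' with hs
  have hA0 : ∀ x, 0 ≤ A x := fun x => sum_nonneg fun i _ => sq_nonneg _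
  have hB0 : ∀ y, 0 ≤ B y := fun y => sum_nonneg fun i _ => sq_nonneg _
  -- the pieces
  have hD0 : ∀ i j x y, α i x = 0 ∨ β j y = 0 → D i j x y = 0 := by
    intro i j x y h0
    have h2 := h.dom i j x y
    have h3 : α i x * β j y = 0 := by
      rcases h0 with h0 | h0 <;> rw [h0] <;> ring
    rw [h3] at h2
    exact abs_eq_zero.1 (le_antisymm h2 (abs_nonneg _))
  have hdec : ∀ x y, ∀ i < n, ∀ j < m, D i j x y =
      ∑ q ∈ s, finLev g (q.1 + 1) ^ 2 * finLev g' (q.2 + 1) ^ 2 * E q i j x y := by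
    intro x y i hi j hj
    by_cases h0 : α i x = 0 ∨ β j y = 0
    · have h2 := hD0 i j x y h0
      simp only [hE, h2, zero_mul, mul_zero, sum_const_zero]
    · push Not at h0
      have e1 : ∑ q ∈ s, finLev g (q.1 + 1) ^ 2 * finLev g' (q.2 + 1) ^ 2 * E q i j x y =
          D i j x y * ((∑ k ∈ range L, finLev g (k + 1) ^ 2 * finX α g k i x) *
            ∑ l ∈ range L', finLev g' (l + 1) ^ 2 * finX β g' l j y) := by
        rw [sum_mul_sum, hs, sum_product, mul_sum]
        refine sum_congr rfl fun k _ => ?_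
        rw [mul_sum]
        refine sum_congr rfl fun l _ => ?_
        simp only [hE]
        ring
      rw [e1, hL x i hi h0.1, hL' y j hj h0.2]
      ring
  have hArr : ∀ q : ℕ × ℕ, Arr n m (E q) (fun i x => α i x * finX α g q.1 i x)
      (fun j y => β j y * finX β g' q.2 j y) := fun q =>
    fin_arr h (finX α g q.1) (finX β g' q.2) (fun i => finX_inv h.pa g q.1 i)
      (fun i x => finX_nonneg α g q.1 i x) (fun j => finX_inv h.pb g' q.2 j)
      (fun j y => finX_nonneg β g' q.2 j y)
  have hBdd : ∀ q : ℕ × ℕ, Bdd n m (fun i x => α i x * finX α g q.1 i x)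
      (fun j y => β j y * finX β g' q.2 j y) := fun q =>
    ⟨fun x => finX_sum α hg q.1 x, fun y => finX_sum β hg' q.2 y⟩
  have hp : ∀ q : ℕ × ℕ, av (fun x => if ∃ i, α i x * finX α g q.1 i x ≠ 0 then (1 : ℝ) else 0) ≤
      av (finU A g q.1) := by
    intro q
    refine av_mono fun x => ?_
    split_ifs with hx
    · obtain ⟨i, hi⟩ := hx
      have hin : i < n := by
        by_contra hni
        push Not at hni
        exact hi (by rw [h.za i hni x, zero_mul])
      have h2 := finX_ne α g hin (right_ne_zero_of_mul hi)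
      unfold finU
      rw [if_pos h2]
    · exact finU_nonneg A g q.1 x
  have hq : ∀ q : ℕ × ℕ, av (fun y => if ∃ j, β j y * finX β g' q.2 j y ≠ 0 then (1 : ℝ) else 0) ≤
      av (finU B g' q.2) := by
    intro q
    refine av_mono fun x => ?_
    split_ifs with hx
    · obtain ⟨i, hi⟩ := hx
      have hin : i < m := by
        by_contra hni
        push Not at hni
        exact hi (by rw [h.zb i hni x, zero_mul])
      have h2 := finX_ne β g' hin (right_ne_zero_of_mul hi)
      unfold finU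
      rw [if_pos h2]
    · exact finU_nonneg B g' q.2 x
  have hM4 : ∀ q : ℕ × ℕ, av2 (fun x y => MX (E q) x y ^ 4) ≤
      C * av (finU A g q.1) * av (finU B g' q.2) := by
    intro q
    refine (hC n m (E q) _ _ (hArr q) (hBdd q)).trans ?_
    exact mul_le_mul (mul_le_mul_of_nonneg_left (hp q) hC0) (hq q)
      (av_nonneg fun y => by split_ifs <;> norm_num)
      (mul_nonneg hC0 (av_nonneg fun x => finU_nonneg A g q.1 x))
  have hM0 : ∀ q x y, MX (E q) x y = finU A g q.1 x * finU B g' q.2 y * MX (E q) x y := by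
    intro q x y
    by_cases hx : finLev g q.1 ^ 4 < A x
    · by_cases hy : finLev g' q.2 ^ 4 < B y
      · unfold finU
        rw [if_pos hx, if_pos hy]; ring
      · have : MX (E q) x y = 0 := by
          refine fin_MX_zero fun i hi j hj => ?_
          have h2 : finX β g' q.2 j y = 0 := by
            by_contra hne
            exact hy (finX_ne β g' hj hne)
          simp only [hE, h2, mul_zero]
        rw [this, mul_zero]
    · have : MX (E q) x y = 0 := by
        refine fin_MX_zero fun i hi j hj => ?_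
        have h2 : finX α g q.1 i x = 0 := by
          by_contra hne
          exact hx (finX_ne α g hi hne)
        simp only [hE, h2, zero_mul, mul_zero]
      rw [this, mul_zero]
  -- pointwise
  have hpt : ∀ x y, MX D x y ^ 2 ≤ 256 * ∑ q ∈ s, finLev g q.1 ^ 3 * finLev g' q.2 ^ 3 *
      ((finU A g q.1 x * finW A g L x * (finU B g' q.2 y * finW B g' L' y)) *
        MX (E q) x y ^ 2) := by
    intro x y
    refine le_trans ?_ (fin_cs A B hg hg' L L' x y (fun q => MX (E q) x y) fun q => hM0 q x y)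
    refine pow_le_pow_left₀ (MX_nonneg _ _ _) ?_ 2
    exact fin_MX s (fun q => finLev g (q.1 + 1) ^ 2 * finLev g' (q.2 + 1) ^ 2)
      (fun q _ => by positivity) D E x y (hdec x y)
  calc av2 (fun x y => MX D x y ^ 2)
      ≤ av2 (fun x y => 256 * ∑ q ∈ s, finLev g q.1 ^ 3 * finLev g' q.2 ^ 3 *
        ((finU A g q.1 x * finW A g L x * (finU B g' q.2 y * finW B g' L' y)) *
          MX (E q) x y ^ 2)) := av2_mono hpt
    _ = 256 * ∑ q ∈ s, finLev g q.1 ^ 3 * finLev g' q.2 ^ 3 * av2 (fun x y =>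
        (finU A g q.1 x * finW A g L x * (finU B g' q.2 y * finW B g' L' y)) *
          MX (E q) x y ^ 2) := by
        rw [av2_mul_left, av2_sum]
        congr 1
        exact sum_congr rfl fun q _ => av2_mul_left _ _
    _ ≤ 256 * ∑ q ∈ s, finLev g q.1 ^ 3 * finLev g' q.2 ^ 3 * (√C *
        (√((av fun x => (finU A g q.1 x * finW A g L x) ^ 2) * av (finU A g q.1)) *
          √((av fun y => (finU B g' q.2 y * finW B g' L' y) ^ 2) * av (finU B g' q.2)))) := by
        refine mul_le_mul_of_nonneg_left (sum_le_sum fun q _ => ?_) (by norm_num)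
        have := finLev_pos hg q.1
        have := finLev_pos hg' q.2
        refine mul_le_mul_of_nonneg_left ?_ (by positivity)
        exact fin_term (fun x => finU A g q.1 x * finW A g L x)
          (fun y => finU B g' q.2 y * finW B g' L' y) (fun x y => MX (E q) x y) hC0
          (av_nonneg fun x => finU_nonneg A g q.1 x) (hM4 q)
    _ = 256 * √C * ((∑ k ∈ range L, finLev g k ^ 3 *
          √((av fun x => (finU A g k x * finW A g L x) ^ 2) * av (finU A g k))) *
        ∑ l ∈ range L', finLev g' l ^ 3 *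
          √((av fun y => (finU B g' l y * finW B g' L' y) ^ 2) * av (finU B g' l))) := by
        rw [sum_mul_sum, hs, sum_product, mul_sum, mul_sum]
        refine sum_congr rfl fun k _ => ?_
        rw [mul_sum, mul_sum]
        refine sum_congr rfl fun l _ => ?_
        ring
    _ ≤ 256 * √C * ((4 * av A) * (4 * av B)) := by
        refine mul_le_mul_of_nonneg_left ?_ (by positivity)
        refine mul_le_mul (fin_SA A hA0 hg L) (fin_SA B hB0 hg' L') ?_ ?_
        · refine sum_nonneg fun l _ => ?_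
          have := finLev_pos hg' l
          positivity
        · exact mul_nonneg (by norm_num) (av_nonneg hA0)
    _ = 4096 * √C * av A * av B := by ring

end Pool.Agent.H79.RT
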