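import Pool.Agent.H79.RT.StmR

/-!
# MP_a7284e_an, project RT: rectangular pieces in terms of Haar coefficients (TR4)
-/

set_option autoImplicit false

namespace Pool.Agent.H79.RT

open MeasureTheory FourierTransform Filter Topology Finset Classical
open Pool.Agent.H73.Hyp

/-! ### dyadic digits and the Haar functions -/

/-- a dyadic interval has two halves -/
theorem t4_floor (i : ℤ) (t : ℝ) :
    ⌊(2 : ℝ) ^ (i + 1) * t⌋ = 2 * ⌊(2 : ℝ) ^ i * t⌋ ∨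
      ⌊(2 : ℝ) ^ (i + 1) * t⌋ = 2 * ⌊(2 : ℝ) ^ i * t⌋ + 1 := by
  have e : (2 : ℝ) ^ (i + 1) * t = 2 * ((2 : ℝ) ^ i * t) := by
    rw [zpow_add_one₀ two_ne_zero]; ring
  rw [e]
  have h1 := Int.floor_le ((2 : ℝ) ^ i * t)
  have h2 := Int.lt_floor_add_one ((2 : ℝ) ^ i * t)
  rcases lt_or_ge ((2 : ℝ) ^ i * t) (⌊(2 : ℝ) ^ i * t⌋ + 1 / 2) with h | h
  · left
    rw [Int.floor_eq_iff]
    push_cast
    constructor <;> linarith
  · right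
    rw [Int.floor_eq_iff]
    push_cast
    constructor <;> linarith

theorem t4_haar_even (i k : ℤ) (t : ℝ) (h : ⌊(2 : ℝ) ^ (i + 1) * t⌋ = 2 * k) :
    haar (i, k) t = (2 : ℝ) ^ ((i : ℝ) / 2) := by
  have e : (2 : ℝ) ^ (i + 1) * t = 2 * ((2 : ℝ) ^ i * t) := by
    rw [zpow_add_one₀ two_ne_zero]; ring
  rw [e, Int.floor_eq_iff] at h
  push_cast at h
  unfold haar
  rw [if_pos]
  constructor
  · show (k : ℝ) ≤ (2 : ℝ) ^ i * t
    linarith [h.1]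
  · show (2 : ℝ) ^ i * t < (k : ℝ) + 1 / 2
    linarith [h.2]

theorem t4_haar_odd (i k : ℤ) (t : ℝ) (h : ⌊(2 : ℝ) ^ (i + 1) * t⌋ = 2 * k + 1) :
    haar (i, k) t = -(2 : ℝ) ^ ((i : ℝ) / 2) := by
  have e : (2 : ℝ) ^ (i + 1) * t = 2 * ((2 : ℝ) ^ i * t) := by
    rw [zpow_add_one₀ two_ne_zero]; ring
  rw [e, Int.floor_eq_iff] at h
  push_cast at h
  unfold haar
  rw [if_neg, if_pos]
  · constructor
    · show (k : ℝ) + 1 / 2 ≤ (2 : ℝ) ^ i * t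
      linarith [h.1]
    · show (2 : ℝ) ^ i * t < (k : ℝ) + 1
      linarith [h.2]
  · rintro ⟨-, h2⟩
    have h3 : (2 : ℝ) ^ i * t < (k : ℝ) + 1 / 2 := h2
    linarith [h.1]

theorem t4_haar_zero (i k : ℤ) (t : ℝ) (h : ⌊(2 : ℝ) ^ i * t⌋ ≠ k) : haar (i, k) t = 0 := by
  unfold haar
  rw [if_neg, if_neg]
  · rintro ⟨h1, h2⟩
    have h1' : (k : ℝ) + 1 / 2 ≤ (2 : ℝ) ^ i * t := h1
    have h2' : (2 : ℝ) ^ i * t < (k : ℝ) + 1 := h2
    exact h (Int.floor_eq_iff.2 ⟨by linarith, h2'⟩)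
  · rintro ⟨h1, h2⟩
    have h1' : (k : ℝ) ≤ (2 : ℝ) ^ i * t := h1
    have h2' : (2 : ℝ) ^ i * t < (k : ℝ) + 1 / 2 := h2
    exact h (Int.floor_eq_iff.2 ⟨h1', by linarith⟩)

/-! ### dyadic rectangles -/

/-- the dyadic rectangles -/
def t4R (i j k l : ℤ) : Set E2 := {x | ⌊(2 : ℝ) ^ i * x 0⌋ = k ∧ ⌊(2 : ℝ) ^ j * x 1⌋ = l}

theorem t4_floor_iff (i k : ℤ) (t : ℝ) : ⌊(2 : ℝ) ^ i * t⌋ = k ↔
    t ∈ Set.Ico ((k : ℝ) * (2 : ℝ) ^ (-i)) (((k : ℝ) + 1) * (2 : ℝ) ^ (-i)) := by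
  have hp : (0 : ℝ) < (2 : ℝ) ^ i := by positivity
  rw [Int.floor_eq_iff, Set.mem_Ico, zpow_neg, ← div_eq_mul_inv, ← div_eq_mul_inv,
    div_le_iff₀ hp, lt_div_iff₀ hp, mul_comm t]

theorem t4_meas (i j k l : ℤ) : MeasurableSet (t4R i j k l) := by
  have h : ∀ (c : Fin 2) (i k : ℤ), MeasurableSet {x : E2 | ⌊(2 : ℝ) ^ i * x c⌋ = k} := by
    intro c i k
    have h1 : Measurable fun x : E2 => ⌊(2 : ℝ) ^ i * x c⌋ :=
      Int.measurable_floor.comp (measurable_const.mul (measurable_coord c))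
    exact h1 (measurableSet_singleton k)
  exact (h 0 i k).inter (h 1 j l)

theorem t4_vol (i j k l : ℤ) :
    volume (t4R i j k l) = ENNReal.ofReal ((2 : ℝ) ^ (-i) * (2 : ℝ) ^ (-j)) := by
  have hpre : t4R i j k l = (WithLp.ofLp : E2 → (Fin 2 → ℝ)) ⁻¹'
      (Set.univ.pi fun c => Set.Ico
        ((![(k : ℝ) * (2 : ℝ) ^ (-i), (l : ℝ) * (2 : ℝ) ^ (-j)] : Fin 2 → ℝ) c)
        ((![((k : ℝ) + 1) * (2 : ℝ) ^ (-i), ((l : ℝ) + 1) * (2 : ℝ) ^ (-j)] : Fin 2 → ℝ) c)) := by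
    ext x
    simp only [t4R, Set.mem_ofPred_eq, Set.mem_preimage, Set.mem_univ_pi, Fin.forall_fin_two,
      t4_floor_iff]
    rfl
  have hm : MeasurableSet (Set.univ.pi fun c => Set.Ico
      ((![(k : ℝ) * (2 : ℝ) ^ (-i), (l : ℝ) * (2 : ℝ) ^ (-j)] : Fin 2 → ℝ) c)
      ((![((k : ℝ) + 1) * (2 : ℝ) ^ (-i), ((l : ℝ) + 1) * (2 : ℝ) ^ (-j)] : Fin 2 → ℝ) c)) :=
    MeasurableSet.univ_pi fun c => measurableSet_Ico
  rw [hpre, (PiLp.volume_preserving_ofLp (Fin 2)).measure_preimage hm.nullMeasurableSet,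
    Real.volume_pi_Ico, Fin.prod_univ_two]
  have hp : (0 : ℝ) < (2 : ℝ) ^ (-i) := by positivity
  rw [← ENNReal.ofReal_mul]
  · congr 1
    simp only [Matrix.cons_val_zero, Matrix.cons_val_one]
    ring
  · simp only [Matrix.cons_val_zero]
    nlinarith

/-! ### a function constant on dyadic rectangles and odd in both digits -/

/-- the values of an odd function -/
theorem t4_odd {i j : ℤ} {g : L2} {φ : ℤ → ℤ → ℂ}
    (hφ : ∀ᵐ x : E2, g x = φ ⌊(2 : ℝ) ^ (i + 1) * x 0⌋ ⌊(2 : ℝ) ^ (j + 1) * x 1⌋)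
    (h0 : Uf 0 i g = -g) (h1 : Uf 1 j g = -g) :
    (∀ k l : ℤ, φ (2 * k + 1) l = -φ (2 * k) l) ∧ ∀ k l : ℤ, φ k (2 * l + 1) = -φ k (2 * l) := by
  have ex : ∀ (k l : ℤ) (P : E2 → Prop), (∀ᵐ x : E2, P x) → ∃ x ∈ t4R (i + 1) (j + 1) k l, P x := by
    intro k l P hP
    by_contra hc
    push Not at hc
    have h2 : volume (t4R (i + 1) (j + 1) k l) = 0 :=
      measure_mono_null (fun x hx => hc x hx) (ae_iff.1 hP)
    rw [t4_vol, ENNReal.ofReal_eq_zero] at h2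
    have h3 : (0 : ℝ) < (2 : ℝ) ^ (-(i + 1)) * (2 : ℝ) ^ (-(j + 1)) := by positivity
    linarith
  have a0 : ∀ᵐ x : E2, g (H73.Hyp.fl 0 i x) = -g x := by
    have e := Uf_coe 0 i g
    rw [h0] at e
    filter_upwards [e, Lp.coeFn_neg g] with x b1 b2
    rw [← b1, b2, Pi.neg_apply]
  have a1 : ∀ᵐ x : E2, g (H73.Hyp.fl 1 j x) = -g x := by
    have e := Uf_coe 1 j g
    rw [h1] at e
    filter_upwards [e, Lp.coeFn_neg g] with x b1 b2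
    rw [← b1, b2, Pi.neg_apply]
  have c0 := (mp_fl 0 i).quasiMeasurePreserving.ae hφ
  have c1 := (mp_fl 1 j).quasiMeasurePreserving.ae hφ
  constructor
  · intro k l
    obtain ⟨x, hx, b1, b2, b3⟩ := ex (2 * k) l _ (hφ.and (a0.and c0))
    obtain ⟨x1, x2⟩ := hx
    rw [x1, x2] at b1
    rw [b2, b1, H73.Hyp.fl_same, fl_ne (by decide), x2] at b3
    have hd : dg i (x 0) = 2 * k := x1
    rcases dg_flip i (x 0) with ⟨h, h'⟩ | ⟨h, h'⟩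
    · have h'' : ⌊(2 : ℝ) ^ (i + 1) * (x 0 + sg i (x 0))⌋ = 2 * k + 1 := by
        rw [← hd]; exact h'
      rw [h''] at b3
      exact b3.symm
    · exact absurd (by rw [hd]; exact even_two_mul k) h
  · intro k l
    obtain ⟨x, hx, b1, b2, b3⟩ := ex k (2 * l) _ (hφ.and (a1.and c1))
    obtain ⟨x1, x2⟩ := hx
    rw [x1, x2] at b1
    rw [b2, b1, H73.Hyp.fl_same, fl_ne (by decide), x1] at b3
    have hd : dg j (x 1) = 2 * l := x2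
    rcases dg_flip j (x 1) with ⟨h, h'⟩ | ⟨h, h'⟩
    · have h'' : ⌊(2 : ℝ) ^ (j + 1) * (x 1 + sg j (x 1))⌋ = 2 * l + 1 := by
        rw [← hd]; exact h'
      rw [h''] at b3
      exact b3.symm
    · exact absurd (by rw [hd]; exact even_two_mul l) h

/-- the Haar coefficients of such a function -/
theorem t4_cf {i j : ℤ} {g : L2} {φ : ℤ → ℤ → ℂ}
    (hφ : ∀ᵐ x : E2, g x = φ ⌊(2 : ℝ) ^ (i + 1) * x 0⌋ ⌊(2 : ℝ) ^ (j + 1) * x 1⌋)
    (ho : (∀ k l : ℤ, φ (2 * k + 1) l = -φ (2 * k) l) ∧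
      ∀ k l : ℤ, φ k (2 * l + 1) = -φ k (2 * l)) (k l : ℤ) :
    cf g (i, k) (j, l) = (((2 : ℝ) ^ (-i) * (2 : ℝ) ^ (-j) : ℝ) : ℂ) *
      (φ (2 * k) (2 * l) * (((2 : ℝ) ^ ((i : ℝ) / 2) * (2 : ℝ) ^ ((j : ℝ) / 2) : ℝ) : ℂ)) := by
  have h : (fun x : E2 => g x * ((haar (i, k) (x 0) * haar (j, l) (x 1) : ℝ) : ℂ)) =ᵐ[volume]
      (t4R i j k l).indicator fun _ => φ (2 * k) (2 * l) *
        (((2 : ℝ) ^ ((i : ℝ) / 2) * (2 : ℝ) ^ ((j : ℝ) / 2) : ℝ) : ℂ) := by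
    filter_upwards [hφ] with x hx
    by_cases hR : x ∈ t4R i j k l
    · rw [Set.indicator_of_mem hR, hx]
      obtain ⟨x1, x2⟩ := hR
      rcases t4_floor i (x 0) with f1 | f1 <;> rcases t4_floor j (x 1) with f2 | f2 <;>
        rw [x1] at f1 <;> rw [x2] at f2 <;> rw [f1, f2]
      · rw [t4_haar_even i k _ f1, t4_haar_even j l _ f2]
      · rw [t4_haar_even i k _ f1, t4_haar_odd j l _ f2, ho.2]
        push_cast
        ring
      · rw [t4_haar_odd i k _ f1, t4_haar_even j l _ f2, ho.1]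
        push_cast
        ring
      · rw [t4_haar_odd i k _ f1, t4_haar_odd j l _ f2, ho.1, ho.2]
        push_cast
        ring
    · rw [Set.indicator_of_notMem hR]
      by_cases h1 : ⌊(2 : ℝ) ^ i * x 0⌋ = k
      · have h2 : ⌊(2 : ℝ) ^ j * x 1⌋ ≠ l := fun h2 => hR ⟨h1, h2⟩
        rw [t4_haar_zero j l _ h2, mul_zero, Complex.ofReal_zero, mul_zero]
      · rw [t4_haar_zero i k _ h1, zero_mul, Complex.ofReal_zero, mul_zero]
  unfold cf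
  rw [integral_congr_ae h, integral_indicator (t4_meas i j k l), setIntegral_const,
    Measure.real, t4_vol, ENNReal.toReal_ofReal (by positivity), Complex.real_smul]

/-- the Haar coefficients of the rectangular pieces -/
theorem t4_cf_Dp (h2 : SCf) (f : L2) (i j k l : ℤ) :
    cf (Dp (Uf 0) i (Dp (Uf 1) j f)) (i, k) (j, l) = cf f (i, k) (j, l) := by
  obtain ⟨e0, e1, es, -⟩ := h2
  rw [Dp_apply (Uf 0), es, e0, e0, if_pos (show (i, k).1 < i + 1 from by simp),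
    if_neg (show ¬(i, k).1 < i from by simp), sub_zero, Dp_apply (Uf 1), es, e1, e1,
    if_pos (show (j, l).1 < j + 1 from by simp), if_neg (show ¬(j, l).1 < j from by simp),
    sub_zero]

/-- TR4 -/
theorem haar_spec (h1 : SCell) (h2 : SCf) : SHaar := by
  intro f i j
  set g := Dp (Uf 0) i (Dp (Uf 1) j f) with hg
  have hm0 : g ∈ Wf (Uf 0) (i + 1) := Dp_mem _ _ _
  have hm1 : g ∈ Wf (Uf 1) (j + 1) := by
    rw [hg, Dp0_Dp1]
    exact Dp_mem _ _ _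
  have u0 : Uf 0 i g = -g := U_Dp_self (flips 0) _ _
  have u1 : Uf 1 j g = -g := by
    rw [hg, Dp0_Dp1]
    exact U_Dp_self (flips 1) _ _
  obtain ⟨φ, hφ⟩ := h1 (i + 1) (j + 1) g hm0 hm1
  have ho := t4_odd hφ u0 u1
  filter_upwards [hφ] with x hx
  rw [← t4_cf_Dp h2, ← hg, t4_cf hφ ho, norm_mul, norm_mul, Complex.norm_real, Complex.norm_real]
  have hn : ‖g x‖ = ‖φ (2 * ⌊(2 : ℝ) ^ i * x 0⌋) (2 * ⌊(2 : ℝ) ^ j * x 1⌋)‖ := by
    rw [hx]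
    rcases t4_floor i (x 0) with f1 | f1 <;> rcases t4_floor j (x 1) with f2 | f2 <;>
      rw [f1, f2]
    · rw [ho.2, norm_neg]
    · rw [ho.1, norm_neg]
    · rw [ho.1, ho.2, norm_neg, norm_neg]
  rw [hn, Real.norm_of_nonneg (by positivity), Real.norm_of_nonneg (by positivity)]
  have hs : ∀ i : ℤ, (2 : ℝ) ^ ((i : ℝ) / 2) * (2 : ℝ) ^ ((i : ℝ) / 2) * (2 : ℝ) ^ (-i) = 1 := by
    intro i
    rw [← Real.rpow_add two_pos, add_halves, Real.rpow_intCast, ← zpow_add₀ two_ne_zero,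
      add_neg_cancel, zpow_zero]
  have s0 := hs i
  have s1 := hs j
  calc ‖φ (2 * ⌊(2 : ℝ) ^ i * x 0⌋) (2 * ⌊(2 : ℝ) ^ j * x 1⌋)‖
      = ((2 : ℝ) ^ ((i : ℝ) / 2) * (2 : ℝ) ^ ((i : ℝ) / 2) * (2 : ℝ) ^ (-i)) *
        ((2 : ℝ) ^ ((j : ℝ) / 2) * (2 : ℝ) ^ ((j : ℝ) / 2) * (2 : ℝ) ^ (-j)) *
        ‖φ (2 * ⌊(2 : ℝ) ^ i * x 0⌋) (2 * ⌊(2 : ℝ) ^ j * x 1⌋)‖ := by
          rw [s0, s1, one_mul, one_mul]
    _ = _ := by ring

end Pool.Agent.H79.RT
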