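import Pool.Agent.H79.RT.Stm

/-!
# MP_a7284e_an, project RT: the stopping indices `hit`
-/

set_option autoImplicit false

namespace Pool.Agent.H79.RT

open Finset Classical

theorem hit_mono (N : ℕ) (p : ℕ → ℝ) (τ τ' : ℝ) (h : τ ≤ τ') : hit N p τ ≤ hit N p τ' := by
  unfold hit
  apply Finset.card_le_card
  intro i hi
  rw [mem_filter] at hi ⊢
  exact ⟨hi.1, lt_of_lt_of_le hi.2 h⟩

theorem hit_le (N : ℕ) (p : ℕ → ℝ) (τ : ℝ) : hit N p τ ≤ N := by
  unfold hit
  exact (Finset.card_filter_le _ _).trans (le_of_eq (card_range N))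

theorem hit_zero (N : ℕ) (p : ℕ → ℝ) (τ : ℝ) (h : τ ≤ 0) (hp : ∀ i, 0 ≤ p i) :
    hit N p τ = 0 := by
  unfold hit
  rw [Finset.card_eq_zero, Finset.filter_eq_empty_iff]
  intro i _
  exact not_lt.2 (h.trans (Finset.sum_nonneg fun l _ => hp l))

theorem hit_sum_mono (p : ℕ → ℝ) (hp : ∀ i, 0 ≤ p i) (i j : ℕ) (h : i ≤ j) :
    ∑ l ∈ range (i + 1), p l ≤ ∑ l ∈ range (j + 1), p l := by
  apply Finset.sum_le_sum_of_subset_of_nonneg
  · intro l hl
    rw [mem_range] at hl ⊢
    omega
  · intro l _ _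
    exact hp l

theorem hit_le_iff (N : ℕ) (p : ℕ → ℝ) (τ : ℝ) (hp : ∀ i, 0 ≤ p i) (l : ℕ) (hl : l < N) :
    hit N p τ ≤ l ↔ τ ≤ ∑ i ∈ range (l + 1), p i := by
  constructor
  · intro h
    by_contra hc
    rw [not_le] at hc
    have hs : range (l + 1) ⊆ (range N).filter fun i => ∑ l ∈ range (i + 1), p l < τ := by
      intro i hi
      rw [mem_range] at hi
      rw [mem_filter, mem_range]
      exact ⟨by omega, lt_of_le_of_lt (hit_sum_mono p hp i l (by omega)) hc⟩
    have h1 := Finset.card_le_card hs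
    rw [card_range] at h1
    unfold hit at h
    omega
  · intro h
    have hs : ((range N).filter fun i => ∑ l ∈ range (i + 1), p l < τ) ⊆ range l := by
      intro i hi
      rw [mem_filter] at hi
      rw [mem_range]
      by_contra hc
      have h2 := hit_sum_mono p hp l i (by omega)
      linarith [hi.2]
    have h1 := Finset.card_le_card hs
    rw [card_range] at h1
    exact h1

theorem hit_stp (n N : ℕ) (α : ℕ → Q n → ℝ) (τ : ℝ) (hα : ∀ i, Inv i (α i)) :
    Stp fun x => hit N (fun i => α i x ^ 2) τ := by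
  intro l k hk x
  by_cases hl : l < N
  · have hp : ∀ z : Q n, ∀ i, 0 ≤ (fun i => α i z ^ 2) i := fun z i => sq_nonneg _
    have hs : ∑ i ∈ range (l + 1), (fun i => α i (fl k x) ^ 2) i =
        ∑ i ∈ range (l + 1), (fun i => α i x ^ 2) i := by
      apply Finset.sum_congr rfl
      intro i hi
      rw [mem_range] at hi
      have h3 := hα i k (by omega) x
      simp only [h3]
    show (hit N (fun i => α i (fl k x) ^ 2) τ ≤ l) = (hit N (fun i => α i x ^ 2) τ ≤ l)
    rw [eq_iff_iff, hit_le_iff N _ τ (hp (fl k x)) l hl, hit_le_iff N _ τ (hp x) l hl, hs]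
  · show (hit N (fun i => α i (fl k x) ^ 2) τ ≤ l) = (hit N (fun i => α i x ^ 2) τ ≤ l)
    have h1 := hit_le N (fun i => α i (fl k x) ^ 2) τ
    have h2 := hit_le N (fun i => α i x ^ 2) τ
    rw [eq_iff_iff]
    constructor
    · intro _
      omega
    · intro _
      omega

/-- RT11 -/
theorem hit_spec : SHit :=
  ⟨hit_mono, fun N p τ => ⟨hit_le N p τ, fun h hp => hit_zero N p τ h hp⟩,
    fun N p τ hp l hl => hit_le_iff N p τ hp l hl, fun n N α τ hα => hit_stp n N α τ hα⟩

end Pool.Agent.H79.RT
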