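import Pool.Agent.H79.RT.Stm

/-!
# MP_a7284e_an, project RT, row RT3: Hoelder's inequality for three functions
-/

set_option autoImplicit false

namespace Pool.Agent.H79.RT

open Finset Classical

/-- arithmetic-geometric mean inequality without real powers in the statement -/
theorem hol_amgm (r : ℕ) (hr : 3 ≤ r) (t p q : ℝ) (hp : 0 ≤ p) (hq : 0 ≤ q)
    (h : t ^ r ≤ p * q ^ (r - 2)) : t ≤ 1 / r * p + (r - 2 : ℝ) / r * q + 1 / r := by
  have hr0 : (0 : ℝ) < r := by
    have : 0 < r := by omega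
    exact_mod_cast this
  have hr2 : ((r - 2 : ℕ) : ℝ) = (r : ℝ) - 2 := by
    rw [Nat.cast_sub (by omega)]; norm_num
  have hr3 : (3 : ℝ) ≤ r := by exact_mod_cast hr
  have hrn : r ≠ 0 := by omega
  have key := Real.geom_mean_le_arith_mean3_weighted (w₁ := 1 / r) (w₂ := (r - 2 : ℝ) / r)
    (w₃ := 1 / r) (p₁ := p) (p₂ := q) (p₃ := 1) (by positivity)
    (div_nonneg (by linarith) hr0.le) (by positivity) hp hq zero_le_one
    (by field_simp; ring)
  rw [Real.one_rpow, mul_one, mul_one] at key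
  refine le_trans ?_ key
  have hG : 0 ≤ p ^ (1 / (r : ℝ)) * q ^ (((r : ℝ) - 2) / r) := by positivity
  refine le_of_pow_le_pow_left₀ hrn hG (h.trans (le_of_eq ?_))
  rw [mul_pow, ← Real.rpow_natCast (p ^ (1 / (r : ℝ))) r, ← Real.rpow_mul hp,
    ← Real.rpow_natCast (q ^ (((r : ℝ) - 2) / r)) r, ← Real.rpow_mul hq,
    div_mul_cancel₀ _ hr0.ne', div_mul_cancel₀ _ hr0.ne', Real.rpow_one, ← hr2,
    Real.rpow_natCast]

/-- RT3: Hoelder's inequality -/
theorem hol : SHol := by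
  intro r hr n w u Z l hw hu hZ hl h hW
  have hrn : r ≠ 0 := by omega
  have hr0 : (0 : ℝ) < r := by
    have : 0 < r := by omega
    exact_mod_cast this
  have hr3 : (3 : ℝ) ≤ r := by exact_mod_cast hr
  have hA : 0 ≤ ∑ i ∈ range n, w i * Z i := sum_nonneg fun i _ => mul_nonneg (hw i) (hZ i)
  have hB : 0 ≤ ∑ i ∈ range n, w i * l i := sum_nonneg fun i _ => mul_nonneg (hw i) (hl i)
  have hz : (∀ i ∈ range n, w i * u i = 0) → (∑ i ∈ range n, w i * u i) ^ r ≤
      (∑ i ∈ range n, w i * Z i) * (∑ i ∈ range n, w i * l i) ^ (r - 2) := by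
    intro h0
    rw [sum_eq_zero h0, zero_pow hrn]
    exact mul_nonneg hA (pow_nonneg hB _)
  rcases hA.eq_or_lt with hA0 | hA0
  · refine hz fun i hi => ?_
    have h1 := (sum_eq_zero_iff_of_nonneg fun i _ => mul_nonneg (hw i) (hZ i)).1 hA0.symm i hi
    rcases mul_eq_zero.1 h1 with h2 | h2
    · rw [h2, zero_mul]
    · have h3 := h i
      rw [h2, zero_mul] at h3
      have h4 : u i = 0 := by
        by_contra h5
        have h6 : 0 < u i := lt_of_le_of_ne (hu i) (Ne.symm h5)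
        exact absurd h3 (not_le.2 (pow_pos h6 r))
      rw [h4, mul_zero]
  rcases hB.eq_or_lt with hB0 | hB0
  · refine hz fun i hi => ?_
    have h1 := (sum_eq_zero_iff_of_nonneg fun i _ => mul_nonneg (hw i) (hl i)).1 hB0.symm i hi
    rcases mul_eq_zero.1 h1 with h2 | h2
    · rw [h2, zero_mul]
    · have h3 := h i
      rw [h2, zero_pow (by omega : r - 2 ≠ 0), mul_zero] at h3
      have h4 : u i = 0 := by
        by_contra h5
        have h6 : 0 < u i := lt_of_le_of_ne (hu i) (Ne.symm h5)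
        exact absurd h3 (not_le.2 (pow_pos h6 r))
      rw [h4, mul_zero]
  set A := ∑ i ∈ range n, w i * Z i with hAd
  set B := ∑ i ∈ range n, w i * l i with hBd
  have hAB : 0 < A * B ^ (r - 2) := mul_pos hA0 (pow_pos hB0 _)
  set S : ℝ := (A * B ^ (r - 2)) ^ ((r : ℝ)⁻¹) with hS
  have hSr : S ^ r = A * B ^ (r - 2) := Real.rpow_inv_natCast_pow hAB.le hrn
  have hS0 : 0 < S := Real.rpow_pos_of_pos hAB _
  rw [← hSr]
  refine pow_le_pow_left₀ (sum_nonneg fun i _ => mul_nonneg (hw i) (hu i)) ?_ r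
  have h1 : ∀ i ∈ range n, w i * u i ≤
      S * (1 / r * (w i * Z i / A) + (r - 2 : ℝ) / r * (w i * l i / B) + 1 / r * w i) := by
    intro i _
    have h2 := hol_amgm r hr (u i / S) (Z i / A) (l i / B)
      (div_nonneg (hZ i) hA0.le) (div_nonneg (hl i) hB0.le) (by
        rw [div_pow, div_pow, hSr, div_mul_div_comm]
        exact div_le_div_of_nonneg_right (h i) hAB.le)
    rw [div_le_iff₀ hS0] at h2
    calc w i * u i ≤ w i * ((1 / r * (Z i / A) + (r - 2 : ℝ) / r * (l i / B) + 1 / r) * S) :=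
          mul_le_mul_of_nonneg_left h2 (hw i)
      _ = _ := by ring
  refine (sum_le_sum h1).trans ?_
  rw [← mul_sum, sum_add_distrib, sum_add_distrib, ← mul_sum, ← mul_sum, ← mul_sum,
    ← sum_div, ← sum_div, ← hAd, ← hBd, div_self hA0.ne', div_self hB0.ne']
  have h3 : 1 / (r : ℝ) * 1 + ((r : ℝ) - 2) / r * 1 + 1 / r * ∑ i ∈ range n, w i ≤ 1 := by
    have h4 : 1 / (r : ℝ) * ∑ i ∈ range n, w i ≤ 1 / r * 1 :=
      mul_le_mul_of_nonneg_left hW (by positivity)
    have h5 : 1 / (r : ℝ) * 1 + ((r : ℝ) - 2) / r * 1 + 1 / r * 1 = 1 := by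
      field_simp; ring
    linarith
  calc S * (1 / (r : ℝ) * 1 + ((r : ℝ) - 2) / r * 1 + 1 / r * ∑ i ∈ range n, w i) ≤ S * 1 :=
        mul_le_mul_of_nonneg_left h3 hS0.le
    _ = S := mul_one S

end Pool.Agent.H79.RT
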