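import Pool.Agent.H79.RT.Basic

/-!
# MP_a7284e_an, project RT: row RT14, localisation
-/

set_option autoImplicit false

namespace Pool.Agent.H79.RT

open Finset Classical

variable {n m : ℕ}

/-- the coordinates below `i` from `x`, the others from `x'` -/
def mix (i : ℕ) (x x' : Q n) : Q n := fun l => if (l : ℕ) < i then x l else x' l

theorem mix_mix (i : ℕ) (x x' : Q n) : mix i (mix i x x') (mix i x' x) = x := by
  funext l
  unfold mix
  by_cases h : (l : ℕ) < i
  · rw [if_pos h, if_pos h]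
  · rw [if_neg h, if_neg h]

theorem mix_fl {i l : ℕ} (h : i ≤ l) (x x' : Q n) :
    mix i x (fl l x') = fl l (mix i x x') := by
  funext k
  unfold mix fl
  by_cases h1 : (k : ℕ) < i
  · rw [if_pos h1, if_neg (show ¬((k : ℕ) = l) by omega)]
    exact (if_pos h1).symm
  · rw [if_neg h1]
    by_cases h2 : (k : ℕ) = l
    · rw [if_pos h2, if_pos h2]
      show (!x' k) = !(if (k : ℕ) < i then x k else x' k)
      rw [if_neg h1]
    · rw [if_neg h2, if_neg h2]
      show x' k = if (k : ℕ) < i then x k else x' k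
      rw [if_neg h1]

theorem mix_all {i : ℕ} (h : n ≤ i) (x x' : Q n) : mix i x x' = x := by
  funext k
  unfold mix
  rw [if_pos (lt_of_lt_of_le k.2 h)]

theorem mix_lo {τ : Type*} {i k : ℕ} (hik : i ≤ k) {F : Q n → τ} (hF : Inv i F) (x x' : Q n) :
    F (mix k x x') = F x := by
  refine hF.congr fun l hl => ?_
  unfold mix
  rw [if_pos (lt_of_lt_of_le hl hik)]

/-- the involution `(x, x') ↦ (mix x x', mix x' x)` -/
def mixE (i : ℕ) : Q n × Q n ≃ Q n × Q n where
  toFun p := (mix i p.1 p.2, mix i p.2 p.1)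
  invFun p := (mix i p.1 p.2, mix i p.2 p.1)
  left_inv p := by
    show (mix i (mix i p.1 p.2) (mix i p.2 p.1), mix i (mix i p.2 p.1) (mix i p.1 p.2)) = p
    rw [mix_mix, mix_mix]
  right_inv p := by
    show (mix i (mix i p.1 p.2) (mix i p.2 p.1), mix i (mix i p.2 p.1) (mix i p.1 p.2)) = p
    rw [mix_mix, mix_mix]

theorem res_one (i : ℕ) (G F : Q n → ℝ) (hG : Inv i G) :
    ∑ x, G x * av (fun x' => F (mix i x x')) = ∑ x, G x * F x := by
  have h1 : ∑ x, G x * av (fun x' => F (mix i x x')) =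
      (∑ p : Q n × Q n, G p.1 * F (mix i p.1 p.2)) / 2 ^ n := by
    rw [Fintype.sum_prod_type, sum_div]
    refine sum_congr rfl fun x _ => ?_
    show G x * ((∑ x', F (mix i x x')) / 2 ^ n) = (∑ y, G x * F (mix i x y)) / 2 ^ n
    rw [← mul_sum, mul_div_assoc]
  have h2 : ∑ p : Q n × Q n, G p.1 * F (mix i p.1 p.2) =
      ∑ p : Q n × Q n, (fun q : Q n × Q n => G q.1 * F q.1) (mixE i p) := by
    refine sum_congr rfl fun p _ => ?_
    show G p.1 * F (mix i p.1 p.2) = G (mix i p.1 p.2) * F (mix i p.1 p.2)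
    rw [mix_lo le_rfl hG]
  rw [h1, h2, Equiv.sum_comp (mixE i) (fun q : Q n × Q n => G q.1 * F q.1),
    Fintype.sum_prod_type]
  have h3 : ∀ x : Q n, ∑ _y : Q n, G x * F x = 2 ^ n * (G x * F x) := by
    intro x
    rw [sum_const, card_univ, nsmul_eq_mul]
    have : Fintype.card (Q n) = 2 ^ n := by simp [Q]
    rw [this]
    push_cast
    ring
  rw [sum_congr rfl fun x _ => h3 x, ← mul_sum]
  field_simp

/-- resampling from a stopping index on -/
theorem res_all (a : Q n → ℕ) (ha : ∀ x, a x ≤ n)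
    (hs : ∀ i, Inv i fun x => a x = i) (F : Q n → ℝ) :
    av F = av fun x => av fun x' => F (mix (a x) x x') := by
  have h1 : ∀ H : Q n → ℝ, ∑ x, H x =
      ∑ i ∈ range (n + 1), ∑ x, (if a x = i then (1 : ℝ) else 0) * H x := by
    intro H
    rw [sum_comm]
    refine sum_congr rfl fun x _ => ?_
    rw [← sum_mul, sum_ite_eq, if_pos (mem_range.2 (Nat.lt_succ_of_le (ha x))), one_mul]
  unfold av
  congr 1
  rw [h1 F, h1 (fun x => (∑ x', F (mix (a x) x x')) / 2 ^ n)]
  refine sum_congr rfl fun i _ => ?_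
  have hG : Inv i fun x : Q n => if a x = i then (1 : ℝ) else 0 := by
    intro l hl x
    have : (a (fl l x) = i) = (a x = i) := hs i l hl x
    show (if a (fl l x) = i then (1 : ℝ) else 0) = if a x = i then (1 : ℝ) else 0
    simp only [this]
  rw [← res_one i _ F hG]
  refine sum_congr rfl fun x _ => ?_
  by_cases h : a x = i
  · rw [if_pos h, h]
    rfl
  · rw [if_neg h, zero_mul, zero_mul]

/-- the first index with a nonzero majorant -/
noncomputable def fst0 (n : ℕ) (α : ℕ → Q n → ℝ) (x : Q n) : ℕ :=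
  if h : ∃ i, α i x ≠ 0 then Nat.find h else n

theorem fst0_le (α : ℕ → Q n → ℝ) (hz : ∀ i, n ≤ i → ∀ x, α i x = 0) (x : Q n) :
    fst0 n α x ≤ n := by
  unfold fst0
  split_ifs with h
  · by_contra hc
    exact Nat.find_spec h (hz _ (not_le.1 hc).le x)
  · exact le_rfl

theorem fst0_lt {α : ℕ → Q n → ℝ} {x : Q n} {i : ℕ}
    (hi : i < fst0 n α x) : α i x = 0 := by
  unfold fst0 at hi
  split_ifs at hi with h
  · by_contra hc
    exact absurd (Nat.find_min' h hc) (not_le.2 hi)
  · by_contra hc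
    exact h ⟨i, hc⟩

theorem fst0_iff (α : ℕ → Q n → ℝ) (hz : ∀ i, n ≤ i → ∀ x, α i x = 0) (x : Q n) (i : ℕ) :
    fst0 n α x = i ↔ i ≤ n ∧ (∀ l < i, α l x = 0) ∧ (i < n → α i x ≠ 0) := by
  constructor
  · intro h
    subst h
    refine ⟨fst0_le α hz x, fun l hl => fst0_lt hl, fun hlt => ?_⟩
    unfold fst0 at hlt ⊢
    split_ifs at hlt ⊢ with h
    · exact Nat.find_spec h
    · exact absurd hlt (lt_irrefl n)
  · rintro ⟨h1, h2, h3⟩
    unfold fst0
    split_ifs with h
    · refine (Nat.find_eq_iff h).2 ⟨?_, fun l hl => by rw [h2 l hl]; exact fun h => h rfl⟩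
      refine h3 (lt_of_le_of_ne h1 fun he => ?_)
      obtain ⟨l, hl⟩ := h
      refine hl ?_
      rcases lt_or_ge l n with hln | hln
      · exact h2 l (he ▸ hln)
      · exact hz l hln x
    · by_contra hc
      have hlt : i < n := lt_of_le_of_ne h1 fun he => hc he.symm
      exact h ⟨i, h3 hlt⟩

/-- the event `fst0 = i` only depends on the coordinates below `i` -/
theorem fst0_inv' {D : ℕ → ℕ → Q n → Q m → ℝ} {α : ℕ → Q n → ℝ} {β : ℕ → Q m → ℝ}
    (h : Arr n m D α β) (i : ℕ) : Inv i fun x => fst0 n α x = i := by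
  intro l hl x
  refine propext ?_
  show (fst0 n α (fl l x) = i) ↔ (fst0 n α x = i)
  rw [fst0_iff α h.za, fst0_iff α h.za]
  have h1 : ∀ k ≤ i, α k (fl l x) = α k x := fun k hk => h.pa k l (hk.trans hl) x
  constructor
  · rintro ⟨a, b, c⟩
    exact ⟨a, fun k hk => by rw [← h1 k hk.le]; exact b k hk, fun hi => by
      rw [← h1 i le_rfl]; exact c hi⟩
  · rintro ⟨a, b, c⟩
    exact ⟨a, fun k hk => by rw [h1 k hk.le]; exact b k hk, fun hi => by
      rw [h1 i le_rfl]; exact c hi⟩

theorem MX_congr {n' m' : ℕ} (hn : n = n') (hm : m = m') {D : ℕ → ℕ → Q n → Q m → ℝ}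
    {D' : ℕ → ℕ → Q n' → Q m' → ℝ} {x : Q n} {y : Q m} {x' : Q n'} {y' : Q m'}
    (h : ∀ i j, D i j x y = D' i j x' y') : MX D x y = MX D' x' y' := by
  subst hn
  subst hm
  have h1 : ∀ k, XS D k x y = XS D' k x' y' := by
    intro k
    unfold XS
    exact sum_congr rfl fun i _ => sum_congr rfl fun j _ => by rw [h i j]
  unfold MX
  simp only [h1]

theorem D_zero {D : ℕ → ℕ → Q n → Q m → ℝ} {α : ℕ → Q n → ℝ} {β : ℕ → Q m → ℝ}
    (h : Arr n m D α β) {i : ℕ} {x : Q n} (hi : α i x = 0) (j : ℕ) (y : Q m) :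
    D i j x y = 0 := by
  have := h.dom i j x y
  rw [hi, zero_mul] at this
  exact abs_nonpos_iff.1 this

/-- localisation in the first variable -/
theorem loc_x (n m : ℕ) (β : ℕ → Q m → ℝ) (Φ : ℝ)
    (hΦ : ∀ (D : ℕ → ℕ → Q n → Q m → ℝ) (α : ℕ → Q n → ℝ), Arr n m D α β → Bdd n m α β →
      av2 (fun x y => MX D x y ^ 4) ≤ Φ)
    (D : ℕ → ℕ → Q n → Q m → ℝ) (α : ℕ → Q n → ℝ) (h : Arr n m D α β) (hb : Bdd n m α β) :
    av2 (fun x y => MX D x y ^ 4) ≤
      Φ * av (fun x => if ∃ i, α i x ≠ 0 then (1 : ℝ) else 0) := by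
  have h1 : av2 (fun x y => MX D x y ^ 4) =
      av fun x => av fun x' => av fun y => MX D (mix (fst0 n α x) x x') y ^ 4 :=
    res_all (fst0 n α) (fst0_le α h.za) (fst0_inv' h) fun x => av fun y => MX D x y ^ 4
  rw [h1, ← av_mul_left]
  refine av_mono fun x => ?_
  by_cases hE : ∃ i, α i x ≠ 0
  · rw [if_pos hE, mul_one]
    set k := fst0 n α x with hk
    have hlow : ∀ i < k, ∀ x', α i (mix k x x') = 0 := by
      intro i hi x'
      rw [mix_lo hi.le (h.pa i)]
      exact fst0_lt hi
    have harr : Arr n m (fun i j x' y => D i j (mix k x x') y)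
        (fun i x' => α i (mix k x x')) β := by
      refine ⟨?_, ?_, ?_, ?_, ?_, h.pb, ?_, h.nb, ?_, ?_, h.zb⟩
      · intro i j y x'
        show D i j (mix k x (fl i x')) y = -D i j (mix k x x') y
        rcases lt_or_ge i k with hi | hi
        · rw [D_zero h (hlow i hi _), D_zero h (hlow i hi _), neg_zero]
        · rw [mix_fl hi]
          exact h.odx i j y _
      · intro i j y l hl x'
        show D i j (mix k x (fl l x')) y = D i j (mix k x x') y
        rcases lt_or_ge i k with hi | hi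
        · rw [D_zero h (hlow i hi _), D_zero h (hlow i hi _)]
        · rw [mix_fl (by omega)]
          exact h.invx i j y l hl _
      · intro i j x'
        exact h.ody i j _
      · intro i j x'
        exact h.invy i j _
      · intro i l hl x'
        show α i (mix k x (fl l x')) = α i (mix k x x')
        rcases lt_or_ge i k with hi | hi
        · rw [hlow i hi, hlow i hi]
        · rw [mix_fl (hi.trans hl)]
          exact h.pa i l hl _
      · intro i x'
        exact h.na i _
      · intro i j x' y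
        exact h.dom i j _ y
      · intro i hi x'
        exact h.za i hi _
    have hbd : Bdd n m (fun i x' => α i (mix k x x')) β := ⟨fun x' => hb.1 _, hb.2⟩
    exact hΦ _ _ harr hbd
  · rw [if_neg hE, mul_zero]
    refine av_le_const fun x' => av_le_const fun y => ?_
    have hk : fst0 n α x = n := by
      unfold fst0
      rw [dif_neg hE]
    rw [hk, mix_all le_rfl]
    have hz : ∀ i j, D i j x y = 0 := fun i j =>
      D_zero h (by by_contra hc; exact hE ⟨i, hc⟩) j y
    have hM : MX D x y ≤ 0 := by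
      refine MX_le fun k _ => ?_
      unfold XS
      rw [abs_nonpos_iff]
      refine sum_eq_zero fun i _ => sum_eq_zero fun j _ => ?_
      rw [hz i j]
      exact ite_self _
    have hM0 : MX D x y = 0 := le_antisymm hM (MX_nonneg D x y)
    rw [hM0]
    norm_num

/-- RT14: localisation -/
theorem loc (h1 : SBnd) : SLoc := by
  obtain ⟨C, hC, hB⟩ := h1
  refine ⟨C, hC, ?_⟩
  intro n m D α β h hb
  have hx : ∀ (n m : ℕ) (D : ℕ → ℕ → Q n → Q m → ℝ) (α : ℕ → Q n → ℝ) (β : ℕ → Q m → ℝ),
      Arr n m D α β → Bdd n m α β → av2 (fun x y => MX D x y ^ 4) ≤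
        C * av (fun x => if ∃ i, α i x ≠ 0 then (1 : ℝ) else 0) :=
    fun n m D α β h hb => loc_x n m β C (fun D α h hb => hB n m D α β h hb) D α h hb
  have key := loc_x m n α (C * av (fun x => if ∃ i, α i x ≠ 0 then (1 : ℝ) else 0))
    (fun D' β' h' hb' => by
      have := hx n m (fun i j x y => D' j i y x) α β' h'.swap hb'.swap
      rw [av2_swap] at this
      refine le_trans (le_of_eq ?_) this
      congr 1
      funext y x
      rw [MX_swap])
    (fun i j x y => D j i y x) β h.swap hb.swap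
  rw [av2_swap] at key
  refine le_trans (le_of_eq ?_) key
  congr 1
  funext x y
  rw [MX_swap]

end Pool.Agent.H79.RT
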