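import Pool.Agent.H79.RT.StmR

/-!
# MP_a7284e_an, project RT, row TR6: the maximal inequality for dominated functions
-/

set_option autoImplicit false

namespace Pool.Agent.H79.RT

open MeasureTheory FourierTransform Filter Topology Finset Classical
open Pool.Agent.H73.Hyp

/-! ### integrals of functions of the integer part -/

theorem mxd_floor :
    MeasurePreserving (fun t : ℝ => ⌊t⌋) volume (Measure.count : Measure ℤ) := by
  refine ⟨Int.measurable_floor, ?_⟩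
  refine Measure.ext_of_singleton fun k => ?_
  rw [Measure.map_apply Int.measurable_floor (measurableSet_singleton k),
    Measure.count_singleton]
  have h : (fun t : ℝ => ⌊t⌋) ⁻¹' {k} = Set.Ico (k : ℝ) (k + 1) :=
    Int.preimage_floor_singleton k
  rw [h, Real.volume_Ico]
  simp

theorem mxd_int_floor {φ : ℤ → ℝ} (h : Summable φ) (hn : ∀ k, 0 ≤ φ k) :
    Integrable (fun t : ℝ => φ ⌊t⌋) ∧ ∫ t : ℝ, φ ⌊t⌋ = ∑' k, φ k := by
  have hi : Integrable φ (Measure.count : Measure ℤ) := by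
    rw [integrable_count_iff]
    refine h.congr fun k => ?_
    rw [Real.norm_eq_abs, abs_of_nonneg (hn k)]
  refine ⟨mxd_floor.integrable_comp_of_integrable hi, ?_⟩
  have h1 : ∫ k, φ k ∂(Measure.count : Measure ℤ) = ∫ t : ℝ, φ ⌊t⌋ := by
    rw [← mxd_floor.map_eq, integral_map mxd_floor.measurable.aemeasurable
      (by rw [mxd_floor.map_eq]; exact hi.aestronglyMeasurable)]
  rw [← h1, integral_countable hi]
  refine tsum_congr fun k => ?_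
  rw [measureReal_def, Measure.count_singleton]
  simp

theorem mxd_int (i : ℤ) {φ : ℤ → ℝ} (h : Summable φ) (hn : ∀ k, 0 ≤ φ k) :
    Integrable (fun t : ℝ => (2 : ℝ) ^ i * φ ⌊(2 : ℝ) ^ i * t⌋) ∧
      ∫ t : ℝ, (2 : ℝ) ^ i * φ ⌊(2 : ℝ) ^ i * t⌋ = ∑' k, φ k := by
  have hp : (0 : ℝ) < (2 : ℝ) ^ i := by positivity
  obtain ⟨h1, h2⟩ := mxd_int_floor h hn
  refine ⟨(h1.comp_mul_left' hp.ne').const_mul _, ?_⟩
  rw [integral_const_mul, Measure.integral_comp_mul_left (fun t : ℝ => φ ⌊t⌋), h2, smul_eq_mul,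
    abs_of_pos (inv_pos.2 hp), ← mul_assoc, mul_inv_cancel₀ hp.ne', one_mul]

/-! ### the one-dimensional majorants -/

/-- the majorant at scale `i` -/
noncomputable def mxA (a : ℤ × ℤ → ℝ) (i : ℤ) (t : ℝ) : ℝ :=
  (2 : ℝ) ^ ((i : ℝ) / 2) * a (i, ⌊(2 : ℝ) ^ i * t⌋)

theorem mxA_nonneg {a : ℤ × ℤ → ℝ} (ha : ∀ p, 0 ≤ a p) (i : ℤ) (t : ℝ) : 0 ≤ mxA a i t :=
  mul_nonneg (by positivity) (ha _)

theorem mxA_meas (a : ℤ × ℤ → ℝ) (i : ℤ) : Measurable (mxA a i) := by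
  unfold mxA
  refine measurable_const.mul ?_
  have h1 : Measurable fun t : ℝ => ⌊(2 : ℝ) ^ i * t⌋ :=
    Int.measurable_floor.comp (measurable_const.mul measurable_id)
  exact (measurable_from_top (f := fun k : ℤ => a (i, k))).comp h1

theorem mxA_sq (a : ℤ × ℤ → ℝ) (i : ℤ) (t : ℝ) :
    mxA a i t ^ 2 = (2 : ℝ) ^ i * a (i, ⌊(2 : ℝ) ^ i * t⌋) ^ 2 := by
  unfold mxA
  rw [mul_pow]
  congr 1
  rw [← Real.rpow_natCast, ← Real.rpow_mul (by norm_num), ← Real.rpow_intCast]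
  congr 1
  push_cast
  ring

theorem mxA_int {a : ℤ × ℤ → ℝ} (hs : Summable fun p => a p ^ 2) (i : ℤ) :
    Integrable (fun t : ℝ => mxA a i t ^ 2) ∧
      ∫ t : ℝ, mxA a i t ^ 2 = ∑' k, a (i, k) ^ 2 := by
  have h1 : Summable fun k => a (i, k) ^ 2 :=
    hs.comp_injective (i := fun k : ℤ => (i, k)) fun k l h => (Prod.ext_iff.1 h).2
  have h2 := mxd_int i h1 fun k => sq_nonneg _
  simp only [mxA_sq]
  exact h2

theorem mxd_dg {m l : ℤ} (h : m < l) (t : ℝ) : dg m (t + sg l t) = dg m t := by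
  obtain ⟨n, hn⟩ : ∃ n : ℕ, m = l - ((n + 1 : ℕ) : ℤ) := ⟨(l - m - 1).toNat, by omega⟩
  rw [hn, dg_coarse, dg_coarse]
  have h2 : ((2 ^ (n + 1) : ℕ) : ℤ) = 2 * (2 ^ n : ℕ) := by push_cast; ring
  rw [h2, ← Int.ediv_ediv_of_nonneg (by norm_num), ← Int.ediv_ediv_of_nonneg (by norm_num)]
  congr 1
  rcases dg_flip l t with ⟨h1, h2⟩ | ⟨h1, h2⟩
  · obtain ⟨k, hk⟩ := h1
    omega
  · rw [Int.not_even_iff_odd] at h1
    obtain ⟨k, hk⟩ := h1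
    omega

theorem mxA_fl (a : ℤ × ℤ → ℝ) {i l : ℤ} (h : i ≤ l) (t : ℝ) :
    mxA a i (t + sg l t) = mxA a i t := by
  have h1 := mxd_dg (m := i - 1) (l := l) (by omega) t
  unfold dg at h1
  rw [sub_add_cancel] at h1
  unfold mxA
  rw [h1]

/-- finitely many scales -/
theorem mxA_sum {a : ℤ × ℤ → ℝ} (hs : Summable fun p => a p ^ 2) (L n : ℕ) :
    Integrable (fun t : ℝ => ∑ i ∈ range n, mxA a ((i : ℤ) - L) t ^ 2) ∧
      ∫ t : ℝ, ∑ i ∈ range n, mxA a ((i : ℤ) - L) t ^ 2 =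
        ∑ i ∈ range n, ∑' k, a ((i : ℤ) - L, k) ^ 2 := by
  refine ⟨integrable_finsetSum _ fun i _ => (mxA_int hs _).1, ?_⟩
  rw [integral_finsetSum _ fun i _ => (mxA_int hs _).1]
  exact sum_congr rfl fun i _ => (mxA_int hs _).2

theorem mxA_sum_le {a : ℤ × ℤ → ℝ} (hs : Summable fun p => a p ^ 2) (L n : ℕ) :
    ∑ i ∈ range n, ∑' k, a ((i : ℤ) - L, k) ^ 2 ≤ ∑' p, a p ^ 2 := by
  have h1 : ∑' p, a p ^ 2 = ∑' i : ℤ, ∑' k : ℤ, a (i, k) ^ 2 := hs.tsum_prod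
  have h2 : Summable fun i : ℤ => ∑' k : ℤ, a (i, k) ^ 2 := hs.prod
  have h3 := h2.sum_le_tsum ((range n).image fun i : ℕ => (i : ℤ) - L)
    fun i _ => tsum_nonneg fun k => sq_nonneg _
  rw [sum_image (fun x _ y _ hxy => by
    have h' : (x : ℤ) - L = (y : ℤ) - L := hxy
    omega)] at h3
  rw [h1]
  exact h3

/-! ### functions on the plane -/

/-- the plane as a product -/
noncomputable def mxe : E2 ≃ᵐ ℝ × ℝ :=
  (MeasurableEquiv.toLp 2 (Fin 2 → ℝ)).symm.trans MeasurableEquiv.finTwoArrow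

theorem mxe_apply (x : E2) : mxe x = (x 0, x 1) := rfl

theorem mxe_mp : MeasurePreserving mxe (volume : Measure E2) volume :=
  (volume_preserving_finTwoArrow ℝ).comp (PiLp.volume_preserving_ofLp (Fin 2))

theorem mxd_prod {F G : ℝ → ℝ} (hF : Integrable F) (hG : Integrable G) :
    Integrable (fun x : E2 => F (x 0) * G (x 1)) ∧
      ∫ x : E2, F (x 0) * G (x 1) = (∫ t, F t) * ∫ t, G t := by
  have h1 : Integrable (fun z : ℝ × ℝ => F z.1 * G z.2) (volume : Measure (ℝ × ℝ)) :=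
    hF.mul_prod hG
  refine ⟨mxe_mp.integrable_comp_of_integrable h1, ?_⟩
  have h2 := mxe_mp.integral_comp' (g := fun z : ℝ × ℝ => F z.1 * G z.2)
  have h3 : ∫ z : ℝ × ℝ, F z.1 * G z.2 = (∫ t, F t) * ∫ t, G t := integral_prod_mul F G
  rw [← h3, ← h2]
  rfl

/-! ### the partial sums of the martingale -/

theorem mxd_orth (L L' : ℕ) (f : L2) {p q : ℕ × ℕ} (h : p ≠ q) :
    inner ℂ (bb L L' f p.1 p.2) (bb L L' f q.1 q.2) = 0 := by
  by_cases h1 : p.1 = q.1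
  · have h2 : p.2 ≠ q.2 := fun h2 => h (Prod.ext h1 h2)
    unfold bb
    rw [Dp0_Dp1, Dp0_Dp1]
    exact Dp_orth _ (by omega) _ _
  · unfold bb
    exact Dp_orth _ (by omega) _ _

theorem mxd_sum_sq (L L' n n' : ℕ) (f : L2) :
    ‖∑ p ∈ range n ×ˢ range n', bb L L' f p.1 p.2‖ ^ 2 =
      ∑ p ∈ range n ×ˢ range n', ‖bb L L' f p.1 p.2‖ ^ 2 :=
  norm_sum_sq_orth _ _ fun p _ q _ h => mxd_orth L L' f h

theorem mxd_Dsum (U : ℤ → L2 →ₗᵢ[ℂ] L2) (L : ℕ) (g : L2) :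
    ∑ i ∈ range (2 * L), Dp U ((i : ℤ) - L) g = Ep U L g - Ep U (-L) g := by
  rw [← sum_Dp U (show (-(L : ℤ)) ≤ L by omega) g]
  refine sum_nbij' (fun i : ℕ => (i : ℤ) - L) (fun i : ℤ => (i + L).toNat) ?_ ?_ ?_ ?_ ?_
  · intro i hi
    rw [mem_range] at hi
    rw [mem_Ico]
    omega
  · intro i hi
    rw [mem_Ico] at hi
    rw [mem_range]
    omega
  · intro i hi
    omega
  · intro i hi
    rw [mem_Ico] at hi
    omega
  · intro i hi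
    rfl

theorem mxd_sum_eq (L : ℕ) (f : L2) :
    ∑ p ∈ range (2 * L) ×ˢ range (2 * L), bb L L f p.1 p.2 =
      Ep (Uf 0) L (Ep (Uf 1) L f - Ep (Uf 1) (-L) f) -
        Ep (Uf 0) (-L) (Ep (Uf 1) L f - Ep (Uf 1) (-L) f) := by
  rw [sum_product]
  rw [← mxd_Dsum (Uf 0) L, ← mxd_Dsum (Uf 1) L]
  refine sum_congr rfl fun i _ => ?_
  rw [map_sum]
  rfl

theorem mxd_lim (f : L2) :
    Tendsto (fun L : ℕ => ∑ p ∈ range (2 * L) ×ˢ range (2 * L), bb L L f p.1 p.2) atTop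
      (𝓝 f) := by
  have key : ∀ c : Fin 2, ∀ v : ℕ → L2, Tendsto v atTop (𝓝 f) →
      Tendsto (fun L : ℕ => Ep (Uf c) L (v L) - Ep (Uf c) (-L) (v L)) atTop (𝓝 f) := by
    intro c v hv
    have h1 := (Ep_up c f).sub (Ep_low c f)
    rw [sub_zero] at h1
    have h2 : Tendsto (fun L : ℕ => (Ep (Uf c) L (v L) - Ep (Uf c) (-L) (v L)) -
        (Ep (Uf c) L f - Ep (Uf c) (-L) f)) atTop (𝓝 0) := by
      rw [tendsto_zero_iff_norm_tendsto_zero]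
      have h3 : Tendsto (fun L : ℕ => 2 * ‖v L - f‖) atTop (𝓝 0) := by
        have h4 := (tendsto_iff_norm_sub_tendsto_zero.1 hv).const_mul 2
        rw [mul_zero] at h4
        exact h4
      refine squeeze_zero (fun L => norm_nonneg _) (fun L => ?_) h3
      have e : (Ep (Uf c) L (v L) - Ep (Uf c) (-L) (v L)) - (Ep (Uf c) L f - Ep (Uf c) (-L) f) =
          Ep (Uf c) L (v L - f) - Ep (Uf c) (-L) (v L - f) := by
        rw [map_sub, map_sub]; abel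
      rw [e]
      have h5 := norm_sub_le (Ep (Uf c) L (v L - f)) (Ep (Uf c) (-L) (v L - f))
      have h6 := Ep_norm_le (Uf c) L (v L - f)
      have h7 := Ep_norm_le (Uf c) (-L) (v L - f)
      linarith
    have h8 := h2.add h1
    rw [zero_add] at h8
    refine h8.congr fun L => ?_
    abel
  have h1 := key 0 (fun L : ℕ => Ep (Uf 1) L f - Ep (Uf 1) (-L) f)
    (key 1 (fun _ => f) tendsto_const_nhds)
  refine h1.congr fun L => ?_
  rw [mxd_sum_eq]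

/-! ### the theorem -/

section main

variable {a b : ℤ × ℤ → ℝ}

theorem mxd_dom (h2 : SHaar) {f : L2} (hcf : ∀ p q, ‖cf f p q‖ ≤ a p * b q) (L L' i j : ℕ) :
    ∀ᵐ x : E2, ‖bb L L' f i j x‖ ≤ mxA a ((i : ℤ) - L) (x 0) * mxA b ((j : ℤ) - L') (x 1) := by
  filter_upwards [h2 f ((i : ℤ) - L) ((j : ℤ) - L')] with x hx
  unfold bb
  rw [hx]
  unfold mxA
  have h3 := hcf ((i : ℤ) - L, ⌊(2 : ℝ) ^ ((i : ℤ) - L) * x 0⌋)
    ((j : ℤ) - L', ⌊(2 : ℝ) ^ ((j : ℤ) - L') * x 1⌋)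
  calc _ ≤ (2 : ℝ) ^ ((((i : ℤ) - L : ℤ) : ℝ) / 2) * (2 : ℝ) ^ ((((j : ℤ) - L' : ℤ) : ℝ) / 2) *
        (a ((i : ℤ) - L, ⌊(2 : ℝ) ^ ((i : ℤ) - L) * x 0⌋) *
          b ((j : ℤ) - L', ⌊(2 : ℝ) ^ ((j : ℤ) - L') * x 1⌋)) :=
        mul_le_mul_of_nonneg_left h3 (by positivity)
    _ = _ := by ring

theorem mxd_bb_sq (h2 : SHaar) (hsa : Summable fun p => a p ^ 2) (hsb : Summable fun p => b p ^ 2)
    {f : L2} (hcf : ∀ p q, ‖cf f p q‖ ≤ a p * b q) (L L' i j : ℕ) :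
    ‖bb L L' f i j‖ ^ 2 ≤ (∑' k, a ((i : ℤ) - L, k) ^ 2) * ∑' k, b ((j : ℤ) - L', k) ^ 2 := by
  obtain ⟨a1, a2⟩ := mxA_int hsa ((i : ℤ) - L)
  obtain ⟨b1, b2⟩ := mxA_int hsb ((j : ℤ) - L')
  obtain ⟨c1, c2⟩ := mxd_prod a1 b1
  rw [← a2, ← b2, ← c2, norm_sq_eq]
  refine integral_mono_ae (integrable_sq _) c1 ?_
  filter_upwards [mxd_dom h2 hcf L L' i j] with x hx
  rw [← mul_pow]
  exact pow_le_pow_left₀ (norm_nonneg _) hx 2

theorem mxd_norm (h2 : SHaar) (hsa : Summable fun p => a p ^ 2) (hsb : Summable fun p => b p ^ 2)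
    {f : L2} (hcf : ∀ p q, ‖cf f p q‖ ≤ a p * b q) {M : ℝ} (hM : 0 ≤ M)
    (hab : (∑' p, a p ^ 2) * (∑' q, b q ^ 2) ≤ M ^ 2) : ‖f‖ ≤ M := by
  have h3 : ∀ L : ℕ, ‖∑ p ∈ range (2 * L) ×ˢ range (2 * L), bb L L f p.1 p.2‖ ≤ M := by
    intro L
    refine abs_le_of_sq_le_sq' ?_ hM |>.2
    rw [mxd_sum_sq]
    calc ∑ p ∈ range (2 * L) ×ˢ range (2 * L), ‖bb L L f p.1 p.2‖ ^ 2
        ≤ ∑ p ∈ range (2 * L) ×ˢ range (2 * L),
          (∑' k, a ((p.1 : ℤ) - L, k) ^ 2) * ∑' k, b ((p.2 : ℤ) - L, k) ^ 2 :=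
          sum_le_sum fun p _ => mxd_bb_sq h2 hsa hsb hcf L L p.1 p.2
      _ = (∑ i ∈ range (2 * L), ∑' k, a ((i : ℤ) - L, k) ^ 2) *
          ∑ j ∈ range (2 * L), ∑' k, b ((j : ℤ) - L, k) ^ 2 := by
          rw [sum_product, sum_mul_sum]
      _ ≤ (∑' p, a p ^ 2) * (∑' q, b q ^ 2) :=
          mul_le_mul (mxA_sum_le hsa L _) (mxA_sum_le hsb L _)
            (sum_nonneg fun j _ => tsum_nonneg fun k => sq_nonneg _)
            (tsum_nonneg fun p => sq_nonneg _)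
      _ ≤ M ^ 2 := hab
  exact le_of_tendsto (mxd_lim f).norm (Eventually.of_forall h3)

theorem mxd_Xs {C : ℝ} (hC0 : 0 ≤ C) (h1 : ∀ (L L' : ℕ) (f : L2) (α β : ℕ → E2 → ℝ),
    (∀ i, Measurable (α i)) → (∀ j, Measurable (β j)) → (∀ i x, 0 ≤ α i x) →
    (∀ j x, 0 ≤ β j x) →
    (∀ i l : ℕ, i ≤ l → ∀ x, α i (H73.Hyp.fl 0 ((l : ℤ) - L) x) = α i x) →
    (∀ (i : ℕ) (l : ℤ) (x : E2), α i (H73.Hyp.fl 1 l x) = α i x) →
    (∀ j l : ℕ, j ≤ l → ∀ x, β j (H73.Hyp.fl 1 ((l : ℤ) - L') x) = β j x) →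
    (∀ (j : ℕ) (l : ℤ) (x : E2), β j (H73.Hyp.fl 0 l x) = β j x) →
    (∀ i j : ℕ, ∀ᵐ x : E2, ‖bb L L' f i j x‖ ≤ α i x * β j x) →
    Integrable (fun x : E2 => (∑ i ∈ range (2 * L), α i x ^ 2) *
      ∑ j ∈ range (2 * L'), β j x ^ 2) →
    ∀ K : Finset ℤ, Maj K (fun k => Xs L L' k f) (C * ∫ x : E2,
      (∑ i ∈ range (2 * L), α i x ^ 2) * ∑ j ∈ range (2 * L'), β j x ^ 2))
    (h2 : SHaar) (ha : ∀ p, 0 ≤ a p) (hb : ∀ p, 0 ≤ b p)
    (hsa : Summable fun p => a p ^ 2) (hsb : Summable fun p => b p ^ 2)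
    {f : L2} (hcf : ∀ p q, ‖cf f p q‖ ≤ a p * b q) {M : ℝ}
    (hab : (∑' p, a p ^ 2) * (∑' q, b q ^ 2) ≤ M ^ 2) (L L' : ℕ) (K : Finset ℤ) :
    Maj K (fun k => Xs L L' k f) (C * M ^ 2) := by
  obtain ⟨a1, a2⟩ := mxA_sum hsa L (2 * L)
  obtain ⟨b1, b2⟩ := mxA_sum hsb L' (2 * L')
  obtain ⟨c1, c2⟩ := mxd_prod a1 b1
  have h3 := h1 L L' f (fun i x => mxA a ((i : ℤ) - L) (x 0)) (fun j x => mxA b ((j : ℤ) - L') (x 1))
    (fun i => (mxA_meas a _).comp (measurable_coord 0))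
    (fun j => (mxA_meas b _).comp (measurable_coord 1))
    (fun i x => mxA_nonneg ha _ _) (fun j x => mxA_nonneg hb _ _)
    (fun i l hl x => by
      simp only
      rw [fl_same, mxA_fl a (by omega)])
    (fun i l x => by
      simp only
      rw [fl_ne (by decide)])
    (fun j l hl x => by
      simp only
      rw [fl_same, mxA_fl b (by omega)])
    (fun j l x => by
      simp only
      rw [fl_ne (by decide)])
    (fun i j => mxd_dom h2 hcf L L' i j) c1 K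
  refine h3.mono (mul_le_mul_of_nonneg_left ?_ hC0)
  rw [c2, a2, b2]
  exact (mul_le_mul (mxA_sum_le hsa L _) (mxA_sum_le hsb L' _)
    (sum_nonneg fun j _ => tsum_nonneg fun k => sq_nonneg _)
    (tsum_nonneg fun p => sq_nonneg _)).trans hab

end main

theorem maxD (h1 : STr) (h2 : SHaar) (h3 : SHc) : SMaxD := by
  obtain ⟨C, hC, h1⟩ := h1
  obtain ⟨C', hC', h3⟩ := h3
  refine ⟨C' * (1 + C), by positivity, fun f M hM hD => ?_⟩
  obtain ⟨a, b, ha, hb, hsa, hsb, hab, hcf⟩ := hD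
  have hn : ‖f‖ ≤ M := mxd_norm h2 hsa hsb hcf hM hab
  refine ⟨hn, fun K hK => ?_⟩
  refine (h3 f (C * M ^ 2) (fun L L' K => mxd_Xs hC h1 h2 ha hb hsa hsb hcf hab L L' K) K
    hK).mono ?_
  have h4 : ‖f‖ ^ 2 ≤ M ^ 2 := pow_le_pow_left₀ (norm_nonneg _) hn 2
  have h5 : ‖f‖ ^ 2 + C * M ^ 2 ≤ (1 + C) * M ^ 2 := by linarith
  calc C' * (‖f‖ ^ 2 + C * M ^ 2) ≤ C' * ((1 + C) * M ^ 2) := mul_le_mul_of_nonneg_left h5 hC'
    _ = C' * (1 + C) * M ^ 2 := by ring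

end Pool.Agent.H79.RT
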