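import Pool.Agent.H79.RT.Basic

/-!
# MP_a7284e_an, project RT, row RT2: modulus of continuity in the clock of the energy
-/

set_option autoImplicit false

namespace Pool.Agent.H79.RT

open Finset Classical

variable {n : ℕ}

/-- the clock -/
noncomputable def mo_sg (β : ℕ → Q n → ℝ) (i : ℕ) (x : Q n) : ℝ := ∑ l ∈ range i, β l x ^ 2

/-- the site `i` is inside the dyadic cell `(q, p)` -/
def mo_in (β : ℕ → Q n → ℝ) (q p i : ℕ) (x : Q n) : Prop :=
  (p : ℝ) / 2 ^ q ≤ mo_sg β i x ∧ mo_sg β (i + 1) x ≤ ((p : ℝ) + 1) / 2 ^ q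

/-- the differences inside a cell -/
noncomputable def mo_d (e β : ℕ → Q n → ℝ) (q p i : ℕ) (x : Q n) : ℝ :=
  if mo_in β q p i x then e i x else 0

theorem mo_sg_succ (β : ℕ → Q n → ℝ) (i : ℕ) (x : Q n) :
    mo_sg β (i + 1) x = mo_sg β i x + β i x ^ 2 := by
  unfold mo_sg
  rw [sum_range_succ]

theorem mo_sg_mono (β : ℕ → Q n → ℝ) {i j : ℕ} (h : i ≤ j) (x : Q n) :
    mo_sg β i x ≤ mo_sg β j x := by
  unfold mo_sg
  exact sum_le_sum_of_subset_of_nonneg (range_mono h) fun l _ _ => sq_nonneg _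

theorem mo_sg_sub (β : ℕ → Q n → ℝ) {i j : ℕ} (h : i ≤ j) (x : Q n) :
    ∑ l ∈ Ico i j, β l x ^ 2 = mo_sg β j x - mo_sg β i x := by
  unfold mo_sg
  exact sum_Ico_eq_sub _ h

theorem mo_sg_inv {e β : ℕ → Q n → ℝ} (h : Mar n e β) {i k : ℕ} (hk : k ≤ i + 1) :
    Inv i (mo_sg β k) := by
  intro l hl x
  unfold mo_sg
  refine sum_congr rfl fun j hj => ?_
  rw [mem_range] at hj
  rw [h.pb j l (by omega) x]

theorem mo_in_inv {e β : ℕ → Q n → ℝ} (h : Mar n e β) (q p i : ℕ) : Inv i (mo_in β q p i) := by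
  intro l hl x
  unfold mo_in
  rw [mo_sg_inv h (Nat.le_succ i) l hl x, mo_sg_inv h (le_refl (i + 1)) l hl x]

theorem mo_d_od {e β : ℕ → Q n → ℝ} (h : Mar n e β) (q p i : ℕ) : Od i (mo_d e β q p i) := by
  intro x
  unfold mo_d
  rw [mo_in_inv h q p i i le_rfl x, h.od i x]
  split_ifs
  · rfl
  · rw [neg_zero]

theorem mo_d_inv {e β : ℕ → Q n → ℝ} (h : Mar n e β) (q p i : ℕ) :
    Inv (i + 1) (mo_d e β q p i) := by
  intro l hl x
  unfold mo_d
  rw [mo_in_inv h q p i l (by omega) x, h.inv i l hl x]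

/-- the energy of a cell -/
theorem mo_energy {e β : ℕ → Q n → ℝ} (h : Mar n e β) (q p N : ℕ) (x : Q n) :
    ∑ i ∈ range N, mo_d e β q p i x ^ 2 ≤ 1 / 2 ^ q := by
  have hab : ((p : ℝ) + 1) / 2 ^ q = (p : ℝ) / 2 ^ q + 1 / 2 ^ q := by ring
  have hpos : (0 : ℝ) ≤ 1 / 2 ^ q := by positivity
  have key : ∀ N : ℕ, ∑ i ∈ range N, mo_d e β q p i x ^ 2 ≤
      max 0 (min (mo_sg β N x) (((p : ℝ) + 1) / 2 ^ q) - (p : ℝ) / 2 ^ q) := by
    intro N
    induction N with
    | zero =>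
      rw [range_zero, sum_empty]
      exact le_max_left _ _
    | succ N ih =>
      rw [sum_range_succ]
      have hm := mo_sg_mono β (Nat.le_succ N) x
      by_cases hin : mo_in β q p N x
      · have h1 : mo_d e β q p N x ^ 2 ≤ β N x ^ 2 := by
          unfold mo_d
          rw [if_pos hin, ← sq_abs (e N x)]
          exact pow_le_pow_left₀ (abs_nonneg _) (h.dom N x) 2
        have h2 : min (mo_sg β N x) (((p : ℝ) + 1) / 2 ^ q) = mo_sg β N x :=
          min_eq_left (hm.trans hin.2)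
        have h3 : max 0 (mo_sg β N x - (p : ℝ) / 2 ^ q) = mo_sg β N x - (p : ℝ) / 2 ^ q :=
          max_eq_right (sub_nonneg.2 hin.1)
        rw [h2, h3] at ih
        rw [min_eq_left hin.2]
        refine le_trans ?_ (le_max_right _ _)
        rw [mo_sg_succ]
        linarith
      · have h1 : mo_d e β q p N x ^ 2 = 0 := by
          unfold mo_d
          rw [if_neg hin]
          norm_num
        rw [h1, add_zero]
        refine ih.trans (max_le_max le_rfl (sub_le_sub_right (min_le_min_right _ hm) _))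
  refine (key N).trans (max_le hpos ?_)
  have := min_le_right (mo_sg β N x) (((p : ℝ) + 1) / 2 ^ q)
  linarith

/-- consecutive sites inside a cell -/
theorem mo_sum_in {e β : ℕ → Q n → ℝ} {q p s t : ℕ} {x : Q n} {M : ℝ} (hst : s ≤ t)
    (hM : ∀ N, |∑ i ∈ range N, mo_d e β q p i x| ≤ M)
    (hin : ∀ i ∈ Ico s t, mo_in β q p i x) : |∑ i ∈ Ico s t, e i x| ≤ 2 * M := by
  have h1 : ∑ i ∈ Ico s t, e i x = ∑ i ∈ Ico s t, mo_d e β q p i x := by
    refine sum_congr rfl fun i hi => ?_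
    unfold mo_d
    rw [if_pos (hin i hi)]
  rw [h1, sum_Ico_eq_sub _ hst]
  have h2 := abs_sub (∑ i ∈ range t, mo_d e β q p i x) (∑ i ∈ range s, mo_d e β q p i x)
  have h3 := hM s
  have h4 := hM t
  linarith

/-- the sum over an interval is controlled by two cells and one crossing site -/
theorem mo_split {e β : ℕ → Q n → ℝ} (h : Mar n e β)
    (hb : ∀ x, ∑ i ∈ range n, β i x ^ 2 ≤ 1) {q : ℕ} {M : ℕ → Q n → ℝ}
    (hM0 : ∀ p x, 0 ≤ M p x) (hM : ∀ p x N, |∑ i ∈ range N, mo_d e β q p i x| ≤ M p x)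
    {x : Q n} {s t : ℕ} (hst : s ≤ t) (htn : t ≤ n)
    (hlam : mo_sg β t x - mo_sg β s x ≤ 1 / 2 ^ q) (hpos : mo_sg β s x < mo_sg β t x) :
    ∃ p < 2 ^ q, ∃ p' < 2 ^ q, |∑ i ∈ Ico s t, e i x| ≤
      2 * M p x + 2 * M p' x + √(mo_sg β t x - mo_sg β s x) := by
  have h2 : (0 : ℝ) < 2 ^ q := by positivity
  have hs0 : 0 ≤ mo_sg β s x := sum_nonneg fun i _ => sq_nonneg _
  have ht1 : mo_sg β t x ≤ 1 := (mo_sg_mono β htn x).trans (hb x)
  set p := ⌊mo_sg β s x * 2 ^ q⌋₊ with hp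
  have hp1 : (p : ℝ) / 2 ^ q ≤ mo_sg β s x := by
    rw [div_le_iff₀ h2]
    exact Nat.floor_le (by positivity)
  have hp2 : mo_sg β s x < ((p : ℝ) + 1) / 2 ^ q := by
    rw [lt_div_iff₀ h2]
    exact Nat.lt_floor_add_one _
  have hpq : p < 2 ^ q := by
    have h3 : (p : ℝ) / 2 ^ q < 1 := by linarith
    rw [div_lt_one h2] at h3
    exact_mod_cast h3
  have e1 : ((p : ℝ) + 1) / 2 ^ q = (p : ℝ) / 2 ^ q + 1 / 2 ^ q := by ring
  have e2 : ((p : ℝ) + 1 + 1) / 2 ^ q = (p : ℝ) / 2 ^ q + 1 / 2 ^ q + 1 / 2 ^ q := by ring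
  have hsq : 0 ≤ √(mo_sg β t x - mo_sg β s x) := Real.sqrt_nonneg _
  rcases le_or_gt (mo_sg β t x) (((p : ℝ) + 1) / 2 ^ q) with hc | hc
  · refine ⟨p, hpq, p, hpq, ?_⟩
    have h3 : |∑ i ∈ Ico s t, e i x| ≤ 2 * M p x := by
      refine mo_sum_in (β := β) (q := q) (p := p) hst (hM p x) fun i hi => ?_
      rw [mem_Ico] at hi
      exact ⟨hp1.trans (mo_sg_mono β hi.1 x), (mo_sg_mono β hi.2 x).trans hc⟩
    have h4 := hM0 p x
    linarith
  · have hex : ∃ k, ((p : ℝ) + 1) / 2 ^ q < mo_sg β k x := ⟨t, hc⟩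
    set k := Nat.find hex with hk
    have hk1 : ((p : ℝ) + 1) / 2 ^ q < mo_sg β k x := Nat.find_spec hex
    have hkt : k ≤ t := Nat.find_min' hex hc
    have hsk : s < k := by
      by_contra hcon
      have := mo_sg_mono β (not_lt.1 hcon) x
      linarith
    obtain ⟨i₀, hi₀⟩ : ∃ i₀, k = i₀ + 1 := ⟨k - 1, by omega⟩
    have hk2 : mo_sg β i₀ x ≤ ((p : ℝ) + 1) / 2 ^ q :=
      not_lt.1 (Nat.find_min hex (by omega))
    have hpq' : p + 1 < 2 ^ q := by
      have h3 : ((p : ℝ) + 1) / 2 ^ q < 1 := by linarith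
      rw [div_lt_one h2] at h3
      exact_mod_cast h3
    refine ⟨p, hpq, p + 1, hpq', ?_⟩
    have h3 : |∑ i ∈ Ico s i₀, e i x| ≤ 2 * M p x := by
      refine mo_sum_in (β := β) (q := q) (p := p) (by omega) (hM p x) fun i hi => ?_
      rw [mem_Ico] at hi
      exact ⟨hp1.trans (mo_sg_mono β hi.1 x), (mo_sg_mono β hi.2 x).trans hk2⟩
    have h4 : |∑ i ∈ Ico k t, e i x| ≤ 2 * M (p + 1) x := by
      refine mo_sum_in (β := β) (q := q) (p := p + 1) hkt (hM (p + 1) x) fun i hi => ?_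
      rw [mem_Ico] at hi
      refine ⟨?_, ?_⟩
      · push_cast
        exact hk1.le.trans (mo_sg_mono β hi.1 x)
      · push_cast
        have h5 := mo_sg_mono β hi.2 x
        simp only [Nat.succ_eq_add_one] at h5
        rw [e2]
        rw [e1] at hp2
        linarith
    have h5 : ∑ i ∈ Ico s t, e i x = ∑ i ∈ Ico s i₀, e i x + e i₀ x + ∑ i ∈ Ico k t, e i x := by
      rw [← sum_Ico_consecutive (fun i => e i x) (show s ≤ k by omega) hkt, hi₀,
        sum_Ico_succ_top (by omega)]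
    have h6 : |e i₀ x| ≤ √(mo_sg β t x - mo_sg β s x) := by
      refine Real.le_sqrt_of_sq_le ?_
      have h7 : |e i₀ x| ^ 2 ≤ β i₀ x ^ 2 := pow_le_pow_left₀ (abs_nonneg _) (h.dom i₀ x) 2
      have h8 := mo_sg_succ β i₀ x
      have h9 := mo_sg_mono β (show i₀ + 1 ≤ t by omega) x
      have h10 := mo_sg_mono β (show s ≤ i₀ by omega) x
      linarith
    rw [h5]
    have h7 := abs_add_le (∑ i ∈ Ico s i₀, e i x + e i₀ x) (∑ i ∈ Ico k t, e i x)
    have h8 := abs_add_le (∑ i ∈ Ico s i₀, e i x) (e i₀ x)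
    linarith

/-- a power of a sum of three terms -/
theorem mo_pow3 {a b c : ℝ} (ha : 0 ≤ a) (hb : 0 ≤ b) (hc : 0 ≤ c) (k : ℕ) :
    (a + b + c) ^ k ≤ 3 ^ k * (a ^ k + b ^ k + c ^ k) := by
  have h1 : a + b + c ≤ 3 * max a (max b c) := by
    have h2 := le_max_left a (max b c)
    have h3 := (le_max_left b c).trans (le_max_right a (max b c))
    have h4 := (le_max_right b c).trans (le_max_right a (max b c))
    linarith
  have h2 : (max a (max b c)) ^ k ≤ a ^ k + b ^ k + c ^ k := by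
    have ha' := pow_nonneg ha k
    have hb' := pow_nonneg hb k
    have hc' := pow_nonneg hc k
    rcases max_cases a (max b c) with ⟨h3, _⟩ | ⟨h3, _⟩
    · rw [h3]; linarith
    · rw [h3]
      rcases max_cases b c with ⟨h4, _⟩ | ⟨h4, _⟩
      · rw [h4]; linarith
      · rw [h4]; linarith
  calc (a + b + c) ^ k ≤ (3 * max a (max b c)) ^ k := pow_le_pow_left₀ (by positivity) h1 k
    _ = 3 ^ k * (max a (max b c)) ^ k := mul_pow _ _ _
    _ ≤ 3 ^ k * (a ^ k + b ^ k + c ^ k) := mul_le_mul_of_nonneg_left h2 (by positivity)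

/-- the levels needed -/
theorem mo_lev (β : ℕ → Q n → ℝ) : ∃ q₁ : ℕ, ∀ x s t, s ≤ n → t ≤ n →
    mo_sg β s x < mo_sg β t x → ∀ q, mo_sg β t x - mo_sg β s x ≤ 1 / 2 ^ q → q < q₁ := by
  have h1 : ∀ a : Q n × ℕ × ℕ, ∃ q₁ : ℕ, mo_sg β a.2.1 a.1 < mo_sg β a.2.2 a.1 →
      ∀ q, mo_sg β a.2.2 a.1 - mo_sg β a.2.1 a.1 ≤ 1 / 2 ^ q → q < q₁ := by
    intro a
    by_cases ha : mo_sg β a.2.1 a.1 < mo_sg β a.2.2 a.1
    · obtain ⟨k, hk⟩ := exists_pow_lt_of_lt_one (sub_pos.2 ha) (show (1 / 2 : ℝ) < 1 by norm_num)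
      refine ⟨k, fun _ q hq => ?_⟩
      by_contra hcon
      have h2 : (1 / 2 : ℝ) ^ q ≤ (1 / 2) ^ k :=
        pow_le_pow_of_le_one (by norm_num) (by norm_num) (not_lt.1 hcon)
      rw [one_div_pow] at h2
      linarith
    · exact ⟨0, fun h => absurd h ha⟩
  choose f hf using h1
  refine ⟨((univ : Finset (Q n)) ×ˢ (range (n + 1) ×ˢ range (n + 1))).sup f, ?_⟩
  intro x s t hs ht hst q hq
  refine (hf (x, s, t) hst q hq).trans_le (le_sup ?_)
  rw [mem_product, mem_product, mem_range, mem_range]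
  exact ⟨mem_univ _, by simp only []; omega, by simp only []; omega⟩

/-- a dyadic number between -/
theorem mo_dy {l : ℝ} (h0 : 0 < l) (h1 : l ≤ 1) : ∃ q : ℕ, l ≤ 1 / 2 ^ q ∧ 1 < 2 ^ (q + 1) * l := by
  obtain ⟨k, hk⟩ := exists_pow_lt_of_lt_one h0 (show (1 / 2 : ℝ) < 1 by norm_num)
  have hex : ∃ k : ℕ, (1 / 2 : ℝ) ^ k < l := ⟨k, hk⟩
  have hf := Nat.find_spec hex
  have hne : Nat.find hex ≠ 0 := by
    intro h
    rw [h, pow_zero] at hf
    linarith
  obtain ⟨q, hq⟩ := Nat.exists_eq_succ_of_ne_zero hne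
  refine ⟨q, ?_, ?_⟩
  · have := not_lt.1 (Nat.find_min hex (show q < Nat.find hex by omega))
    rwa [one_div_pow] at this
  · rw [hq, Nat.succ_eq_add_one, one_div_pow, div_lt_iff₀ (by positivity)] at hf
    linarith

/-- RT2 -/
theorem mod (h1 : SBdg) : SMod := by
  intro r hr
  obtain ⟨C, hC, hbdg⟩ := h1 r (by omega)
  refine ⟨2 * 36 ^ r * (1 + C * 2 ^ (r - 1)), by positivity, ?_⟩
  intro n e β hM hb
  have h2 := fun q p => hbdg n (mo_d e β q p) (mo_d_od hM q p) (mo_d_inv hM q p)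
  choose M hM0 hMs hMav using h2
  obtain ⟨q₁, hq₁⟩ := mo_lev β
  set T : ℕ → Q n → ℝ := fun q x => ∑ p ∈ range (2 ^ q), M q p x ^ (2 * r) with hT
  have hT0 : ∀ q x, 0 ≤ T q x := fun q x => sum_nonneg fun p _ => pow_nonneg (hM0 q p x) _
  have hTav : ∀ q, av (T q) ≤ 2 ^ q * (C * (1 / 2 ^ q) ^ r) := by
    intro q
    rw [hT]
    simp only []
    rw [av_sum]
    calc ∑ p ∈ range (2 ^ q), av (fun x => M q p x ^ (2 * r))
        ≤ ∑ _p ∈ range (2 ^ q), C * (1 / 2 ^ q) ^ r := by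
          refine sum_le_sum fun p _ => (hMav q p).trans (mul_le_mul_of_nonneg_left ?_ hC)
          refine av_le_const fun x => ?_
          exact pow_le_pow_left₀ (sum_nonneg fun i _ => sq_nonneg _) (mo_energy hM q p n x) r
      _ = 2 ^ q * (C * (1 / 2 ^ q) ^ r) := by
          rw [sum_const, card_range, nsmul_eq_mul]
          push_cast
          ring
  refine ⟨fun x => 2 * 36 ^ r * (1 + ∑ q ∈ range q₁, 2 ^ ((q + 1) * (r - 2)) * T q x), ?_, ?_, ?_⟩
  · intro x
    have : 0 ≤ ∑ q ∈ range q₁, 2 ^ ((q + 1) * (r - 2)) * T q x :=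
      sum_nonneg fun q _ => mul_nonneg (by positivity) (hT0 q x)
    positivity
  · rw [av_mul_left, av_add, av_const, av_sum]
    refine mul_le_mul_of_nonneg_left (add_le_add le_rfl ?_) (by positivity)
    have hterm : ∀ q, av (fun x => 2 ^ ((q + 1) * (r - 2)) * T q x) ≤
        C * 2 ^ (r - 2) * (1 / 2) ^ q := by
      intro q
      rw [av_mul_left]
      refine (mul_le_mul_of_nonneg_left (hTav q) (by positivity)).trans (le_of_eq ?_)
      obtain ⟨w, rfl⟩ : ∃ w, r = w + 2 := ⟨r - 2, by omega⟩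
      rw [Nat.add_sub_cancel, one_div_pow, one_div_pow, ← pow_mul, Nat.add_mul, Nat.one_mul,
        pow_add, Nat.mul_add, pow_add, Nat.mul_two, pow_add]
      have h3 : (2 : ℝ) ^ q ≠ 0 := by positivity
      have h4 : (2 : ℝ) ^ (q * w) ≠ 0 := by positivity
      field_simp
    calc ∑ q ∈ range q₁, av (fun x => 2 ^ ((q + 1) * (r - 2)) * T q x)
        ≤ ∑ q ∈ range q₁, C * 2 ^ (r - 2) * (1 / 2) ^ q := sum_le_sum fun q _ => hterm q
      _ = C * 2 ^ (r - 2) * ∑ q ∈ range q₁, (1 / 2 : ℝ) ^ q := by rw [mul_sum]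
      _ ≤ C * 2 ^ (r - 2) * 2 := by
          refine mul_le_mul_of_nonneg_left ?_ (by positivity)
          rw [geom_sum_eq (by norm_num)]
          have h3 : (0 : ℝ) < (1 / 2) ^ q₁ := by positivity
          rw [div_le_iff_of_neg (by norm_num)]
          linarith
      _ = C * 2 ^ (r - 1) := by
          rw [show r - 1 = (r - 2) + 1 by omega, pow_succ]
          ring
  · intro x s t hst
    have hZ : ∀ y : ℝ, 0 ≤ y → 0 ≤ 2 * 36 ^ r *
        (1 + ∑ q ∈ range q₁, 2 ^ ((q + 1) * (r - 2)) * T q x) * y := by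
      intro y hy
      have : 0 ≤ ∑ q ∈ range q₁, 2 ^ ((q + 1) * (r - 2)) * T q x :=
        sum_nonneg fun q _ => mul_nonneg (by positivity) (hT0 q x)
      positivity
    -- reduction to `t ≤ n`
    have hred : ∀ s t, s ≤ t → t ≤ n → (∑ i ∈ Ico s t, e i x) ^ (2 * r) ≤
        2 * 36 ^ r * (1 + ∑ q ∈ range q₁, 2 ^ ((q + 1) * (r - 2)) * T q x) *
          (∑ i ∈ Ico s t, β i x ^ 2) ^ (r - 2) := by
      intro s t hst htn
      rw [mo_sg_sub β hst x]
      set l := mo_sg β t x - mo_sg β s x with hl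
      have hs0 : 0 ≤ mo_sg β s x := sum_nonneg fun i _ => sq_nonneg _
      have ht1 : mo_sg β t x ≤ 1 := (mo_sg_mono β htn x).trans (hb x)
      have hl0 : 0 ≤ l := sub_nonneg.2 (mo_sg_mono β hst x)
      have hl1 : l ≤ 1 := by linarith
      rcases hl0.eq_or_lt with hz | hz
      · have hz2 : ∀ i ∈ Ico s t, e i x = 0 := by
          intro i hi
          have h3 : ∑ i ∈ Ico s t, β i x ^ 2 = 0 := by
            rw [mo_sg_sub β hst x, ← hl, ← hz]
          have h4 := (sum_eq_zero_iff_of_nonneg fun i _ => sq_nonneg (β i x)).1 h3 i hi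
          have h5 : β i x = 0 := by
            simpa using h4
          have h6 := hM.dom i x
          rw [h5] at h6
          exact abs_eq_zero.1 (le_antisymm h6 (abs_nonneg _))
        rw [sum_eq_zero hz2, zero_pow (by omega)]
        exact hZ _ (pow_nonneg hl0 _)
      · obtain ⟨q, hq1, hq2⟩ := mo_dy hz hl1
        have hqq : q < q₁ := hq₁ x s t (hst.trans htn) htn (by linarith) q hq1
        obtain ⟨p, hp, p', hp', hsum⟩ := mo_split hM hb (hM0 q) (hMs q) hst htn hq1 (by linarith)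
        have hTp : ∀ p < 2 ^ q, M q p x ^ (2 * r) ≤ T q x := by
          intro p hp
          exact single_le_sum (f := fun p => M q p x ^ (2 * r))
            (fun p _ => pow_nonneg (hM0 q p x) _) (mem_range.2 hp)
        have h3 : (∑ i ∈ Ico s t, e i x) ^ (2 * r) ≤
            3 ^ (2 * r) * ((2 * M q p x) ^ (2 * r) + (2 * M q p' x) ^ (2 * r) +
              √l ^ (2 * r)) := by
          have h4 : (∑ i ∈ Ico s t, e i x) ^ (2 * r) = |∑ i ∈ Ico s t, e i x| ^ (2 * r) := by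
            rw [pow_mul, pow_mul, sq_abs]
          rw [h4]
          refine (pow_le_pow_left₀ (abs_nonneg _) hsum _).trans ?_
          have h5 := hM0 q p x
          have h6 := hM0 q p' x
          exact mo_pow3 (by positivity) (by positivity) (Real.sqrt_nonneg _) _
        have h4 : √l ^ (2 * r) = l ^ r := by
          rw [pow_mul, Real.sq_sqrt hl0]
        have h5 : l ^ r ≤ l ^ (r - 2) := pow_le_pow_of_le_one hl0 hl1 (by omega)
        have h6 : (1 : ℝ) ≤ 2 ^ ((q + 1) * (r - 2)) * l ^ (r - 2) := by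
          rw [pow_mul, ← mul_pow]
          exact one_le_pow₀ hq2.le
        have h7 : T q x ≤ 2 ^ ((q + 1) * (r - 2)) * T q x * l ^ (r - 2) := by
          have := mul_le_mul_of_nonneg_right h6 (hT0 q x)
          linarith
        have h8 : 2 ^ ((q + 1) * (r - 2)) * T q x ≤
            ∑ q ∈ range q₁, 2 ^ ((q + 1) * (r - 2)) * T q x :=
          single_le_sum (f := fun q => 2 ^ ((q + 1) * (r - 2)) * T q x)
            (fun q _ => mul_nonneg (by positivity) (hT0 q x)) (mem_range.2 hqq)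
        have h9 : T q x ≤ (∑ q ∈ range q₁, 2 ^ ((q + 1) * (r - 2)) * T q x) * l ^ (r - 2) :=
          h7.trans (mul_le_mul_of_nonneg_right h8 (pow_nonneg hl0 _))
        have h10 := hTp p hp
        have h11 := hTp p' hp'
        have h12 : (9 : ℝ) ^ r ≤ 2 * 36 ^ r := by
          have : (9 : ℝ) ^ r ≤ 36 ^ r := pow_le_pow_left₀ (by norm_num) (by norm_num) r
          have h13 : (0 : ℝ) ≤ 36 ^ r := by positivity
          linarith
        have h14 : (3 : ℝ) ^ (2 * r) = 9 ^ r := by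
          rw [pow_mul]; norm_num
        have h15 : (36 : ℝ) ^ r = 9 ^ r * 4 ^ r := by
          rw [← mul_pow]; norm_num
        have h16 : (2 : ℝ) ^ (2 * r) = 4 ^ r := by
          rw [pow_mul]; norm_num
        rw [h4, mul_pow, mul_pow, h14, h16] at h3
        refine h3.trans ?_
        have h17 : (9 : ℝ) ^ r * (4 ^ r * M q p x ^ (2 * r) + 4 ^ r * M q p' x ^ (2 * r) + l ^ r) ≤
            2 * 36 ^ r * T q x + 9 ^ r * l ^ (r - 2) := by
          rw [h15]
          have h18 : (0 : ℝ) ≤ 9 ^ r * 4 ^ r := by positivity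
          have h19 : (0 : ℝ) ≤ 9 ^ r := by positivity
          have h20 := mul_le_mul_of_nonneg_left h10 h18
          have h21 := mul_le_mul_of_nonneg_left h11 h18
          have h22 := mul_le_mul_of_nonneg_left h5 h19
          linarith
        refine h17.trans ?_
        have h23 : 9 ^ r * l ^ (r - 2) ≤ 2 * 36 ^ r * l ^ (r - 2) :=
          mul_le_mul_of_nonneg_right h12 (pow_nonneg hl0 _)
        have h24 := mul_le_mul_of_nonneg_left h9 (show (0 : ℝ) ≤ 2 * 36 ^ r by positivity)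
        linarith
    rcases le_or_gt t n with htn | htn
    · exact hred s t hst htn
    rcases le_or_gt s n with hsn | hsn
    · have h3 : ∑ i ∈ Ico s t, e i x = ∑ i ∈ Ico s n, e i x := by
        rw [← sum_Ico_consecutive (fun i => e i x) hsn htn.le]
        have : ∑ i ∈ Ico n t, e i x = 0 :=
          sum_eq_zero fun i hi => (hM.od i).zero (mem_Ico.1 hi).1 x
        rw [this, add_zero]
      have h4 : ∑ i ∈ Ico s t, β i x ^ 2 = ∑ i ∈ Ico s n, β i x ^ 2 := by
        rw [← sum_Ico_consecutive (fun i => β i x ^ 2) hsn htn.le]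
        have : ∑ i ∈ Ico n t, β i x ^ 2 = 0 :=
          sum_eq_zero fun i hi => by rw [hM.zb i (mem_Ico.1 hi).1 x]; norm_num
        rw [this, add_zero]
      rw [h3, h4]
      exact hred s n hsn le_rfl
    · have h3 : ∑ i ∈ Ico s t, e i x = 0 :=
        sum_eq_zero fun i hi => (hM.od i).zero (hsn.le.trans (mem_Ico.1 hi).1) x
      rw [h3, zero_pow (by omega)]
      exact hZ _ (pow_nonneg (sum_nonneg fun i _ => sq_nonneg _) _)

end Pool.Agent.H79.RT
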