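import Pool.Agent.H79.RT.Basic

/-!
# MP_a7284e_an, project RT, row RT10: pairs of levels
-/

set_option autoImplicit false

namespace Pool.Agent.H79.RT

open Finset Classical

variable {n m : ℕ}

theorem pair_mono {D : ℕ → ℕ → Q n → Q m → ℝ} {α : ℕ → Q n → ℝ} {β : ℕ → Q m → ℝ}
    {a a' : Q n → ℕ} {b b' : Q m → ℕ} {h K K' : ℝ} (hh : 0 < h) (hK : K ≤ K')
    (hp : PE n m D α β a a' b b' h K) : PE n m D α β a a' b b' h K' := by
  unfold PE at *
  exact hp.trans (mul_le_mul_of_nonneg_right hK (by positivity))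

theorem pair_swap {D : ℕ → ℕ → Q n → Q m → ℝ} {α : ℕ → Q n → ℝ} {β : ℕ → Q m → ℝ}
    {a a' : Q n → ℕ} {b b' : Q m → ℕ} {h K : ℝ}
    (hp : PE m n (fun i j x y => D j i y x) β α b b' a a' h K) :
    PE n m D α β a a' b b' h K := by
  unfold PE at *
  rw [av2_swap]
  refine le_of_eq_of_le ?_ hp
  congr 1
  funext y x
  rw [add_comm (b y) (a x), add_comm (b' y) (a' x),
    VV_swap α β (a x + b y) (a' x + b' y) x y, XS_swap D (a' x + b' y) x y,
    XS_swap D (a x + b y) x y]

theorem pair_zero {D : ℕ → ℕ → Q n → Q m → ℝ} {α : ℕ → Q n → ℝ} {β : ℕ → Q m → ℝ}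
    {a a' : Q n → ℕ} {b b' : Q m → ℕ} {h K : ℝ} (hh : 0 < h) (hK : 0 ≤ K)
    (ha : ∀ x, a' x ≤ a x) (hb : ∀ y, b' y ≤ b y) : PE n m D α β a a' b b' h K := by
  unfold PE
  have h0 : (fun (x : Q n) (y : Q m) =>
      if a x + b y ≤ a' x + b' y ∧ VV α β (a x + b y) (a' x + b' y) x y ≤ h then
        (XS D (a' x + b' y) x y - XS D (a x + b y) x y) ^ 40 else 0) = fun _ _ => (0 : ℝ) := by
    funext x y
    by_cases hc : a x + b y ≤ a' x + b' y
    · have h1 := ha x
      have h2 := hb y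
      have h3 : a' x + b' y = a x + b y := by omega
      rw [h3, sub_self, zero_pow (by norm_num), ite_self]
    · rw [if_neg fun h => hc h.1]
  rw [h0, av2_const]
  positivity

theorem pair (h1 : SPairA) (h2 : SPairB) : SPair := by
  obtain ⟨K1, hK1, H1⟩ := h1
  obtain ⟨K2, hK2, H2⟩ := h2
  refine ⟨K1 + K2, by linarith, ?_⟩
  intro n m D α β hD hB a a' b b' ha ha' hb hb' hab hbb h hh hh3
  rcases hab with hab | hab
  · rcases hbb with hbb | hbb
    · exact pair_mono hh (by linarith)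
        (H1 n m D α β hD hB a a' b b' ha ha' hb hb' hab hbb h hh hh3)
    · exact pair_mono hh (by linarith)
        (H2 n m D α β hD hB a a' b b' ha ha' hb hb' hab hbb h hh hh3)
  · rcases hbb with hbb | hbb
    · exact pair_mono hh (by linarith) (pair_swap
        (H2 m n (fun i j x y => D j i y x) β α hD.swap hB.swap b b' a a' hb hb' ha ha' hbb hab
          h hh hh3))
    · exact pair_zero hh (by linarith) hab hbb

end Pool.Agent.H79.RT
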