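import Pool.Agent.H79.RT.Basic

/-!
# MP_a7284e_an, project RT: pairs of levels, the monotone case (RT8)
-/

set_option autoImplicit false

namespace Pool.Agent.H79.RT

open Finset Classical

/-- the power of a sum of three terms -/
theorem pairA_three (u v w : ℝ) :
    (u + v + w) ^ 40 ≤ (3 : ℝ) ^ 40 * (u ^ 40 + v ^ 40 + w ^ 40) := by
  have e : ∀ t : ℝ, |t| ^ 40 = t ^ 40 := fun t => Even.pow_abs ⟨20, rfl⟩ t
  obtain ⟨M, hM0, hu, hv, hw, hM⟩ : ∃ M : ℝ, 0 ≤ M ∧ |u| ≤ M ∧ |v| ≤ M ∧ |w| ≤ M ∧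
      M ^ 40 ≤ u ^ 40 + v ^ 40 + w ^ 40 := by
    have h1 : (0 : ℝ) ≤ u ^ 40 := by rw [← e]; positivity
    have h2 : (0 : ℝ) ≤ v ^ 40 := by rw [← e]; positivity
    have h3 : (0 : ℝ) ≤ w ^ 40 := by rw [← e]; positivity
    rcases le_total |u| |v| with huv | huv
    · rcases le_total |v| |w| with hvw | hvw
      · refine ⟨|w|, abs_nonneg w, huv.trans hvw, hvw, le_rfl, ?_⟩
        rw [e]; linarith
      · refine ⟨|v|, abs_nonneg v, huv, le_rfl, hvw, ?_⟩
        rw [e]; linarith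
    · rcases le_total |u| |w| with huw | huw
      · refine ⟨|w|, abs_nonneg w, huw, huv.trans huw, le_rfl, ?_⟩
        rw [e]; linarith
      · refine ⟨|u|, abs_nonneg u, le_rfl, huv, huw, ?_⟩
        rw [e]; linarith
  have h4 : |u + v + w| ≤ 3 * M := by
    have h5 := abs_add_le (u + v) w
    have h6 := abs_add_le u v
    linarith
  calc (u + v + w) ^ 40 = |u + v + w| ^ 40 := (e _).symm
    _ ≤ (3 * M) ^ 40 := pow_le_pow_left₀ (abs_nonneg _) h4 40
    _ = (3 : ℝ) ^ 40 * M ^ 40 := mul_pow _ _ _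
    _ ≤ _ := mul_le_mul_of_nonneg_left hM (by positivity)

/-- RT8 -/
theorem pairA (h1 : SXT) (h2 : SYT) : SPairA := by
  obtain ⟨K1, hK1, H1⟩ := h1 20 (by norm_num)
  obtain ⟨K2, hK2, H2⟩ := h2 20 (by norm_num)
  refine ⟨(3 : ℝ) ^ 40 * (K1 + K2 + K1) * 3 ^ 12, by positivity, ?_⟩
  intro n m D α β hA hB a a' b b' ha ha' hb hb' haa hbb h hh0 hh3
  obtain ⟨⟨r1, r2, r3⟩, -⟩ : ((XReg (RA1 a a' b b') ∧ YReg (RA2 a a' b b') ∧
      XReg (RA3 a' b b')) ∧ True) :=
    ⟨(geo n m a a' b b' ha ha' hb hb' haa).1 hbb, trivial⟩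
  have e1 := H1 n m D α β hA hB _ r1 h hh0.le
  have e2 := H2 n m D α β hA hB _ r2 h hh0.le
  have e3 := H1 n m D α β hA hB _ r3 h hh0.le
  norm_num only [Nat.reduceMul, Nat.reduceSub] at e1 e2 e3
  unfold PE
  have key : ∀ x y, (if a x + b y ≤ a' x + b' y ∧
      VV α β (a x + b y) (a' x + b' y) x y ≤ h then
        (XS D (a' x + b' y) x y - XS D (a x + b y) x y) ^ 40 else 0) ≤
      (3 : ℝ) ^ 40 * ((if En α β (RA1 a a' b b') x y ≤ h then
          Sm D (RA1 a a' b b') x y ^ 40 else 0) +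
        (if En α β (RA2 a a' b b') x y ≤ h then Sm D (RA2 a a' b b') x y ^ 40 else 0) +
        (if En α β (RA3 a' b b') x y ≤ h then Sm D (RA3 a' b b') x y ^ 40 else 0)) := by
    intro x y
    have hnn : ∀ (P : Prop) [Decidable P] (t : ℝ), 0 ≤ (if P then t ^ 40 else 0) := by
      intro P _ t
      split_ifs
      · exact Even.pow_nonneg ⟨20, rfl⟩ t
      · exact le_rfl
    by_cases hc : a x + b y ≤ a' x + b' y ∧ VV α β (a x + b y) (a' x + b' y) x y ≤ h
    · rw [if_pos hc]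
      obtain ⟨hc1, hc2⟩ := hc
      rw [VV_eq] at hc2
      have q1 : En α β (RA1 a a' b b') x y ≤ h :=
        (En_mono α β (fun i j hR => ⟨hR.2.1, hR.2.2⟩)).trans hc2
      have q2 : En α β (RA2 a a' b b') x y ≤ h :=
        (En_mono α β (fun i j hR => ⟨hR.2.2.1, hR.2.2.2⟩)).trans hc2
      have q3 : En α β (RA3 a' b b') x y ≤ h := by
        refine (En_mono α β (fun i j hR => ⟨?_, hR.2.2⟩)).trans hc2
        have := haa x
        have h5 := hR.1
        have h6 := hR.2.1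
        omega
      rw [if_pos q1, if_pos q2, if_pos q3, XS_sub D hc1]
      have hs : Sm D (fun i j _ _ => a x + b y < i + j ∧ i + j ≤ a' x + b' y) x y =
          Sm D (RA1 a a' b b') x y + Sm D (RA2 a a' b b') x y + Sm D (RA3 a' b b') x y := by
        rw [Sm_add D (S := fun i j x y => RA1 a a' b b' i j x y ∨ RA2 a a' b b' i j x y)
          (T := RA3 a' b b'), Sm_add D (S := RA1 a a' b b') (T := RA2 a a' b b')]
        · intro i j
          refine ⟨Iff.rfl, ?_⟩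
          unfold RA1 RA2
          omega
        · intro i j
          have := haa x
          unfold RA1 RA2 RA3
          omega
      rw [hs]
      exact pairA_three _ _ _
    · rw [if_neg hc]
      exact mul_nonneg (by positivity) (add_nonneg (add_nonneg (hnn _ _) (hnn _ _)) (hnn _ _))
  refine (av2_mono key).trans ?_
  rw [av2_mul_left, av2_add, av2_add]
  have hp : h ^ 18 ≤ 3 ^ 12 * h ^ 6 := by
    have : h ^ 12 ≤ 3 ^ 12 := pow_le_pow_left₀ hh0.le hh3 12
    calc h ^ 18 = h ^ 12 * h ^ 6 := by ring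
      _ ≤ 3 ^ 12 * h ^ 6 := mul_le_mul_of_nonneg_right this (by positivity)
  calc (3 : ℝ) ^ 40 * (_ + _ + _) ≤ (3 : ℝ) ^ 40 * (K1 * h ^ 18 + K2 * h ^ 18 + K1 * h ^ 18) :=
        mul_le_mul_of_nonneg_left (add_le_add (add_le_add e1 e2) e3) (by positivity)
    _ = (3 : ℝ) ^ 40 * (K1 + K2 + K1) * h ^ 18 := by ring
    _ ≤ (3 : ℝ) ^ 40 * (K1 + K2 + K1) * (3 ^ 12 * h ^ 6) :=
        mul_le_mul_of_nonneg_left hp (by positivity)
    _ = _ := by ring

end Pool.Agent.H79.RT
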