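import Pool.Agent.H79.RT.Basic

/-!
# MP_a7284e_an, project RT: pairs of levels, the crossed case (RT9)
-/

set_option autoImplicit false

namespace Pool.Agent.H79.RT

open Finset Classical

/-- the power of a sum of two terms -/
theorem pairB_two {N : ℕ} (hN : Even N) (u v : ℝ) :
    (u + v) ^ N ≤ (2 : ℝ) ^ N * (u ^ N + v ^ N) := by
  have e : ∀ t : ℝ, |t| ^ N = t ^ N := fun t => hN.pow_abs t
  obtain ⟨M, hM0, hu, hv, hM⟩ : ∃ M : ℝ, 0 ≤ M ∧ |u| ≤ M ∧ |v| ≤ M ∧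
      M ^ N ≤ u ^ N + v ^ N := by
    have h1 : (0 : ℝ) ≤ u ^ N := hN.pow_nonneg u
    have h2 : (0 : ℝ) ≤ v ^ N := hN.pow_nonneg v
    rcases le_total |u| |v| with huv | huv
    · exact ⟨|v|, abs_nonneg v, huv, le_rfl, by rw [e]; linarith⟩
    · exact ⟨|u|, abs_nonneg u, le_rfl, huv, by rw [e]; linarith⟩
  have h4 : |u + v| ≤ 2 * M := by
    have h6 := abs_add_le u v
    linarith
  calc (u + v) ^ N = |u + v| ^ N := (e _).symm
    _ ≤ (2 * M) ^ N := pow_le_pow_left₀ (abs_nonneg _) h4 N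
    _ = (2 : ℝ) ^ N * M ^ N := mul_pow _ _ _
    _ ≤ _ := mul_le_mul_of_nonneg_left hM (by positivity)

/-- the power of a sum of four terms -/
theorem pairB_four (u v w z : ℝ) : (u + v + w + z) ^ 40 ≤
    (2 : ℝ) ^ 40 * 2 ^ 40 * (u ^ 40 + v ^ 40 + w ^ 40 + z ^ 40) := by
  have hE : Even 40 := ⟨20, rfl⟩
  calc (u + v + w + z) ^ 40 = ((u + v) + (w + z)) ^ 40 := by rw [add_assoc (u + v) w z]
    _ ≤ 2 ^ 40 * ((u + v) ^ 40 + (w + z) ^ 40) := pairB_two hE _ _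
    _ ≤ 2 ^ 40 * (2 ^ 40 * (u ^ 40 + v ^ 40) + 2 ^ 40 * (w ^ 40 + z ^ 40)) :=
        mul_le_mul_of_nonneg_left (add_le_add (pairB_two hE u v) (pairB_two hE w z))
          (by positivity)
    _ = _ := by ring

section pw

variable {n m : ℕ} (D : ℕ → ℕ → Q n → Q m → ℝ) (α : ℕ → Q n → ℝ) (β : ℕ → Q m → ℝ)
  (a a' : Q n → ℕ) (b b' : Q m → ℕ) (h : ℝ)

/-- the truncated power of the sum over a region -/
noncomputable def pairB_I (R : ℕ → ℕ → Q n → Q m → Prop) (x : Q n) (y : Q m) : ℝ :=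
  if En α β R x y ≤ h then Sm D R x y ^ 40 else 0

/-- the indicator of the exceptional set -/
noncomputable def pairB_F (c : Finset ℕ) (x : Q n) (y : Q m) : ℝ :=
  if b y - b' y ≤ a' x - a x ∧ ∀ k ∈ c, ¬(b y - b' y ≤ k ∧ k ≤ a' x - a x) then (1 : ℝ) else 0

theorem pairB_I_nonneg (R : ℕ → ℕ → Q n → Q m → Prop) (x : Q n) (y : Q m) :
    0 ≤ pairB_I D α β h R x y := by
  unfold pairB_I
  split_ifs
  · exact Even.pow_nonneg ⟨20, rfl⟩ _
  · exact le_rfl

theorem pairB_I_eq {R : ℕ → ℕ → Q n → Q m → Prop} {x : Q n} {y : Q m}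
    (hE : En α β R x y ≤ h) : Sm D R x y ^ 40 = pairB_I D α β h R x y := by
  unfold pairB_I
  rw [if_pos hE]

theorem pairB_F_nonneg (c : Finset ℕ) (x : Q n) (y : Q m) : 0 ≤ pairB_F a a' b b' c x y := by
  unfold pairB_F
  split_ifs <;> norm_num

theorem pairB_F_sq (c : Finset ℕ) (x : Q n) (y : Q m) :
    pairB_F a a' b b' c x y ^ 2 = pairB_F a a' b b' c x y := by
  unfold pairB_F
  split_ifs <;> norm_num

/-- the box, pointwise -/
theorem pairB_box (haa : ∀ x, a x ≤ a' x) (hbb : ∀ y, b' y ≤ b y) (c : Finset ℕ) (x : Q n)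
    (y : Q m) (hc1 : a x + b y ≤ a' x + b' y)
    (hc2 : En α β (fun i j _ _ => a x + b y < i + j ∧ i + j ≤ a' x + b' y) x y ≤ h) :
    Sm D (RBx a a' b b') x y ^ 40 ≤
      2 ^ 40 * ∑ k ∈ c, (pairB_I D α β h (RB4 a b b' k) x y +
        pairB_I D α β h (RB5 a a' b b' k) x y) +
      pairB_F a a' b b' c x y *
        (Sm D (RB6 a a' b b') x y + -Sm D (RB7 a b b') x y) ^ 40 := by
  have hxa := haa x
  have hyb := hbb y
  have hS0 : 0 ≤ 2 ^ 40 * ∑ k ∈ c, (pairB_I D α β h (RB4 a b b' k) x y +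
        pairB_I D α β h (RB5 a a' b b' k) x y) :=
    mul_nonneg (by positivity) (sum_nonneg fun k _ =>
      add_nonneg (pairB_I_nonneg D α β h _ x y) (pairB_I_nonneg D α β h _ x y))
  have hG0 : 0 ≤ (Sm D (RB6 a a' b b') x y + -Sm D (RB7 a b b') x y) ^ 40 :=
    Even.pow_nonneg ⟨20, rfl⟩ _
  by_cases hg : ∃ k ∈ c, b y ≤ b' y + k ∧ a x + k ≤ a' x
  · obtain ⟨k, hk, k1, k2⟩ := hg
    have hs : Sm D (RBx a a' b b') x y =
        Sm D (RB4 a b b' k) x y + Sm D (RB5 a a' b b' k) x y := by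
      refine Sm_add D fun i j => ?_
      unfold RBx RB4 RB5
      omega
    have q4 : En α β (RB4 a b b' k) x y ≤ h := by
      refine (En_mono α β fun i j hR => ?_).trans hc2
      unfold RB4 at hR
      omega
    have q5 : En α β (RB5 a a' b b' k) x y ≤ h := by
      refine (En_mono α β fun i j hR => ?_).trans hc2
      unfold RB5 at hR
      omega
    have h1 : Sm D (RBx a a' b b') x y ^ 40 ≤ 2 ^ 40 * (pairB_I D α β h (RB4 a b b' k) x y +
        pairB_I D α β h (RB5 a a' b b' k) x y) := by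
      rw [hs, ← pairB_I_eq D α β h q4, ← pairB_I_eq D α β h q5]
      exact pairB_two ⟨20, rfl⟩ _ _
    have h2 : pairB_I D α β h (RB4 a b b' k) x y + pairB_I D α β h (RB5 a a' b b' k) x y ≤
        ∑ k ∈ c, (pairB_I D α β h (RB4 a b b' k) x y +
          pairB_I D α β h (RB5 a a' b b' k) x y) :=
      single_le_sum (f := fun k => pairB_I D α β h (RB4 a b b' k) x y +
          pairB_I D α β h (RB5 a a' b b' k) x y) (fun k _ =>
        add_nonneg (pairB_I_nonneg D α β h _ x y) (pairB_I_nonneg D α β h _ x y)) hk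
    have h3 := mul_nonneg (pairB_F_nonneg a a' b b' c x y) hG0
    have h4 := mul_le_mul_of_nonneg_left h2 (show (0 : ℝ) ≤ 2 ^ 40 by positivity)
    linarith
  · have hF : pairB_F a a' b b' c x y = 1 := by
      unfold pairB_F
      refine if_pos ⟨by omega, fun k hk hh => hg ⟨k, hk, by omega, by omega⟩⟩
    have hs : Sm D (RB6 a a' b b') x y =
        Sm D (RBx a a' b b') x y + Sm D (RB7 a b b') x y := by
      refine Sm_add D fun i j => ?_
      unfold RBx RB6 RB7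
      omega
    rw [hF, one_mul, hs, add_neg_cancel_right]
    linarith

/-- everything, pointwise -/
theorem pairB_pw (haa : ∀ x, a x ≤ a' x) (hbb : ∀ y, b' y ≤ b y) (c : Finset ℕ) (x : Q n)
    (y : Q m) : (if a x + b y ≤ a' x + b' y ∧
      VV α β (a x + b y) (a' x + b' y) x y ≤ h then
        (XS D (a' x + b' y) x y - XS D (a x + b y) x y) ^ 40 else 0) ≤
      (2 : ℝ) ^ 40 * 2 ^ 40 * (pairB_I D α β h (RB1 a a' b b') x y +
        pairB_I D α β h (RB2 a a' b b') x y + pairB_I D α β h (RB3 a a' b b') x y +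
        (2 ^ 40 * ∑ k ∈ c, (pairB_I D α β h (RB4 a b b' k) x y +
          pairB_I D α β h (RB5 a a' b b' k) x y) +
        pairB_F a a' b b' c x y *
          (Sm D (RB6 a a' b b') x y + -Sm D (RB7 a b b') x y) ^ 40)) := by
  by_cases hc : a x + b y ≤ a' x + b' y ∧ VV α β (a x + b y) (a' x + b' y) x y ≤ h
  · rw [if_pos hc]
    obtain ⟨hc1, hc2⟩ := hc
    rw [VV_eq] at hc2
    have hxa := haa x
    have hyb := hbb y
    have q1 : En α β (RB1 a a' b b') x y ≤ h :=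
      (En_mono α β (fun i j hR => ⟨hR.2.1, hR.2.2⟩)).trans hc2
    have q2 : En α β (RB2 a a' b b') x y ≤ h :=
      (En_mono α β (fun i j hR => ⟨hR.2.2.1, hR.2.2.2⟩)).trans hc2
    have q3 : En α β (RB3 a a' b b') x y ≤ h := by
      refine (En_mono α β (fun i j hR => ?_)).trans hc2
      unfold RB3 at hR
      omega
    rw [XS_sub D hc1]
    have hs : Sm D (fun i j _ _ => a x + b y < i + j ∧ i + j ≤ a' x + b' y) x y =
        Sm D (RB1 a a' b b') x y + Sm D (RB2 a a' b b') x y + Sm D (RB3 a a' b b') x y +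
          Sm D (RBx a a' b b') x y := by
      rw [Sm_add D (S := fun i j x y => (RB1 a a' b b' i j x y ∨ RB2 a a' b b' i j x y) ∨
          RB3 a a' b b' i j x y) (T := RBx a a' b b'),
        Sm_add D (S := fun i j x y => RB1 a a' b b' i j x y ∨ RB2 a a' b b' i j x y)
          (T := RB3 a a' b b'),
        Sm_add D (S := RB1 a a' b b') (T := RB2 a a' b b')]
      · intro i j
        refine ⟨Iff.rfl, ?_⟩
        unfold RB1 RB2
        omega
      · intro i j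
        refine ⟨Iff.rfl, ?_⟩
        unfold RB1 RB2 RB3
        omega
      · intro i j
        unfold RB1 RB2 RB3 RBx
        omega
    rw [hs]
    refine (pairB_four _ _ _ _).trans (mul_le_mul_of_nonneg_left ?_ (by positivity))
    rw [pairB_I_eq D α β h q1, pairB_I_eq D α β h q2, pairB_I_eq D α β h q3]
    exact add_le_add le_rfl (pairB_box D α β a a' b b' h haa hbb c x y hc1 hc2)
  · rw [if_neg hc]
    refine mul_nonneg (by positivity) (add_nonneg (add_nonneg (add_nonneg ?_ ?_) ?_)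
      (add_nonneg ?_ ?_))
    · exact pairB_I_nonneg D α β h _ x y
    · exact pairB_I_nonneg D α β h _ x y
    · exact pairB_I_nonneg D α β h _ x y
    · exact mul_nonneg (by positivity) (sum_nonneg fun k _ =>
        add_nonneg (pairB_I_nonneg D α β h _ x y) (pairB_I_nonneg D α β h _ x y))
    · exact mul_nonneg (pairB_F_nonneg a a' b b' c x y) (Even.pow_nonneg ⟨20, rfl⟩ _)

/-- the average of the indicator of the exceptional set -/
theorem pairB_avF {W : ℕ} (c : Finset ℕ) (hq : ∀ b0 : ℕ, av (fun x => if b0 ≤ a' x - a x ∧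
      ∀ k ∈ c, ¬(b0 ≤ k ∧ k ≤ a' x - a x) then (1 : ℝ) else 0) ≤ 1 / W) :
    av2 (pairB_F a a' b b' c) ≤ 1 / W := by
  rw [av2_swap]
  unfold av2
  exact av_le_const fun y => hq (b y - b' y)

end pw

/-- Cauchy-Schwarz for the exceptional set -/
theorem pairB_cs {n m : ℕ} (F G H : Q n → Q m → ℝ) (hF : ∀ x y, F x y ^ 2 = F x y)
    (hF0 : ∀ x y, 0 ≤ F x y) {p K K' h : ℝ} (hK : 0 ≤ K) (hK' : 0 ≤ K') (hh : 0 ≤ h)
    (hp : p ≤ h ^ 12) (h1 : av2 F ≤ p) (h2 : av2 (fun x y => G x y ^ 80) ≤ K)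
    (h3 : av2 (fun x y => H x y ^ 80) ≤ K') :
    av2 (fun x y => F x y * (G x y + -H x y) ^ 40) ≤ 2 ^ 40 * (K + K' + 1) * h ^ 6 := by
  have e0 : 0 ≤ av2 (fun x y => F x y * (G x y + -H x y) ^ 40) :=
    av2_nonneg fun x y => mul_nonneg (hF0 x y) (Even.pow_nonneg ⟨20, rfl⟩ _)
  have e1 := av2_cs F (fun x y => (G x y + -H x y) ^ 40)
  have e2 : (fun x y => F x y ^ 2) = F := funext fun x => funext fun y => hF x y
  rw [e2] at e1
  have e3 : av2 (fun x y => ((G x y + -H x y) ^ 40) ^ 2) ≤ 2 ^ 80 * (K + K') := by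
    calc av2 (fun x y => ((G x y + -H x y) ^ 40) ^ 2) ≤
        av2 (fun x y => 2 ^ 80 * (G x y ^ 80 + H x y ^ 80)) := by
          refine av2_mono fun x y => ?_
          rw [← pow_mul]
          have h4 := pairB_two (N := 80) ⟨40, rfl⟩ (G x y) (-H x y)
          rw [Even.neg_pow ⟨40, rfl⟩] at h4
          exact h4
      _ = 2 ^ 80 * (av2 (fun x y => G x y ^ 80) + av2 (fun x y => H x y ^ 80)) := by
          rw [av2_mul_left, av2_add]
      _ ≤ _ := mul_le_mul_of_nonneg_left (add_le_add h2 h3) (by positivity)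
  have e4 : 0 ≤ av2 (fun x y => ((G x y + -H x y) ^ 40) ^ 2) :=
    av2_nonneg fun x y => sq_nonneg _
  have e5 : (av2 (fun x y => F x y * (G x y + -H x y) ^ 40)) ^ 2 ≤
      (2 ^ 40 * (K + K' + 1) * h ^ 6) ^ 2 := by
    refine e1.trans ?_
    calc av2 F * av2 (fun x y => ((G x y + -H x y) ^ 40) ^ 2) ≤
        h ^ 12 * (2 ^ 80 * (K + K')) :=
          mul_le_mul (h1.trans hp) e3 e4 (by positivity)
      _ = (2 ^ 80 * h ^ 12) * (K + K') := by ring
      _ ≤ (2 ^ 80 * h ^ 12) * (K + K' + 1) ^ 2 :=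
          mul_le_mul_of_nonneg_left (by nlinarith [add_nonneg hK hK']) (by positivity)
      _ = _ := by ring
  exact (pow_le_pow_iff_left₀ e0 (by positivity) (by norm_num)).1 e5

/-- RT9 -/
theorem pairB (h1 : SXT) (h2 : SYT) (h3 : SQG) : SPairB := by
  obtain ⟨K1, hK1, H1⟩ := h1 20 (by norm_num)
  obtain ⟨K2, hK2, H2⟩ := h2 20 (by norm_num)
  obtain ⟨K3, hK3, H3⟩ := h1 40 (by norm_num)
  obtain ⟨K4, hK4, H4⟩ := h2 40 (by norm_num)
  refine ⟨(2 : ℝ) ^ 40 * 2 ^ 40 * ((K2 + K1 + K2) * 3 ^ 12 + (2 ^ 40 * ((1 + 3 ^ 12) *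
    (K1 + K2)) + 2 ^ 40 * (K4 + K3 + 1))), by positivity, ?_⟩
  intro n m D α β hA hB a a' b b' ha ha' hb hb' haa hbb h hh0 hh3
  obtain ⟨r1, r2, r3, r4, r5, r6, r7⟩ := (geo n m a a' b b' ha ha' hb hb' haa).2 hbb
  have f1 : av2 (pairB_I D α β h (RB1 a a' b b')) ≤ K2 * h ^ 18 :=
    H2 n m D α β hA hB _ r1 h hh0.le
  have f2 : av2 (pairB_I D α β h (RB2 a a' b b')) ≤ K1 * h ^ 18 :=
    H1 n m D α β hA hB _ r2 h hh0.le
  have f3 : av2 (pairB_I D α β h (RB3 a a' b b')) ≤ K2 * h ^ 18 :=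
    H2 n m D α β hA hB _ r3 h hh0.le
  have f4 : ∀ k, av2 (pairB_I D α β h (RB4 a b b' k)) ≤ K1 * h ^ 18 := fun k =>
    H1 n m D α β hA hB _ (r4 k) h hh0.le
  have f5 : ∀ k, av2 (pairB_I D α β h (RB5 a a' b b' k)) ≤ K2 * h ^ 18 := fun k =>
    H2 n m D α β hA hB _ (r5 k) h hh0.le
  have f6 : av2 (fun x y => Sm D (RB6 a a' b b') x y ^ 80) ≤ K4 := by
    have := H4 n m D α β hA hB _ r6 1 zero_le_one
    simp only [En_le_one hB, if_true, one_pow, mul_one] at this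
    exact this
  have f7 : av2 (fun x y => Sm D (RB7 a b b') x y ^ 80) ≤ K3 := by
    have := H3 n m D α β hA hB _ r7 1 zero_le_one
    simp only [En_le_one hB, if_true, one_pow, mul_one] at this
    exact this
  -- the number of quantiles
  obtain ⟨W, hW1, hW2, hW3⟩ : ∃ W : ℕ, 1 ≤ W ∧ (1 : ℝ) / W ≤ h ^ 12 ∧
      (W : ℝ) * h ^ 18 ≤ (1 + 3 ^ 12) * h ^ 6 := by
    have hp : 0 < (1 / h) ^ 12 := by positivity
    refine ⟨Nat.ceil ((1 / h) ^ 12), Nat.one_le_iff_ne_zero.2 (Nat.ceil_pos.2 hp).ne', ?_, ?_⟩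
    · have h4 : (1 / h) ^ 12 ≤ (Nat.ceil ((1 / h) ^ 12) : ℝ) := Nat.le_ceil _
      calc (1 : ℝ) / (Nat.ceil ((1 / h) ^ 12) : ℝ) ≤ 1 / ((1 / h) ^ 12) :=
            one_div_le_one_div_of_le hp h4
        _ = h ^ 12 := by field_simp
    · have h4 : (Nat.ceil ((1 / h) ^ 12) : ℝ) ≤ (1 / h) ^ 12 + 1 :=
        (Nat.ceil_lt_add_one hp.le).le
      have h5 : h ^ 12 ≤ 3 ^ 12 := pow_le_pow_left₀ hh0.le hh3 12
      calc (Nat.ceil ((1 / h) ^ 12) : ℝ) * h ^ 18 ≤ ((1 / h) ^ 12 + 1) * h ^ 18 :=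
            mul_le_mul_of_nonneg_right h4 (by positivity)
        _ = (1 + h ^ 12) * h ^ 6 := by field_simp
        _ ≤ _ := mul_le_mul_of_nonneg_right (by linarith) (by positivity)
  obtain ⟨c, hc, hq⟩ := h3 n (fun x => a' x - a x) W hW1
  have f8 := pairB_avF a a' b b' c hq
  have f9 := pairB_cs (pairB_F a a' b b' c) (Sm D (RB6 a a' b b')) (Sm D (RB7 a b b'))
    (pairB_F_sq a a' b b' c) (pairB_F_nonneg a a' b b' c) hK4 hK3 hh0.le hW2 f8 f6 f7
  have f10 : av2 (fun x y => ∑ k ∈ c, (pairB_I D α β h (RB4 a b b' k) x y +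
      pairB_I D α β h (RB5 a a' b b' k) x y)) ≤ ((1 + 3 ^ 12) * (K1 + K2)) * h ^ 6 := by
    rw [av2_sum]
    calc ∑ k ∈ c, av2 (fun x y => pairB_I D α β h (RB4 a b b' k) x y +
          pairB_I D α β h (RB5 a a' b b' k) x y) ≤ ∑ _k ∈ c, (K1 + K2) * h ^ 18 := by
          refine sum_le_sum fun k _ => ?_
          rw [av2_add]
          have e4 := f4 k
          have e5 := f5 k
          calc _ ≤ K1 * h ^ 18 + K2 * h ^ 18 := add_le_add e4 e5
            _ = _ := by ring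
      _ = (c.card : ℝ) * ((K1 + K2) * h ^ 18) := by rw [sum_const, nsmul_eq_mul]
      _ ≤ (W : ℝ) * ((K1 + K2) * h ^ 18) :=
          mul_le_mul_of_nonneg_right (by exact_mod_cast hc) (by positivity)
      _ = (K1 + K2) * ((W : ℝ) * h ^ 18) := by ring
      _ ≤ (K1 + K2) * ((1 + 3 ^ 12) * h ^ 6) :=
          mul_le_mul_of_nonneg_left hW3 (by positivity)
      _ = _ := by ring
  have hp : h ^ 18 ≤ 3 ^ 12 * h ^ 6 := by
    have : h ^ 12 ≤ 3 ^ 12 := pow_le_pow_left₀ hh0.le hh3 12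
    calc h ^ 18 = h ^ 12 * h ^ 6 := by ring
      _ ≤ 3 ^ 12 * h ^ 6 := mul_le_mul_of_nonneg_right this (by positivity)
  unfold PE
  refine (av2_mono fun x y => pairB_pw D α β a a' b b' h haa hbb c x y).trans ?_
  rw [av2_mul_left, av2_add, av2_add, av2_add, av2_add, av2_mul_left]
  have g1 : av2 (fun x y => pairB_I D α β h (RB1 a a' b b') x y) ≤ K2 * h ^ 18 := f1
  have g2 : av2 (fun x y => pairB_I D α β h (RB2 a a' b b') x y) ≤ K1 * h ^ 18 := f2
  have g3 : av2 (fun x y => pairB_I D α β h (RB3 a a' b b') x y) ≤ K2 * h ^ 18 := f3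
  have g4 : (K2 + K1 + K2) * h ^ 18 ≤ (K2 + K1 + K2) * (3 ^ 12 * h ^ 6) :=
    mul_le_mul_of_nonneg_left hp (by positivity)
  have g5 := mul_le_mul_of_nonneg_left f10 (show (0 : ℝ) ≤ 2 ^ 40 by positivity)
  have g6 : ∀ s t : ℝ, s ≤ t * h ^ 6 → (2 : ℝ) ^ 40 * 2 ^ 40 * s ≤
      (2 : ℝ) ^ 40 * 2 ^ 40 * t * h ^ 6 := by
    intro s t hst
    rw [mul_assoc ((2 : ℝ) ^ 40 * 2 ^ 40) t]
    exact mul_le_mul_of_nonneg_left hst (by positivity)
  refine g6 _ _ ?_
  calc _ ≤ K2 * h ^ 18 + K1 * h ^ 18 + K2 * h ^ 18 +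
        (2 ^ 40 * (((1 + 3 ^ 12) * (K1 + K2)) * h ^ 6) + 2 ^ 40 * (K4 + K3 + 1) * h ^ 6) :=
        add_le_add (add_le_add (add_le_add g1 g2) g3) (add_le_add g5 f9)
    _ = (K2 + K1 + K2) * h ^ 18 +
        (2 ^ 40 * (((1 + 3 ^ 12) * (K1 + K2)) * h ^ 6) + 2 ^ 40 * (K4 + K3 + 1) * h ^ 6) := by
        ring
    _ ≤ (K2 + K1 + K2) * (3 ^ 12 * h ^ 6) +
        (2 ^ 40 * (((1 + 3 ^ 12) * (K1 + K2)) * h ^ 6) + 2 ^ 40 * (K4 + K3 + 1) * h ^ 6) := by
        linarith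
    _ = _ := by ring

end Pool.Agent.H79.RT
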