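import Pool.Agent.H79.RT.Basic

/-!
# Project RT, row RT7: quantiles of a function on the cube
-/

set_option autoImplicit false

namespace Pool.Agent.H79.RT

open Finset Classical

/-- number of points where `A` is below `c` -/
noncomputable def qg_G {n : ℕ} (A : Q n → ℕ) (c : ℕ) : ℕ := (univ.filter fun x => A x < c).card

/-- the `l`-th quantile -/
noncomputable def qg_q {n : ℕ} (A : Q n → ℕ) (W l : ℕ) : ℕ :=
  sInf {c : ℕ | l * 2 ^ n ≤ W * qg_G A (c + 1)}

theorem qg_mono {n : ℕ} (A : Q n → ℕ) {c d : ℕ} (h : c ≤ d) : qg_G A c ≤ qg_G A d := by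
  apply Finset.card_le_card
  intro x hx
  simp only [mem_filter, mem_univ, true_and] at hx ⊢
  omega

theorem qg_le {n : ℕ} (A : Q n → ℕ) (c : ℕ) : qg_G A c ≤ 2 ^ n := by
  have h : (univ.filter fun x => A x < c).card ≤ (univ : Finset (Q n)).card :=
    Finset.card_le_card (filter_subset _ _)
  have h2 : (univ : Finset (Q n)).card = 2 ^ n := by
    rw [Finset.card_univ, Fintype.card_fun, Fintype.card_bool, Fintype.card_fin]
  unfold qg_G
  omega

theorem qg_all {n : ℕ} (A : Q n → ℕ) : ∃ c, qg_G A (c + 1) = 2 ^ n := by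
  refine ⟨univ.sup A, ?_⟩
  have h2 : (univ : Finset (Q n)).card = 2 ^ n := by
    rw [Finset.card_univ, Fintype.card_fun, Fintype.card_bool, Fintype.card_fin]
  rw [← h2]
  unfold qg_G
  congr 1
  apply Finset.filter_true_of_mem
  intro x hx
  have := Finset.le_sup (f := A) hx
  omega

theorem qg_spec {n : ℕ} (A : Q n → ℕ) {W l : ℕ} (h : l ≤ W) :
    l * 2 ^ n ≤ W * qg_G A (qg_q A W l + 1) := by
  have hne : {c : ℕ | l * 2 ^ n ≤ W * qg_G A (c + 1)}.Nonempty := by
    obtain ⟨c, hc⟩ := qg_all A
    refine ⟨c, ?_⟩
    simp only [Set.mem_setOf_eq, hc]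
    exact Nat.mul_le_mul_right _ h
  exact Nat.sInf_mem hne

theorem qg_min {n : ℕ} (A : Q n → ℕ) {W l c : ℕ} (h : c < qg_q A W l) :
    W * qg_G A (c + 1) < l * 2 ^ n := by
  have := Nat.notMem_of_lt_sInf h
  simpa only [Set.mem_setOf_eq, not_le] using this

theorem qg_E {n : ℕ} (A : Q n → ℕ) {W : ℕ} (hW : 1 ≤ W) (b : ℕ) (E : Finset (Q n))
    (hE : ∀ x ∈ E, b ≤ A x ∧ ∀ k ∈ (Icc 1 W).image (qg_q A W), ¬(b ≤ k ∧ k ≤ A x)) :
    E.card * W ≤ 2 ^ n := by
  by_cases hex : ∃ l, 1 ≤ l ∧ l ≤ W ∧ b ≤ qg_q A W l
  · have hl := Nat.find_spec hex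
    have hmin := fun m (hm : m < Nat.find hex) => Nat.find_min hex hm
    set l := Nat.find hex with hldef
    obtain ⟨hl1, hlW, hbl⟩ := hl
    -- lower bound for the points below b
    have hlow : (l - 1) * 2 ^ n ≤ W * qg_G A b := by
      rcases Nat.lt_or_ge 1 l with h1 | h1
      · have hq : ¬ b ≤ qg_q A W (l - 1) := by
          intro hb
          exact hmin (l - 1) (by omega) ⟨by omega, by omega, hb⟩
        have h3 := qg_spec A (W := W) (l := l - 1) (by omega)
        have h4 := qg_mono A (c := qg_q A W (l - 1) + 1) (d := b) (by omega)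
        exact h3.trans (Nat.mul_le_mul_left _ h4)
      · have : l - 1 = 0 := by omega
        rw [this]; simp
    have hup : W * qg_G A (qg_q A W l) ≤ l * 2 ^ n := by
      rcases Nat.eq_zero_or_pos (qg_q A W l) with h0 | h0
      · rw [h0]
        have : qg_G A 0 = 0 := by
          unfold qg_G
          simp
        rw [this]; simp
      · have h3 := qg_min A (W := W) (l := l) (c := qg_q A W l - 1) (by omega)
        have h4 : qg_q A W l - 1 + 1 = qg_q A W l := by omega
        rw [h4] at h3
        exact h3.le
    have hsub : E.card + qg_G A b ≤ qg_G A (qg_q A W l) := by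
      have hd : Disjoint E (univ.filter fun x => A x < b) := by
        rw [Finset.disjoint_left]
        intro x hx hx2
        have h8 := (hE x hx).1
        simp only [mem_filter, mem_univ, true_and] at hx2
        omega
      unfold qg_G
      rw [← Finset.card_union_of_disjoint hd]
      apply Finset.card_le_card
      intro x hx
      rw [mem_union] at hx
      simp only [mem_filter, mem_univ, true_and]
      rcases hx with hx | hx
      · have := (hE x hx).2 (qg_q A W l) (mem_image_of_mem _ (mem_Icc.2 ⟨hl1, hlW⟩))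
        omega
      · simp only [mem_filter, mem_univ, true_and] at hx
        omega
    have h5 : W * E.card + W * qg_G A b ≤ W * qg_G A (qg_q A W l) := by
      rw [← Nat.mul_add]
      exact Nat.mul_le_mul_left _ hsub
    have h6 : l * 2 ^ n = (l - 1) * 2 ^ n + 2 ^ n := by
      conv_lhs => rw [show l = (l - 1) + 1 by omega]
      ring
    rw [Nat.mul_comm]
    omega
  · have hall : ∀ x, A x < b := by
      intro x
      have hq : qg_q A W W < b := by
        by_contra hb
        exact hex ⟨W, hW, le_refl _, by omega⟩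
      have h3 := qg_spec A (W := W) (l := W) (le_refl _)
      have h4 : 2 ^ n ≤ qg_G A (qg_q A W W + 1) := Nat.le_of_mul_le_mul_left h3 (by omega)
      have h2 : (univ : Finset (Q n)).card = 2 ^ n := by
        rw [Finset.card_univ, Fintype.card_fun, Fintype.card_bool, Fintype.card_fin]
      have h5 : (univ.filter fun x => A x < qg_q A W W + 1) = univ := by
        apply Finset.eq_univ_of_card
        have h6 := qg_le A (qg_q A W W + 1)
        have h7 : (univ.filter fun x => A x < qg_q A W W + 1).card =
            qg_G A (qg_q A W W + 1) := rfl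
        rw [h7, Fintype.card_fun, Fintype.card_bool, Fintype.card_fin]
        omega
      have h6 : x ∈ (univ.filter fun x => A x < qg_q A W W + 1) := by
        rw [h5]; exact mem_univ x
      simp only [mem_filter, mem_univ, true_and] at h6
      omega
    have : E = ∅ := by
      apply Finset.eq_empty_of_forall_notMem
      intro x hx
      have h8 := (hE x hx).1
      have := hall x
      omega
    rw [this]; simp

theorem qg : SQG := by
  intro n A W hW
  refine ⟨(Icc 1 W).image (qg_q A W), ?_, ?_⟩
  · exact Finset.card_image_le.trans (by simp)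
  · intro b
    unfold av
    rw [Finset.sum_boole]
    have hWpos : (0 : ℝ) < (W : ℝ) := by exact_mod_cast hW
    rw [div_le_div_iff₀ (by positivity) hWpos, one_mul]
    exact_mod_cast qg_E A hW b _ fun x hx => (mem_filter.1 hx).2

end Pool.Agent.H79.RT
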