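import Pool.Agent.H79.RT.StmR

/-!
# MP_a7284e_an, project RT, row TR11: real parameters
-/

set_option autoImplicit false

namespace Pool.Agent.H79.RT

open MeasureTheory FourierTransform Filter Topology Finset Classical
open Pool.Agent.H73.Hyp

/-- sums over the integers of nonnegative functions with a uniform bound on the finite sums -/
theorem real_sum (g : ℤ → E2 → ℝ) (hg : ∀ k, Integrable (g k)) (h0 : ∀ k x, 0 ≤ g k x)
    (c : ℝ) (hc : ∀ K : Finset ℤ, ∑ k ∈ K, ∫ x, g k x ≤ c) :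
    ∃ G : E2 → ℝ, Integrable G ∧ (∀ᵐ x, ∀ k, g k x ≤ G x) ∧ ∫ x, G x ≤ c := by
  have hi : ∀ k, 0 ≤ ∫ x, g k x := fun k => integral_nonneg (h0 k)
  have hs : Summable fun k => ∫ x, g k x := summable_of_sum_le hi hc
  obtain ⟨G, g1, -, g3, g4⟩ := exists_sum g hg h0 hs
  refine ⟨G, g1, ?_, ?_⟩
  · filter_upwards [g3] with x hx k
    exact le_hasSum hx k fun j _ => h0 j x
  · rw [g4]
    exact hs.tsum_le_of_sum_le hc

/-- the comparison of the means with the sharp cut-offs, summed over all integers -/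
theorem real_cmp {lam : ℝ} (hl : 1 / 2 < lam) (hl0 : 0 < lam) (f : L2) :
    ∃ G : E2 → ℝ, Integrable G ∧
      (∀ᵐ x, ∀ k : ℤ, ‖Rz lam hl0 ((2 : ℝ) ^ k) f x - Hc k f x‖ ^ 2 ≤ G x) ∧
      ∫ x, G x ≤ (max 1 lam) ^ 2 * (2 * ‖f‖ ^ 2) := by
  obtain ⟨G, g1, g2, g3⟩ := real_sum
    (fun k x => ‖(Rz lam hl0 ((2 : ℝ) ^ k) f - Hc k f : L2) x‖ ^ 2) (fun k => integrable_sq _)
    (fun k x => sq_nonneg _) ((max 1 lam) ^ 2 * (2 * ‖f‖ ^ 2)) (fun K => by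
      have e : ∀ k ∈ K, ∫ x, ‖(Rz lam hl0 ((2 : ℝ) ^ k) f - Hc k f : L2) x‖ ^ 2 ≤
          (max 1 lam) ^ 2 * wt f k := by
        intro k _
        rw [← norm_sq_eq]
        exact Rz_sub_Hc hl hl0 k f
      refine (sum_le_sum e).trans ?_
      rw [← mul_sum]
      exact mul_le_mul_of_nonneg_left (sum_wt f K) (sq_nonneg _))
  refine ⟨G, g1, ?_, g3⟩
  have i3 : ∀ᵐ x, ∀ k : ℤ, (Rz lam hl0 ((2 : ℝ) ^ k) f - Hc k f : L2) x =
      Rz lam hl0 ((2 : ℝ) ^ k) f x - Hc k f x := by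
    refine ae_of_countable fun k => ?_
    filter_upwards [Lp.coeFn_sub (Rz lam hl0 ((2 : ℝ) ^ k) f) (Hc k f)] with x hx
    rw [hx, Pi.sub_apply]
  filter_upwards [g2, i3] with x x1 x2 k
  rw [← x2 k]
  exact x1 k

/-- convergence along the real parameter -/
theorem real_conv {lam : ℝ} (hl : 1 / 2 < lam) (hl0 : 0 < lam) {C : ℝ} (f : L2)
    (v : ℝ → E2 → ℂ) (W : ℤ → E2 → ℝ) (h3 : ∀ k, Integrable (W k)) (h4 : ∀ k x, 0 ≤ W k x)
    (h5 : ∀ K : Finset ℤ, ∑ k ∈ K, ∫ x, W k x ≤ C * ‖f‖ ^ 2)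
    (h6 : ∀ᵐ x, ∀ (k : ℤ) (t : ℝ), (k : ℝ) ≤ t → t ≤ k + 1 →
        ‖v t x - Ph lam hl0 f k x‖ ^ 2 ≤ W k x)
    (i0 : ∀ᵐ x : E2, Tendsto (fun k : ℕ => Hc k f x) atTop (𝓝 (f x))) :
    ∀ᵐ x : E2, Tendsto (fun t => v t x) atTop (𝓝 (f x)) := by
  have i1 : ∀ᵐ x, Tendsto (fun k : ℕ => (Rz lam hl0 ((2 : ℝ) ^ (k : ℤ)) f - Hc k f : L2) x) atTop
      (𝓝 0) := by
    refine ae_zero_of_summable (fun k : ℕ => Rz lam hl0 ((2 : ℝ) ^ (k : ℤ)) f - Hc k f) ?_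
    refine summable_of_sum_range_le (c := (max 1 lam) ^ 2 * (2 * ‖f‖ ^ 2))
      (fun n => sq_nonneg _) fun n => ?_
    refine (sum_le_sum fun (k : ℕ) _ => Rz_sub_Hc hl hl0 (k : ℤ) f).trans ?_
    rw [← mul_sum]
    refine mul_le_mul_of_nonneg_left ?_ (sq_nonneg _)
    have := sum_wt f ((range n).image fun k : ℕ => (k : ℤ))
    rw [sum_image (fun x _ y _ hxy => by
      have h' : (x : ℤ) = y := hxy
      omega)] at this
    exact this
  have i2 : ∀ᵐ x, Tendsto (fun k : ℕ => W k x) atTop (𝓝 0) := by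
    obtain ⟨G, -, -, h7, -⟩ := exists_sum (fun (n : ℕ) x => W n x) (fun n => h3 n)
      (fun n x => h4 n x) (summable_of_sum_range_le (c := C * ‖f‖ ^ 2)
        (fun n => integral_nonneg fun x => h4 n x) fun n => by
          have := h5 ((range n).image fun k : ℕ => (k : ℤ))
          rw [sum_image (fun x _ y _ hxy => by
            have h' : (x : ℤ) = y := hxy
            omega)] at this
          exact this)
    filter_upwards [h7] with x hx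
    exact hx.summable.tendsto_atTop_zero
  have i3 : ∀ᵐ x, ∀ k : ℕ, (Rz lam hl0 ((2 : ℝ) ^ (k : ℤ)) f - Hc k f : L2) x =
      Rz lam hl0 ((2 : ℝ) ^ (k : ℤ)) f x - Hc k f x := by
    refine ae_of_countable fun k => ?_
    filter_upwards [Lp.coeFn_sub (Rz lam hl0 ((2 : ℝ) ^ (k : ℤ)) f) (Hc k f)] with x hx
    rw [hx, Pi.sub_apply]
  filter_upwards [i0, i1, i2, i3, h6] with x y0 y1 y2 y3 y6
  have z1 : Tendsto (fun k : ℕ => Rz lam hl0 ((2 : ℝ) ^ (k : ℤ)) f x) atTop (𝓝 (f x)) := by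
    have := y1.add y0
    rw [zero_add] at this
    refine this.congr fun k => ?_
    rw [y3 k]; ring
  have z2 := y2.sqrt
  simp only [Real.sqrt_zero] at z2
  have z3 := (z1.sub_const (f x)).norm.add z2
  rw [sub_self, norm_zero, add_zero] at z3
  rw [Metric.tendsto_atTop]
  intro ε hε
  obtain ⟨N, hN⟩ := (Metric.tendsto_atTop.1 z3) ε hε
  refine ⟨N, fun t ht => ?_⟩
  have ht0 : (0 : ℝ) ≤ t := le_trans (Nat.cast_nonneg N) ht
  set k := ⌊t⌋₊ with hk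
  have k1 : (k : ℝ) ≤ t := Nat.floor_le ht0
  have k2 : t < k + 1 := Nat.lt_floor_add_one t
  have k3 : N ≤ k := Nat.le_floor ht
  have h7 := hN k k3
  rw [Real.dist_eq, sub_zero, abs_of_nonneg (by positivity)] at h7
  have h8 := y6 k t (by exact_mod_cast k1) (by push_cast; exact k2.le)
  rw [Ph_int] at h8
  have h9 : ‖v t x - Rz lam hl0 ((2 : ℝ) ^ (k : ℤ)) f x‖ ≤ Real.sqrt (W k x) :=
    Real.le_sqrt_of_sq_le h8
  rw [dist_eq_norm]
  have e : v t x - f x = (v t x - Rz lam hl0 ((2 : ℝ) ^ (k : ℤ)) f x) +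
      (Rz lam hl0 ((2 : ℝ) ^ (k : ℤ)) f x - f x) := by ring
  rw [e]
  refine lt_of_le_of_lt (norm_add_le _ _) ?_
  linarith

/-- the square of a sum of three terms -/
theorem real_three (a b c : ℂ) (A B D : ℝ) (h1 : ‖a - b‖ ^ 2 ≤ A) (h2 : ‖b - c‖ ^ 2 ≤ B)
    (h3 : ‖c‖ ^ 2 ≤ D) : ‖a‖ ^ 2 ≤ 2 * A + 4 * B + 4 * D := by
  have e : ‖a‖ ≤ ‖a - b‖ + ‖b - c‖ + ‖c‖ := by
    have := norm_add₃_le (a := a - b) (b := b - c) (c := c)
    rwa [sub_add_sub_cancel, sub_add_cancel] at this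
  have e1 : ‖a‖ ^ 2 ≤ (‖a - b‖ + ‖b - c‖ + ‖c‖) ^ 2 := pow_le_pow_left₀ (norm_nonneg _) e 2
  nlinarith [sq_nonneg (‖a - b‖ - (‖b - c‖ + ‖c‖)), sq_nonneg (‖b - c‖ - ‖c‖)]

theorem real_spec : SReal := by
  intro lam hl0 hl
  obtain ⟨C, hC, hv⟩ := exists_ver hl hl0
  refine ⟨2 * C + 8 * (max 1 lam) ^ 2 + 4, by positivity, fun f B hB i0 => ?_⟩
  obtain ⟨v, W, h1, h2, h3, h4, h5, h6⟩ := hv f
  obtain ⟨GH, m1, m2, m3⟩ := hB
  obtain ⟨GW, w1, w2, w3⟩ := real_sum W h3 h4 _ h5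
  obtain ⟨GR, r1, r2, r3⟩ := real_cmp hl hl0 f
  refine ⟨v, h1, h2, real_conv hl hl0 f v W h3 h4 h5 h6 i0,
    fun x => 2 * GW x + 4 * GR x + 4 * GH x,
    ((w1.const_mul 2).add (r1.const_mul 4)).add (m1.const_mul 4), ?_, ?_⟩
  · filter_upwards [m2, w2, r2, h6] with x x1 x2 x3 x4 t
    have a1 := x4 ⌊t⌋ t (Int.floor_le t) (Int.lt_floor_add_one t).le
    rw [Ph_int] at a1
    exact real_three _ _ _ _ _ _ (a1.trans (x2 ⌊t⌋)) (x3 ⌊t⌋) (x1 ⌊t⌋)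
  · have hB0 : 0 ≤ B := by
      refine le_trans ?_ m3
      refine integral_nonneg_of_ae ?_
      filter_upwards [m2] with x hx
      exact (sq_nonneg _).trans (hx 0)
    have ei : ∫ x, (2 * GW x + 4 * GR x + 4 * GH x) =
        2 * (∫ x, GW x) + 4 * (∫ x, GR x) + 4 * ∫ x, GH x := by
      rw [integral_add (f := fun x => 2 * GW x + 4 * GR x)
        ((w1.const_mul 2).add (r1.const_mul 4)) (m1.const_mul 4),
        integral_add (w1.const_mul 2) (r1.const_mul 4), integral_const_mul, integral_const_mul,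
        integral_const_mul]
    show ∫ x, (2 * GW x + 4 * GR x + 4 * GH x) ≤ _
    rw [ei]
    have p0 : (0 : ℝ) ≤ ‖f‖ ^ 2 := sq_nonneg _
    have p1 : 0 ≤ (2 * C + 8 * (max 1 lam) ^ 2) * B := by positivity
    nlinarith

end Pool.Agent.H79.RT
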