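import Pool.Agent.H79.RT.StmR

/-!
# MP_a7284e_an, project RT, row TR10: series of dominated functions
-/

set_option autoImplicit false

namespace Pool.Agent.H79.RT

open MeasureTheory FourierTransform Filter Topology Finset Classical
open Pool.Agent.H73.Hyp

/-- a series in `L²` that is dominated pointwise converges pointwise -/
theorem ser_hasSum (X : ℕ → L2) (Y : L2) (b : ℕ → E2 → ℝ) (h : HasSum X Y)
    (hb : ∀ᵐ x : E2, ∀ n, ‖X n x‖ ≤ b n x) (hs : ∀ᵐ x : E2, Summable fun n => b n x) :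
    ∀ᵐ x : E2, HasSum (fun n => X n x) (Y x) := by
  have h1 : Tendsto (fun N => ∑ n ∈ range N, X n) atTop (𝓝 Y) := h.tendsto_sum_nat
  have h2 : TendstoInMeasure volume (fun N => ((∑ n ∈ range N, X n : L2) : E2 → ℂ)) atTop Y :=
    tendstoInMeasure_of_tendsto_Lp h1
  obtain ⟨ns, hns, hae⟩ := h2.exists_seq_tendsto_ae
  have h3 : ∀ᵐ x : E2, ∀ N : ℕ,
      ((∑ n ∈ range N, X n : L2) : E2 → ℂ) x = ∑ n ∈ range N, X n x :=
    ae_all_iff.2 fun N => coe_sum (range N) X
  filter_upwards [hb, hs, hae, h3] with x a1 a2 a3 a4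
  have a5 : Summable fun n => X n x := Summable.of_norm_bounded a2 a1
  have a6 : Tendsto (fun i => ∑ n ∈ range (ns i), X n x) atTop (𝓝 (∑' n, X n x)) :=
    a5.hasSum.tendsto_sum_nat.comp hns.tendsto_atTop
  have a7 : Tendsto (fun i => ∑ n ∈ range (ns i), X n x) atTop (𝓝 (Y x)) := by
    refine a3.congr fun i => ?_
    rw [a4]
  rw [tendsto_nhds_unique a7 a6]
  exact a5.hasSum

theorem ser (h1 : SMaxD) (h2 : SSup) (h3 : SConv) : SSer := by
  obtain ⟨C, hC, h1⟩ := h1
  refine ⟨C, hC, fun F M f hM hD hMs hF => ?_⟩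
  have hG : ∀ n, MajZ (fun k => Hc k (F n)) (C * M n ^ 2) := fun n =>
    h2 _ _ fun K hK => (h1 (F n) (M n) (hM n) (hD n)).2 K hK
  choose G hGi hGb hGint using hG
  set p : ℕ → E2 → ℝ := fun n x => max (G n x) 0 / M n with hp
  have hp0 : ∀ n x, 0 ≤ p n x := fun n x => div_nonneg (le_max_right _ _) (hM n)
  have hpi : ∀ n, Integrable (p n) := fun n => ((hGi n).pos_part).div_const _
  have hpint : ∀ n, ∫ x, p n x ≤ C * M n := by
    intro n
    have e1 : ∫ x, p n x = (∫ x, G n x) / M n := by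
      rw [hp]
      simp only
      rw [integral_div]
      congr 1
      refine integral_congr_ae ?_
      filter_upwards [hGb n] with x hx
      exact max_eq_left (le_trans (sq_nonneg _) (hx 0))
    rw [e1]
    by_cases h0 : M n = 0
    · rw [h0, div_zero, mul_zero]
    · have hpos : 0 < M n := lt_of_le_of_ne (hM n) (Ne.symm h0)
      rw [div_le_iff₀ hpos]
      have := hGint n
      nlinarith
  have hps : Summable fun n => ∫ x, p n x :=
    Summable.of_nonneg_of_le (fun n => integral_nonneg (hp0 n)) hpint (hMs.mul_left C)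
  obtain ⟨S, hSi, hS0, hSs, hSint⟩ := exists_sum p hpi hp0 hps
  set b : ℕ → E2 → ℝ := fun n x => Real.sqrt (M n) * Real.sqrt (p n x) with hbdef
  have hb0 : ∀ n x, 0 ≤ b n x := fun n x => mul_nonneg (Real.sqrt_nonneg _) (Real.sqrt_nonneg _)
  have hb : ∀ n, ∀ᵐ x : E2, ∀ k : ℤ, ‖Hc k (F n) x‖ ≤ b n x := by
    intro n
    by_cases h0 : M n = 0
    · have hz : F n = 0 := by
        have := (h1 (F n) (M n) (hM n) (hD n)).1
        rw [h0] at this
        exact norm_le_zero_iff.1 this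
      refine ae_all_iff.2 fun k => ?_
      rw [hz, map_zero]
      filter_upwards [Lp.coeFn_zero ℂ 2 (volume : Measure E2)] with x hx
      rw [hx, Pi.zero_apply, norm_zero]
      exact hb0 n x
    · filter_upwards [hGb n] with x hx k
      have hk : ‖Hc k (F n) x‖ ^ 2 ≤ G n x := hx k
      have e1 : b n x = Real.sqrt (max (G n x) 0) := by
        rw [hbdef]
        simp only
        rw [← Real.sqrt_mul (hM n), hp]
        simp only
        rw [mul_div_cancel₀ _ h0]
      rw [e1]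
      exact Real.le_sqrt_of_sq_le (hk.trans (le_max_left _ _))
  have hbs : ∀ᵐ x : E2, Summable fun n => b n x := by
    filter_upwards [hSs] with x hx
    refine Summable.of_nonneg_of_le (fun n => hb0 n x) (fun n => ?_) (hMs.add hx.summable)
    have e1 := Real.sq_sqrt (hM n)
    have e2 := Real.sq_sqrt (hp0 n x)
    have e3 := Real.sqrt_nonneg (M n)
    have e4 := Real.sqrt_nonneg (p n x)
    have e5 : b n x = Real.sqrt (M n) * Real.sqrt (p n x) := rfl
    rw [e5]
    nlinarith [sq_nonneg (Real.sqrt (M n) - Real.sqrt (p n x))]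
  have hball : ∀ᵐ x : E2, ∀ n, ∀ k : ℤ, ‖Hc k (F n) x‖ ≤ b n x := ae_all_iff.2 hb
  have hsum : ∀ᵐ x : E2, ∀ k : ℤ, HasSum (fun n => Hc k (F n) x) (Hc k f x) := by
    refine ae_all_iff.2 fun k => ?_
    refine ser_hasSum (fun n => Hc k (F n)) (Hc k f) b (hF.mapL (Hc k)) ?_ hbs
    filter_upwards [hball] with x hx n
    exact hx n k
  have hconv : ∀ᵐ x : E2, ∀ n, Tendsto (fun k : ℕ => Hc k (F n) x) atTop (𝓝 (F n x)) :=
    ae_all_iff.2 fun n => h3 (F n) (M n) (hM n) (hD n)
  have hFb : ∀ᵐ x : E2, ∀ n, ‖F n x‖ ≤ b n x := by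
    filter_upwards [hball, hconv] with x a1 a2 n
    exact le_of_tendsto (a2 n).norm (Filter.Eventually.of_forall fun k => a1 n k)
  have hFsum : ∀ᵐ x : E2, HasSum (fun n => F n x) (f x) := ser_hasSum F f b hF hFb hbs
  refine ⟨?_, ?_⟩
  · filter_upwards [hball, hbs, hsum, hconv, hFsum] with x a1 a2 a3 a4 a5
    have key : Tendsto (fun k : ℕ => ∑' n, Hc k (F n) x) atTop (𝓝 (∑' n, F n x)) :=
      tendsto_tsum_of_dominated_convergence a2 (fun n => a4 n)
        (Filter.Eventually.of_forall fun k n => a1 n k)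
    rw [a5.tsum_eq] at key
    exact key.congr fun k => (a3 k).tsum_eq
  · refine ⟨fun x => (∑' n, M n) * S x, hSi.const_mul _, ?_, ?_⟩
    · filter_upwards [hball, hbs, hsum, hSs] with x a1 a2 a3 a4 k
      have c1 : ‖Hc k f x‖ ≤ ∑' n, b n x :=
        (a3 k).norm_le_of_bounded a2.hasSum fun n => a1 n k
      have hT0 : 0 ≤ ∑' n, M n := tsum_nonneg hM
      have c2 : ∑' n, b n x ≤ Real.sqrt ((∑' n, M n) * S x) := by
        refine Summable.tsum_le_of_sum_le a2 fun s => ?_
        refine Real.le_sqrt_of_sq_le ?_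
        have d1 : (∑ n ∈ s, b n x) ^ 2 ≤ (∑ n ∈ s, Real.sqrt (M n) ^ 2) *
            ∑ n ∈ s, Real.sqrt (p n x) ^ 2 :=
          Finset.sum_mul_sq_le_sq_mul_sq s _ _
        have d2 : ∑ n ∈ s, Real.sqrt (M n) ^ 2 ≤ ∑' n, M n := by
          rw [Finset.sum_congr rfl fun n _ => Real.sq_sqrt (hM n)]
          exact hMs.sum_le_tsum s fun n _ => hM n
        have d3 : ∑ n ∈ s, Real.sqrt (p n x) ^ 2 ≤ S x := by
          rw [Finset.sum_congr rfl fun n _ => Real.sq_sqrt (hp0 n x)]
          exact sum_le_hasSum s (fun n _ => hp0 n x) a4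
        exact d1.trans (mul_le_mul d2 d3 (Finset.sum_nonneg fun n _ => sq_nonneg _) hT0)
      have c3 := c1.trans c2
      have c4 : 0 ≤ (∑' n, M n) * S x := mul_nonneg hT0 (hS0 x)
      calc ‖Hc k f x‖ ^ 2 ≤ Real.sqrt ((∑' n, M n) * S x) ^ 2 :=
            pow_le_pow_left₀ (norm_nonneg _) c3 2
        _ = (∑' n, M n) * S x := Real.sq_sqrt c4
    · have e1 : ∫ x, (∑' n, M n) * S x = (∑' n, M n) * ∑' n, ∫ x, p n x := by
        rw [integral_const_mul, hSint]
      rw [e1]
      have hT0 : 0 ≤ ∑' n, M n := tsum_nonneg hM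
      have e2 : ∑' n, ∫ x, p n x ≤ C * ∑' n, M n := by
        rw [← tsum_mul_left]
        exact hps.tsum_le_tsum hpint (hMs.mul_left C)
      nlinarith [mul_le_mul_of_nonneg_left e2 hT0]

end Pool.Agent.H79.RT
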