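import Pool.Agent.H79.RT.StmR

/-!
# MP_a7284e_an, project RT, row TR7: the sharp cut-offs of step functions
-/

set_option autoImplicit false

namespace Pool.Agent.H79.RT

open MeasureTheory FourierTransform Filter Topology Finset Classical
open Pool.Agent.H73.Hyp

theorem tr7_tail (c : Fin 2) (a : ℕ) (f : L2) (hf : f ∈ Wf (Uf c) ((a : ℤ) + 1)) (n : ℕ) :
    ‖f - Pc c (n : ℤ) f‖ ^ 2 ≤ 4 * 2 ^ a * ‖f‖ ^ 2 * (1 / 2 : ℝ) ^ n := by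
  have hF : (0 : ℝ) ≤ ‖f‖ ^ 2 := sq_nonneg _
  rcases le_total a n with h | h
  · obtain ⟨m, rfl⟩ := Nat.exists_eq_add_of_le h
    have h1 := K1_est c (a : ℤ) f hf m
    have e1 : ((a + m : ℕ) : ℤ) = (a : ℤ) + (m : ℤ) := by push_cast; rfl
    rw [e1]
    refine h1.trans (le_of_eq ?_)
    have e2 : (2 : ℝ) ^ a * (1 / 2) ^ (a + m) = (1 / 2) ^ m := by
      rw [pow_add, ← mul_assoc, ← mul_pow]
      norm_num
    calc 4 * (1 / 2 : ℝ) ^ m * ‖f‖ ^ 2 = 4 * ((2 : ℝ) ^ a * (1 / 2) ^ (a + m)) * ‖f‖ ^ 2 := by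
          rw [e2]
      _ = 4 * 2 ^ a * ‖f‖ ^ 2 * (1 / 2 : ℝ) ^ (a + m) := by ring
  · have h1 := Pc_compl_norm_le c (n : ℤ) f
    have h2 : ‖f - Pc c (n : ℤ) f‖ ^ 2 ≤ ‖f‖ ^ 2 := by
      have := norm_nonneg (f - Pc c (n : ℤ) f)
      gcongr
    have e2 : (1 : ℝ) ≤ 2 ^ a * (1 / 2) ^ n := by
      obtain ⟨m, rfl⟩ := Nat.exists_eq_add_of_le h
      have e3 : (2 : ℝ) ^ (n + m) * (1 / 2) ^ n = 2 ^ m := by
        rw [pow_add, mul_comm ((2 : ℝ) ^ n), mul_assoc, ← mul_pow]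
        norm_num
      rw [e3]
      exact one_le_pow₀ (by norm_num)
    have h3 : ‖f‖ ^ 2 * 1 ≤ ‖f‖ ^ 2 * (4 * (2 ^ a * (1 / 2 : ℝ) ^ n)) := by
      refine mul_le_mul_of_nonneg_left ?_ hF
      linarith
    calc ‖f - Pc c (n : ℤ) f‖ ^ 2 ≤ ‖f‖ ^ 2 * 1 := by rw [mul_one]; exact h2
      _ ≤ ‖f‖ ^ 2 * (4 * (2 ^ a * (1 / 2 : ℝ) ^ n)) := h3
      _ = 4 * 2 ^ a * ‖f‖ ^ 2 * (1 / 2 : ℝ) ^ n := by ring

theorem tr7_ind (S : Set E2) (f : L2) (ξ : E2) :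
    S.indicator (fun ξ : E2 => ‖(𝓕 f : L2) ξ‖ ^ 2) ξ ≤ ‖(𝓕 f : L2) ξ‖ ^ 2 := by
  by_cases h : ξ ∈ S
  · rw [Set.indicator_of_mem h]
  · rw [Set.indicator_of_notMem h]
    exact sq_nonneg _

theorem tr7_split (f : L2) (k m n : ℕ) (h : m + n = k) :
    ‖Hc (k : ℤ) f - f‖ ^ 2 ≤ ‖f - Pc 0 (m : ℤ) f‖ ^ 2 + ‖f - Pc 1 (n : ℤ) f‖ ^ 2 := by
  rw [norm_sub_rev]
  unfold Hc Pc
  rw [Pi_compl, Pi_compl, Pi_compl, Pi_norm_sq, Pi_norm_sq, Pi_norm_sq]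
  have hi : ∀ S : Set E2, MeasurableSet S →
      Integrable (S.indicator fun ξ : E2 => ‖(𝓕 f : L2) ξ‖ ^ 2) := fun S hS =>
    (integrable_sq (𝓕 f : L2)).indicator hS
  have m0 : MeasurableSet {ξ : E2 | ξ 0 ∈ Bn (m : ℤ)}ᶜ := (measurable_coord 0 (Bn_meas _)).compl
  have m1 : MeasurableSet {ξ : E2 | ξ 1 ∈ Bn (n : ℤ)}ᶜ := (measurable_coord 1 (Bn_meas _)).compl
  rw [← integral_add (hi _ m0) (hi _ m1)]
  refine integral_mono (hi _ (hyp_meas k).compl) ((hi _ m0).add (hi _ m1)) fun ξ => ?_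
  simp only
  have hF : (0 : ℝ) ≤ ‖(𝓕 f : L2) ξ‖ ^ 2 := sq_nonneg _
  have n0 : 0 ≤ ({ξ : E2 | ξ 0 ∈ Bn (m : ℤ)}ᶜ).indicator (fun ξ : E2 => ‖(𝓕 f : L2) ξ‖ ^ 2) ξ :=
    Set.indicator_nonneg (fun _ _ => sq_nonneg _) _
  have n1 : 0 ≤ ({ξ : E2 | ξ 1 ∈ Bn (n : ℤ)}ᶜ).indicator (fun ξ : E2 => ‖(𝓕 f : L2) ξ‖ ^ 2) ξ :=
    Set.indicator_nonneg (fun _ _ => sq_nonneg _) _
  by_cases h0 : ξ 0 ∈ Bn (m : ℤ)
  · by_cases h1 : ξ 1 ∈ Bn (n : ℤ)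
    · have h2 : ξ ∈ {ξ : E2 | |ξ 0 * ξ 1| < (2 : ℝ) ^ (k : ℤ)} := by
        change |ξ 0 * ξ 1| < (2 : ℝ) ^ (k : ℤ)
        have a0 : |ξ 0| < (2 : ℝ) ^ (m : ℤ) := h0
        have a1 : |ξ 1| < (2 : ℝ) ^ (n : ℤ) := h1
        rw [abs_mul, ← h]
        push_cast
        rw [zpow_add₀ (by norm_num : (2 : ℝ) ≠ 0)]
        exact mul_lt_mul'' a0 a1 (abs_nonneg _) (abs_nonneg _)
      rw [Set.indicator_of_notMem (Set.notMem_compl_iff.2 h2)]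
      exact add_nonneg n0 n1
    · have e1 : ({ξ : E2 | ξ 1 ∈ Bn (n : ℤ)}ᶜ).indicator
          (fun ξ : E2 => ‖(𝓕 f : L2) ξ‖ ^ 2) ξ = ‖(𝓕 f : L2) ξ‖ ^ 2 :=
        Set.indicator_of_mem (show ξ ∈ {ξ : E2 | ξ 1 ∈ Bn (n : ℤ)}ᶜ from h1) _
      have e2 := tr7_ind {ξ : E2 | |ξ 0 * ξ 1| < (2 : ℝ) ^ (k : ℤ)}ᶜ f ξ
      rw [e1]
      linarith
  · have e1 : ({ξ : E2 | ξ 0 ∈ Bn (m : ℤ)}ᶜ).indicator
        (fun ξ : E2 => ‖(𝓕 f : L2) ξ‖ ^ 2) ξ = ‖(𝓕 f : L2) ξ‖ ^ 2 :=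
      Set.indicator_of_mem (show ξ ∈ {ξ : E2 | ξ 0 ∈ Bn (m : ℤ)}ᶜ from h0) _
    have e2 := tr7_ind {ξ : E2 | |ξ 0 * ξ 1| < (2 : ℝ) ^ (k : ℤ)}ᶜ f ξ
    rw [e1]
    linarith

theorem tr7_half (k : ℕ) : (1 / 2 : ℝ) ^ (k / 2) ≤ 2 * (3 / 4) ^ k := by
  have h1 : ∀ j : ℕ, (1 / 2 : ℝ) ^ j ≤ (3 / 4) ^ (2 * j) := by
    intro j
    rw [pow_mul]
    exact pow_le_pow_left₀ (by norm_num) (by norm_num) j
  rcases Nat.even_or_odd' k with ⟨j, rfl | rfl⟩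
  · rw [show 2 * j / 2 = j by omega]
    have h2 : (0 : ℝ) ≤ (3 / 4) ^ (2 * j) := by positivity
    linarith [h1 j]
  · rw [show (2 * j + 1) / 2 = j by omega, pow_succ]
    have h2 : (0 : ℝ) ≤ (3 / 4) ^ (2 * j) := by positivity
    linarith [h1 j]

/-- TR7: step functions -/
theorem step : SStep := by
  intro b f h0 h1
  set a : ℕ := b.natAbs with ha
  have hb : b ≤ (a : ℤ) + 1 := by omega
  have g0 : f ∈ Wf (Uf 0) ((a : ℤ) + 1) := Wf_mono (Uf 0) hb h0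
  have g1 : f ∈ Wf (Uf 1) ((a : ℤ) + 1) := Wf_mono (Uf 1) hb h1
  set C : ℝ := 4 * 2 ^ a * ‖f‖ ^ 2 with hC
  have hC0 : 0 ≤ C := by positivity
  have hs : Summable fun k : ℕ => ‖Hc (k : ℤ) f - f‖ ^ 2 := by
    have hg : Summable fun k : ℕ => (3 / 4 : ℝ) ^ k :=
      summable_geometric_of_lt_one (by norm_num) (by norm_num)
    refine Summable.of_nonneg_of_le (fun k => sq_nonneg _) (fun k => ?_) (hg.mul_left (4 * C))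
    have s1 := tr7_split f k (k / 2) (k - k / 2) (by omega)
    have s2 := tr7_tail 0 a f g0 (k / 2)
    have s3 := tr7_tail 1 a f g1 (k - k / 2)
    have s4 : (1 / 2 : ℝ) ^ (k - k / 2) ≤ (1 / 2) ^ (k / 2) :=
      pow_le_pow_of_le_one (by norm_num) (by norm_num) (by omega)
    have s5 := tr7_half k
    have s6 : C * (1 / 2 : ℝ) ^ (k / 2) ≤ C * (2 * (3 / 4) ^ k) :=
      mul_le_mul_of_nonneg_left s5 hC0
    have s7 : C * (1 / 2 : ℝ) ^ (k - k / 2) ≤ C * (1 / 2) ^ (k / 2) :=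
      mul_le_mul_of_nonneg_left s4 hC0
    calc ‖Hc (k : ℤ) f - f‖ ^ 2 ≤ C * (1 / 2 : ℝ) ^ (k / 2) + C * (1 / 2) ^ (k - k / 2) :=
          s1.trans (add_le_add s2 s3)
      _ ≤ C * (2 * (3 / 4) ^ k) + C * (2 * (3 / 4) ^ k) := add_le_add s6 (s7.trans s6)
      _ = 4 * C * (3 / 4) ^ k := by ring
  have hz := ae_zero_of_summable (fun k : ℕ => Hc (k : ℤ) f - f) hs
  have hc : ∀ᵐ x : E2, ∀ k : ℕ, (Hc (k : ℤ) f - f : L2) x = Hc (k : ℤ) f x - f x := by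
    rw [ae_all_iff]
    intro k
    filter_upwards [Lp.coeFn_sub (Hc (k : ℤ) f) f] with x hx
    rw [hx, Pi.sub_apply]
  filter_upwards [hz, hc] with x x1 x2
  have x3 : Tendsto (fun k : ℕ => Hc (k : ℤ) f x - f x) atTop (𝓝 0) :=
    x1.congr fun k => x2 k
  have x4 := x3.add_const (f x)
  rw [zero_add] at x4
  refine x4.congr fun k => ?_
  ring

end Pool.Agent.H79.RT
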