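import Pool.Agent.H79.RT.StmR

/-!
# MP_a7284e_an, project RT, row TR8: from finite sets to all integers
-/

set_option autoImplicit false

namespace Pool.Agent.H79.RT

open MeasureTheory FourierTransform Filter Topology Finset Classical
open Pool.Agent.H73.Hyp
open scoped ENNReal

/-- the finite suprema have integral at most `B` -/
theorem sup_lint {X : ℤ → L2} {B : ℝ} {K : Finset ℤ} (hK : K.Nonempty) (h : Maj K X B) :
    0 ≤ B ∧ ∫⁻ x : E2, K.sup (fun k => ENNReal.ofReal (‖X k x‖ ^ 2)) ≤ ENNReal.ofReal B := by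
  obtain ⟨G, h1, h2, h3⟩ := h
  obtain ⟨k0, hk0⟩ := hK
  have hG : 0 ≤ᵐ[volume] G := by
    filter_upwards [h2] with x hx
    exact (sq_nonneg _).trans (hx k0 hk0)
  refine ⟨(integral_nonneg_of_ae hG).trans h3, ?_⟩
  calc ∫⁻ x : E2, K.sup (fun k => ENNReal.ofReal (‖X k x‖ ^ 2))
      ≤ ∫⁻ x : E2, ENNReal.ofReal (G x) := by
        refine lintegral_mono_ae ?_
        filter_upwards [h2] with x hx
        exact Finset.sup_le fun k hk => ENNReal.ofReal_le_ofReal (hx k hk)
    _ = ENNReal.ofReal (∫ x : E2, G x) := (ofReal_integral_eq_lintegral_ofReal h1 hG).symm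
    _ ≤ ENNReal.ofReal B := ENNReal.ofReal_le_ofReal h3

theorem sup_aem (X : ℤ → L2) (k : ℤ) :
    AEMeasurable (fun x : E2 => ENNReal.ofReal (‖X k x‖ ^ 2)) volume :=
  ((Lp.aestronglyMeasurable (X k)).norm.aemeasurable.pow_const 2).ennreal_ofReal

theorem sup_faem (X : ℤ → L2) (K : Finset ℤ) :
    AEMeasurable (fun x : E2 => K.sup (fun k => ENNReal.ofReal (‖X k x‖ ^ 2))) volume := by
  induction K using Finset.induction_on with
  | empty => simp
  | insert a s ha ih =>
    simp only [Finset.sup_insert]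
    exact (sup_aem X a).sup ih

/-- TR8 -/
theorem sup_maj : SSup := by
  intro X B h
  have hne : ∀ N : ℕ, (Icc (-(N : ℤ)) N).Nonempty := fun N => ⟨0, by simp⟩
  have hB : 0 ≤ B := (sup_lint (hne 0) (h _ (hne 0))).1
  set F : E2 → ℝ≥0∞ := fun x => ⨆ N : ℕ, (Icc (-(N : ℤ)) N).sup
    (fun k => ENNReal.ofReal (‖X k x‖ ^ 2)) with hF
  have hFm : AEMeasurable F volume := AEMeasurable.iSup fun N => sup_faem X _
  have hFi : ∫⁻ x, F x ≤ ENNReal.ofReal B := by
    rw [hF, lintegral_iSup' (fun N => sup_faem X _)]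
    · exact iSup_le fun N => (sup_lint (hne N) (h _ (hne N))).2
    · refine Filter.Eventually.of_forall fun x N M hNM => ?_
      exact Finset.sup_mono (Finset.Icc_subset_Icc (by omega) (by omega))
  have hFt : ∫⁻ x, F x ≠ ∞ := (lt_of_le_of_lt hFi ENNReal.ofReal_lt_top).ne
  have hlt := ae_lt_top' hFm hFt
  refine ⟨fun x => (F x).toReal, integrable_toReal_of_lintegral_ne_top hFm hFt, ?_, ?_⟩
  · filter_upwards [hlt] with x hx k
    have h1 : ENNReal.ofReal (‖X k x‖ ^ 2) ≤ F x := by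
      refine le_trans ?_ (le_iSup _ k.natAbs)
      exact Finset.le_sup (f := fun k => ENNReal.ofReal (‖X k x‖ ^ 2))
        (Finset.mem_Icc.2 ⟨by omega, by omega⟩)
    have h2 := ENNReal.toReal_mono hx.ne h1
    rwa [ENNReal.toReal_ofReal (sq_nonneg _)] at h2
  · rw [integral_toReal hFm hlt]
    have h2 := ENNReal.toReal_mono ENNReal.ofReal_ne_top hFi
    rwa [ENNReal.toReal_ofReal hB] at h2

end Pool.Agent.H79.RT
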