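import Pool.Agent.H79.RT.StmR
import Pool.Agent.H79.RT.Basic

/-!
# MP_a7284e_an, project RT: transfer along the orbits of the flips (row TR1)
-/

set_option autoImplicit false

namespace Pool.Agent.H79.RT

open MeasureTheory FourierTransform Filter Topology Finset Classical
open Pool.Agent.H73.Hyp

/-! ### orbits of commuting involutions -/

section orbit

variable {Ω : Type*}

/-- apply the maps `τ i`, `i < k`, `g i = true` -/
def trob (τ : ℕ → Ω → Ω) (g : ℕ → Bool) : ℕ → Ω → Ω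
  | 0, x => x
  | k + 1, x => if g k then τ k (trob τ g k x) else trob τ g k x

theorem trob_succ (τ : ℕ → Ω → Ω) (g : ℕ → Bool) (k : ℕ) (x : Ω) :
    trob τ g (k + 1) x = if g k then τ k (trob τ g k x) else trob τ g k x := rfl

theorem trob_congr (τ : ℕ → Ω → Ω) {g g' : ℕ → Bool} (k : ℕ) (h : ∀ i < k, g i = g' i) (x : Ω) :
    trob τ g k x = trob τ g' k x := by
  induction k with
  | zero => rfl
  | succ k ih =>
    rw [trob_succ, trob_succ, ih fun i hi => h i (by omega), h k (by omega)]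

theorem trob_comm {τ : ℕ → Ω → Ω} {s : Ω → Ω} (hs : ∀ i x, s (τ i x) = τ i (s x))
    (g : ℕ → Bool) (k : ℕ) (x : Ω) : trob τ g k (s x) = s (trob τ g k x) := by
  induction k with
  | zero => rfl
  | succ k ih =>
    rw [trob_succ, trob_succ, ih]
    split_ifs
    · rw [hs]
    · rfl

theorem trob_comm2 {σ τ : ℕ → Ω → Ω} (hs : ∀ i j x, σ i (τ j x) = τ j (σ i x))
    (g h : ℕ → Bool) (k l : ℕ) (x : Ω) :
    trob σ g k (trob τ h l x) = trob τ h l (trob σ g k x) := by
  induction l with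
  | zero => rfl
  | succ l ih =>
    rw [trob_succ, trob_succ, ← ih]
    split_ifs
    · exact trob_comm (fun i x => (hs i l x).symm) g k _
    · rfl

theorem trob_flip {τ : ℕ → Ω → Ω} (hi : ∀ i x, τ i (τ i x) = x)
    (hc : ∀ i j x, τ i (τ j x) = τ j (τ i x)) {g g' : ℕ → Bool} {l : ℕ}
    (h1 : g' l = !g l) (h2 : ∀ i, i ≠ l → g' i = g i) (k : ℕ) (hl : l < k) (x : Ω) :
    trob τ g' k x = τ l (trob τ g k x) := by
  induction k with
  | zero => omega
  | succ k ih =>
    rw [trob_succ, trob_succ]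
    rcases Nat.lt_or_ge l k with h | h
    · rw [ih h, h2 k (by omega)]
      split_ifs
      · rw [hc]
      · rfl
    · obtain rfl : l = k := by omega
      rw [trob_congr τ l (fun i hi => h2 i (by omega)) x, h1]
      cases hg : g l
      · simp
      · simp [hi]

theorem trob_inv {Y : Type*} {τ : ℕ → Ω → Ω} {F : Ω → Y} (hF : ∀ i x, F (τ i x) = F x)
    (g : ℕ → Bool) (k : ℕ) (x : Ω) : F (trob τ g k x) = F x := by
  induction k with
  | zero => rfl
  | succ k ih =>
    rw [trob_succ]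
    split_ifs
    · rw [hF, ih]
    · exact ih

theorem trob_mp [MeasurableSpace Ω] {μ : Measure Ω} {τ : ℕ → Ω → Ω}
    (h : ∀ i, MeasurePreserving (τ i) μ μ) (g : ℕ → Bool) (k : ℕ) :
    MeasurePreserving (trob τ g k) μ μ := by
  induction k with
  | zero => exact MeasurePreserving.id μ
  | succ k ih =>
    by_cases hg : g k = true
    · have e : trob τ g (k + 1) = τ k ∘ trob τ g k := by
        funext x
        rw [trob_succ, if_pos hg, Function.comp_apply]
      rw [e]
      exact (h k).comp ih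
    · have e : trob τ g (k + 1) = trob τ g k := by
        funext x
        rw [trob_succ, if_neg hg]
      rw [e]
      exact ih

/-- extension of a point of the cube -/
def trx {n : ℕ} (g : Q n) (i : ℕ) : Bool := if h : i < n then g ⟨i, h⟩ else false

theorem trx_fl {n : ℕ} (g : Q n) {l : ℕ} (hl : l < n) : trx (fl l g) l = !trx g l := by
  unfold trx
  rw [dif_pos hl, dif_pos hl]
  unfold fl
  rw [if_pos rfl]

theorem trx_fl_ne {n : ℕ} (g : Q n) {l : ℕ} (i : ℕ) (h : i ≠ l) :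
    trx (fl l g) i = trx g i := by
  unfold trx
  split_ifs
  · unfold fl
    rw [if_neg h]
  · rfl

end orbit

/-! ### the orbit maps of the plane -/

/-- the first flips -/
noncomputable def trs (L : ℕ) (i : ℕ) : E2 → E2 := H73.Hyp.fl 0 ((i : ℤ) - L)

/-- the second flips -/
noncomputable def trt (L' : ℕ) (j : ℕ) : E2 → E2 := H73.Hyp.fl 1 ((j : ℤ) - L')

/-- the orbit map -/
noncomputable def trT (L L' : ℕ) {n m : ℕ} (g : Q n) (h : Q m) (x : E2) : E2 :=
  trob (trs L) (trx g) n (trob (trt L') (trx h) m x)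

theorem trT_mp (L L' : ℕ) {n m : ℕ} (g : Q n) (h : Q m) :
    MeasurePreserving (trT L L' g h) (volume : Measure E2) volume :=
  (trob_mp (fun _ => mp_fl 0 _) _ _).comp (trob_mp (fun _ => mp_fl 1 _) _ _)

theorem trT_fl0 (L L' : ℕ) {n m : ℕ} (g : Q n) (h : Q m) {l : ℕ} (hl : l < n) (x : E2) :
    trT L L' (fl l g) h x = H73.Hyp.fl 0 ((l : ℤ) - L) (trT L L' g h x) :=
  trob_flip (τ := trs L) (fun _ _ => H73.Hyp.fl_fl _ _ _) (fun _ _ _ => H73.Hyp.fl_comm _ _ _ _ _)
    (trx_fl g hl) (fun i hi => trx_fl_ne g i hi) n hl _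

theorem trT_fl1 (L L' : ℕ) {n m : ℕ} (g : Q n) (h : Q m) {l : ℕ} (hl : l < m) (x : E2) :
    trT L L' g (fl l h) x = H73.Hyp.fl 1 ((l : ℤ) - L') (trT L L' g h x) := by
  have e := trob_flip (τ := trt L') (fun _ _ => H73.Hyp.fl_fl _ _ _)
    (fun _ _ _ => H73.Hyp.fl_comm _ _ _ _ _)
    (trx_fl h hl) (fun i hi => trx_fl_ne h i hi) m hl x
  unfold trT
  rw [e]
  exact trob_comm (τ := trs L) (s := trt L' l) (fun i x => H73.Hyp.fl_comm _ _ _ _ _) _ _ _

theorem trT_al (L L' : ℕ) {n m : ℕ} (g : Q n) (h : Q m) {F : E2 → ℝ}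
    (hF : ∀ (l : ℤ) (x : E2), F (H73.Hyp.fl 1 l x) = F x) (x : E2) :
    F (trT L L' g h x) = F (trob (trs L) (trx g) n x) := by
  unfold trT
  rw [trob_comm2 (σ := trs L) (τ := trt L') fun i j x => H73.Hyp.fl_comm _ _ _ _ _]
  exact trob_inv (τ := trt L') (fun i x => hF _ x) _ _ _

theorem trT_be (L L' : ℕ) {n m : ℕ} (g : Q n) (h : Q m) {F : E2 → ℝ}
    (hF : ∀ (l : ℤ) (x : E2), F (H73.Hyp.fl 0 l x) = F x) (x : E2) :
    F (trT L L' g h x) = F (trob (trt L') (trx h) m x) := by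
  unfold trT
  exact trob_inv (τ := trs L) (fun i x => hF _ x) _ _ _

theorem tr_int {n m : ℕ} {G : E2 → ℝ} (hG : Integrable G) (T : Q n → Q m → E2 → E2)
    (hT : ∀ g h, MeasurePreserving (T g h) volume volume) :
    Integrable (fun x => av2 fun g h => G (T g h x)) ∧
      ∫ x, (av2 fun g h => G (T g h x)) = ∫ x, G x := by
  have i1 : ∀ g h, Integrable fun x => G (T g h x) := fun g h =>
    (hT g h).integrable_comp_of_integrable hG
  have i2 : ∀ g, Integrable fun x => av fun h => G (T g h x) := fun g =>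
    (integrable_finsetSum _ fun h _ => i1 g h).div_const _
  refine ⟨(integrable_finsetSum _ fun g _ => i2 g).div_const _, ?_⟩
  have e1 : ∀ g, ∫ x, (av fun h => G (T g h x)) = ∫ x, G x := by
    intro g
    have : ∀ x, (av fun h => G (T g h x)) = (∑ h, G (T g h x)) / 2 ^ m := fun x => rfl
    rw [integral_congr_ae (Filter.Eventually.of_forall this), integral_div,
      integral_finsetSum _ fun h _ => i1 g h]
    rw [← av_const (n := m) (∫ x, G x)]
    unfold av
    congr 1
    exact sum_congr rfl fun h _ => integral_flip (hT g h) hG.aestronglyMeasurable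
  have : ∀ x, (av2 fun g h => G (T g h x)) = (∑ g, av fun h => G (T g h x)) / 2 ^ n :=
    fun x => rfl
  rw [integral_congr_ae (Filter.Eventually.of_forall this), integral_div,
    integral_finsetSum _ fun g _ => i2 g]
  rw [← av_const (n := n) (∫ x, G x)]
  unfold av
  congr 1
  exact sum_congr rfl fun g _ => e1 g

/-- the relations which hold almost everywhere -/
def trGood (L L' : ℕ) (f : L2) (α β : ℕ → E2 → ℝ) (K : Finset ℤ) (y : E2) : Prop :=
  (∀ i j : ℕ, bb L L' f i j (H73.Hyp.fl 0 ((i : ℤ) - L) y) = -bb L L' f i j y) ∧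
  (∀ i j l : ℕ, i < l → bb L L' f i j (H73.Hyp.fl 0 ((l : ℤ) - L) y) = bb L L' f i j y) ∧
  (∀ i j : ℕ, bb L L' f i j (H73.Hyp.fl 1 ((j : ℤ) - L') y) = -bb L L' f i j y) ∧
  (∀ i j l : ℕ, j < l → bb L L' f i j (H73.Hyp.fl 1 ((l : ℤ) - L') y) = bb L L' f i j y) ∧
  (∀ i j : ℕ, ‖bb L L' f i j y‖ ≤ α i y * β j y) ∧
  ∀ k ∈ K, Xs L L' k f y = ∑ i ∈ range (2 * L),
    ∑ j ∈ (range (2 * L')).filter (fun j : ℕ => (i : ℤ) + j ≤ k + L + L'), bb L L' f i j y

theorem tr_good (L L' : ℕ) (f : L2) (α β : ℕ → E2 → ℝ) (K : Finset ℤ)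
    (hd : ∀ i j : ℕ, ∀ᵐ x : E2, ‖bb L L' f i j x‖ ≤ α i x * β j x) :
    ∀ᵐ y : E2, trGood L L' f α β K y := by
  have a1 : ∀ᵐ y : E2, ∀ i j : ℕ,
      bb L L' f i j (H73.Hyp.fl 0 ((i : ℤ) - L) y) = -bb L L' f i j y :=
    ae_all_iff.2 fun i => ae_all_iff.2 fun j => bb_flip0 L L' f i j
  have a2 : ∀ᵐ y : E2, ∀ i j l : ℕ, i < l →
      bb L L' f i j (H73.Hyp.fl 0 ((l : ℤ) - L) y) = bb L L' f i j y :=
    ae_all_iff.2 fun i => ae_all_iff.2 fun j => ae_all_iff.2 fun l => ae_all_iff.2 fun hl =>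
      bb_flip0_lt L L' f i j l hl
  have a3 : ∀ᵐ y : E2, ∀ i j : ℕ,
      bb L L' f i j (H73.Hyp.fl 1 ((j : ℤ) - L') y) = -bb L L' f i j y :=
    ae_all_iff.2 fun i => ae_all_iff.2 fun j => bb_flip1 L L' f i j
  have a4 : ∀ᵐ y : E2, ∀ i j l : ℕ, j < l →
      bb L L' f i j (H73.Hyp.fl 1 ((l : ℤ) - L') y) = bb L L' f i j y :=
    ae_all_iff.2 fun i => ae_all_iff.2 fun j => ae_all_iff.2 fun l => ae_all_iff.2 fun hl =>
      bb_flip1_lt L L' f i j l hl
  have a5 : ∀ᵐ y : E2, ∀ i j : ℕ, ‖bb L L' f i j y‖ ≤ α i y * β j y :=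
    ae_all_iff.2 fun i => ae_all_iff.2 fun j => hd i j
  have a6 : ∀ᵐ x : E2, ∀ k ∈ K, Xs L L' k f x = ∑ i ∈ range (2 * L),
      ∑ j ∈ (range (2 * L')).filter (fun j : ℕ => (i : ℤ) + j ≤ k + L + L'),
        bb L L' f i j x := by
    rw [Finset.eventually_all]
    intro k _
    have b0 : ∀ᵐ x : E2, ∀ i ∈ range (2 * L),
        (∑ j ∈ (range (2 * L')).filter (fun j : ℕ => (i : ℤ) + j ≤ k + L + L'),
          bb L L' f i j : L2) x =
        ∑ j ∈ (range (2 * L')).filter (fun j : ℕ => (i : ℤ) + j ≤ k + L + L'),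
          bb L L' f i j x := by
      rw [Finset.eventually_all]
      intro i _
      exact coe_sum _ _
    filter_upwards [coe_sum (range (2 * L)) fun i =>
      ∑ j ∈ (range (2 * L')).filter (fun j : ℕ => (i : ℤ) + j ≤ k + L + L'), bb L L' f i j,
      b0] with x b1 b2
    unfold Xs
    rw [b1]
    exact sum_congr rfl fun i hi => b2 i hi
  filter_upwards [a1, a2, a3, a4, a5, a6] with y h1 h2 h3 h4 h5 h6
  exact ⟨h1, h2, h3, h4, h5, h6⟩

/-- the array of an orbit -/
noncomputable def trD (L L' : ℕ) (f : L2) (φ : ℂ → ℝ) (x : E2) (i j : ℕ) (g : Q (2 * L))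
    (h : Q (2 * L')) : ℝ :=
  if i < 2 * L ∧ j < 2 * L' then φ (bb L L' f i j (trT L L' g h x)) else 0

/-- the majorants of an orbit -/
noncomputable def trA (L : ℕ) (α : ℕ → E2 → ℝ) (x : E2) (i : ℕ) (g : Q (2 * L)) : ℝ :=
  if i < 2 * L then α i (trob (trs L) (trx g) (2 * L) x) else 0

/-- the majorants of an orbit -/
noncomputable def trB (L' : ℕ) (β : ℕ → E2 → ℝ) (x : E2) (j : ℕ) (h : Q (2 * L')) : ℝ :=
  if j < 2 * L' then β j (trob (trt L') (trx h) (2 * L') x) else 0

theorem tr_arr {L L' : ℕ} {f : L2} {α β : ℕ → E2 → ℝ} {K : Finset ℤ}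
    (ha : ∀ i x, 0 ≤ α i x) (hb : ∀ j x, 0 ≤ β j x)
    (hai : ∀ i l : ℕ, i ≤ l → ∀ x, α i (H73.Hyp.fl 0 ((l : ℤ) - L) x) = α i x)
    (haj : ∀ (i : ℕ) (l : ℤ) (x : E2), α i (H73.Hyp.fl 1 l x) = α i x)
    (hbj : ∀ j l : ℕ, j ≤ l → ∀ x, β j (H73.Hyp.fl 1 ((l : ℤ) - L') x) = β j x)
    (hbi : ∀ (j : ℕ) (l : ℤ) (x : E2), β j (H73.Hyp.fl 0 l x) = β j x)
    {φ : ℂ → ℝ} (hφn : ∀ z, φ (-z) = -φ z) (hφb : ∀ z, |φ z| ≤ ‖z‖) {x : E2}
    (hx : ∀ (g : Q (2 * L)) (h : Q (2 * L')), trGood L L' f α β K (trT L L' g h x)) :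
    Arr (2 * L) (2 * L') (trD L L' f φ x) (trA L α x) (trB L' β x) where
  odx i j h g := by
    show trD L L' f φ x i j (fl i g) h = -trD L L' f φ x i j g h
    unfold trD
    split_ifs with hij
    · rw [trT_fl0 L L' g h hij.1, (hx g h).1 i j, hφn]
    · rw [neg_zero]
  invx i j h l hl g := by
    show trD L L' f φ x i j (fl l g) h = trD L L' f φ x i j g h
    rcases Nat.lt_or_ge l (2 * L) with h1 | h1
    · unfold trD
      split_ifs with hij
      · rw [trT_fl0 L L' g h h1, (hx g h).2.1 i j l (by omega)]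
      · rfl
    · rw [fl_of_le h1]
  ody i j g h := by
    show trD L L' f φ x i j g (fl j h) = -trD L L' f φ x i j g h
    unfold trD
    split_ifs with hij
    · rw [trT_fl1 L L' g h hij.2, (hx g h).2.2.1 i j, hφn]
    · rw [neg_zero]
  invy i j g l hl h := by
    show trD L L' f φ x i j g (fl l h) = trD L L' f φ x i j g h
    rcases Nat.lt_or_ge l (2 * L') with h1 | h1
    · unfold trD
      split_ifs with hij
      · rw [trT_fl1 L L' g h h1, (hx g h).2.2.2.1 i j l (by omega)]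
      · rfl
    · rw [fl_of_le h1]
  pa i l hl g := by
    show trA L α x i (fl l g) = trA L α x i g
    rcases Nat.lt_or_ge l (2 * L) with h1 | h1
    · unfold trA
      split_ifs with hi
      · rw [trob_flip (τ := trs L) (fun _ _ => H73.Hyp.fl_fl _ _ _)
          (fun _ _ _ => H73.Hyp.fl_comm _ _ _ _ _) (trx_fl g h1)
          (fun i hi => trx_fl_ne g i hi) _ h1 x]
        exact hai i l hl _
      · rfl
    · rw [fl_of_le h1]
  pb j l hl h := by
    show trB L' β x j (fl l h) = trB L' β x j h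
    rcases Nat.lt_or_ge l (2 * L') with h1 | h1
    · unfold trB
      split_ifs with hi
      · rw [trob_flip (τ := trt L') (fun _ _ => H73.Hyp.fl_fl _ _ _)
          (fun _ _ _ => H73.Hyp.fl_comm _ _ _ _ _) (trx_fl h h1)
          (fun i hi => trx_fl_ne h i hi) _ h1 x]
        exact hbj j l hl _
      · rfl
    · rw [fl_of_le h1]
  na i g := by
    unfold trA
    split_ifs
    · exact ha _ _
    · exact le_rfl
  nb j h := by
    unfold trB
    split_ifs
    · exact hb _ _
    · exact le_rfl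
  dom i j g h := by
    unfold trD
    split_ifs with hij
    · have e1 := trT_al L L' g h (haj i) x
      have e2 := trT_be L L' g h (hbi j) x
      unfold trA trB
      rw [if_pos hij.1, if_pos hij.2, ← e1, ← e2]
      exact (hφb _).trans ((hx g h).2.2.2.2.1 i j)
    · rw [abs_zero]
      refine mul_nonneg ?_ ?_
      · unfold trA
        split_ifs
        · exact ha _ _
        · exact le_rfl
      · unfold trB
        split_ifs
        · exact hb _ _
        · exact le_rfl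
  za i hi g := by
    unfold trA
    rw [if_neg (by omega)]
  zb j hj h := by
    unfold trB
    rw [if_neg (by omega)]

theorem tr_XS {L L' : ℕ} {f : L2} {α β : ℕ → E2 → ℝ} {K : Finset ℤ}
    {φ : ℂ → ℝ} (hφs : ∀ (s : Finset ℕ) (z : ℕ → ℂ), φ (∑ i ∈ s, z i) =
      ∑ i ∈ s, φ (z i)) {x : E2}
    (hx : ∀ (g : Q (2 * L)) (h : Q (2 * L')), trGood L L' f α β K (trT L L' g h x))
    (g : Q (2 * L)) (h : Q (2 * L')) (k : ℤ) (hk : k ∈ K) :
    |φ (Xs L L' k f (trT L L' g h x))| ≤ MX (trD L L' f φ x) g h := by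
  have e : φ (Xs L L' k f (trT L L' g h x)) = ∑ i ∈ range (2 * L), ∑ j ∈ range (2 * L'),
      if (i : ℤ) + j ≤ k + L + L' then trD L L' f φ x i j g h else 0 := by
    rw [(hx g h).2.2.2.2.2 k hk, hφs]
    refine sum_congr rfl fun i hi => ?_
    rw [hφs, sum_filter]
    refine sum_congr rfl fun j hj => ?_
    split_ifs
    · unfold trD
      rw [if_pos ⟨mem_range.1 hi, mem_range.1 hj⟩]
    · rfl
  by_cases h0 : 0 ≤ k + L + L'
  · have e2 : φ (Xs L L' k f (trT L L' g h x)) =
        XS (trD L L' f φ x) (k + L + L').toNat g h := by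
      rw [e]
      unfold XS
      refine sum_congr rfl fun i _ => sum_congr rfl fun j _ => ?_
      by_cases h1 : (i : ℤ) + j ≤ k + L + L'
      · rw [if_pos h1, if_pos (by omega)]
      · rw [if_neg h1, if_neg (by omega)]
    rw [e2]
    exact abs_XS_le_MX _ _ _ _
  · have e2 : φ (Xs L L' k f (trT L L' g h x)) = 0 := by
      rw [e]
      refine sum_eq_zero fun i _ => sum_eq_zero fun j _ => ?_
      rw [if_neg (by omega)]
    rw [e2, abs_zero]
    exact MX_nonneg _ _ _

/-- row TR1 -/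
theorem tr (h1 : SFin) : STr := by
  obtain ⟨C, hC, hfin⟩ := h1
  refine ⟨2 * C, by linarith, ?_⟩
  intro L L' f α β hma hmb ha hb hai haj hbj hbi hd hint K
  set H : E2 → ℝ := fun x => (∑ i ∈ range (2 * L), α i x ^ 2) *
    ∑ j ∈ range (2 * L'), β j x ^ 2 with hH
  have hH0 : ∀ x, 0 ≤ H x := fun x =>
    mul_nonneg (sum_nonneg fun i _ => sq_nonneg _) (sum_nonneg fun i _ => sq_nonneg _)
  rcases K.eq_empty_or_nonempty with rfl | hK
  · refine ⟨fun _ => 0, integrable_zero _ _ _, Filter.Eventually.of_forall fun x k hk =>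
      absurd hk (notMem_empty k), ?_⟩
    rw [integral_zero]
    exact mul_nonneg (by linarith) (integral_nonneg hH0)
  set G : E2 → ℝ := K.sup' hK fun k x => ‖Xs L L' k f x‖ ^ 2 with hG
  have hGx : ∀ x, G x = K.sup' hK fun k => ‖Xs L L' k f x‖ ^ 2 := fun x => by
    rw [hG, Finset.sup'_apply]
  have hGk : ∀ x, ∀ k ∈ K, ‖Xs L L' k f x‖ ^ 2 ≤ G x := fun x k hk => by
    rw [hGx]
    exact le_sup' (fun k => ‖Xs L L' k f x‖ ^ 2) hk
  have hG0 : ∀ x, 0 ≤ G x := fun x => by
    obtain ⟨k, hk⟩ := hK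
    exact (sq_nonneg _).trans (hGk x k hk)
  have hGm : Measurable G := by
    refine Finset.measurable_sup' hK fun k _ => ?_
    exact ((Lp.stronglyMeasurable (Xs L L' k f)).measurable.norm).pow_const 2
  have hGi : Integrable G := by
    refine (integrable_finsetSum K fun k _ => integrable_sq (Xs L L' k f)).mono'
      hGm.aestronglyMeasurable (Filter.Eventually.of_forall fun x => ?_)
    rw [Real.norm_of_nonneg (hG0 x), hGx]
    refine sup'_le _ _ fun k hk => ?_
    exact single_le_sum (f := fun k => ‖Xs L L' k f x‖ ^ 2) (fun k _ => sq_nonneg _) hk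
  refine ⟨G, hGi, Filter.Eventually.of_forall hGk, ?_⟩
  -- the orbits
  obtain ⟨iG, eG⟩ := tr_int (n := 2 * L) (m := 2 * L') hGi (trT L L') (trT_mp L L')
  obtain ⟨iH, eH⟩ := tr_int (n := 2 * L) (m := 2 * L') hint (trT L L') (trT_mp L L')
  rw [← eG, ← eH, ← integral_const_mul]
  have good : ∀ᵐ x : E2, ∀ (g : Q (2 * L)) (h : Q (2 * L')),
      trGood L L' f α β K (trT L L' g h x) := by
    rw [ae_all_iff]
    intro g
    rw [ae_all_iff]
    intro h
    exact (trT_mp L L' g h).quasiMeasurePreserving.ae (tr_good L L' f α β K hd)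
  refine integral_mono_ae iG (iH.const_mul _) ?_
  filter_upwards [good] with x hx
  have A1 := hfin (2 * L) (2 * L') _ _ _ (tr_arr ha hb hai haj hbj hbi (φ := Complex.re)
    (fun z => Complex.neg_re z) Complex.abs_re_le_norm hx)
  have A2 := hfin (2 * L) (2 * L') _ _ _ (tr_arr ha hb hai haj hbj hbi (φ := Complex.im)
    (fun z => Complex.neg_im z) Complex.abs_im_le_norm hx)
  have B : (av fun g : Q (2 * L) => ∑ i ∈ range (2 * L), trA L α x i g ^ 2) *
      (av fun h : Q (2 * L') => ∑ j ∈ range (2 * L'), trB L' β x j h ^ 2) =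
      av2 fun (g : Q (2 * L)) (h : Q (2 * L')) => H (trT L L' g h x) := by
    rw [← av2_mul]
    congr 1
    funext g h
    show _ = (∑ i ∈ range (2 * L), α i (trT L L' g h x) ^ 2) *
      ∑ j ∈ range (2 * L'), β j (trT L L' g h x) ^ 2
    congr 1
    · refine sum_congr rfl fun i hi => ?_
      unfold trA
      rw [if_pos (mem_range.1 hi), trT_al L L' g h (haj i) x]
    · refine sum_congr rfl fun j hj => ?_
      unfold trB
      rw [if_pos (mem_range.1 hj), trT_be L L' g h (hbi j) x]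
  have M1 : (av2 fun (g : Q (2 * L)) (h : Q (2 * L')) => G (trT L L' g h x)) ≤
      av2 fun (g : Q (2 * L)) (h : Q (2 * L')) => MX (trD L L' f Complex.re x) g h ^ 2 +
        MX (trD L L' f Complex.im x) g h ^ 2 := by
    refine av2_mono fun g h => ?_
    rw [hGx]
    refine sup'_le _ _ fun k hk => ?_
    have c1 := tr_XS (φ := Complex.re) (fun s z => Complex.re_sum s z) hx g h k hk
    have c2 := tr_XS (φ := Complex.im) (fun s z => Complex.im_sum s z) hx g h k hk
    rw [← Complex.normSq_eq_norm_sq, Complex.normSq_apply, ← sq, ← sq]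
    have d1 := pow_le_pow_left₀ (abs_nonneg _) c1 2
    have d2 := pow_le_pow_left₀ (abs_nonneg _) c2 2
    rw [sq_abs] at d1 d2
    exact add_le_add d1 d2
  rw [av2_add] at M1
  refine M1.trans ?_
  rw [mul_assoc] at A1 A2
  rw [B] at A1 A2
  show _ ≤ 2 * C * _
  linarith

end Pool.Agent.H79.RT
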