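import Pool.Agent.H79.RT.Basic

/-!
# MP_a7284e_an, project RT, row RT4: sums over a region that is predictable in `x`
-/

set_option autoImplicit false

namespace Pool.Agent.H79.RT

open Finset Classical

variable {n m : ℕ}

/-- energy of the row `i` -/
noncomputable def xt_p (α : ℕ → Q n → ℝ) (β : ℕ → Q m → ℝ) (R : ℕ → ℕ → Q n → Q m → Prop)
    (y : Q m) (i : ℕ) (x : Q n) : ℝ :=
  ∑ j ∈ range m, if R i j x y then α i x ^ 2 * β j y ^ 2 else 0

/-- energy of the rows up to `i` -/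
noncomputable def xt_W (α : ℕ → Q n → ℝ) (β : ℕ → Q m → ℝ) (R : ℕ → ℕ → Q n → Q m → Prop)
    (y : Q m) (i : ℕ) (x : Q n) : ℝ := ∑ i' ∈ range (i + 1), xt_p α β R y i' x

/-- the stopped row sums -/
noncomputable def xt_d (D : ℕ → ℕ → Q n → Q m → ℝ) (α : ℕ → Q n → ℝ) (β : ℕ → Q m → ℝ)
    (R : ℕ → ℕ → Q n → Q m → Prop) (h : ℝ) (y : Q m) (i : ℕ) (x : Q n) : ℝ :=
  if xt_W α β R y i x ≤ h then ∑ j ∈ range m, if R i j x y then D i j x y else 0 else 0

theorem xt_p_nonneg (α : ℕ → Q n → ℝ) (β : ℕ → Q m → ℝ) (R : ℕ → ℕ → Q n → Q m → Prop)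
    (y : Q m) (i : ℕ) (x : Q n) : 0 ≤ xt_p α β R y i x := by
  unfold xt_p
  refine sum_nonneg fun j _ => ?_
  split_ifs
  · positivity
  · exact le_rfl

/-- stopped sums of nonnegative terms -/
theorem xt_sum_le (p : ℕ → ℝ) (hp : ∀ i, 0 ≤ p i) (h : ℝ) (hh : 0 ≤ h) (N : ℕ) :
    ∑ i ∈ range N, (if ∑ i' ∈ range (i + 1), p i' ≤ h then p i else 0) ≤ h := by
  have key : ∀ N, ∑ i ∈ range N, (if ∑ i' ∈ range (i + 1), p i' ≤ h then p i else 0) ≤ h ∧
      ∑ i ∈ range N, (if ∑ i' ∈ range (i + 1), p i' ≤ h then p i else 0) ≤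
        ∑ i ∈ range N, p i := by
    intro N
    induction N with
    | zero => simp [hh]
    | succ N ih =>
      rw [sum_range_succ]
      by_cases h1 : ∑ i' ∈ range (N + 1), p i' ≤ h
      · rw [if_pos h1]
        have h2 := ih.2
        rw [sum_range_succ] at h1 ⊢
        constructor <;> linarith
      · rw [if_neg h1, add_zero]
        refine ⟨ih.1, ih.2.trans ?_⟩
        rw [sum_range_succ]
        have := hp N
        linarith
  exact (key N).1

theorem xt_W_inv {D : ℕ → ℕ → Q n → Q m → ℝ} {α : ℕ → Q n → ℝ} {β : ℕ → Q m → ℝ}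
    (hA : Arr n m D α β) {R : ℕ → ℕ → Q n → Q m → Prop} (hR : XReg R) (y : Q m) (i : ℕ) :
    Inv i (xt_W α β R y i) := by
  intro l hl x
  unfold xt_W xt_p
  refine sum_congr rfl fun i' hi' => sum_congr rfl fun j _ => ?_
  have h1 : i' ≤ l := by
    have := mem_range.1 hi'
    omega
  have h2 : R i' j (fl l x) y = R i' j x y := hR.pr i' j y l h1 x
  have h3 : α i' (fl l x) = α i' x := hA.pa i' l h1 x
  simp only [h2, h3]

theorem xt_d_od {D : ℕ → ℕ → Q n → Q m → ℝ} {α : ℕ → Q n → ℝ} {β : ℕ → Q m → ℝ}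
    (hA : Arr n m D α β) {R : ℕ → ℕ → Q n → Q m → Prop} (hR : XReg R) (h : ℝ) (y : Q m) (i : ℕ) :
    Od i (xt_d D α β R h y i) := by
  intro x
  unfold xt_d
  rw [xt_W_inv hA hR y i i le_rfl x]
  by_cases hW : xt_W α β R y i x ≤ h
  · rw [if_pos hW, if_pos hW, ← sum_neg_distrib]
    refine sum_congr rfl fun j _ => ?_
    have h2 : R i j (fl i x) y = R i j x y := hR.pr i j y i le_rfl x
    have h3 : D i j (fl i x) y = -D i j x y := hA.odx i j y x
    simp only [h2, h3]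
    split_ifs <;> simp
  · rw [if_neg hW, if_neg hW, neg_zero]

theorem xt_d_inv {D : ℕ → ℕ → Q n → Q m → ℝ} {α : ℕ → Q n → ℝ} {β : ℕ → Q m → ℝ}
    (hA : Arr n m D α β) {R : ℕ → ℕ → Q n → Q m → Prop} (hR : XReg R) (h : ℝ) (y : Q m) (i : ℕ) :
    Inv (i + 1) (xt_d D α β R h y i) := by
  intro l hl x
  unfold xt_d
  have hil : i ≤ l := by omega
  rw [xt_W_inv hA hR y i l hil x]
  have h2 : ∀ j, R i j (fl l x) y = R i j x y := fun j => hR.pr i j y l hil x
  have h3 : ∀ j, D i j (fl l x) y = D i j x y := fun j => hA.invx i j y l hl x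
  simp only [h2, h3]

theorem xt_En (α : ℕ → Q n → ℝ) (β : ℕ → Q m → ℝ) (R : ℕ → ℕ → Q n → Q m → Prop) (x : Q n)
    (y : Q m) : En α β R x y = ∑ i ∈ range n, xt_p α β R y i x := rfl

theorem xt_Sm (D : ℕ → ℕ → Q n → Q m → ℝ) (α : ℕ → Q n → ℝ) (β : ℕ → Q m → ℝ)
    (R : ℕ → ℕ → Q n → Q m → Prop) (h : ℝ) (x : Q n) (y : Q m) (hE : En α β R x y ≤ h) :
    Sm D R x y = ∑ i ∈ range n, xt_d D α β R h y i x := by
  unfold Sm xt_d
  refine sum_congr rfl fun i hi => ?_
  rw [if_pos]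
  refine le_trans ?_ hE
  rw [xt_En]
  unfold xt_W
  refine sum_le_sum_of_subset_of_nonneg ?_ fun k _ _ => xt_p_nonneg α β R y k x
  intro k hk
  rw [mem_range] at hi hk ⊢
  omega

/-- an order convex set below `m` is an interval -/
theorem xt_ico (S : ℕ → Prop) (hS : ∀ j₁ j₂ j₃, j₁ ≤ j₂ → j₂ ≤ j₃ → S j₁ → S j₃ → S j₂) (m : ℕ) :
    ∃ s t, s ≤ t ∧ (range m).filter S = Ico s t := by
  rcases ((range m).filter S).eq_empty_or_nonempty with h | h
  · exact ⟨0, 0, le_rfl, by rw [h, Ico_self]⟩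
  · have h1 := min'_mem _ h
    have h2 := max'_mem _ h
    have h3 := min'_le _ _ h2
    refine ⟨((range m).filter S).min' h, ((range m).filter S).max' h + 1, by omega, ?_⟩
    ext j
    rw [mem_filter, mem_Ico, mem_range]
    constructor
    · rintro ⟨h4, h5⟩
      have h6 : j ∈ (range m).filter S := mem_filter.2 ⟨mem_range.2 h4, h5⟩
      exact ⟨min'_le _ _ h6, Nat.lt_succ_of_le (le_max' _ _ h6)⟩
    · rintro ⟨h4, h5⟩
      rw [mem_filter, mem_range] at h1 h2
      exact ⟨lt_of_le_of_lt (Nat.le_of_lt_succ h5) h2.1,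
        hS _ j _ h4 (Nat.le_of_lt_succ h5) h1.2 h2.2⟩

/-- the rows divided by their majorant -/
noncomputable def xt_e (D : ℕ → ℕ → Q n → Q m → ℝ) (α : ℕ → Q n → ℝ) (i : ℕ) (x : Q n) (j : ℕ)
    (y : Q m) : ℝ := D i j x y / α i x

theorem xt_mar {D : ℕ → ℕ → Q n → Q m → ℝ} {α : ℕ → Q n → ℝ} {β : ℕ → Q m → ℝ}
    (hA : Arr n m D α β) (i : ℕ) (x : Q n) : Mar m (xt_e D α i x) β where
  od j := by
    intro y
    unfold xt_e
    rw [hA.ody i j x y, neg_div]
  inv j := by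
    intro l hl y
    unfold xt_e
    rw [hA.invy i j x l hl y]
  pb := hA.pb
  nb := hA.nb
  dom j := by
    intro y
    unfold xt_e
    rw [abs_div, abs_of_nonneg (hA.na i x)]
    rcases (hA.na i x).eq_or_lt with h | h
    · rw [← h, div_zero]
      exact hA.nb j y
    · rw [div_le_iff₀ h, mul_comm]
      exact hA.dom i j x y
  zb := hA.zb

theorem xt_De {D : ℕ → ℕ → Q n → Q m → ℝ} {α : ℕ → Q n → ℝ} {β : ℕ → Q m → ℝ}
    (hA : Arr n m D α β) (i j : ℕ) (x : Q n) (y : Q m) :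
    D i j x y = α i x * xt_e D α i x j y := by
  unfold xt_e
  by_cases h : α i x = 0
  · have h1 := hA.dom i j x y
    rw [h, zero_mul] at h1
    rw [h, zero_mul]
    exact abs_eq_zero.1 (le_antisymm h1 (abs_nonneg _))
  · field_simp

/-- the pointwise estimate -/
theorem xt_pt (h3 : SHol) (r : ℕ) (hr : 3 ≤ r) {D : ℕ → ℕ → Q n → Q m → ℝ} {α : ℕ → Q n → ℝ}
    {β : ℕ → Q m → ℝ} (hA : Arr n m D α β) (hB : Bdd n m α β)
    {R : ℕ → ℕ → Q n → Q m → Prop} (hR : XReg R) (h : ℝ) (hh : 0 ≤ h)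
    (Z : ℕ → Q n → Q m → ℝ) (hZ : ∀ i x y, 0 ≤ Z i x y)
    (hm : ∀ i x y s t, s ≤ t → (∑ j ∈ Ico s t, xt_e D α i x j y) ^ (2 * r) ≤
      Z i x y * (∑ j ∈ Ico s t, β j y ^ 2) ^ (r - 2)) (x : Q n) (y : Q m) :
    (∑ i ∈ range n, xt_d D α β R h y i x ^ 2) ^ r ≤
      (∑ i ∈ range n, α i x ^ 2 * Z i x y) * h ^ (r - 2) := by
  set u : ℕ → ℝ := fun i => if xt_W α β R y i x ≤ h then
    (∑ j ∈ range m, if R i j x y then xt_e D α i x j y else 0) ^ 2 else 0 with hu
  set l : ℕ → ℝ := fun i => if xt_W α β R y i x ≤ h then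
    ∑ j ∈ range m, if R i j x y then β j y ^ 2 else 0 else 0 with hl
  have hu0 : ∀ i, 0 ≤ u i := by
    intro i
    simp only [hu]
    split_ifs
    · positivity
    · exact le_rfl
  have hl0 : ∀ i, 0 ≤ l i := by
    intro i
    simp only [hl]
    split_ifs
    · refine sum_nonneg fun j _ => ?_
      split_ifs
      · positivity
      · exact le_rfl
    · exact le_rfl
  have hd : ∀ i, xt_d D α β R h y i x ^ 2 = α i x ^ 2 * u i := by
    intro i
    simp only [hu]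
    unfold xt_d
    by_cases hW : xt_W α β R y i x ≤ h
    · rw [if_pos hW, if_pos hW, ← mul_pow, mul_sum]
      congr 1
      refine sum_congr rfl fun j _ => ?_
      by_cases hj : R i j x y
      · rw [if_pos hj, if_pos hj]
        exact xt_De hA i j x y
      · rw [if_neg hj, if_neg hj, mul_zero]
    · rw [if_neg hW, if_neg hW]
      ring
  have hul : ∀ i, u i ^ r ≤ Z i x y * l i ^ (r - 2) := by
    intro i
    by_cases hW : xt_W α β R y i x ≤ h
    · obtain ⟨s, t, hst, hI⟩ := xt_ico (fun j => R i j x y) (hR.iv i x y) m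
      simp only [hu, hl]
      rw [if_pos hW, if_pos hW, ← pow_mul, ← sum_filter, ← sum_filter, hI]
      exact hm i x y s t hst
    · simp only [hu, hl]
      rw [if_neg hW, if_neg hW, zero_pow (by omega), zero_pow (by omega), mul_zero]
  have hw : ∑ i ∈ range n, α i x ^ 2 * l i ≤ h := by
    have h1 : ∀ i, α i x ^ 2 * l i =
        if ∑ i' ∈ range (i + 1), xt_p α β R y i' x ≤ h then xt_p α β R y i x else 0 := by
      intro i
      simp only [hl]
      unfold xt_W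
      by_cases hW : ∑ i' ∈ range (i + 1), xt_p α β R y i' x ≤ h
      · rw [if_pos hW, if_pos hW, mul_sum]
        unfold xt_p
        refine sum_congr rfl fun j _ => ?_
        split_ifs
        · rfl
        · rw [mul_zero]
      · rw [if_neg hW, if_neg hW, mul_zero]
    rw [sum_congr rfl fun i _ => h1 i]
    exact xt_sum_le _ (fun i => xt_p_nonneg α β R y i x) h hh n
  rw [sum_congr rfl fun i _ => hd i]
  have hmain := h3 r hr n (fun i => α i x ^ 2) u (fun i => Z i x y) l (fun i => sq_nonneg _) hu0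
    (fun i => hZ i x y) hl0 hul (hB.1 x)
  refine hmain.trans ?_
  have h4 : 0 ≤ ∑ i ∈ range n, α i x ^ 2 * l i :=
    sum_nonneg fun i _ => mul_nonneg (sq_nonneg _) (hl0 i)
  have h5 : 0 ≤ ∑ i ∈ range n, α i x ^ 2 * Z i x y :=
    sum_nonneg fun i _ => mul_nonneg (sq_nonneg _) (hZ i x y)
  exact mul_le_mul_of_nonneg_left (pow_le_pow_left₀ h4 hw _) h5

/-- RT4 -/
theorem xt (h1 : SBdg) (h2 : SMod) (h3 : SHol) : SXT := by
  intro r hr
  obtain ⟨C, hC, hbdg⟩ := h1 r (by omega)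
  obtain ⟨K, hK, hmod⟩ := h2 r hr
  refine ⟨C * K, mul_nonneg hC hK, ?_⟩
  intro n m D α β hA hB R hR h hh
  have hZ : ∀ i (x : Q n), ∃ Z : Q m → ℝ, (∀ y, 0 ≤ Z y) ∧ av Z ≤ K ∧ ∀ y s t, s ≤ t →
      (∑ j ∈ Ico s t, xt_e D α i x j y) ^ (2 * r) ≤ Z y * (∑ j ∈ Ico s t, β j y ^ 2) ^ (r - 2) :=
    fun i x => hmod m (xt_e D α i x) β (xt_mar hA i x) hB.2
  choose Z hZ0 hZK hZm using hZ
  have hpt := xt_pt h3 r hr hA hB hR h hh Z hZ0 hZm
  -- for every fixed `y`
  have hy : ∀ y, av (fun x => if En α β R x y ≤ h then Sm D R x y ^ (2 * r) else 0) ≤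
      C * h ^ (r - 2) * av (fun x => ∑ i ∈ range n, α i x ^ 2 * Z i x y) := by
    intro y
    obtain ⟨M, hM0, hM1, hM2⟩ := hbdg n (xt_d D α β R h y) (fun i => xt_d_od hA hR h y i)
      fun i => xt_d_inv hA hR h y i
    have s1 : av (fun x => if En α β R x y ≤ h then Sm D R x y ^ (2 * r) else 0) ≤
        av (fun x => M x ^ (2 * r)) := by
      refine av_mono fun x => ?_
      by_cases hE : En α β R x y ≤ h
      · rw [if_pos hE, xt_Sm D α β R h x y hE, ← Even.pow_abs (even_two_mul r)]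
        exact pow_le_pow_left₀ (abs_nonneg _) (hM1 x n) _
      · rw [if_neg hE]
        exact pow_nonneg (hM0 x) _
    have s2 : av (fun x => (∑ i ∈ range n, xt_d D α β R h y i x ^ 2) ^ r) ≤
        h ^ (r - 2) * av (fun x => ∑ i ∈ range n, α i x ^ 2 * Z i x y) := by
      rw [← av_mul_left]
      refine av_mono fun x => ?_
      rw [mul_comm (h ^ (r - 2))]
      exact hpt x y
    calc av (fun x => if En α β R x y ≤ h then Sm D R x y ^ (2 * r) else 0)
        ≤ C * av (fun x => (∑ i ∈ range n, xt_d D α β R h y i x ^ 2) ^ r) := s1.trans hM2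
      _ ≤ C * (h ^ (r - 2) * av (fun x => ∑ i ∈ range n, α i x ^ 2 * Z i x y)) :=
          mul_le_mul_of_nonneg_left s2 hC
      _ = C * h ^ (r - 2) * av (fun x => ∑ i ∈ range n, α i x ^ 2 * Z i x y) := by ring
  have hKx : av (fun x => av fun y => ∑ i ∈ range n, α i x ^ 2 * Z i x y) ≤ K := by
    refine av_le_const fun x => ?_
    rw [av_sum]
    have h4 : ∀ i, av (fun y => α i x ^ 2 * Z i x y) ≤ α i x ^ 2 * K := by
      intro i
      rw [av_mul_left]
      exact mul_le_mul_of_nonneg_left (hZK i x) (sq_nonneg _)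
    refine (sum_le_sum fun i _ => h4 i).trans ?_
    rw [← sum_mul]
    calc (∑ i ∈ range n, α i x ^ 2) * K ≤ 1 * K := mul_le_mul_of_nonneg_right (hB.1 x) hK
      _ = K := one_mul K
  have hsw : av (fun y => av fun x => ∑ i ∈ range n, α i x ^ 2 * Z i x y) =
      av (fun x => av fun y => ∑ i ∈ range n, α i x ^ 2 * Z i x y) :=
    (av2_swap (fun x y => ∑ i ∈ range n, α i x ^ 2 * Z i x y)).symm
  rw [av2_swap]
  have hpow : 0 ≤ C * h ^ (r - 2) := mul_nonneg hC (pow_nonneg hh _)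
  calc av2 (fun y x => if En α β R x y ≤ h then Sm D R x y ^ (2 * r) else 0)
      ≤ av (fun y => C * h ^ (r - 2) * av (fun x => ∑ i ∈ range n, α i x ^ 2 * Z i x y)) :=
        av_mono fun y => hy y
    _ = C * h ^ (r - 2) * av (fun y => av fun x => ∑ i ∈ range n, α i x ^ 2 * Z i x y) :=
        av_mul_left _ _
    _ ≤ C * h ^ (r - 2) * K := by
        rw [hsw]
        exact mul_le_mul_of_nonneg_left hKx hpow
    _ = C * K * h ^ (r - 2) := by ring

end Pool.Agent.H79.RT
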