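import Pool.Agent.H79.RT.Basic

/-!
# MP_a7284e_an, project RT: regions that are predictable in `y`
-/

set_option autoImplicit false

namespace Pool.Agent.H79.RT

open Finset Classical

theorem YReg.swap {n m : ℕ} {R : ℕ → ℕ → Q n → Q m → Prop} (h : YReg R) :
    XReg (fun i j (x : Q m) (y : Q n) => R j i y x) where
  pr i j y := h.pr j i y
  iv i x y j₁ j₂ j₃ h1 h2 h3 h4 := h.iv i y x j₁ j₂ j₃ h1 h2 h3 h4

/-- RT5 -/
theorem yt (h1 : SXT) : SYT := by
  intro r hr
  obtain ⟨K, hK, h⟩ := h1 r hr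
  refine ⟨K, hK, fun n m D α β hD hb R hR t ht => ?_⟩
  have key := h m n (fun i j x y => D j i y x) β α hD.swap hb.swap
    (fun i j x y => R j i y x) hR.swap t ht
  rw [av2_swap]
  refine le_of_eq_of_le ?_ key
  congr 1
  funext y x
  rw [En_swap, Sm_swap]

end Pool.Agent.H79.RT
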