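import Pool.Agent.H79.RT.Bdg
import Pool.Agent.H79.RT.Bes
import Pool.Agent.H79.RT.Mod
import Pool.Agent.H79.RT.Hol
import Pool.Agent.H79.RT.XT
import Pool.Agent.H79.RT.YT
import Pool.Agent.H79.RT.QG
import Pool.Agent.H79.RT.PairA
import Pool.Agent.H79.RT.PairB
import Pool.Agent.H79.RT.Pair
import Pool.Agent.H79.RT.Hit
import Pool.Agent.H79.RT.Dens
import Pool.Agent.H79.RT.Bnd
import Pool.Agent.H79.RT.Loc
import Pool.Agent.H79.RT.Fin
import Pool.Agent.H79.RT.Tr
import Pool.Agent.H79.RT.Cell
import Pool.Agent.H79.RT.Cf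
import Pool.Agent.H79.RT.Haar
import Pool.Agent.H79.RT.HcT
import Pool.Agent.H79.RT.MaxD
import Pool.Agent.H79.RT.Step
import Pool.Agent.H79.RT.Sup
import Pool.Agent.H79.RT.Conv
import Pool.Agent.H79.RT.Ser
import Pool.Agent.H79.RT.Real

/-!
# MP_a7284e_an, project RT: assembly
-/

set_option autoImplicit false

namespace Pool.Agent.H79.RT

theorem xt_all : SXT := xt bdg (mod bdg) hol

theorem yt_all : SYT := yt xt_all

theorem pair_all : SPair := pair (pairA xt_all yt_all) (pairB xt_all yt_all qg)

theorem bnd_all : SBnd := bnd pair_all hit_spec (dens hit_spec)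

theorem fin_all : SFin := fin (loc bnd_all)

theorem haar_all : SHaar := haar_spec cell cf_spec

theorem maxD_all : SMaxD := maxD (tr fin_all) haar_all hct

theorem conv_all : SConv := conv maxD_all cf_spec step sup_maj

theorem ser_all : SSer := ser maxD_all sup_maj conv_all

end Pool.Agent.H79.RT
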