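import Pool.Agent.H79.RT.Basic

/-!
# MP_a7284e_an, project RT, row RT13: elementary inequalities for the chaining
-/

set_option autoImplicit false

namespace Pool.Agent.H79.RT

open Finset Classical

variable {n m : ℕ}

/-! ### elementary inequalities -/

/-- weighted Cauchy-Schwarz -/
theorem bn_cs (S : ℕ) (a u : ℕ → ℝ) (ha : ∀ s, 0 < a s) :
    (∑ s ∈ range S, u s) ^ 2 ≤ (∑ s ∈ range S, a s) * ∑ s ∈ range S, u s ^ 2 / a s := by
  refine sum_sq_le_sum_mul_sum_of_sq_eq_mul _ (fun s _ => (ha s).le) (fun s _ => ?_) fun s _ => ?_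
  · exact div_nonneg (sq_nonneg _) (ha s).le
  · have := (ha s).ne'
    field_simp

theorem bn_cs4 (S : ℕ) (a u : ℕ → ℝ) (ha : ∀ s, 0 < a s) :
    (∑ s ∈ range S, u s) ^ 4 ≤
      (∑ s ∈ range S, a s) ^ 3 * ∑ s ∈ range S, u s ^ 4 / a s ^ 3 := by
  have h1 := bn_cs S a u ha
  have h2 := bn_cs S a (fun s => u s ^ 2 / a s) ha
  have h3 : 0 ≤ ∑ s ∈ range S, a s := sum_nonneg fun s _ => (ha s).le
  have h4 : 0 ≤ ∑ s ∈ range S, u s ^ 2 / a s :=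
    sum_nonneg fun s _ => div_nonneg (sq_nonneg _) (ha s).le
  have h5 : ∑ s ∈ range S, (u s ^ 2 / a s) ^ 2 / a s = ∑ s ∈ range S, u s ^ 4 / a s ^ 3 := by
    refine sum_congr rfl fun s _ => ?_
    have := (ha s).ne'
    field_simp
  rw [h5] at h2
  calc (∑ s ∈ range S, u s) ^ 4 = ((∑ s ∈ range S, u s) ^ 2) ^ 2 := by ring
    _ ≤ ((∑ s ∈ range S, a s) * ∑ s ∈ range S, u s ^ 2 / a s) ^ 2 :=
        pow_le_pow_left₀ (sq_nonneg _) h1 2
    _ = (∑ s ∈ range S, a s) ^ 2 * (∑ s ∈ range S, u s ^ 2 / a s) ^ 2 := by ring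
    _ ≤ (∑ s ∈ range S, a s) ^ 2 *
        ((∑ s ∈ range S, a s) * ∑ s ∈ range S, u s ^ 4 / a s ^ 3) :=
        mul_le_mul_of_nonneg_left h2 (sq_nonneg _)
    _ = _ := by ring

theorem bn_4_40 (v : ℝ) (hv : 0 ≤ v) : v ^ 4 ≤ 1 + v ^ 40 := by
  rcases le_or_gt v 1 with h | h
  · have h1 : v ^ 4 ≤ 1 := pow_le_one₀ hv h
    have h2 : 0 ≤ v ^ 40 := by positivity
    linarith
  · have h1 : v ^ 4 ≤ v ^ 40 := pow_le_pow_right₀ h.le (by norm_num)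
    linarith

theorem bn_u (a u : ℝ) (ha : 0 < a) (hu : 0 ≤ u) : u ^ 4 / a ^ 3 ≤ a + u ^ 40 / a ^ 39 := by
  have h1 := bn_4_40 (u / a) (by positivity)
  have h2 := mul_le_mul_of_nonneg_left h1 ha.le
  have h3 : a * (u / a) ^ 4 = u ^ 4 / a ^ 3 := by field_simp
  have h4 : a * (1 + (u / a) ^ 40) = a + u ^ 40 / a ^ 39 := by field_simp
  rwa [h3, h4] at h2

theorem bn_sum3 (a b c : ℝ) (ha : 0 ≤ a) (hb : 0 ≤ b) (hc : 0 ≤ c) :
    (a + b + c) ^ 4 ≤ 27 * (a ^ 4 + b ^ 4 + c ^ 4) := by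
  have h1 : (a + b + c) ^ 2 ≤ 3 * (a ^ 2 + b ^ 2 + c ^ 2) := by
    nlinarith [sq_nonneg (a - b), sq_nonneg (b - c), sq_nonneg (a - c)]
  have h2 : (a ^ 2 + b ^ 2 + c ^ 2) ^ 2 ≤ 3 * (a ^ 4 + b ^ 4 + c ^ 4) := by
    nlinarith [sq_nonneg (a ^ 2 - b ^ 2), sq_nonneg (b ^ 2 - c ^ 2), sq_nonneg (a ^ 2 - c ^ 2)]
  calc (a + b + c) ^ 4 = ((a + b + c) ^ 2) ^ 2 := by ring
    _ ≤ (3 * (a ^ 2 + b ^ 2 + c ^ 2)) ^ 2 := pow_le_pow_left₀ (sq_nonneg _) h1 2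
    _ = 9 * (a ^ 2 + b ^ 2 + c ^ 2) ^ 2 := by ring
    _ ≤ 9 * (3 * (a ^ 4 + b ^ 4 + c ^ 4)) := mul_le_mul_of_nonneg_left h2 (by norm_num)
    _ = _ := by ring

/-- the sum of the weights -/
theorem bn_R (S : ℕ) : ∑ s ∈ range S, (49 / 50 : ℝ) ^ s ≤ 50 := by
  have h := geom_sum_eq (x := (49 / 50 : ℝ)) (by norm_num) S
  rw [h]
  have h2 : (0 : ℝ) ≤ (49 / 50 : ℝ) ^ S := by positivity
  rw [div_le_iff_of_neg (by norm_num)]
  linarith

theorem bn_R58 (S : ℕ) : ∑ s ∈ range S, (5 / 8 : ℝ) ^ s ≤ 3 := by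
  have h := geom_sum_eq (x := (5 / 8 : ℝ)) (by norm_num) S
  rw [h]
  have h2 : (0 : ℝ) ≤ (5 / 8 : ℝ) ^ S := by positivity
  rw [div_le_iff_of_neg (by norm_num)]
  linarith

/-! ### the ends of the chain -/

theorem bn_VV_mono (α : ℕ → Q n → ℝ) (β : ℕ → Q m → ℝ) (s : ℕ) {t t' : ℕ} (h : t ≤ t') (x : Q n)
    (y : Q m) : VV α β s t x y ≤ VV α β s t' x y := by
  rw [VV_eq, VV_eq]
  exact En_mono α β fun i j hij => ⟨hij.1, hij.2.trans h⟩

theorem bn_last {D : ℕ → ℕ → Q n → Q m → ℝ} {α : ℕ → Q n → ℝ} {β : ℕ → Q m → ℝ}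
    (hA : Arr n m D α β) {T k : ℕ} (hT : T ≤ k) (x : Q n) (y : Q m) :
    (XS D k x y - XS D T x y) ^ 2 ≤ (n : ℝ) * (m * VV α β T k x y) := by
  rw [XS_sub D hT]
  unfold Sm VV
  refine (sq_sum_le_card_mul_sum_sq (s := range n)).trans ?_
  rw [card_range, mul_sum (range n) _ (m : ℝ)]
  refine mul_le_mul_of_nonneg_left (sum_le_sum fun i _ => ?_) (Nat.cast_nonneg n)
  refine (sq_sum_le_card_mul_sum_sq (s := range m)).trans ?_
  rw [card_range]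
  refine mul_le_mul_of_nonneg_left (sum_le_sum fun j _ => ?_) (Nat.cast_nonneg m)
  by_cases h : T < i + j ∧ i + j ≤ k
  · rw [if_pos h, if_pos h, ← mul_pow, ← sq_abs]
    exact pow_le_pow_left₀ (abs_nonneg _) (hA.dom i j x y) 2
  · rw [if_neg h, if_neg h]
    norm_num

theorem bn_zero {D : ℕ → ℕ → Q n → Q m → ℝ} {α : ℕ → Q n → ℝ} {β : ℕ → Q m → ℝ}
    (hA : Arr n m D α β) (hB : Bdd n m α β) (x : Q n) (y : Q m) : |XS D 0 x y| ≤ 1 := by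
  have h1 : XS D 0 x y = ∑ i ∈ range n, if i = 0 then
      (∑ j ∈ range m, if j = 0 then D 0 0 x y else 0) else 0 := by
    unfold XS
    refine sum_congr rfl fun i _ => ?_
    by_cases hi : i = 0
    · rw [if_pos hi]
      refine sum_congr rfl fun j _ => ?_
      by_cases hj : j = 0
      · rw [if_pos hj, if_pos (by omega), hi, hj]
      · rw [if_neg hj, if_neg (by omega)]
    · rw [if_neg hi]
      refine sum_eq_zero fun j _ => ?_
      rw [if_neg (by omega)]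
  rw [h1, sum_ite_eq' (range n) 0, sum_ite_eq' (range m) 0]
  by_cases hn : 0 ∈ range n
  · by_cases hm : 0 ∈ range m
    · rw [if_pos hn, if_pos hm]
      have h2 : α 0 x ^ 2 ≤ 1 := (single_le_sum (f := fun i => α i x ^ 2)
        (fun i _ => sq_nonneg _) hn).trans (hB.1 x)
      have h3 : β 0 y ^ 2 ≤ 1 := (single_le_sum (f := fun i => β i y ^ 2)
        (fun i _ => sq_nonneg _) hm).trans (hB.2 y)
      have h4 : α 0 x ≤ 1 := by nlinarith [hA.na 0 x]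
      have h5 : β 0 y ≤ 1 := by nlinarith [hA.nb 0 y]
      exact (hA.dom 0 0 x y).trans (mul_le_one₀ h4 (hA.nb 0 y) h5)
    · rw [if_pos hn, if_neg hm, abs_zero]
      exact zero_le_one
  · rw [if_neg hn, abs_zero]
    exact zero_le_one

end Pool.Agent.H79.RT
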