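import Pool.Agent.H79.RT.StmR

/-!
# MP_a7284e_an, project RT, row TR3: Haar coefficients and projections
-/

set_option autoImplicit false

namespace Pool.Agent.H79.RT

open MeasureTheory FourierTransform Filter Topology Finset Classical
open Pool.Agent.H73.Hyp

/-! ### the Haar function and the digits -/

theorem cfx_dg_coarse {m l : ℤ} (h : m < l) (t : ℝ) : dg m (t + sg l t) = dg m t := by
  obtain ⟨n, hn⟩ : ∃ n : ℕ, m = l - ((n + 1 : ℕ) : ℤ) := ⟨(l - m - 1).toNat, by omega⟩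
  rw [hn, dg_coarse, dg_coarse]
  have h2 : ((2 ^ (n + 1) : ℕ) : ℤ) = 2 * (2 ^ n : ℕ) := by push_cast; ring
  rw [h2, ← Int.ediv_ediv_of_nonneg (by norm_num), ← Int.ediv_ediv_of_nonneg (by norm_num)]
  congr 1
  rcases dg_flip l t with ⟨h1, h2⟩ | ⟨h1, h2⟩
  · obtain ⟨k, hk⟩ := h1
    omega
  · rw [Int.not_even_iff_odd] at h1
    obtain ⟨k, hk⟩ := h1
    omega

theorem cfx_two (p : ℤ) (t : ℝ) : (2 : ℝ) ^ (p + 1) * t = 2 * ((2 : ℝ) ^ p * t) := by
  rw [zpow_add_one₀ two_ne_zero]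
  ring

theorem cfx_key1 (p : ℤ × ℤ) (t : ℝ) :
    ((p.2 : ℝ) ≤ (2 : ℝ) ^ p.1 * t ∧ (2 : ℝ) ^ p.1 * t < p.2 + 1 / 2) ↔ dg p.1 t = 2 * p.2 := by
  unfold dg
  rw [Int.floor_eq_iff, cfx_two]
  push_cast
  constructor
  · rintro ⟨h1, h2⟩
    constructor <;> linarith
  · rintro ⟨h1, h2⟩
    constructor <;> linarith

theorem cfx_key2 (p : ℤ × ℤ) (t : ℝ) :
    ((p.2 : ℝ) + 1 / 2 ≤ (2 : ℝ) ^ p.1 * t ∧ (2 : ℝ) ^ p.1 * t < p.2 + 1) ↔
      dg p.1 t = 2 * p.2 + 1 := by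
  unfold dg
  rw [Int.floor_eq_iff, cfx_two]
  push_cast
  constructor
  · rintro ⟨h1, h2⟩
    constructor <;> linarith
  · rintro ⟨h1, h2⟩
    constructor <;> linarith

/-- the Haar function in terms of the digit -/
theorem cfx_haar (p : ℤ × ℤ) (t : ℝ) : haar p t =
    if dg p.1 t = 2 * p.2 then (2 : ℝ) ^ ((p.1 : ℝ) / 2)
    else if dg p.1 t = 2 * p.2 + 1 then -(2 : ℝ) ^ ((p.1 : ℝ) / 2) else 0 := by
  unfold haar
  by_cases h1 : dg p.1 t = 2 * p.2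
  · rw [if_pos ((cfx_key1 p t).2 h1), if_pos h1]
  · rw [if_neg (mt (cfx_key1 p t).1 h1), if_neg h1]
    by_cases h2 : dg p.1 t = 2 * p.2 + 1
    · rw [if_pos ((cfx_key2 p t).2 h2), if_pos h2]
    · rw [if_neg (mt (cfx_key2 p t).1 h2), if_neg h2]

/-- a finer flip does not change the Haar function -/
theorem cfx_fine (p : ℤ × ℤ) {l : ℤ} (h : p.1 < l) (t : ℝ) :
    haar p (t + sg l t) = haar p t := by
  rw [cfx_haar, cfx_haar, cfx_dg_coarse h]

/-- the flip of the own digit changes the sign -/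
theorem cfx_self (p : ℤ × ℤ) (t : ℝ) : haar p (t + sg p.1 t) = -haar p t := by
  rw [cfx_haar, cfx_haar]
  rcases dg_flip p.1 t with ⟨h1, h2⟩ | ⟨h1, h2⟩
  · obtain ⟨k, hk⟩ := h1
    by_cases h3 : dg p.1 t = 2 * p.2
    · rw [if_neg (by omega), if_pos (by omega), if_pos h3]
    · rw [if_neg (by omega), if_neg (by omega), if_neg h3, if_neg (by omega), neg_zero]
  · rw [Int.not_even_iff_odd] at h1
    obtain ⟨k, hk⟩ := h1
    by_cases h3 : dg p.1 t = 2 * p.2 + 1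
    · rw [if_pos (by omega), if_neg (by omega), if_pos h3, neg_neg]
    · rw [if_neg (by omega), if_neg (by omega), if_neg (by omega), if_neg h3, neg_zero]

theorem cfx_meas (p : ℤ × ℤ) : Measurable (haar p) := by
  have h1 : Measurable fun t : ℝ => dg p.1 t := by
    unfold dg
    exact Int.measurable_floor.comp (measurable_const.mul measurable_id)
  have h2 : haar p = (fun m : ℤ => if m = 2 * p.2 then (2 : ℝ) ^ ((p.1 : ℝ) / 2)
      else if m = 2 * p.2 + 1 then -(2 : ℝ) ^ ((p.1 : ℝ) / 2) else 0) ∘ fun t => dg p.1 t := by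
    funext t
    exact cfx_haar p t
  rw [h2]
  exact (measurable_of_countable _).comp h1

theorem cfx_pow (p : ℤ) : ((2 : ℝ) ^ ((p : ℝ) / 2)) ^ 2 = (2 : ℝ) ^ p := by
  rw [← Real.rpow_natCast, ← Real.rpow_mul (by norm_num), ← Real.rpow_intCast]
  congr 1
  push_cast
  ring

/-- the square of the Haar function -/
theorem cfx_sq (p : ℤ × ℤ) (t : ℝ) :
    haar p t ^ 2 = if ⌊(2 : ℝ) ^ p.1 * t⌋ = p.2 then (2 : ℝ) ^ p.1 else 0 := by
  have hf : ⌊(2 : ℝ) ^ p.1 * t⌋ = p.2 ↔ dg p.1 t = 2 * p.2 ∨ dg p.1 t = 2 * p.2 + 1 := by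
    rw [Int.floor_eq_iff, ← cfx_key1, ← cfx_key2]
    constructor
    · rintro ⟨h1, h2⟩
      rcases lt_or_ge ((2 : ℝ) ^ p.1 * t) (p.2 + 1 / 2) with h3 | h3
      · exact Or.inl ⟨h1, h3⟩
      · exact Or.inr ⟨h3, h2⟩
    · rintro (⟨h1, h2⟩ | ⟨h1, h2⟩)
      · exact ⟨h1, by linarith⟩
      · exact ⟨by linarith, h2⟩
  rw [cfx_haar]
  by_cases h1 : dg p.1 t = 2 * p.2
  · rw [if_pos h1, if_pos (hf.2 (Or.inl h1)), cfx_pow]
  · rw [if_neg h1]
    by_cases h2 : dg p.1 t = 2 * p.2 + 1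
    · rw [if_pos h2, if_pos (hf.2 (Or.inr h2)), neg_sq, cfx_pow]
    · rw [if_neg h2, if_neg fun h => (hf.1 h).elim h1 h2]
      norm_num

/-! ### the rectangle -/

/-- the rectangle -/
def rect (p q : ℤ × ℤ) : Set E2 :=
  {x | ⌊(2 : ℝ) ^ p.1 * x 0⌋ = p.2 ∧ ⌊(2 : ℝ) ^ q.1 * x 1⌋ = q.2}

theorem rect_meas (p q : ℤ × ℤ) : MeasurableSet (rect p q) := by
  have h : ∀ (c : Fin 2) (n k : ℤ), MeasurableSet {x : E2 | ⌊(2 : ℝ) ^ n * x c⌋ = k} := by
    intro c n k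
    have h1 : Measurable fun x : E2 => ⌊(2 : ℝ) ^ n * x c⌋ :=
      Int.measurable_floor.comp (measurable_const.mul (measurable_coord c))
    exact h1 (MeasurableSet.of_discrete (s := {m : ℤ | m = k}))
  exact (h 0 p.1 p.2).inter (h 1 q.1 q.2)

theorem cfx_floor (n k : ℤ) (t : ℝ) : ⌊(2 : ℝ) ^ n * t⌋ = k ↔
    t ∈ Set.Ico ((k : ℝ) * 2 ^ (-n)) (((k : ℝ) + 1) * 2 ^ (-n)) := by
  rw [Int.floor_eq_iff, Set.mem_Ico, zpow_neg, ← div_eq_mul_inv, ← div_eq_mul_inv,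
    div_le_iff₀ (by positivity), lt_div_iff₀ (by positivity), mul_comm t]

theorem rect_vol (p q : ℤ × ℤ) :
    volume (rect p q) = ENNReal.ofReal ((2 : ℝ) ^ (-p.1)) * ENNReal.ofReal ((2 : ℝ) ^ (-q.1)) := by
  set a : Fin 2 → ℝ := ![(p.2 : ℝ) * 2 ^ (-p.1), (q.2 : ℝ) * 2 ^ (-q.1)] with ha
  set b : Fin 2 → ℝ := ![((p.2 : ℝ) + 1) * 2 ^ (-p.1), ((q.2 : ℝ) + 1) * 2 ^ (-q.1)] with hb
  have hpre : rect p q = (WithLp.ofLp : E2 → (Fin 2 → ℝ)) ⁻¹'
      (Set.pi Set.univ fun i => Set.Ico (a i) (b i)) := by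
    ext x
    rw [Set.mem_preimage, Set.mem_univ_pi, Fin.forall_fin_two]
    exact and_congr (cfx_floor p.1 p.2 (x 0)) (cfx_floor q.1 q.2 (x 1))
  rw [hpre, (PiLp.volume_preserving_ofLp (Fin 2)).measure_preimage
    (MeasurableSet.univ_pi fun i => measurableSet_Ico).nullMeasurableSet, Real.volume_pi_Ico,
    Fin.prod_univ_two]
  congr 2
  · simp only [ha, hb, Matrix.cons_val_zero]
    ring
  · simp only [ha, hb, Matrix.cons_val_one, Matrix.cons_val_fin_one]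
    ring

/-! ### the Haar function of the rectangle -/

/-- the Haar function of the rectangle -/
noncomputable def hH (p q : ℤ × ℤ) (x : E2) : ℂ := ((haar p (x 0) * haar q (x 1) : ℝ) : ℂ)

theorem hH_meas (p q : ℤ × ℤ) : Measurable (hH p q) :=
  Complex.measurable_ofReal.comp (((cfx_meas p).comp (measurable_coord 0)).mul
    ((cfx_meas q).comp (measurable_coord 1)))

theorem hH_sq (p q : ℤ × ℤ) (x : E2) : ‖hH p q x‖ ^ 2 =
    (rect p q).indicator (fun _ => (2 : ℝ) ^ p.1 * (2 : ℝ) ^ q.1) x := by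
  unfold hH
  rw [Complex.norm_real, Real.norm_eq_abs, sq_abs, mul_pow, cfx_sq, cfx_sq]
  by_cases h : x ∈ rect p q
  · rw [Set.indicator_of_mem h, if_pos h.1, if_pos h.2]
  · rw [Set.indicator_of_notMem h]
    by_cases h1 : ⌊(2 : ℝ) ^ p.1 * x 0⌋ = p.2
    · rw [if_neg fun h2 => h ⟨h1, h2⟩, mul_zero]
    · rw [if_neg h1, zero_mul]

theorem hH_int (p q : ℤ × ℤ) : Integrable (fun x => ‖hH p q x‖ ^ 2) := by
  simp_rw [hH_sq]
  rw [integrable_indicator_iff (rect_meas p q)]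
  refine integrableOn_const ?_ (by finiteness)
  rw [rect_vol]
  finiteness

theorem hH_memLp (p q : ℤ × ℤ) : MemLp (hH p q) 2 volume :=
  (memLp_two_iff_integrable_sq_norm (hH_meas p q).aestronglyMeasurable).2 (hH_int p q)

/-- the same as an element of `L²` -/
noncomputable def Hf (p q : ℤ × ℤ) : L2 := (hH_memLp p q).toLp

theorem Hf_coe (p q : ℤ × ℤ) : Hf p q =ᵐ[volume] hH p q := (hH_memLp p q).coeFn_toLp

theorem Hf_norm (p q : ℤ × ℤ) : ‖Hf p q‖ = 1 := by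
  have h1 : ‖Hf p q‖ ^ 2 = 1 := by
    rw [norm_sq_eq]
    have h2 : ∫ x, ‖Hf p q x‖ ^ 2 = ∫ x, ‖hH p q x‖ ^ 2 := by
      refine integral_congr_ae ?_
      filter_upwards [Hf_coe p q] with x hx
      rw [hx]
    rw [h2]
    simp_rw [hH_sq]
    rw [integral_indicator_const _ (rect_meas p q), Measure.real, rect_vol, ENNReal.toReal_mul,
      ENNReal.toReal_ofReal (by positivity), ENNReal.toReal_ofReal (by positivity), smul_eq_mul,
      zpow_neg, zpow_neg]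
    have h3 : (2 : ℝ) ^ p.1 ≠ 0 := by positivity
    have h4 : (2 : ℝ) ^ q.1 ≠ 0 := by positivity
    field_simp
  have h2 : 0 ≤ ‖Hf p q‖ := norm_nonneg _
  nlinarith

/-- the Haar coefficient is an inner product -/
theorem cf_eq (f : L2) (p q : ℤ × ℤ) : cf f p q = inner ℂ (Hf p q) f := by
  rw [MeasureTheory.L2.inner_def]
  unfold cf
  refine integral_congr_ae ?_
  filter_upwards [Hf_coe p q] with x hx
  rw [hx, RCLike.inner_apply]
  unfold hH
  rw [Complex.conj_ofReal]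

theorem Hf_fine0 (p q : ℤ × ℤ) {l : ℤ} (h : p.1 < l) : Uf 0 l (Hf p q) = Hf p q := by
  ext1
  filter_upwards [Uf_coe 0 l (Hf p q), ae_comp_fl 0 l (Hf_coe p q), Hf_coe p q] with x h1 h2 h3
  rw [h1, h2, h3]
  unfold hH
  rw [fl_same, fl_ne (by decide : (1 : Fin 2) ≠ 0), cfx_fine p h]

theorem Hf_self0 (p q : ℤ × ℤ) : Uf 0 p.1 (Hf p q) = -Hf p q := by
  ext1
  filter_upwards [Uf_coe 0 p.1 (Hf p q), ae_comp_fl 0 p.1 (Hf_coe p q), Hf_coe p q,
    Lp.coeFn_neg (Hf p q)] with x h1 h2 h3 h4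
  rw [h1, h2, h4, Pi.neg_apply, h3]
  unfold hH
  rw [fl_same, fl_ne (by decide : (1 : Fin 2) ≠ 0), cfx_self p, neg_mul, Complex.ofReal_neg]

theorem Hf_fine1 (p q : ℤ × ℤ) {l : ℤ} (h : q.1 < l) : Uf 1 l (Hf p q) = Hf p q := by
  ext1
  filter_upwards [Uf_coe 1 l (Hf p q), ae_comp_fl 1 l (Hf_coe p q), Hf_coe p q] with x h1 h2 h3
  rw [h1, h2, h3]
  unfold hH
  rw [fl_same, fl_ne (by decide : (0 : Fin 2) ≠ 1), cfx_fine q h]

theorem Hf_self1 (p q : ℤ × ℤ) : Uf 1 q.1 (Hf p q) = -Hf p q := by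
  ext1
  filter_upwards [Uf_coe 1 q.1 (Hf p q), ae_comp_fl 1 q.1 (Hf_coe p q), Hf_coe p q,
    Lp.coeFn_neg (Hf p q)] with x h1 h2 h3 h4
  rw [h1, h2, h4, Pi.neg_apply, h3]
  unfold hH
  rw [fl_same, fl_ne (by decide : (0 : Fin 2) ≠ 1), cfx_self q, mul_neg, Complex.ofReal_neg]

/-- the projections and a function that is fixed by the fine flips and odd for one flip -/
theorem cfx_proj (c : Fin 2) (b s : ℤ) (H f : L2) (h1 : ∀ l, s < l → Uf c l H = H)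
    (h2 : Uf c s H = -H) :
    inner ℂ H (Ep (Uf c) b f) = if s < b then inner ℂ H f else 0 := by
  rw [← Ep_inner]
  by_cases hb : s < b
  · rw [if_pos hb, Ep_eq]
    intro l hl
    exact h1 l (lt_of_lt_of_le hb hl)
  · rw [if_neg hb]
    have h3 : Ep (Uf c) b H = 0 := by
      refine Ep_unique _ (Submodule.zero_mem _) fun w hw => ?_
      rw [sub_zero]
      have h4 : Uf c s w = w := hw s (by omega)
      have h5 := inner_U (flips c) s H w
      rw [h2, h4, inner_neg_left] at h5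
      exact self_eq_neg.1 h5.symm
    rw [h3, inner_zero_left]

/-- TR3 -/
theorem cf_spec : SCf := by
  refine ⟨?_, ?_, ?_, ?_⟩
  · intro f b p q
    rw [cf_eq, cf_eq]
    exact cfx_proj 0 b p.1 (Hf p q) f (fun l hl => Hf_fine0 p q hl) (Hf_self0 p q)
  · intro f b p q
    rw [cf_eq, cf_eq]
    exact cfx_proj 1 b q.1 (Hf p q) f (fun l hl => Hf_fine1 p q hl) (Hf_self1 p q)
  · intro f g p q
    rw [cf_eq, cf_eq, cf_eq, inner_sub_right]
  · intro f p q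
    rw [cf_eq]
    have h := norm_inner_le_norm (𝕜 := ℂ) (Hf p q) f
    rw [Hf_norm, one_mul] at h
    exact h

end Pool.Agent.H79.RT
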