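import Mathlib

/-!
# MP_a7284e_an, project RT: the dominated two-parameter maximal inequality, definitions

Finite cubes `Q n`, flips, averages. A function on `Q n` is `Inv i` if it only depends on the
coordinates with index `< i`.
-/

set_option autoImplicit false

namespace Pool.Agent.H79.RT

open Finset Classical

/-- the cube -/
abbrev Q (n : ℕ) : Type := Fin n → Bool

/-- flip of the coordinate with index `l` (nothing happens for `l ≥ n`) -/
def fl {n : ℕ} (l : ℕ) (x : Q n) : Q n := fun i => if (i : ℕ) = l then !x i else x i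

/-- `F` depends only on the coordinates with index `< i` -/
def Inv {n : ℕ} {τ : Type*} (i : ℕ) (F : Q n → τ) : Prop := ∀ l, i ≤ l → ∀ x, F (fl l x) = F x

/-- `F` changes sign when the coordinate with index `i` is flipped -/
def Od {n : ℕ} (i : ℕ) (F : Q n → ℝ) : Prop := ∀ x, F (fl i x) = -F x

/-- average over the cube -/
noncomputable def av {n : ℕ} (F : Q n → ℝ) : ℝ := (∑ x, F x) / 2 ^ n

/-- average over the product of two cubes -/
noncomputable def av2 {n m : ℕ} (F : Q n → Q m → ℝ) : ℝ := av fun x => av fun y => F x y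

/-- stopping index: `a x ≤ l` depends only on the coordinates with index `< l` -/
def Stp {n : ℕ} (a : Q n → ℕ) : Prop := ∀ l, Inv l fun x => a x ≤ l

/-- martingale differences with a predictable majorant -/
structure Mar (n : ℕ) (e β : ℕ → Q n → ℝ) : Prop where
  od : ∀ i, Od i (e i)
  inv : ∀ i, Inv (i + 1) (e i)
  pb : ∀ i, Inv i (β i)
  nb : ∀ i x, 0 ≤ β i x
  dom : ∀ i x, |e i x| ≤ β i x
  zb : ∀ i, n ≤ i → ∀ x, β i x = 0

/-- two-parameter martingale differences `D i j` dominated by `α i (x) * β j (y)` -/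
structure Arr (n m : ℕ) (D : ℕ → ℕ → Q n → Q m → ℝ) (α : ℕ → Q n → ℝ) (β : ℕ → Q m → ℝ) :
    Prop where
  odx : ∀ i j y, Od i fun x => D i j x y
  invx : ∀ i j y, Inv (i + 1) fun x => D i j x y
  ody : ∀ i j x, Od j (D i j x)
  invy : ∀ i j x, Inv (j + 1) (D i j x)
  pa : ∀ i, Inv i (α i)
  pb : ∀ j, Inv j (β j)
  na : ∀ i x, 0 ≤ α i x
  nb : ∀ j y, 0 ≤ β j y
  dom : ∀ i j x y, |D i j x y| ≤ α i x * β j y
  za : ∀ i, n ≤ i → ∀ x, α i x = 0
  zb : ∀ j, m ≤ j → ∀ y, β j y = 0

/-- the square functions are at most one -/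
def Bdd (n m : ℕ) (α : ℕ → Q n → ℝ) (β : ℕ → Q m → ℝ) : Prop :=
  (∀ x, ∑ i ∈ range n, α i x ^ 2 ≤ 1) ∧ ∀ y, ∑ j ∈ range m, β j y ^ 2 ≤ 1

section defs

variable {n m : ℕ}

/-- sum of the differences over a region -/
noncomputable def Sm (D : ℕ → ℕ → Q n → Q m → ℝ) (R : ℕ → ℕ → Q n → Q m → Prop) (x : Q n)
    (y : Q m) : ℝ := ∑ i ∈ range n, ∑ j ∈ range m, if R i j x y then D i j x y else 0

/-- energy of a region -/
noncomputable def En (α : ℕ → Q n → ℝ) (β : ℕ → Q m → ℝ) (R : ℕ → ℕ → Q n → Q m → Prop) (x : Q n)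
    (y : Q m) : ℝ := ∑ i ∈ range n, ∑ j ∈ range m, if R i j x y then α i x ^ 2 * β j y ^ 2 else 0

/-- the hyperbolic partial sums -/
noncomputable def XS (D : ℕ → ℕ → Q n → Q m → ℝ) (k : ℕ) (x : Q n) (y : Q m) : ℝ :=
  ∑ i ∈ range n, ∑ j ∈ range m, if i + j ≤ k then D i j x y else 0

/-- the maximal function -/
noncomputable def MX (D : ℕ → ℕ → Q n → Q m → ℝ) (x : Q n) (y : Q m) : ℝ :=
  (range (n + m + 1)).sup' ⟨0, mem_range.2 (by omega)⟩ fun k => |XS D k x y|

/-- the energy between two levels -/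
noncomputable def VV (α : ℕ → Q n → ℝ) (β : ℕ → Q m → ℝ) (s t : ℕ) (x : Q n) (y : Q m) : ℝ :=
  ∑ i ∈ range n, ∑ j ∈ range m, if s < i + j ∧ i + j ≤ t then α i x ^ 2 * β j y ^ 2 else 0

/-- the region is predictable in `x` (for every fixed `y`) and its sections `{j | R i j x y}` are
intervals -/
structure XReg (R : ℕ → ℕ → Q n → Q m → Prop) : Prop where
  pr : ∀ i j y, Inv i fun x => R i j x y
  iv : ∀ i x y j₁ j₂ j₃, j₁ ≤ j₂ → j₂ ≤ j₃ → R i j₁ x y → R i j₃ x y → R i j₂ x y

/-- the region is predictable in `y` (for every fixed `x`) and its sections `{i | R i j x y}` are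
intervals -/
structure YReg (R : ℕ → ℕ → Q n → Q m → Prop) : Prop where
  pr : ∀ i j x, Inv j fun y => R i j x y
  iv : ∀ j x y i₁ i₂ i₃, i₁ ≤ i₂ → i₂ ≤ i₃ → R i₁ j x y → R i₃ j x y → R i₂ j x y

end defs

/-- first index at which the partial sums of `p` reach `τ`, and `N` if there is none below `N` -/
noncomputable def hit (N : ℕ) (p : ℕ → ℝ) (τ : ℝ) : ℕ :=
  ((range N).filter fun i => ∑ l ∈ range (i + 1), p l < τ).card

end Pool.Agent.H79.RT
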