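import Pool.Agent.H79.RT.Basic

/-!
# MP_a7284e_an, project RT, row RT15: extrapolation, levels and geometric sums
-/

set_option autoImplicit false

namespace Pool.Agent.H79.RT

open Finset Classical

/-! ### levels -/

/-- fourth root of the `k`-th level -/
noncomputable def finLev (g : ℝ) (k : ℕ) : ℝ := g * 2 ^ k

theorem finLev_pos {g : ℝ} (hg : 0 < g) (k : ℕ) : 0 < finLev g k := by
  unfold finLev; positivity

theorem finLev_succ (g : ℝ) (k : ℕ) : finLev g (k + 1) = 2 * finLev g k := by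
  unfold finLev; ring

/-- partial sums of the squares -/
noncomputable def finPA {n : ℕ} (α : ℕ → Q n → ℝ) (i : ℕ) (x : Q n) : ℝ :=
  ∑ l ∈ range (i + 1), α l x ^ 2

/-- normalised indicator of the `k`-th layer -/
noncomputable def finX {n : ℕ} (α : ℕ → Q n → ℝ) (g : ℝ) (k i : ℕ) (x : Q n) : ℝ :=
  if finLev g k ^ 4 < finPA α i x ∧ finPA α i x ≤ finLev g (k + 1) ^ 4 then
    1 / finLev g (k + 1) ^ 2 else 0

/-- indicator of `A > level k` -/
noncomputable def finU {n : ℕ} (A : Q n → ℝ) (g : ℝ) (k : ℕ) (x : Q n) : ℝ :=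
  if finLev g k ^ 4 < A x then 1 else 0

/-- weight function -/
noncomputable def finW {n : ℕ} (A : Q n → ℝ) (g : ℝ) (L : ℕ) (x : Q n) : ℝ :=
  ∑ k ∈ range L, finLev g k * finU A g k x

theorem finPA_inv {n : ℕ} {α : ℕ → Q n → ℝ} (h : ∀ i, Inv i (α i)) (i : ℕ) :
    Inv i (finPA α i) := by
  intro l hl x
  unfold finPA
  refine sum_congr rfl fun j hj => ?_
  rw [mem_range] at hj
  rw [h j l (by omega) x]

theorem finX_inv {n : ℕ} {α : ℕ → Q n → ℝ} (h : ∀ i, Inv i (α i)) (g : ℝ) (k i : ℕ) :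
    Inv i (finX α g k i) := by
  intro l hl x
  unfold finX
  rw [finPA_inv h i l hl x]

theorem finX_nonneg {n : ℕ} (α : ℕ → Q n → ℝ) (g : ℝ) (k i : ℕ) (x : Q n) :
    0 ≤ finX α g k i x := by
  unfold finX
  split_ifs
  · positivity
  · exact le_rfl

theorem fin_stop (p : ℕ → ℝ) (hp : ∀ i, 0 ≤ p i) (T : ℝ) (hT : 0 ≤ T) (n : ℕ) :
    ∑ i ∈ range n, (if ∑ l ∈ range (i + 1), p l ≤ T then p i else 0) ≤ T ∧
    ∑ i ∈ range n, (if ∑ l ∈ range (i + 1), p l ≤ T then p i else 0) ≤ ∑ i ∈ range n, p i := by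
  induction n with
  | zero => simpa using hT
  | succ n ih =>
    rw [sum_range_succ (fun i => if ∑ l ∈ range (i + 1), p l ≤ T then p i else 0),
      sum_range_succ p]
    by_cases h : ∑ x ∈ range n, p x + p n ≤ T
    · rw [if_pos h]
      exact ⟨by linarith [ih.2], by linarith [ih.2]⟩
    · rw [if_neg h]
      exact ⟨by linarith [ih.1], by linarith [ih.2, hp n]⟩

theorem finX_sum {n : ℕ} (α : ℕ → Q n → ℝ) {g : ℝ} (hg : 0 < g) (k : ℕ) (x : Q n) :
    ∑ i ∈ range n, (α i x * finX α g k i x) ^ 2 ≤ 1 := by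
  have hc := finLev_pos hg (k + 1)
  have h1 := (fin_stop (fun i => α i x ^ 2) (fun i => sq_nonneg _) (finLev g (k + 1) ^ 4)
    (by positivity) n).1
  have h2 : ∀ i ∈ range n, (α i x * finX α g k i x) ^ 2 ≤
      (if ∑ l ∈ range (i + 1), α l x ^ 2 ≤ finLev g (k + 1) ^ 4 then α i x ^ 2 else 0) *
        (1 / finLev g (k + 1) ^ 4) := by
    intro i _
    unfold finX finPA
    by_cases ha : finLev g k ^ 4 < ∑ l ∈ range (i + 1), α l x ^ 2 ∧
        ∑ l ∈ range (i + 1), α l x ^ 2 ≤ finLev g (k + 1) ^ 4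
    · rw [if_pos ha, if_pos ha.2]
      apply le_of_eq
      field_simp
    · rw [if_neg ha]
      split_ifs
      · rw [mul_zero, zero_pow two_ne_zero]
        positivity
      · simp
  refine (sum_le_sum h2).trans ?_
  rw [← sum_mul, mul_one_div, div_le_one (by positivity)]
  exact h1

theorem finPA_le {n : ℕ} (α : ℕ → Q n → ℝ) {i : ℕ} (hi : i < n) (x : Q n) :
    finPA α i x ≤ ∑ l ∈ range n, α l x ^ 2 := by
  unfold finPA
  refine sum_le_sum_of_subset_of_nonneg ?_ fun _ _ _ => sq_nonneg _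
  intro l hl
  rw [mem_range] at hl ⊢
  omega

theorem finX_ne {n : ℕ} (α : ℕ → Q n → ℝ) (g : ℝ) {k i : ℕ} (hi : i < n) {x : Q n}
    (h : finX α g k i x ≠ 0) : finLev g k ^ 4 < ∑ l ∈ range n, α l x ^ 2 := by
  unfold finX at h
  by_cases ha : finLev g k ^ 4 < finPA α i x ∧ finPA α i x ≤ finLev g (k + 1) ^ 4
  · exact ha.1.trans_le (finPA_le α hi x)
  · rw [if_neg ha] at h
    exact absurd rfl h

theorem fin_layer {g t : ℝ} (hg : 0 < g) {L : ℕ} (h1 : g ^ 4 < t) (h2 : t ≤ finLev g L ^ 4) :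
    ∑ k ∈ range L, (if finLev g k ^ 4 < t ∧ t ≤ finLev g (k + 1) ^ 4 then (1 : ℝ) else 0) = 1 := by
  have key : ∀ k, (if finLev g k ^ 4 < t ∧ t ≤ finLev g (k + 1) ^ 4 then (1 : ℝ) else 0) =
      (if finLev g k ^ 4 < t then (1 : ℝ) else 0) -
        (if finLev g (k + 1) ^ 4 < t then (1 : ℝ) else 0) := by
    intro k
    have hk := finLev_pos hg k
    have hle : finLev g k ^ 4 ≤ finLev g (k + 1) ^ 4 := by
      rw [finLev_succ]
      exact pow_le_pow_left₀ hk.le (by linarith) 4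
    by_cases ha : finLev g (k + 1) ^ 4 < t
    · rw [if_neg (by rintro ⟨_, h⟩; linarith), if_pos ha, if_pos (by linarith)]
      ring
    · rw [if_neg ha]
      push Not at ha
      by_cases hb : finLev g k ^ 4 < t
      · rw [if_pos ⟨hb, ha⟩, if_pos hb]; ring
      · rw [if_neg (fun h => hb h.1), if_neg hb]; ring
  rw [sum_congr rfl fun k _ => key k, sum_range_sub', if_pos, if_neg, sub_zero]
  · exact not_lt.2 h2
  · unfold finLev
    simpa using h1

theorem fin_lb {ι : Type*} (s : Finset ι) (f : ι → ℝ) :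
    ∃ c : ℝ, 0 < c ∧ ∀ p ∈ s, 0 < f p → c ≤ f p := by
  induction s using Finset.induction_on with
  | empty => exact ⟨1, one_pos, fun p hp => absurd hp (notMem_empty p)⟩
  | insert a s _ ih =>
    obtain ⟨c, hc, h⟩ := ih
    by_cases ha : 0 < f a
    · refine ⟨min c (f a), lt_min hc ha, fun p hp hfp => ?_⟩
      rcases mem_insert.1 hp with rfl | hp
      · exact min_le_right _ _
      · exact (min_le_left _ _).trans (h p hp hfp)
    · refine ⟨c, hc, fun p hp hfp => ?_⟩
      rcases mem_insert.1 hp with rfl | hp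
      · exact absurd hfp ha
      · exact h p hp hfp

theorem fin_ub {ι : Type*} (s : Finset ι) (f : ι → ℝ) : ∃ c : ℝ, ∀ p ∈ s, f p ≤ c := by
  refine ⟨∑ p ∈ s, |f p|, fun p hp => ?_⟩
  exact (le_abs_self _).trans (single_le_sum (f := fun p => |f p|) (fun _ _ => abs_nonneg _) hp)

/-- choice of the levels -/
theorem fin_choose {n : ℕ} (α : ℕ → Q n → ℝ) : ∃ g : ℝ, 0 < g ∧ ∃ L : ℕ, ∀ x, ∀ i < n,
    α i x ≠ 0 → ∑ k ∈ range L, finLev g (k + 1) ^ 2 * finX α g k i x = 1 := by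
  obtain ⟨c, hc, h1⟩ := fin_lb ((univ : Finset (Q n)) ×ˢ range n) fun p => finPA α p.2 p.1
  obtain ⟨d, h2⟩ := fin_ub ((univ : Finset (Q n)) ×ˢ range n) fun p => finPA α p.2 p.1
  set g : ℝ := min 1 c / 2 with hgd
  have hm : 0 < min 1 c := lt_min one_pos hc
  have hg : 0 < g := by positivity
  have hg1 : g < 1 := by
    have : min 1 c ≤ 1 := min_le_left _ _
    rw [hgd]; linarith
  have hgc : g < c := by
    have : min 1 c ≤ c := min_le_right _ _
    rw [hgd]; linarith
  have hg4 : g ^ 4 < c := by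
    have : g ^ 4 ≤ g := by
      calc g ^ 4 ≤ g ^ 1 := pow_le_pow_of_le_one hg.le hg1.le (by norm_num)
        _ = g := pow_one g
    linarith
  obtain ⟨L, hL⟩ := pow_unbounded_of_one_lt (d / g ^ 4) (show (1 : ℝ) < 16 by norm_num)
  refine ⟨g, hg, L, fun x i hi hne => ?_⟩
  have hp : (x, i) ∈ (univ : Finset (Q n)) ×ˢ range n := by simp [hi]
  have hpos : 0 < finPA α i x := by
    unfold finPA
    refine lt_of_lt_of_le (show 0 < α i x ^ 2 by positivity) ?_
    exact single_le_sum (f := fun l => α l x ^ 2) (fun _ _ => sq_nonneg _)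
      (mem_range.2 (Nat.lt_succ_self i))
  have ha : g ^ 4 < finPA α i x := hg4.trans_le (h1 _ hp hpos)
  have hb : finPA α i x ≤ finLev g L ^ 4 := by
    refine (h2 _ hp).trans ?_
    have h3 : d < 16 ^ L * g ^ 4 := by
      rw [div_lt_iff₀ (by positivity)] at hL
      exact hL
    have h4 : finLev g L ^ 4 = 16 ^ L * g ^ 4 := by
      unfold finLev
      rw [mul_pow, ← pow_mul, mul_comm L 4, pow_mul]
      norm_num
      ring
    rw [h4]
    exact h3.le
  rw [← fin_layer hg ha hb]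
  refine sum_congr rfl fun k _ => ?_
  unfold finX
  have hk := finLev_pos hg (k + 1)
  split_ifs
  · field_simp
  · ring

/-! ### geometric sums -/

theorem fin_geo (b : ℕ → ℝ) (U : ℕ → Prop) (Z : ℝ) (h0 : ∀ k, 0 ≤ b k)
    (h2 : ∀ k, 2 * b k ≤ b (k + 1)) (hZ : 0 ≤ Z) (hU : ∀ k, U k → b k ≤ Z) (L : ℕ) :
    ∑ k ∈ range L, (if U k then b k else 0) ≤ b L ∧
      ∑ k ∈ range L, (if U k then b k else 0) ≤ 2 * Z := by
  induction L with
  | zero => simpa using ⟨h0 0, hZ⟩
  | succ L ih =>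
    rw [sum_range_succ]
    have h3 := h2 L
    have h4 := h0 L
    by_cases hu : U L
    · rw [if_pos hu]
      have := hU L hu
      exact ⟨by linarith [ih.1], by linarith [ih.1]⟩
    · rw [if_neg hu]
      exact ⟨by linarith [ih.1], by linarith [ih.2]⟩

theorem finU_nonneg {n : ℕ} (A : Q n → ℝ) (g : ℝ) (k : ℕ) (x : Q n) : 0 ≤ finU A g k x := by
  unfold finU
  split_ifs <;> norm_num

theorem finU_sq {n : ℕ} (A : Q n → ℝ) (g : ℝ) (k : ℕ) (x : Q n) :
    finU A g k x ^ 2 = finU A g k x := by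
  unfold finU
  split_ifs <;> norm_num

theorem finW_nonneg {n : ℕ} (A : Q n → ℝ) {g : ℝ} (hg : 0 < g) (L : ℕ) (x : Q n) :
    0 ≤ finW A g L x :=
  sum_nonneg fun k _ => mul_nonneg (finLev_pos hg k).le (finU_nonneg A g k x)

theorem fin_pw {n : ℕ} (A : Q n → ℝ) {g : ℝ} (hg : 0 < g) (x : Q n) {z : ℝ} (hz : 0 ≤ z)
    (hA : A x = z ^ 4) (r : ℕ) (hr : 1 ≤ r) (L : ℕ) :
    ∑ k ∈ range L, finLev g k ^ r * finU A g k x ≤ 2 * z ^ r := by
  have h1 := (fin_geo (fun k => finLev g k ^ r) (fun k => finLev g k ^ 4 < A x) (z ^ r)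
    (fun k => by have := finLev_pos hg k; positivity) (fun k => ?_) (by positivity)
    (fun k hk => ?_) L).2
  · refine le_trans (le_of_eq ?_) h1
    refine sum_congr rfl fun k _ => ?_
    unfold finU
    split_ifs
    · ring
    · ring
  · have := finLev_pos hg k
    simp only [finLev_succ, mul_pow]
    have h2 : (2 : ℝ) ≤ 2 ^ r := by
      calc (2 : ℝ) = 2 ^ 1 := (pow_one 2).symm
        _ ≤ 2 ^ r := pow_le_pow_right₀ (by norm_num) hr
    exact mul_le_mul_of_nonneg_right h2 (by positivity)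
  · have h3 := finLev_pos hg k
    rw [hA] at hk
    have h4 : finLev g k < z := lt_of_pow_lt_pow_left₀ 4 hz hk
    exact pow_le_pow_left₀ h3.le h4.le r

theorem fin_SA {n : ℕ} (A : Q n → ℝ) (hA : ∀ x, 0 ≤ A x) {g : ℝ} (hg : 0 < g) (L : ℕ) :
    ∑ k ∈ range L, finLev g k ^ 3 *
      √((av fun x => (finU A g k x * finW A g L x) ^ 2) * av (finU A g k)) ≤ 4 * av A := by
  set X : ℕ → ℝ := fun k => av fun x => (finU A g k x * finW A g L x) ^ 2 with hX
  have hX0 : ∀ k, 0 ≤ X k := fun k => av_nonneg fun x => sq_nonneg _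
  have hp0 : ∀ k, 0 ≤ av (finU A g k) := fun k => av_nonneg fun x => finU_nonneg A g k x
  have hAv : 0 ≤ av A := av_nonneg hA
  have h1 : ∑ k ∈ range L, finLev g k ^ 2 * X k ≤ 8 * av A := by
    have e1 : ∑ k ∈ range L, finLev g k ^ 2 * X k =
        av fun x => ∑ k ∈ range L, finLev g k ^ 2 * (finU A g k x * finW A g L x) ^ 2 := by
      rw [av_sum]
      exact sum_congr rfl fun k _ => (av_mul_left _ _).symm
    rw [e1, ← av_mul_left]
    refine av_mono fun x => ?_
    set z : ℝ := √(√(A x)) with hz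
    have hz0 : 0 ≤ z := Real.sqrt_nonneg _
    have hz4 : A x = z ^ 4 := by
      have : z ^ 4 = (z ^ 2) ^ 2 := by ring
      rw [this, hz, Real.sq_sqrt (Real.sqrt_nonneg _), Real.sq_sqrt (hA x)]
    have ha := fin_pw A hg x hz0 hz4 2 (by norm_num) L
    have hb := fin_pw A hg x hz0 hz4 1 le_rfl L
    have hW : finW A g L x ≤ 2 * z := by
      unfold finW
      simpa using hb
    have hW0 := finW_nonneg A hg L x
    have e2 : ∑ k ∈ range L, finLev g k ^ 2 * (finU A g k x * finW A g L x) ^ 2 =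
        (∑ k ∈ range L, finLev g k ^ 2 * finU A g k x) * finW A g L x ^ 2 := by
      rw [sum_mul]
      refine sum_congr rfl fun k _ => ?_
      rw [mul_pow, finU_sq]; ring
    rw [e2, hz4]
    calc (∑ k ∈ range L, finLev g k ^ 2 * finU A g k x) * finW A g L x ^ 2
        ≤ (2 * z ^ 2) * (2 * z) ^ 2 :=
          mul_le_mul ha (pow_le_pow_left₀ hW0 hW 2) (by positivity) (by positivity)
      _ = 8 * z ^ 4 := by ring
  have h2 : ∑ k ∈ range L, finLev g k ^ 4 * av (finU A g k) ≤ 2 * av A := by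
    have e1 : ∑ k ∈ range L, finLev g k ^ 4 * av (finU A g k) =
        av fun x => ∑ k ∈ range L, finLev g k ^ 4 * finU A g k x := by
      rw [av_sum]
      exact sum_congr rfl fun k _ => (av_mul_left _ _).symm
    rw [e1, ← av_mul_left]
    refine av_mono fun x => ?_
    set z : ℝ := √(√(A x)) with hz
    have hz0 : 0 ≤ z := Real.sqrt_nonneg _
    have hz4 : A x = z ^ 4 := by
      have : z ^ 4 = (z ^ 2) ^ 2 := by ring
      rw [this, hz, Real.sq_sqrt (Real.sqrt_nonneg _), Real.sq_sqrt (hA x)]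
    have := fin_pw A hg x hz0 hz4 4 (by norm_num) L
    rwa [← hz4] at this
  have h3 : (∑ k ∈ range L, finLev g k ^ 3 * √(X k * av (finU A g k))) ^ 2 ≤
      (∑ k ∈ range L, finLev g k ^ 2 * X k) * ∑ k ∈ range L, finLev g k ^ 4 * av (finU A g k) := by
    refine sum_sq_le_sum_mul_sum_of_sq_le_mul _ (fun k _ => mul_nonneg (by positivity) (hX0 k))
      (fun k _ => mul_nonneg (by positivity) (hp0 k)) fun k _ => le_of_eq ?_
    rw [mul_pow, Real.sq_sqrt (mul_nonneg (hX0 k) (hp0 k))]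
    ring
  have h4 : (∑ k ∈ range L, finLev g k ^ 3 * √(X k * av (finU A g k))) ^ 2 ≤
      (4 * av A) ^ 2 := by
    refine h3.trans ?_
    calc (∑ k ∈ range L, finLev g k ^ 2 * X k) * ∑ k ∈ range L, finLev g k ^ 4 * av (finU A g k)
        ≤ (8 * av A) * (2 * av A) := mul_le_mul h1 h2
          (sum_nonneg fun k _ => mul_nonneg (by positivity) (hp0 k)) (by positivity)
      _ = (4 * av A) ^ 2 := by ring
  exact le_of_sq_le_sq h4 (by positivity)

end Pool.Agent.H79.RT
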