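import Pool.Agent.H79.RT.Defs

/-!
# MP_a7284e_an, project RT: statements of the rows on cubes
-/

set_option autoImplicit false

namespace Pool.Agent.H79.RT

open Finset Classical

/-! ### one parameter -/

/-- RT1: the moment inequality with the maximal function -/
def SBdg : Prop := ∀ r : ℕ, 1 ≤ r → ∃ C : ℝ, 0 ≤ C ∧ ∀ (n : ℕ) (d : ℕ → Q n → ℝ),
  (∀ i, Od i (d i)) → (∀ i, Inv (i + 1) (d i)) → ∃ M : Q n → ℝ, (∀ x, 0 ≤ M x) ∧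
    (∀ x N, |∑ i ∈ range N, d i x| ≤ M x) ∧
    av (fun x => M x ^ (2 * r)) ≤ C * av (fun x => (∑ i ∈ range n, d i x ^ 2) ^ r)

/-- RT2: modulus of continuity in the clock of the energy -/
def SMod : Prop := ∀ r : ℕ, 3 ≤ r → ∃ K : ℝ, 0 ≤ K ∧ ∀ (n : ℕ) (e β : ℕ → Q n → ℝ),
  Mar n e β → (∀ x, ∑ i ∈ range n, β i x ^ 2 ≤ 1) → ∃ Z : Q n → ℝ, (∀ x, 0 ≤ Z x) ∧ av Z ≤ K ∧
    ∀ x s t, s ≤ t →
      (∑ i ∈ Ico s t, e i x) ^ (2 * r) ≤ Z x * (∑ i ∈ Ico s t, β i x ^ 2) ^ (r - 2)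

/-- RT3: Hoelder's inequality -/
def SHol : Prop := ∀ r : ℕ, 3 ≤ r → ∀ (n : ℕ) (w u Z l : ℕ → ℝ), (∀ i, 0 ≤ w i) →
  (∀ i, 0 ≤ u i) → (∀ i, 0 ≤ Z i) → (∀ i, 0 ≤ l i) → (∀ i, u i ^ r ≤ Z i * l i ^ (r - 2)) →
  ∑ i ∈ range n, w i ≤ 1 →
    (∑ i ∈ range n, w i * u i) ^ r ≤
      (∑ i ∈ range n, w i * Z i) * (∑ i ∈ range n, w i * l i) ^ (r - 2)

/-! ### predictable regions -/

/-- RT4: a region that is predictable in `x` -/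
def SXT : Prop := ∀ r : ℕ, 3 ≤ r → ∃ K : ℝ, 0 ≤ K ∧ ∀ (n m : ℕ)
  (D : ℕ → ℕ → Q n → Q m → ℝ) (α : ℕ → Q n → ℝ) (β : ℕ → Q m → ℝ), Arr n m D α β →
  Bdd n m α β → ∀ R : ℕ → ℕ → Q n → Q m → Prop, XReg R → ∀ h : ℝ, 0 ≤ h →
    av2 (fun x y => if En α β R x y ≤ h then Sm D R x y ^ (2 * r) else 0) ≤ K * h ^ (r - 2)

/-- RT5: a region that is predictable in `y` -/
def SYT : Prop := ∀ r : ℕ, 3 ≤ r → ∃ K : ℝ, 0 ≤ K ∧ ∀ (n m : ℕ)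
  (D : ℕ → ℕ → Q n → Q m → ℝ) (α : ℕ → Q n → ℝ) (β : ℕ → Q m → ℝ), Arr n m D α β →
  Bdd n m α β → ∀ R : ℕ → ℕ → Q n → Q m → Prop, YReg R → ∀ h : ℝ, 0 ≤ h →
    av2 (fun x y => if En α β R x y ≤ h then Sm D R x y ^ (2 * r) else 0) ≤ K * h ^ (r - 2)

section regions

variable {n m : ℕ} (a a' : Q n → ℕ) (b b' : Q m → ℕ) (c : ℕ)

/-- all sites between the two levels -/
def RT0 (i j : ℕ) (x : Q n) (y : Q m) : Prop := a x + b y < i + j ∧ i + j ≤ a' x + b' y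

def RA1 (i j : ℕ) (x : Q n) (y : Q m) : Prop :=
  j ≤ b y ∧ a x + b y < i + j ∧ i + j ≤ a' x + b' y

def RA2 (i j : ℕ) (x : Q n) (y : Q m) : Prop :=
  b y < j ∧ i ≤ a' x ∧ a x + b y < i + j ∧ i + j ≤ a' x + b' y

def RA3 (i j : ℕ) (x : Q n) (y : Q m) : Prop := b y < j ∧ a' x < i ∧ i + j ≤ a' x + b' y

def RB1 (i j : ℕ) (x : Q n) (y : Q m) : Prop :=
  i ≤ a x ∧ a x + b y < i + j ∧ i + j ≤ a' x + b' y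

def RB2 (i j : ℕ) (x : Q n) (y : Q m) : Prop :=
  a x < i ∧ j ≤ b' y ∧ a x + b y < i + j ∧ i + j ≤ a' x + b' y

def RB3 (i j : ℕ) (x : Q n) (y : Q m) : Prop := a x < i ∧ b y < j ∧ i + j ≤ a' x + b' y

/-- the box -/
def RBx (i j : ℕ) (x : Q n) (y : Q m) : Prop :=
  a x < i ∧ b' y < j ∧ j ≤ b y ∧ a x + b y < i + j ∧ i + j ≤ a' x + b' y

def RB4 (i j : ℕ) (x : Q n) (y : Q m) : Prop :=
  b y ≤ b' y + c ∧ a x < i ∧ b' y < j ∧ j ≤ b y ∧ a x + b y < i + j ∧ i + j ≤ a x + b' y + c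

def RB5 (i j : ℕ) (x : Q n) (y : Q m) : Prop :=
  a x + c ≤ a' x ∧ a x < i ∧ b' y < j ∧ j ≤ b y ∧ a x + b' y + c < i + j ∧
    i + j ≤ a' x + b' y

def RB6 (i j : ℕ) (x : Q n) (y : Q m) : Prop :=
  a x < i ∧ b' y < j ∧ j ≤ b y ∧ i + j ≤ a' x + b' y

def RB7 (i j : ℕ) (x : Q n) (y : Q m) : Prop :=
  a x < i ∧ b' y < j ∧ j ≤ b y ∧ i + j ≤ a x + b y

end regions

/-- RT6: the regions are predictable -/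
def SGeo : Prop := ∀ (n m : ℕ) (a a' : Q n → ℕ) (b b' : Q m → ℕ), Stp a → Stp a' → Stp b →
  Stp b' → (∀ x, a x ≤ a' x) →
  ((∀ y, b y ≤ b' y) → XReg (RA1 a a' b b') ∧ YReg (RA2 a a' b b') ∧ XReg (RA3 a' b b')) ∧
  ((∀ y, b' y ≤ b y) → YReg (RB1 a a' b b') ∧ XReg (RB2 a a' b b') ∧ YReg (RB3 a a' b b') ∧
    (∀ c, XReg (RB4 a b b' c)) ∧ (∀ c, YReg (RB5 a a' b b' c)) ∧ YReg (RB6 a a' b b') ∧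
    XReg (RB7 a b b'))

/-- RT7: quantiles -/
def SQG : Prop := ∀ (n : ℕ) (A : Q n → ℕ) (W : ℕ), 1 ≤ W → ∃ c : Finset ℕ, c.card ≤ W ∧
  ∀ b : ℕ, av (fun x => if b ≤ A x ∧ ∀ k ∈ c, ¬(b ≤ k ∧ k ≤ A x) then (1 : ℝ) else 0) ≤ 1 / W

/-- the estimate for a pair of levels -/
def PE (n m : ℕ) (D : ℕ → ℕ → Q n → Q m → ℝ) (α : ℕ → Q n → ℝ) (β : ℕ → Q m → ℝ)
    (a a' : Q n → ℕ) (b b' : Q m → ℕ) (h K : ℝ) : Prop :=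
  av2 (fun x y => if a x + b y ≤ a' x + b' y ∧ VV α β (a x + b y) (a' x + b' y) x y ≤ h then
    (XS D (a' x + b' y) x y - XS D (a x + b y) x y) ^ 40 else 0) ≤ K * h ^ 6

/-- RT8: pairs of levels, `a ≤ a'` and `b ≤ b'` -/
def SPairA : Prop := ∃ K : ℝ, 0 ≤ K ∧ ∀ (n m : ℕ) (D : ℕ → ℕ → Q n → Q m → ℝ)
  (α : ℕ → Q n → ℝ) (β : ℕ → Q m → ℝ), Arr n m D α β → Bdd n m α β →
  ∀ (a a' : Q n → ℕ) (b b' : Q m → ℕ), Stp a → Stp a' → Stp b → Stp b' → (∀ x, a x ≤ a' x) →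
  (∀ y, b y ≤ b' y) → ∀ h : ℝ, 0 < h → h ≤ 3 → PE n m D α β a a' b b' h K

/-- RT9: pairs of levels, `a ≤ a'` and `b' ≤ b` -/
def SPairB : Prop := ∃ K : ℝ, 0 ≤ K ∧ ∀ (n m : ℕ) (D : ℕ → ℕ → Q n → Q m → ℝ)
  (α : ℕ → Q n → ℝ) (β : ℕ → Q m → ℝ), Arr n m D α β → Bdd n m α β →
  ∀ (a a' : Q n → ℕ) (b b' : Q m → ℕ), Stp a → Stp a' → Stp b → Stp b' → (∀ x, a x ≤ a' x) →
  (∀ y, b' y ≤ b y) → ∀ h : ℝ, 0 < h → h ≤ 3 → PE n m D α β a a' b b' h K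

/-- RT10: pairs of levels -/
def SPair : Prop := ∃ K : ℝ, 0 ≤ K ∧ ∀ (n m : ℕ) (D : ℕ → ℕ → Q n → Q m → ℝ)
  (α : ℕ → Q n → ℝ) (β : ℕ → Q m → ℝ), Arr n m D α β → Bdd n m α β →
  ∀ (a a' : Q n → ℕ) (b b' : Q m → ℕ), Stp a → Stp a' → Stp b → Stp b' →
  ((∀ x, a x ≤ a' x) ∨ ∀ x, a' x ≤ a x) → ((∀ y, b y ≤ b' y) ∨ ∀ y, b' y ≤ b y) →
  ∀ h : ℝ, 0 < h → h ≤ 3 → PE n m D α β a a' b b' h K

/-! ### anchors -/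

/-- RT11: the stopping indices `hit` -/
def SHit : Prop :=
  (∀ (N : ℕ) (p : ℕ → ℝ) (τ τ' : ℝ), τ ≤ τ' → hit N p τ ≤ hit N p τ') ∧
  (∀ (N : ℕ) (p : ℕ → ℝ) (τ : ℝ), hit N p τ ≤ N ∧ (τ ≤ 0 → (∀ i, 0 ≤ p i) → hit N p τ = 0)) ∧
  (∀ (N : ℕ) (p : ℕ → ℝ) (τ : ℝ), (∀ i, 0 ≤ p i) → ∀ l < N,
    (hit N p τ ≤ l ↔ τ ≤ ∑ i ∈ range (l + 1), p i)) ∧
  ∀ (n N : ℕ) (α : ℕ → Q n → ℝ) (τ : ℝ), (∀ i, Inv i (α i)) →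
    Stp fun x => hit N (fun i => α i x ^ 2) τ

/-- RT12: the anchors are dense in the clock of the energy -/
def SDens : Prop := ∀ (N : ℕ) (p q : ℕ → ℝ), (∀ i, 0 ≤ p i) → (∀ j, 0 ≤ q j) →
  ∑ i ∈ range N, p i ≤ 1 → ∑ j ∈ range N, q j ≤ 1 → ∀ s k : ℕ, k < N →
  ∃ r r' : ℕ, r ≤ 2 ^ s ∧ r' ≤ 2 ^ s ∧
    hit N p ((r : ℝ) / 2 ^ s) + hit N q ((r' : ℝ) / 2 ^ s) ≤ k ∧
    ∑ i ∈ range N, ∑ j ∈ range N,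
      (if hit N p ((r : ℝ) / 2 ^ s) + hit N q ((r' : ℝ) / 2 ^ s) < i + j ∧ i + j ≤ k
        then p i * q j else 0) ≤ 3 / 2 ^ s

/-- RT13: the maximal inequality for bounded square functions -/
def SBnd : Prop := ∃ C : ℝ, 0 ≤ C ∧ ∀ (n m : ℕ) (D : ℕ → ℕ → Q n → Q m → ℝ)
  (α : ℕ → Q n → ℝ) (β : ℕ → Q m → ℝ), Arr n m D α β → Bdd n m α β →
    av2 (fun x y => MX D x y ^ 4) ≤ C

/-- RT14: localisation -/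
def SLoc : Prop := ∃ C : ℝ, 0 ≤ C ∧ ∀ (n m : ℕ) (D : ℕ → ℕ → Q n → Q m → ℝ)
  (α : ℕ → Q n → ℝ) (β : ℕ → Q m → ℝ), Arr n m D α β → Bdd n m α β →
    av2 (fun x y => MX D x y ^ 4) ≤ C * av (fun x => if ∃ i, α i x ≠ 0 then (1 : ℝ) else 0) *
      av (fun y => if ∃ j, β j y ≠ 0 then (1 : ℝ) else 0)

/-- RT15: the maximal inequality on cubes -/
def SFin : Prop := ∃ C : ℝ, 0 ≤ C ∧ ∀ (n m : ℕ) (D : ℕ → ℕ → Q n → Q m → ℝ)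
  (α : ℕ → Q n → ℝ) (β : ℕ → Q m → ℝ), Arr n m D α β →
    av2 (fun x y => MX D x y ^ 2) ≤ C * av (fun x => ∑ i ∈ range n, α i x ^ 2) *
      av (fun y => ∑ j ∈ range m, β j y ^ 2)

end Pool.Agent.H79.RT
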