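import Pool.Agent.H73.Hyp.Final
import Pool.Agent.H79.RT.Stm

/-!
# MP_a7284e_an, project RT: statements of the rows on the plane
-/

set_option autoImplicit false

namespace Pool.Agent.H79.RT

open MeasureTheory FourierTransform Filter Topology Finset Classical
open Pool.Agent.H73.Hyp

/-- the Haar function of the interval `[k 2⁻ʲ, (k + 1) 2⁻ʲ)`, `p = (j, k)`, normalised in `L²` -/
noncomputable def haar (p : ℤ × ℤ) (t : ℝ) : ℝ :=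
  if (p.2 : ℝ) ≤ (2 : ℝ) ^ p.1 * t ∧ (2 : ℝ) ^ p.1 * t < p.2 + 1 / 2 then
    (2 : ℝ) ^ ((p.1 : ℝ) / 2)
  else if (p.2 : ℝ) + 1 / 2 ≤ (2 : ℝ) ^ p.1 * t ∧ (2 : ℝ) ^ p.1 * t < p.2 + 1 then
    -(2 : ℝ) ^ ((p.1 : ℝ) / 2)
  else 0

/-- the Haar coefficient of `f` for the rectangle with the sides `p` and `q` -/
noncomputable def cf (f : L2) (p q : ℤ × ℤ) : ℂ :=
  ∫ x : E2, f x * ((haar p (x 0) * haar q (x 1) : ℝ) : ℂ)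

/-- the Haar coefficients of `f` are dominated by a product `a p * b q` with
`|a|₂ |b|₂ ≤ M` -/
def Dom (f : L2) (M : ℝ) : Prop :=
  ∃ a b : ℤ × ℤ → ℝ, (∀ p, 0 ≤ a p) ∧ (∀ q, 0 ≤ b q) ∧ (Summable fun p => a p ^ 2) ∧
    (Summable fun q => b q ^ 2) ∧ (∑' p, a p ^ 2) * (∑' q, b q ^ 2) ≤ M ^ 2 ∧
    ∀ p q, ‖cf f p q‖ ≤ a p * b q

/-- one integrable majorant for all integers -/
def MajZ (X : ℤ → L2) (B : ℝ) : Prop :=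
  ∃ G : E2 → ℝ, Integrable G ∧ (∀ᵐ x : E2, ∀ k, ‖X k x‖ ^ 2 ≤ G x) ∧ ∫ x, G x ≤ B

/-- TR1: transfer of the inequality on cubes to the plane, along the orbits of the flips -/
def STr : Prop := ∃ C : ℝ, 0 ≤ C ∧ ∀ (L L' : ℕ) (f : L2) (α β : ℕ → E2 → ℝ),
  (∀ i, Measurable (α i)) → (∀ j, Measurable (β j)) → (∀ i x, 0 ≤ α i x) →
  (∀ j x, 0 ≤ β j x) →
  (∀ i l : ℕ, i ≤ l → ∀ x, α i (H73.Hyp.fl 0 ((l : ℤ) - L) x) = α i x) →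
  (∀ (i : ℕ) (l : ℤ) (x : E2), α i (H73.Hyp.fl 1 l x) = α i x) →
  (∀ j l : ℕ, j ≤ l → ∀ x, β j (H73.Hyp.fl 1 ((l : ℤ) - L') x) = β j x) →
  (∀ (j : ℕ) (l : ℤ) (x : E2), β j (H73.Hyp.fl 0 l x) = β j x) →
  (∀ i j : ℕ, ∀ᵐ x : E2, ‖bb L L' f i j x‖ ≤ α i x * β j x) →
  Integrable (fun x : E2 => (∑ i ∈ range (2 * L), α i x ^ 2) *
    ∑ j ∈ range (2 * L'), β j x ^ 2) →
  ∀ K : Finset ℤ, Maj K (fun k => Xs L L' k f) (C * ∫ x : E2,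
    (∑ i ∈ range (2 * L), α i x ^ 2) * ∑ j ∈ range (2 * L'), β j x ^ 2)

/-- TR2: invariant functions are constant on dyadic rectangles -/
def SCell : Prop := ∀ (i j : ℤ) (f : L2), f ∈ Wf (Uf 0) i → f ∈ Wf (Uf 1) j →
  ∃ φ : ℤ → ℤ → ℂ, ∀ᵐ x : E2, f x = φ ⌊(2 : ℝ) ^ i * x 0⌋ ⌊(2 : ℝ) ^ j * x 1⌋

/-- TR3: the projections on the level of Haar coefficients -/
def SCf : Prop := (∀ (f : L2) (b : ℤ) (p q : ℤ × ℤ),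
    cf (Ep (Uf 0) b f) p q = if p.1 < b then cf f p q else 0) ∧
  (∀ (f : L2) (b : ℤ) (p q : ℤ × ℤ),
    cf (Ep (Uf 1) b f) p q = if q.1 < b then cf f p q else 0) ∧
  (∀ (f g : L2) (p q : ℤ × ℤ), cf (f - g) p q = cf f p q - cf g p q) ∧
  ∀ (f : L2) (p q : ℤ × ℤ), ‖cf f p q‖ ≤ ‖f‖

/-- TR4: the rectangular pieces in terms of Haar coefficients -/
def SHaar : Prop := ∀ (f : L2) (i j : ℤ), ∀ᵐ x : E2,
  ‖Dp (Uf 0) i (Dp (Uf 1) j f) x‖ = (2 : ℝ) ^ ((i : ℝ) / 2) * (2 : ℝ) ^ ((j : ℝ) / 2) *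
    ‖cf f (i, ⌊(2 : ℝ) ^ i * x 0⌋) (j, ⌊(2 : ℝ) ^ j * x 1⌋)‖

/-- TR5: from the two-parameter martingale to the sharp hyperbolic cut-offs -/
def SHc : Prop := ∃ C : ℝ, 0 ≤ C ∧ ∀ (f : L2) (B : ℝ),
  (∀ (L L' : ℕ) (K : Finset ℤ), Maj K (fun k => Xs L L' k f) B) →
  ∀ K : Finset ℤ, K.Nonempty → Maj K (fun k => Hc k f) (C * (‖f‖ ^ 2 + B))

/-- TR6: the maximal inequality for dominated functions -/
def SMaxD : Prop := ∃ C : ℝ, 0 ≤ C ∧ ∀ (f : L2) (M : ℝ), 0 ≤ M → Dom f M → ‖f‖ ≤ M ∧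
  ∀ K : Finset ℤ, K.Nonempty → Maj K (fun k => Hc k f) (C * M ^ 2)

/-- TR7: step functions -/
def SStep : Prop := ∀ (b : ℤ) (f : L2), f ∈ Wf (Uf 0) b → f ∈ Wf (Uf 1) b →
  ∀ᵐ x : E2, Tendsto (fun k : ℕ => Hc k f x) atTop (𝓝 (f x))

/-- TR8: from finite sets to all integers -/
def SSup : Prop := ∀ (X : ℤ → L2) (B : ℝ), (∀ K : Finset ℤ, K.Nonempty → Maj K X B) → MajZ X B

/-- TR9: convergence for dominated functions -/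
def SConv : Prop := ∀ (f : L2) (M : ℝ), 0 ≤ M → Dom f M →
  ∀ᵐ x : E2, Tendsto (fun k : ℕ => Hc k f x) atTop (𝓝 (f x))

/-- TR10: series of dominated functions -/
def SSer : Prop := ∃ C : ℝ, 0 ≤ C ∧ ∀ (F : ℕ → L2) (M : ℕ → ℝ) (f : L2), (∀ n, 0 ≤ M n) →
  (∀ n, Dom (F n) (M n)) → Summable M → HasSum F f →
  (∀ᵐ x : E2, Tendsto (fun k : ℕ => Hc k f x) atTop (𝓝 (f x))) ∧
    MajZ (fun k => Hc k f) (C * (∑' n, M n) ^ 2)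

/-- TR11: real parameters -/
def SReal : Prop := ∀ (lam : ℝ) (hl0 : 0 < lam), 1 / 2 < lam → ∃ C : ℝ, 0 ≤ C ∧
  ∀ (f : L2) (B : ℝ), MajZ (fun k => Hc k f) B →
  (∀ᵐ x : E2, Tendsto (fun k : ℕ => Hc k f x) atTop (𝓝 (f x))) →
  ∃ v : ℝ → E2 → ℂ, (∀ t, v t =ᵐ[volume] Ph lam hl0 f t) ∧
    (∀ᵐ x : E2, Continuous fun t => v t x) ∧
    (∀ᵐ x : E2, Tendsto (fun t => v t x) atTop (𝓝 (f x))) ∧
    ∃ G : E2 → ℝ, Integrable G ∧ (∀ᵐ x : E2, ∀ t, ‖v t x‖ ^ 2 ≤ G x) ∧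
      ∫ x, G x ≤ C * (B + ‖f‖ ^ 2)

/-- TR12: tensor products -/
def STen : Prop := ∀ (u v : Lp ℂ 2 (volume : Measure ℝ)), ∃ f : L2,
  (∀ᵐ x : E2, f x = u (x 0) * v (x 1)) ∧ ‖f‖ = ‖u‖ * ‖v‖ ∧ Dom f (‖u‖ * ‖v‖)

/-- TR13: series of tensor products -/
def STenSer : Prop := ∀ (u v : ℕ → Lp ℂ 2 (volume : Measure ℝ)) (f : L2),
  (Summable fun n => ‖u n‖ * ‖v n‖) →
  (∀ᵐ x : E2, HasSum (fun n => u n (x 0) * v n (x 1)) (f x)) →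
  ∃ F : ℕ → L2, (∀ n, Dom (F n) (‖u n‖ * ‖v n‖)) ∧ HasSum F f

end Pool.Agent.H79.RT
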