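import Pool.Agent.H79.RT.StmR

/-!
# MP_a7284e_an, project RT, row TR13: series of tensor products
-/

set_option autoImplicit false

namespace Pool.Agent.H79.RT

open MeasureTheory FourierTransform Filter Topology Finset Classical
open Pool.Agent.H73.Hyp

theorem tenSer_coeFn_sum (F : ℕ → L2) (s : Finset ℕ) :
    ∀ᵐ x : E2, (∑ n ∈ s, F n : L2) x = ∑ n ∈ s, F n x := by
  induction s using Finset.induction_on with
  | empty =>
    filter_upwards [Lp.coeFn_zero ℂ 2 (volume : Measure E2)] with x hx
    rw [sum_empty, sum_empty, hx]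
    rfl
  | insert a s ha ih =>
    filter_upwards [ih, Lp.coeFn_add (F a) (∑ n ∈ s, F n)] with x h1 h2
    rw [sum_insert ha, sum_insert ha, h2, Pi.add_apply, h1]

/-- TR13 -/
theorem tenSer (h1 : STen) : STenSer := by
  intro u v f hs hf
  choose F hF1 hF2 hF3 using fun n => h1 (u n) (v n)
  refine ⟨F, hF3, ?_⟩
  have hS : Summable F := Summable.of_norm (by simpa only [hF2] using hs)
  obtain ⟨g, hg⟩ := hS
  have hT : Tendsto (fun N : ℕ => ∑ n ∈ range N, F n) atTop (𝓝 g) := hg.tendsto_sum_nat
  obtain ⟨ns, hns, hae⟩ := (tendstoInMeasure_of_tendsto_Lp hT).exists_seq_tendsto_ae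
  have hfg : g = f := by
    apply Lp.ext
    filter_upwards [hae, hf, ae_all_iff.2 hF1,
      ae_all_iff.2 fun N : ℕ => tenSer_coeFn_sum F (range N)] with x hx hfx hFx hsx
    have e1 : Tendsto (fun i : ℕ => ∑ n ∈ range (ns i), F n x) atTop (𝓝 (g x)) := by
      refine hx.congr fun i => ?_
      exact hsx (ns i)
    have e2 : Tendsto (fun N : ℕ => ∑ n ∈ range N, F n x) atTop (𝓝 (f x)) := by
      have := hfx.tendsto_sum_nat
      refine this.congr fun N => ?_
      exact sum_congr rfl fun n _ => (hFx n).symm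
    exact tendsto_nhds_unique e1 (e2.comp hns.tendsto_atTop)
  rw [← hfg]
  exact hg

end Pool.Agent.H79.RT
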